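import Pool.Agent.P.MP_f57657_co.RS.Base

/-! Anticoncentration of a random row against eigenvectors. -/

open Matrix Finset

namespace Pool.Agent.P.MP_f57657_co.RS

open DG

namespace ACAux

theorem core {p : unitInterval} {n t : ℕ} {G : Gr n} (hG : Good p t 0 G) {Γ : Type}
    [AddCommGroup Γ] (x : Γ →+ Γ) (w : Fin n → Γ) (hw : ∀ i, ∑ j, aM G i j • w j = x (w i))
    {Q : ℕ} (h1 : 1 ≤ Q) (h2 : Q ≤ 2 ^ t)
    (hQ : Finite (AddSubgroup.closure (Set.range w)) →
      (∀ h ∈ AddSubgroup.closure (Set.range w), x h ∈ AddSubgroup.closure (Set.range w)) →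
      Q ≤ Nat.card (AddSubgroup.closure (Set.range w))) :
    lk p univ w (· = 0) ≤ 11 / 10 / (Q : ℝ) := by
  have hQ0 : (0 : ℝ) < Q := by exact_mod_cast h1
  have h0 : 0 ≤ lk p univ w (· = 0) := FP.pr_nonneg _
  rw [le_div_iff₀ hQ0]
  by_cases h : (1 / 2 : ℝ) ^ t ≤ lk p univ w (· = 0)
  · obtain ⟨a1, a2, a3, -⟩ := hG Γ x 0 w (fun i => by rw [hw, smul_zero, add_zero]) h
    refine le_trans (mul_le_mul_of_nonneg_left ?_ h0) a3
    exact_mod_cast hQ a1 a2
  · have h3 : (Q : ℝ) ≤ 2 ^ t := by exact_mod_cast h2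
    calc _ ≤ (1 / 2 : ℝ) ^ t * 2 ^ t := mul_le_mul (not_le.1 h).le h3 hQ0.le (by positivity)
      _ = 1 := by rw [← mul_pow]; norm_num
      _ ≤ _ := by norm_num

theorem two_pow_le {K V : Type} [Field K] [AddCommGroup V] [Module K V] [Module.Finite K V]
    (s : Set V) [Finite (AddSubgroup.closure s)] :
    2 ^ Module.finrank K (Submodule.span K s) ≤ Nat.card (AddSubgroup.closure s) := by
  obtain ⟨f, h1, -, h2⟩ := Submodule.exists_fun_fin_finrank_span_eq K s
  let F : (Fin (Module.finrank K (Submodule.span K s)) → Bool) → AddSubgroup.closure s :=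
    fun b => ⟨∑ i, (if b i = true then (1 : K) else 0) • f i, sum_mem fun i _ => by
      split_ifs
      · rw [one_smul]
        exact AddSubgroup.subset_closure (h1 i)
      · rw [zero_smul]
        exact zero_mem _⟩
  have hF : Function.Injective F := fun b b' h => funext fun i => by
    have := Fintype.linearIndependent_iffₛ.1 h2 _ _ (congrArg Subtype.val h) i
    revert this
    cases b i <;> cases b' i <;> simp
  simpa using Nat.card_le_card_of_injective F hF

end ACAux

open ACAux

theorem rAC (hW1 : RWalk1) : RAC := by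
  intro p n t G hp hG
  refine ⟨fun K _ θ z b Q hz hz0 h1 h2 hB => ?_, fun K _ θ d hd hg => ?_⟩
  · have h3 := core hG (AddMonoidHom.mulLeft θ) z
      (fun i => by simp only [zsmul_eq_mul]; exact mem_eg.1 hz i) h1 h2 fun a1 a2 =>
        hB _ (fun h => hz0 (funext fun i => AddSubgroup.mem_bot.1
          (h ▸ AddSubgroup.subset_closure (Set.mem_range_self i)))) a2 a1
    have h4 := hW1 p K n univ z b hp
    simp only [zsmul_eq_mul] at h4
    refine (h4.trans h3).trans ?_
    gcongr
    norm_num
  · obtain ⟨v, hv⟩ := exists_linearIndependent_of_le_finrank hg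
    have hv' : LinearIndependent K (Matrix.of fun k => (v k : Fin n → K)).row :=
      hv.map' _ (Submodule.ker_subtype _)
    have hr := hv'.rank_matrix
    rw [rank_eq_finrank_span_cols, Fintype.card_fin] at hr
    have h3 := core hG (DistribSMul.toAddMonoidHom (Fin d → K) θ)
      (Matrix.of fun k => (v k : Fin n → K)).col
      (fun i => funext fun k => by
        rw [Finset.sum_apply]
        exact (sum_congr rfl fun j _ => zsmul_eq_mul _ _).trans (mem_eg.1 (v k).2 i))
      Nat.one_le_two_pow (Nat.pow_le_pow_right (by norm_num) hd) fun a1 _ => by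
        have := two_pow_le (K := K) (Set.range (Matrix.of fun k => (v k : Fin n → K)).col)
        rwa [hr] at this
    refine (FP.pr_mono fun s hs => ?_).trans ((hW1 p _ n univ _ 0 hp).trans (h3.trans ?_))
    · funext k
      rw [Finset.sum_apply]
      exact (sum_congr rfl fun j _ => zsmul_eq_mul _ _).trans (hs _ (v k).2)
    · rw [_root_.one_div_pow]
      push_cast
      exact le_of_eq (by ring)

end Pool.Agent.P.MP_f57657_co.RS
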