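import Pool.Agent.P.MP_f57657_co.RS.Base

/-! The count of the elements near the kernel of a character, and the case distinction on the
stability of the subgroup. -/

open Matrix Finset Polynomial

namespace Pool.Agent.P.MP_f57657_co.RS

open DG

namespace CaseAux

variable {n : ℕ} {G : Gr n} {Γ : Type} [AddCommGroup Γ] {w : Fin n → Γ} {H : AddSubgroup Γ}

theorem term_mem {i j : Fin n} (h : G.Adj i j → w j ∈ H) : aM G i j • w j ∈ H := by
  by_cases hij : G.Adj i j
  · exact H.zsmul_mem (h hij) _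
  · have e : aM G i j = 0 := by simp [gm, hij]
    rw [e, zero_smul]
    exact H.zero_mem

theorem row_mem {i : Fin n} (h : ∀ j, G.Adj i j → w j ∈ H) : ∑ j, aM G i j • w j ∈ H :=
  H.sum_mem fun j _ => term_mem (h j)

theorem row_not_mem {i j0 : Fin n} (h0 : G.Adj i j0) (h1 : w j0 ∉ H)
    (h : ∀ j, j ≠ j0 → G.Adj i j → w j ∈ H) : ∑ j, aM G i j • w j ∉ H := by
  intro hs
  rw [← add_sum_erase univ _ (mem_univ j0)] at hs
  have h2 : ∑ j ∈ univ.erase j0, aM G i j • w j ∈ H :=
    H.sum_mem fun j hj => term_mem (h j (mem_erase.1 hj).1)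
  have h3 := H.sub_mem hs h2
  have e : aM G i j0 = 1 := by simp [gm, h0, h0.ne]
  rw [add_sub_cancel_right, e, one_smul] at h3
  exact h1 h3

end CaseAux

theorem rChar : RChar := by
  classical
  intro H _ _ χ g hχ
  have h0 : ∑ h, χ (h - g) = 0 := by
    rw [← AddChar.sum_eq_zero_iff_ne_zero.2 hχ]
    exact Equiv.sum_comp (Equiv.subRight g) fun h => χ h
  have h1 : ∑ h, (χ (h - g)).re = 0 := by rw [← Complex.re_sum, h0, Complex.zero_re]
  have h2 : ∑ h : H, ((if 1 / 2 < (χ (h - g)).re then (3 / 2 : ℝ) else 0) - 1) ≤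
      ∑ h, (χ (h - g)).re := by
    refine sum_le_sum fun h _ => ?_
    have h3 := Complex.abs_re_le_norm (χ (h - g))
    rw [AddChar.norm_apply] at h3
    split_ifs with h4
    · linarith
    · linarith [(abs_le.1 h3).1]
  rw [h1, sum_sub_distrib, ← sum_filter, sum_const, sum_const, card_univ, nsmul_eq_mul,
    nsmul_eq_mul] at h2
  have h5 : (3 : ℝ) * (univ.filter fun h => 1 / 2 < (χ (h - g)).re).card ≤
      2 * Fintype.card H := by linarith
  exact_mod_cast h5

theorem rCase : RCase := by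
  classical
  intro p n G y Γ _ x c w H hfin hp h1 h2 hy he hT
  set T := univ.filter fun i => w i ∉ H with hTd
  set N := univ.filter fun i => i ∈ T ∨ ∃ j ∈ T, G.Adj i j with hNd
  have hN : 20 * N.card ≤ n := by convert h1 T hT
  have hout : ∀ i, i ∉ T → w i ∈ H := fun i hi => by
    by_contra h
    exact hi (mem_filter.2 ⟨mem_univ i, h⟩)
  have hw : ∀ i, i ∉ N → w i ∈ H := fun i hi =>
    hout i fun h => hi (mem_filter.2 ⟨mem_univ i, Or.inl h⟩)
  have hx : ∀ i, i ∉ N → x (w i) + y i • c ∈ H := fun i hi => by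
    rw [← he i]
    exact CaseAux.row_mem fun j hj =>
      hout j fun h => hi (mem_filter.2 ⟨mem_univ i, Or.inr ⟨j, h, hj⟩⟩)
  by_cases hst : ∀ h ∈ H, x h ∈ H
  · refine Or.inr ⟨fun i0 => ?_, hst⟩
    by_contra hi0
    have hne : T.Nonempty := ⟨i0, mem_filter.2 ⟨mem_univ i0, hi0⟩⟩
    obtain ⟨a, ha⟩ := hy.2
    have hn : (0 : ℝ) < n := by exact_mod_cast i0.pos
    obtain ⟨i1, hi1, hy1⟩ : ∃ i, i ∉ N ∧ y i = a := by
      by_contra hcon
      have hsub : (univ : Finset (Fin n)) ⊆ N ∪ univ.filter fun i => y i ≠ a := fun i _ => by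
        by_cases hi : i ∈ N
        · exact mem_union_left _ hi
        · exact mem_union_right _ (mem_filter.2 ⟨mem_univ i, fun h => hcon ⟨i, hi, h⟩⟩)
      have h3 := (card_le_card hsub).trans (card_union_le _ _)
      rw [card_univ, Fintype.card_fin] at h3
      have h4 : (n : ℝ) ≤ N.card + (univ.filter fun i => y i ≠ a).card := by exact_mod_cast h3
      have h5 : (20 : ℝ) * N.card ≤ n := by exact_mod_cast hN
      nlinarith
    have hac : a • c ∈ H := by
      have h3 := H.sub_mem (hx i1 hi1) (hst _ (hw i1 hi1))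
      rwa [add_sub_cancel_left, hy1] at h3
    have hsub : (univ.filter fun i => i ∉ T ∧ (T.filter fun j => G.Adj i j).card = 1) ⊆
        univ.filter fun i => y i ≠ a := fun i hi => by
      obtain ⟨hiT, hc⟩ := (mem_filter.1 hi).2
      obtain ⟨j0, hj0⟩ := card_eq_one.1 hc
      have hj : j0 ∈ T.filter fun j => G.Adj i j := hj0 ▸ mem_singleton_self j0
      refine mem_filter.2 ⟨mem_univ i, fun hya => ?_⟩
      refine CaseAux.row_not_mem (H := H) (w := w) (mem_filter.1 hj).2
        (mem_filter.1 (mem_filter.1 hj).1).2 (fun j hjn hadj => hout j fun hjT => hjn ?_) ?_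
      · exact mem_singleton.1 (hj0 ▸ mem_filter.2 ⟨hjT, hadj⟩)
      · rw [he i, hya]
        exact H.add_mem (hst _ (hout i hiT)) hac
    have h3 : n * (p : ℝ) / 500 <
        (univ.filter fun i => i ∉ T ∧ (T.filter fun j => G.Adj i j).card = 1).card := by
      convert h2 T hT hne
    have h4 : ((univ.filter fun i => i ∉ T ∧ (T.filter fun j => G.Adj i j).card = 1).card : ℝ) ≤
        (univ.filter fun i => y i ≠ a).card := by exact_mod_cast card_le_card hsub
    linarith
  · left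
    obtain ⟨h0, hh0, hx0⟩ : ∃ h ∈ H, x h ∉ H := by
      by_contra hcon
      exact hst fun h hh => by
        by_contra h3
        exact hcon ⟨h, hh, h3⟩
    let K : AddSubgroup H := H.comap (x.comp H.subtype)
    have hK : ∀ h : H, h ∈ K ↔ x h ∈ H := fun h => Iff.rfl
    have hq : (QuotientAddGroup.mk' K ⟨h0, hh0⟩ : H ⧸ K) ≠ 0 := fun h =>
      hx0 ((hK _).1 ((QuotientAddGroup.eq_zero_iff _).1 h))
    obtain ⟨ψ, hψ⟩ := AddChar.exists_apply_ne_zero.2 hq
    have hg : ∀ a : ℤ, ∃ g : H, ∀ i, i ∉ N → y i = a → x (w i - g) ∈ H := fun a => by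
      by_cases hex : ∃ i, i ∉ N ∧ y i = a
      · obtain ⟨i1, hi1, hy1⟩ := hex
        refine ⟨⟨w i1, hw i1 hi1⟩, fun i hi hyi => ?_⟩
        have h3 := H.sub_mem (hx i hi) (hx i1 hi1)
        rw [hyi, hy1, add_sub_add_right_eq_sub, ← map_sub] at h3
        exact h3
      · exact ⟨0, fun i hi hyi => absurd ⟨i, hi, hyi⟩ hex⟩
    choose g hg using hg
    refine ⟨ψ.compAddMonoidHom (QuotientAddGroup.mk' K), fun h => hψ ?_, N, g, hN,
      fun i hi => ⟨hw i hi, ?_⟩⟩
    · exact DFunLike.congr_fun h ⟨h0, hh0⟩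
    · have h3 : (QuotientAddGroup.mk' K (⟨w i, hw i hi⟩ - g (y i)) : H ⧸ K) = 0 :=
        (QuotientAddGroup.eq_zero_iff _).2 ((hK _).2 (hg (y i) i hi rfl))
      rw [AddChar.compAddMonoidHom_apply, h3, AddChar.map_zero_eq_one]

end Pool.Agent.P.MP_f57657_co.RS
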