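import Pool.Agent.P.MP_f57657_co.RS.Base
import Pool.Agent.P.MP_f57657_co.DG.Coarse

/-! Conjugations of bounded level are isomorphisms with high probability. -/

open Matrix Finset

namespace Pool.Agent.P.MP_f57657_co.RS

open DG

namespace RCoarseAux

variable {n : ℕ}

theorem iso_of {G H : Gr n} {l : ℕ} (hl : 0 < l) {m : ℝ} (hm : 0 ≤ m) (hG : DG.Core G)
    (hR : RigidC G (1 / l) m) {Q : Matrix (Fin n) (Fin n) ℚ} (hQ : Cj G H Q)
    (hI : Intg ((l : ℚ) • Q)) : Nonempty (H ≃g G) := by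
  classical
  obtain ⟨v⟩ := hG.1.nonempty
  have hS : ∀ x, x ∈ core2 G (G.connectedComponentMk v).supp := fun x =>
    ⟨Set.univ, fun y _ => SimpleGraph.ConnectedComponent.sound (hG.1 y v), trivial, fun w _ => by
      obtain ⟨a, b, h⟩ := hG.2 w
      exact ⟨a, trivial, b, trivial, h⟩⟩
  have h := hR (G.connectedComponentMk v)
  set S := core2 G (G.connectedComponentMk v).supp
  let : Fintype S := Fintype.ofFinite S
  let e : S ≃ Fin n := Equiv.subtypeUnivEquiv hS
  have h1 : (Q.map (Rat.castHom ℝ))ᵀ * Q.map (Rat.castHom ℝ) = 1 := by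
    rw [← transpose_map, ← Matrix.map_mul, hQ.1, Matrix.map_one _ (map_zero _) (map_one _)]
  have h2 : H.adjMatrix ℝ = (Q.map (Rat.castHom ℝ))ᵀ * G.adjMatrix ℝ * Q.map (Rat.castHom ℝ) := by
    rw [Matrix.mul_assoc, ← CoarseAux.adj_eq G, ← Matrix.map_mul, hQ.2, Matrix.map_mul,
      CoarseAux.adj_eq, ← Matrix.mul_assoc, h1, Matrix.one_mul]
  obtain ⟨φ⟩ := h (H.induce S) ⟨∅, (Q.map (Rat.castHom ℝ)).submatrix e e, by simpa using hm,
    by
      rw [transpose_submatrix, submatrix_mul_equiv, h1, submatrix_one_equiv]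
      ext i j
      by_cases h : i = j <;> simp [Matrix.one_apply, h], fun t _ i => by
      obtain ⟨z, hz⟩ := hI (e i) (e t)
      have h3 : (l : ℝ) * (Q (e i) (e t) : ℝ) = z := by
        exact_mod_cast (show (l : ℚ) * Q (e i) (e t) = z from hz)
      have l0 : (0 : ℝ) < l := by exact_mod_cast hl
      change (Q (e i) (e t) : ℝ) = 0 ∨ _ ≤ |(Q (e i) (e t) : ℝ)|
      refine (eq_or_ne z 0).imp (fun h0 => ?_) fun h0 => ?_
      · rw [h0, Int.cast_zero] at h3
        exact (mul_eq_zero.1 h3).resolve_left l0.ne'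
      · rw [div_le_iff₀' l0, ← abs_of_pos l0, ← abs_mul, h3]
        exact_mod_cast Int.one_le_abs h0, by
      have h3 : ∀ (F : Gr n) (d : DecidableRel (F.induce S).Adj),
          (F.induce S).adjMatrix ℝ = (F.adjMatrix ℝ).submatrix e e := fun F d => by
        ext i j
        simp only [SimpleGraph.adjMatrix_apply, submatrix_apply]
        exact if_congr Iff.rfl rfl rfl
      rw [h3, h3, transpose_submatrix, submatrix_mul_equiv, submatrix_mul_equiv, h2]⟩
  have ψ : ∀ F : Gr n, F.induce S ≃g F := fun F => ⟨e, Iff.rfl⟩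
  exact ⟨((ψ H).symm.trans φ).trans (ψ G)⟩

end RCoarseAux

open RCoarseAux Filter Topology in
theorem rCoarse (hCore : RCore) : RCoarse := by
  intro l hl ε hε
  obtain ⟨N0, h0⟩ := hCore
  obtain ⟨C, M, h⟩ := rare_all (ε := 1 / 6) (θ := 1 / l) (by norm_num) (by positivity)
  have h1 := tendsto_pow_atTop_nhds_zero_of_lt_one (r := (1 / 2 : ℝ)) (by norm_num) (by norm_num)
  obtain ⟨N, hN⟩ := eventually_atTop.1 ((h1.eventually_le_const (half_pos hε)).and
    (((tendsto_const_div_atTop_nhds_zero_nat |M|).eventually_le_const (half_pos hε)).and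
      ((tendsto_natCast_atTop_atTop.eventually_ge_atTop C).and
        ((eventually_ge_atTop 1).and (eventually_ge_atTop N0)))))
  refine ⟨N, fun p n t ht hR => ?_⟩
  obtain ⟨a1, a2, a3, a4, a5⟩ := hN t ht
  have t1 : (1 : ℝ) ≤ t := by exact_mod_cast a4
  have t6 : (t : ℝ) ≤ (t : ℝ) ^ 6 := le_self_pow₀ t1 (by norm_num)
  have tn : (t : ℝ) ≤ n := by
    have := hR.le
    have h' : (2 : ℝ) * (t : ℝ) ^ 6 ≤ n := by exact_mod_cast this
    linarith
  have p0 : (0 : ℝ) < p := by
    refine lt_of_le_of_ne p.2.1 fun e => ?_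
    have := hR.2.1
    rw [← e, mul_zero] at this
    linarith
  have h2 := h n p (by linarith [hR.2.1]) p0 hR.2.2
  rw [← mG_pr fun G : Gr n => ¬ RigidC G (1 / l) ((1 - 3 * (1 / 6)) * n)] at h2
  have h3 : M / n ≤ |M| / t := by
    refine (div_le_div_of_nonneg_right (le_abs_self M) (by linarith)).trans ?_
    exact div_le_div_of_nonneg_left (abs_nonneg M) (by linarith) tn
  refine (FP.pr_le_add fun G hG => ?_).trans ((add_le_add (h0 p n t a5 hR) h2).trans (by
    linarith))
  by_contra hc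
  rw [not_or, not_not, not_not] at hc
  exact hG ⟨hc.1, fun H Q hQ hI => iso_of hl (by positivity) hc.1 hc.2 hQ hI⟩

end Pool.Agent.P.MP_f57657_co.RS
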