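import Pool.Agent.P.MP_f57657_co.RS.Base

/-! The random graph is connected and has minimum degree at least two. -/

open Finset

namespace Pool.Agent.P.MP_f57657_co.RS

open DG DG.RowAux

namespace CoreAux

variable {n : ℕ}

/-- No edge leaves `T`, except possibly to `u`. -/
def Cut (T : Finset (Fin n)) (u : Fin n) (G : Gr n) : Prop :=
  ∀ i ∈ Tᶜ.erase u, ∀ j ∈ T, ¬ G.Adj i j

theorem one (p : unitInterval) (T : Finset (Fin n)) (u : Fin n) :
    (mG p n).pr (Cut T u) ≤ ((1 - (p : ℝ)) ^ T.card) ^ (Tᶜ.erase u).card := by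
  have hW : ∀ i ∈ Tᶜ.erase u, i ∉ T := fun i hi => mem_compl.1 (mem_of_mem_erase hi)
  have h0 : 0 ≤ 1 - (p : ℝ) := sub_nonneg.2 p.2.2
  refine le_trans (FP.pr_mono fun G hG => ⟨trivial, hG⟩)
    (pr_rows (p := p) T (Tᶜ.erase u) hW (fun _ => True) (fun i G => ∀ j ∈ T, ¬ G.Adj i j)
      (pow_nonneg h0 _) (fun _ _ _ _ => Iff.rfl) (fun i hi k hk e G a => ?_) fun i hi G _ => ?_)
  · refine forall₂_congr fun j hj => ?_
    rw [rsm_out T i _ G a k j (fun h => e h.1) fun h => hW k hk h.2]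
  · have h := bits_prod (p := p) T fun _ b => if b = true then (0 : ℝ) else 1
    refine le_trans (FP.pr_le_ex (fun a => prod_nonneg fun _ _ => by split_ifs <;> norm_num)
      fun a ha => ?_) (h.le.trans (by simp))
    rw [prod_congr rfl fun j hj => if_neg fun e => ha j hj ((rsm_in T i _ G a j hj).2 e)]
    simp

theorem cover (hn : 2 ≤ n) {G : Gr n} (h : ¬ DG.Core G) :
    ∃ x ∈ (univ.filter fun T : Finset (Fin n) => T.Nonempty ∧ 2 * T.card ≤ n) ×ˢ univ,
      Cut x.1 x.2 G := by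
  classical
  have : Nonempty (Fin n) := ⟨⟨0, by omega⟩⟩
  by_cases hc : G.Connected
  · have h2 : ∃ v, ∀ a b, G.Adj v a → G.Adj v b → a = b := by
      by_contra h3
      push Not at h3
      exact h ⟨hc, fun v => by
        obtain ⟨a, b, h1, h2, h4⟩ := h3 v
        exact ⟨a, b, h4, h1, h2⟩⟩
    obtain ⟨v, hv⟩ := h2
    have h3 : ∃ u, ∀ a, G.Adj v a → a = u := by
      by_cases h4 : ∃ u, G.Adj v u
      · obtain ⟨u, hu⟩ := h4
        exact ⟨u, fun a ha => hv a u ha hu⟩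
      · exact ⟨v, fun a ha => absurd ⟨a, ha⟩ h4⟩
    obtain ⟨u, hu⟩ := h3
    refine ⟨({v}, u), by simpa using hn, fun i hi j hj e => ?_⟩
    rw [mem_singleton.1 hj] at e
    exact (mem_erase.1 hi).1 (hu i e.symm)
  · have h2 : ∃ a b, ¬ G.Reachable a b := by
      by_contra h3
      push Not at h3
      exact hc ⟨h3⟩
    obtain ⟨a, b, hab⟩ := h2
    set T := univ.filter fun i => G.Reachable a i with hT
    have hm : ∀ i, i ∈ T ↔ G.Reachable a i := fun i => by simp [hT]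
    have hcard : T.card + Tᶜ.card = n := by simp
    by_cases h3 : 2 * T.card ≤ n
    · refine ⟨(T, a), mem_product.2 ⟨mem_filter.2 ⟨mem_univ _, ⟨a, (hm a).2 (.refl a)⟩, h3⟩,
        mem_univ _⟩, fun i hi j hj e => ?_⟩
      exact mem_compl.1 (mem_of_mem_erase hi) ((hm i).2 (((hm j).1 hj).trans e.symm.reachable))
    · refine ⟨(Tᶜ, a), mem_product.2 ⟨mem_filter.2 ⟨mem_univ _,
        ⟨b, mem_compl.2 fun e => hab ((hm b).1 e)⟩, by simp only; omega⟩,
        mem_univ _⟩, fun i hi j hj e => ?_⟩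
      have hi' : i ∈ T := by simpa using mem_of_mem_erase hi
      exact mem_compl.1 hj ((hm j).2 (((hm i).1 hi').trans e.reachable))

theorem geo {q : ℝ} (hq : 0 ≤ q) (h1 : n * q ≤ 1) :
    ∑ T ∈ univ.filter (fun T : Finset (Fin n) => T.Nonempty ∧ 2 * T.card ≤ n), q ^ T.card ≤
      2 * (n * q) := by
  have a : ∑ T : Finset (Fin n), q ^ T.card = (1 + q) ^ n := by
    have := prod_one_add (f := fun _ : Fin n => q) univ
    simpa using this.symm
  have b : (1 + q) ^ n ≤ Real.exp (n * q) := by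
    rw [Real.exp_nat_mul]
    exact pow_le_pow_left₀ (by positivity) (by linarith [Real.add_one_le_exp q]) n
  have h0 : 0 ≤ n * q := by positivity
  have c := Real.abs_exp_sub_one_le (x := n * q) (by rwa [abs_of_nonneg h0])
  rw [abs_of_nonneg h0] at c
  have d := (abs_le.1 c).2
  have e := sum_erase_add (univ : Finset (Finset (Fin n))) (fun T => q ^ T.card) (mem_univ ∅)
  have f : ∑ T ∈ univ.filter (fun T : Finset (Fin n) => T.Nonempty ∧ 2 * T.card ≤ n),
      q ^ T.card ≤ ∑ T ∈ univ.erase (∅ : Finset (Fin n)), q ^ T.card :=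
    sum_le_sum_of_subset_of_nonneg
      (fun T hT => mem_erase.2 ⟨(mem_filter.1 hT).2.1.ne_empty, mem_univ _⟩)
      fun _ _ _ => by positivity
  rw [card_empty, pow_zero] at e
  linarith

end CoreAux

open CoreAux

theorem rCore : RCore := by
  refine ⟨2, fun p n t ht h => ?_⟩
  have hn := h.le
  obtain ⟨h1, h2, h3⟩ := h
  have t6 : 2 ^ 6 ≤ t ^ 6 := Nat.pow_le_pow_left ht 6
  have h0 : 0 ≤ 1 - (p : ℝ) := sub_nonneg.2 p.2.2
  have p0 := p.2.1
  set q : ℝ := (1 - (p : ℝ)) ^ (n / 4) with hq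
  have q0 : 0 ≤ q := pow_nonneg h0 _
  have q1 : q ≤ (1 / 2) ^ (3 * t) := by
    have a : q ≤ Real.exp (-(p : ℝ)) ^ (n / 4) :=
      pow_le_pow_left₀ h0 (by linarith [Real.add_one_le_exp (-(p : ℝ))]) _
    have b : Real.exp (-1) ^ (3 * t) ≤ (1 / 2 : ℝ) ^ (3 * t) := by
      refine pow_le_pow_left₀ (Real.exp_pos _).le ?_ _
      rw [Real.exp_neg, one_div]
      exact inv_anti₀ (by norm_num) (by linarith [Real.add_one_le_exp (1 : ℝ)])
    refine a.trans (le_trans ?_ b)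
    rw [← Real.exp_nat_mul, ← Real.exp_nat_mul, Real.exp_le_exp]
    have c : (n : ℝ) ≤ 8 * (n / 4 : ℕ) := by exact_mod_cast (by omega : n ≤ 8 * (n / 4))
    have d : (2 : ℝ) ≤ t := by exact_mod_cast ht
    have e : (2 : ℝ) ^ 5 ≤ (t : ℝ) ^ 5 := pow_le_pow_left₀ (by norm_num) d 5
    have f : (t : ℝ) ^ 6 = t ^ 5 * t := by ring
    push_cast
    nlinarith [mul_le_mul_of_nonneg_right c p0]
  have n1 : 2 * (n : ℝ) ≤ 2 ^ t := by exact_mod_cast (by omega : 2 * n ≤ 2 ^ t)
  have x0 : (0 : ℝ) < (1 / 2) ^ t := by positivity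
  have x1 : (1 / 2 : ℝ) ^ t ≤ 1 := pow_le_one₀ (by norm_num) (by norm_num)
  have n2 : (n : ℝ) * (1 / 2) ^ t ≤ 1 / 2 := by
    have : (2 : ℝ) ^ t * (1 / 2) ^ t = 1 := by rw [← mul_pow]; norm_num
    nlinarith
  have n0 : (0 : ℝ) ≤ n := Nat.cast_nonneg n
  rw [mul_comm 3 t, pow_mul] at q1
  generalize (1 / 2 : ℝ) ^ t = x at *
  have k1 : n * q ≤ x ^ 2 / 2 := by
    calc n * q ≤ n * x ^ 3 := mul_le_mul_of_nonneg_left q1 n0
      _ = n * x * x ^ 2 := by ring
      _ ≤ 1 / 2 * x ^ 2 := mul_le_mul_of_nonneg_right n2 (by positivity)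
      _ = _ := by ring
  refine (FP.pr_le_sum _ (fun (y : Finset (Fin n) × Fin n) G => Cut y.1 y.2 G)
    fun G hG => cover (by omega) hG).trans ?_
  refine (sum_le_sum (g := fun y => q ^ y.1.card) fun y hy => ?_).trans ?_
  · refine (one p y.1 y.2).trans ?_
    rw [← pow_mul, mul_comm, pow_mul]
    refine pow_le_pow_left₀ (pow_nonneg h0 _) (pow_le_pow_of_le_one h0 (by linarith) ?_) _
    have a := (mem_filter.1 (mem_product.1 hy).1).2.2
    have b := pred_card_le_card_erase (s := y.1ᶜ) (a := y.2)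
    rw [card_compl, Fintype.card_fin] at b
    omega
  · rw [sum_product]
    simp only [sum_const, card_univ, Fintype.card_fin, nsmul_eq_mul]
    rw [← mul_sum]
    refine (mul_le_mul_of_nonneg_left (geo q0 (by nlinarith)) n0).trans ?_
    nlinarith

end Pool.Agent.P.MP_f57657_co.RS
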