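import Pool.Agent.P.MP_f57657_co.RS.Base
import Pool.Agent.P.MP_f57657_co.DG.Dec

/-! Decoupling of a quadratic character sum over biased bits. -/

open Finset

namespace Pool.Agent.P.MP_f57657_co.RS

open DG DG.DecAux

namespace DecAux

variable {α β : Type} [Fintype α] [Fintype β]

theorem jensen (μ : FP α) (f : α → ℝ) : μ.ex f ^ 2 ≤ μ.ex fun a => f a ^ 2 := by
  have h : μ.ex (fun a => 2 * μ.ex f * f a - μ.ex f ^ 2) ≤ μ.ex fun a => f a ^ 2 :=
    FP.ex_mono fun a => by nlinarith [sq_nonneg (f a - μ.ex f)]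
  rw [FP.ex_sub, FP.ex_mul, FP.ex_const] at h
  linarith

theorem exc_comm (μ : FP α) (ν : FP β) (f : α → β → ℂ) :
    (μ.exc fun a => ν.exc fun b => f a b) = ν.exc fun b => μ.exc fun a => f a b := by
  simp only [FP.exc, mul_sum]
  rw [sum_comm]
  exact sum_congr rfl fun _ _ => sum_congr rfl fun _ _ => by ring

theorem sq_exc (ν : FP β) (G : β → ℂ) : ((‖ν.exc G‖ ^ 2 : ℝ) : ℂ) =
    (ν.prod ν).exc fun ω => G ω.1 * (starRingEnd ℂ) (G ω.2) := by
  rw [FP.exc_prod, FP.exc, sq_sum]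
  simp only [FP.exc, mul_sum, map_mul, Complex.conj_ofReal]
  exact sum_congr rfl fun _ _ => sum_congr rfl fun _ _ => by ring

/-- Abstract decoupling inequality. -/
theorem wraw (μ : FP α) (ν : FP β) (A : α → ℂ) (C : β → ℂ) (K : α → β → ℂ)
    (hA : ∀ a, ‖A a‖ = 1) (hC : ∀ t, ‖C t‖ = 1) :
    ‖μ.exc fun a => ν.exc fun t => A a * (C t * K a t)‖ ^ 2 ≤
      (ν.prod ν).ex fun ω => ‖μ.exc fun a => K a ω.1 * (starRingEnd ℂ) (K a ω.2)‖ := by
  have h1 : ‖μ.exc fun a => ν.exc fun t => A a * (C t * K a t)‖ ≤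
      μ.ex fun a => ‖ν.exc fun t => C t * K a t‖ :=
    (FP.norm_exc_le _).trans (FP.ex_congr fun a => by rw [FP.exc_mul, norm_mul, hA, one_mul]).le
  have h3 : ((μ.ex fun a => ‖ν.exc fun t => C t * K a t‖ ^ 2 : ℝ) : ℂ) =
      (ν.prod ν).exc fun ω => C ω.1 * (starRingEnd ℂ) (C ω.2) *
        μ.exc fun a => K a ω.1 * (starRingEnd ℂ) (K a ω.2) := by
    rw [← FP.exc_ofReal]
    simp only [sq_exc]
    rw [exc_comm]
    refine FP.exc_congr fun ω => ?_
    rw [← FP.exc_mul]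
    refine FP.exc_congr fun a => ?_
    rw [map_mul]
    ring
  refine (pow_le_pow_left₀ (norm_nonneg _) h1 2).trans ((jensen μ _).trans
    ((le_abs_self _).trans ?_))
  rw [← Real.norm_eq_abs, ← Complex.norm_real, h3]
  refine (FP.norm_exc_le _).trans (FP.ex_congr fun ω => ?_).le
  rw [norm_mul, norm_mul, Complex.norm_conj, hC, hC, one_mul, one_mul]

variable {p : unitInterval} {n : ℕ}

theorem exc_mix (I : Finset (Fin n)) (f : Bv n → ℂ) :
    (mB p n).exc f = (mB p n).exc fun a => (mB p n).exc fun t => f (DG.DecAux.mix I a t) := by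
  refine Complex.ext ?_ ?_
  · simp only [FP.exc_re]
    exact bits_mix I _
  · simp only [FP.exc_im]
    exact bits_mix I _

theorem winn {Γ : Type} [AddCommGroup Γ] [Fintype Γ] (ψ : AddChar Γ ℂ) (I : Finset (Fin n))
    (N : Fin n → Fin n → Γ) (ω : Bv n × Bv n) :
    ‖(mB p n).exc fun a => ψ (∑ i, sv 0 1 a i • zz I N ω.1 i) *
      (starRingEnd ℂ) (ψ (∑ i, sv 0 1 a i • zz I N ω.2 i))‖ =
      ∏ i ∈ Iᶜ, ‖1 - ((p : ℝ) : ℂ) + ((p : ℝ) : ℂ) * ψ (∑ j ∈ I, (2 * dv ω j) • N i j)‖ := by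
  have h1 : ∀ a : Bv n, ψ (∑ i, sv 0 1 a i • zz I N ω.1 i) *
      (starRingEnd ℂ) (ψ (∑ i, sv 0 1 a i • zz I N ω.2 i)) =
      ψ (∑ i, sv 0 1 a i • (zz I N ω.1 i - zz I N ω.2 i)) := by
    intro a
    rw [← AddChar.map_neg_eq_conj, ← AddChar.map_add_eq_mul, ← sub_eq_add_neg,
      ← sum_sub_distrib]
    simp only [smul_sub]
  simp only [h1]
  rw [exc_char, norm_prod, ← prod_compl_mul_prod I, prod_eq_one (s := I), mul_one]
  · refine prod_congr rfl fun i hi => ?_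
    rw [zz, zz, if_neg (mem_compl.1 hi), if_neg (mem_compl.1 hi), ← sum_sub_distrib,
      sum_congr rfl fun j _ => by rw [← sub_smul, ← mul_sub]]
    rfl
  · intro i hi
    simp [zz, hi]

end DecAux

open DecAux in
theorem rDec : RDec := by
  intro p Γ _ _ ψ n N I hN
  have h1 := wraw (mB p n) (mB p n) (fun a => ψ (DG.DecAux.bl N (pout I a) (pout I a)))
    (fun t => ψ (DG.DecAux.bl N (pin I t) (pin I t))) (fun a t => ψ (∑ i, sv 0 1 a i • zz I N t i))
    (fun a => AddChar.norm_apply _ _) fun a => AddChar.norm_apply _ _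
  simp only [winn] at h1
  refine le_trans (le_of_eq ?_) h1
  rw [exc_mix I]
  refine congrArg (fun z : ℂ => ‖z‖ ^ 2) (FP.exc_congr fun a => FP.exc_congr fun t => ?_)
  change ψ (DG.DecAux.bl N _ _) = _
  rw [sv_mix, bl_add hN, cross, AddChar.map_add_eq_mul, AddChar.map_add_eq_mul, mul_assoc]

end Pool.Agent.P.MP_f57657_co.RS
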