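import Pool.Agent.P.MP_f57657_co.RS.Base

/-! Either the set of nearly maximal points is small or it is a subgroup. -/

open Finset

namespace Pool.Agent.P.MP_f57657_co.RS

open DG

namespace DichAux

variable {p : unitInterval} {Γ : Type} [AddCommGroup Γ] {n : ℕ} {J : Finset (Fin n)}
  {w : Fin n → Γ}

theorem mem_Bs (h0 : 0 < lk p J w (· = 0)) {a : ℝ} (ha : a < 1) (g : Γ) :
    g ∈ Bs p J w a ↔ (1 - a) * lk p J w (· = 0) ≤ lk p J w (· = g) := by
  classical
  refine ⟨fun h => (mem_filter.1 h).2, fun h => mem_filter.2 ⟨?_, h⟩⟩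
  obtain ⟨ω, hω⟩ := FP.exists_of_pr_pos ((mul_pos (sub_pos.2 ha) h0).trans_le h)
  exact mem_image.2 ⟨ω, mem_univ _, hω⟩

theorem mass (a : ℝ) :
    (Bs p J w a).card * ((1 - a) * lk p J w (· = 0)) ≤ lk p J w (· ∈ Bs p J w a) := by
  classical
  have h := card_nsmul_le_sum (Bs p J w a) (fun g => lk p J w (· = g)) _
    fun g hg => (mem_filter.1 hg).2
  rw [nsmul_eq_mul] at h
  exact h.trans (FP.sum_pr_eq _ _).le

open Classical in
theorem few (hW3 : RWalk3) (hp : (p : ℝ) ≤ 1 / 2) (H : AddSubgroup Γ)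
    (h : 998 / 1000 ≤ lk p J w (· ∈ H)) :
    (p : ℝ) * (J.filter fun j => w j ∉ H).card ≤ 1 / 100 := by
  by_contra hc
  rw [not_le] at hc
  set T := J.filter fun j => w j ∉ H
  have l1 := le_lz' hp
  have l2 := lz_le p
  have t0 : (0 : ℝ) ≤ T.card := Nat.cast_nonneg _
  have p0 : 0 < (p : ℝ) := p.2.1.lt_of_ne fun e => by
    rw [← e] at hc
    linarith
  have l0 : 0 < lz p := by linarith
  set s := ⌈4 / 1000 / lz p⌉₊ with hs
  have s1 : s ≤ T.card := Nat.ceil_le.2 (by
    rw [div_le_iff₀ l0]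
    nlinarith)
  have s2 : 4 / 1000 ≤ s * lz p := (div_le_iff₀ l0).1 (Nat.le_ceil _)
  have s3 : ((s : ℝ) - 1) * lz p ≤ 4 / 1000 := by
    have := (Nat.ceil_lt_add_one (show 0 ≤ 4 / 1000 / lz p by positivity)).le
    rw [← le_div_iff₀ l0, hs]
    linarith
  have s0 : 1 ≤ s := Nat.ceil_pos.2 (by positivity)
  obtain ⟨T', a1, a2⟩ := exists_subset_card_eq s1
  let v : Fin n → Γ ⧸ H := fun j => QuotientAddGroup.mk (w j)
  have e : lk p J w (· ∈ H) = lk p J v (· = 0) := FP.pr_congr fun ω => by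
    beta_reduce
    rw [← QuotientAddGroup.eq_zero_iff, ← QuotientAddGroup.mk'_apply, map_sum]
    simp [v]
  have b1 := (hW3 p _ n T' v).2.1 J (a1.trans (filter_subset _ _))
  have b2 := (hW3 p _ n T' v).2.2 fun j hj e =>
    (mem_filter.1 (a1 hj)).2 ((QuotientAddGroup.eq_zero_iff _).1 e)
  have b3 := one_add_mul_le_pow (a := -lz p) (by linarith) (s - 1)
  rw [a2] at b2
  rw [Nat.cast_sub s0, Nat.cast_one, ← sub_eq_add_neg] at b3
  have b4 : 4 / 1000 * (996 / 1000) ≤ s * lz p * (1 - lz p) ^ (s - 1) :=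
    mul_le_mul s2 (by linarith) (by norm_num) (by linarith)
  linarith

end DichAux

open DichAux

theorem rDich (hW2 : RWalk2) (hW3 : RWalk3) : RDich := by
  classical
  intro p Γ _ n J w hp
  obtain ⟨h0, h1, h2, h3, -⟩ := hW2 p Γ n J w
  have m := fun a ha => mem_Bs h0 (a := a) ha
  have c : ∀ a, (Bs p J w a).card * ((1 - a) * lk p J w (· = 0)) ≤ 1 :=
    fun a => (mass a).trans (FP.pr_le_one _)
  refine ⟨fun a ha => ⟨m a ha, c a⟩, ?_⟩
  rw [or_iff_not_imp_left, not_le]
  intro hc
  have key : ∀ g, (1 - 32 / 10000) * lk p J w (· = 0) ≤ lk p J w (· = g) →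
      (1 - 8 / 10000) * lk p J w (· = 0) ≤ lk p J w (· = g) := by
    intro g hg
    have hd : ¬ Disjoint (Bs p J w (2 / 10000)) ((Bs p J w (2 / 10000)).image (· + g)) := by
      intro hd
      have a1 : Bs p J w (2 / 10000) ∪ (Bs p J w (2 / 10000)).image (· + g) ⊆
          Bs p J w (68 / 10000) := by
        intro b hb
        rw [m _ (by norm_num)]
        rcases mem_union.1 hb with hb | hb
        · rw [m _ (by norm_num)] at hb
          linarith
        · obtain ⟨b', hb', rfl⟩ := mem_image.1 hb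
          rw [m _ (by norm_num)] at hb'
          linarith [h3 b' g]
      have a2 := card_le_card a1
      rw [card_union_of_disjoint hd, card_image_of_injective _ (add_left_injective g)] at a2
      have a3 : ((Bs p J w (2 / 10000)).card : ℝ) + (Bs p J w (2 / 10000)).card ≤
          (Bs p J w (68 / 10000)).card := by exact_mod_cast a2
      nlinarith [c (68 / 10000), mul_le_mul_of_nonneg_right a3 h0.le]
    obtain ⟨b, hb, hb'⟩ := not_disjoint_iff.1 hd
    obtain ⟨b', hb', e⟩ := mem_image.1 hb'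
    rw [m _ (by norm_num)] at hb hb'
    have a4 := h3 b (-b')
    rw [h2 b', show b + -b' = g by rw [← e]; abel] at a4
    linarith
  let H : AddSubgroup Γ :=
    { carrier := {g | (1 - 8 / 10000) * lk p J w (· = 0) ≤ lk p J w (· = g)}
      add_mem' := fun {a b} ha hb => key _ (by
        simp only [Set.mem_ofPred_eq] at ha hb
        linarith [h3 a b])
      zero_mem' := by
        simp only [Set.mem_ofPred_eq]
        linarith
      neg_mem' := fun {a} ha => by
        simp only [Set.mem_ofPred_eq] at ha ⊢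
        rwa [h2 a] }
  refine ⟨H, fun g => (m _ (by norm_num) g).symm, few hW3 hp H ?_⟩
  have a5 : lk p J w (· ∈ Bs p J w (2 / 10000)) ≤ lk p J w (· ∈ H) := FP.pr_mono fun ω hω => by
    exact le_trans (by linarith) ((m _ (by norm_num) _).1 hω)
  nlinarith [mass (p := p) (J := J) (w := w) (2 / 10000)]

end Pool.Agent.P.MP_f57657_co.RS
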