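import Pool.Agent.P.MP_f57657_co.RS.Base

/-! Small Fourier coefficients of the quadratic form. -/

open Matrix Finset Polynomial

namespace Pool.Agent.P.MP_f57657_co.RS

open DG

namespace EQAux

variable {p : unitInterval} {n : ℕ}

theorem exp_half {x : ℝ} {k : ℕ} (h : (k : ℝ) ≤ x) : Real.exp (-x) ≤ (1 / 2) ^ k := by
  have h1 : Real.exp (-1) ≤ 1 / 2 := by
    rw [Real.exp_neg, one_div]
    exact inv_anti₀ (by norm_num) (by linarith [Real.add_one_le_exp (1 : ℝ)])
  calc Real.exp (-x) ≤ Real.exp (k * (-1)) := Real.exp_le_exp.2 (by linarith)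
    _ = Real.exp (-1) ^ k := Real.exp_nat_mul _ _
    _ ≤ _ := pow_le_pow_left₀ (Real.exp_pos _).le h1 k

theorem pow_exp {a : ℝ} (ha : 0 ≤ 1 + a) (k : ℕ) : (1 + a) ^ k ≤ Real.exp (k * a) := by
  rw [Real.exp_nat_mul]
  exact pow_le_pow_left₀ ha (by linarith [Real.add_one_le_exp a]) k

/-- The difference of two rows on `I`. -/
def yv (I : Finset (Fin n)) (ω : Bv n × Bv n) : Vc n := fun j => if j ∈ I then dv ω j else 0

theorem yv_cases (I : Finset (Fin n)) (ω : Bv n × Bv n) (j : Fin n) :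
    yv I ω j = 0 ∨ yv I ω j = 1 ∨ yv I ω j = -1 := by
  unfold yv
  split_ifs
  exacts [dv_cases ω j, Or.inl rfl]

theorem w_eq {R : Type} [CommRing R] (ev : ℤ[X] →+* R) (M : Matrix (Fin n) (Fin n) ℤ)
    (I : Finset (Fin n)) (ω : Bv n × Bv n) (i : Fin n) :
    ∑ j ∈ I, (2 * dv ω j) • ev (M.charmatrix.adjugate i j) = 2 * ev (aw M (yv I ω) i) := by
  simp only [aw, map_sum, map_mul, eq_intCast, map_intCast, zsmul_eq_mul, mul_sum]
  rw [← sum_subset (subset_univ I)]
  · refine sum_congr rfl fun j hj => ?_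
    simp only [yv, if_pos hj]
    push_cast
    ring
  · intro j _ hj
    simp [yv, hj]

theorem adj_symm {M : Matrix (Fin n) (Fin n) ℤ} (hM : M.IsSymm) (i j : Fin n) :
    M.charmatrix.adjugate i j = M.charmatrix.adjugate j i := by
  rw [← transpose_apply M.charmatrix.adjugate j i, adjugate_transpose, ← charmatrix_transpose,
    hM.eq]

theorem zero_le (hp : (p : ℝ) ≤ 1 / 2) (I : Finset (Fin n)) :
    (mD p n).pr (fun ω => ∀ j, yv I ω j = 0) ≤ Real.exp (-(I.card * (p : ℝ))) := by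
  have h0 := p.2.1
  have h := bits_prod2 (p := p) I fun _ a b => if a = b then (1 : ℝ) else 0
  refine (FP.pr_le_ex (fun ω => prod_nonneg fun _ _ => by split_ifs <;> norm_num)
    fun ω hω => ?_).trans (h.le.trans ?_)
  · refine (prod_eq_one fun j hj => if_pos ?_).ge
    have := hω j
    simp only [yv, if_pos hj, dv, sv] at this
    cases h1 : ω.1 j <;> cases h2 : ω.2 j <;> simp_all
  · rw [prod_const, ← mul_neg]
    refine le_trans (pow_le_pow_left₀ ?_ ?_ _) (pow_exp (by linarith) _)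
    · simp only [if_true, Bool.true_eq_false, Bool.false_eq_true, if_false]
      nlinarith
    · simp only [if_true, Bool.true_eq_false, Bool.false_eq_true, if_false]
      nlinarith

theorem adm_le (hp : (p : ℝ) ≤ 1 / 2) (I : Finset (Fin n)) (hI : 4000 * I.card ≤ n) :
    (mD p n).pr (fun ω => ¬ Adm p (yv I ω)) ≤ Real.exp (-(n * (p : ℝ) / 1000)) := by
  classical
  have h0 := p.2.1
  have h := bits_prod2 (p := p) I fun _ a b => if a = b then (1 : ℝ) else 3
  refine (FP.pr_markov (c := Real.exp (n * (p : ℝ) / 500)) (Real.exp_pos _)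
    (fun ω => prod_nonneg fun _ _ => by split_ifs <;> norm_num) fun ω hω => ?_).trans
    ((div_le_div_of_nonneg_right h.le (Real.exp_pos _).le).trans ?_)
  · have h1 : n * (p : ℝ) / 500 < (univ.filter fun i => yv I ω i ≠ 0).card := by
      by_contra hc
      exact hω ⟨yv_cases I ω, 0, not_lt.1 hc⟩
    have h2 : (univ.filter fun i => yv I ω i ≠ 0) ⊆ I.filter fun i => ¬ ω.1 i = ω.2 i := by
      intro i hi
      have := (mem_filter.1 hi).2
      by_cases hm : i ∈ I
      · refine mem_filter.2 ⟨hm, fun e => this ?_⟩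
        simp [yv, dv, sv, e]
      · exact absurd (if_neg hm) this
    rw [prod_ite, prod_const_one, one_mul, prod_const]
    have h3 : Real.exp 1 ≤ 3 := (Real.exp_one_lt_d9.trans (by norm_num)).le
    calc Real.exp (n * (p : ℝ) / 500)
        ≤ Real.exp ((I.filter fun i => ¬ ω.1 i = ω.2 i).card * 1) :=
          Real.exp_le_exp.2 (by
            have : ((univ.filter fun i => yv I ω i ≠ 0).card : ℝ) ≤
              (I.filter fun i => ¬ ω.1 i = ω.2 i).card := by exact_mod_cast card_le_card h2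
            linarith)
      _ = Real.exp 1 ^ _ := Real.exp_nat_mul _ _
      _ ≤ _ := pow_le_pow_left₀ (Real.exp_pos _).le h3 _
  · rw [prod_const, div_le_iff₀ (Real.exp_pos _), ← Real.exp_add]
    refine le_trans (pow_le_pow_left₀ ?_ ?_ _) ((pow_exp (a := 4 * (p : ℝ)) (by linarith) _).trans
      (Real.exp_le_exp.2 ?_))
    · simp only [if_true, Bool.true_eq_false, Bool.false_eq_true, if_false]
      nlinarith
    · simp only [if_true, Bool.true_eq_false, Bool.false_eq_true, if_false]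
      nlinarith
    · have : (4000 : ℝ) * I.card ≤ n := by exact_mod_cast hI
      nlinarith

theorem far_of (hW2 : RWalk2) {t : ℕ} {G : Gr n} {y : Vc n} (hG : Good p t y G)
    (hy : ∃ i, y i = 1 ∨ y i = -1) {R : Type} [CommRing R] [Fintype R] (ev : ℤ[X] →+* R)
    (hs : Function.Surjective ev) (hR : Fintype.card R ≤ 2 ^ t) (ψ : AddChar R ℂ)
    (hψ : ∃ r, ψ (2 * ev (ph G) * r) ≠ 1) : Far ψ fun i => 2 * ev (aw (aM G) y i) := by
  have hE : Eqn G y (AddMonoidHom.mulLeft (ev X)) (-(2 * ev (ph G)))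
      fun i => 2 * ev (aw (aM G) y i) := by
    intro i
    have h := congrArg ev (aw_eq (aM G) y i)
    simp only [map_sum, map_mul, map_sub, eq_intCast, map_intCast] at h
    simp only [zsmul_eq_mul, AddMonoidHom.coe_mulLeft]
    rw [sum_congr rfl fun j _ => mul_left_comm _ _ _, ← mul_sum, h]
    ring
  have hl : (1 / 2 : ℝ) ^ t ≤ lk p univ (fun i => 2 * ev (aw (aM G) y i)) (· = 0) := by
    refine le_trans ?_ (hW2 p R n univ _).2.2.2.2
    rw [_root_.one_div_pow]
    exact one_div_le_one_div_of_le (by exact_mod_cast Fintype.card_pos) (by exact_mod_cast hR)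
  obtain ⟨-, hx, -, hF⟩ := hG R _ _ _ hE hl
  refine hF ψ ?_
  by_contra hall
  push Not at hall
  set H := AddSubgroup.closure (Set.range fun i => 2 * ev (aw (aM G) y i)) with hH
  have hw : ∀ i, 2 * ev (aw (aM G) y i) ∈ H := fun i => AddSubgroup.subset_closure ⟨i, rfl⟩
  have h1 : ∀ h ∈ H, ψ h = 1 := by
    intro h hh
    induction hh using AddSubgroup.closure_induction with
    | mem a ha =>
      obtain ⟨i, rfl⟩ := ha
      exact hall i
    | zero => exact ψ.map_zero_eq_one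
    | add a b _ _ ha hb => rw [AddChar.map_add_eq_mul, ha, hb, one_mul]
    | neg a _ ha => rw [AddChar.map_neg_eq_inv, ha, inv_one]
  have h2 : ∀ (u : ℤ[X]), ∀ h ∈ H, ev u * h ∈ H := by
    intro u
    induction u using Polynomial.induction_on with
    | C a =>
      intro h hh
      rw [eq_intCast, map_intCast, ← zsmul_eq_mul]
      exact H.zsmul_mem hh a
    | add a b ha hb =>
      intro h hh
      rw [map_add, add_mul]
      exact H.add_mem (ha h hh) (hb h hh)
    | monomial k a ih =>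
      intro h hh
      rw [pow_succ, ← mul_assoc, map_mul, mul_assoc]
      exact ih _ (hx h hh)
  have h3 : 2 * ev (ph G) ∈ H := by
    obtain ⟨i, hi⟩ := hy
    have e : y i • (-(2 * ev (ph G))) ∈ H := by
      have := H.sub_mem (H.sum_mem fun j (_ : j ∈ univ) => H.zsmul_mem (hw j) (aM G i j))
        (hx _ (hw i))
      rwa [hE i, add_sub_cancel_left] at this
    rcases hi with hi | hi <;> rw [hi] at e <;> simpa using e
  obtain ⟨r, hr⟩ := hψ
  obtain ⟨u, rfl⟩ := hs r
  exact hr (h1 _ (by rw [mul_comm]; exact h2 u _ h3))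

theorem sq_le (hDec : RDec) (hW2 : RWalk2) (hp : (p : ℝ) ≤ 1 / 2) {t : ℕ} (G : Gr n)
    (I : Finset (Fin n)) {R : Type} [CommRing R] [Fintype R] (ev : ℤ[X] →+* R)
    (hs : Function.Surjective ev) (hR : Fintype.card R ≤ 2 ^ t) (ψ : AddChar R ℂ)
    (hψ : ∃ r, ψ (2 * ev (ph G) * r) ≠ 1) :
    ‖(mB p n).exc fun s => ψ (ev (bf (aM G) (sv 0 1 s) (sv 0 1 s)))‖ ^ 2 ≤
      (mD p n).pr (fun ω => Adm p (yv I ω) ∧ ¬ Good p t (yv I ω) G) +
        (mD p n).pr (fun ω => ∀ j, yv I ω j = 0) + (mD p n).pr (fun ω => ¬ Adm p (yv I ω)) +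
        (1 - (p : ℝ) / 4) ^ (n / 2000 - I.card) := by
  have h0 := p.2.1
  have h := hDec p R ψ n (fun i j => ev ((aM G).charmatrix.adjugate i j)) I
    (fun i j => by rw [adj_symm (gm_symm 0 1 G) i j])
  simp only [ev_bf]
  refine h.trans ?_
  simp only [w_eq]
  rw [FP.pr, FP.pr, FP.pr, ← FP.ex_add, ← FP.ex_add,
    ← FP.ex_const (μ := mD p n) ((1 - (p : ℝ) / 4) ^ (n / 2000 - I.card)), ← FP.ex_add]
  refine FP.ex_mono fun ω => ?_
  have h1 : ∏ i ∈ Iᶜ, ‖1 - ((p : ℝ) : ℂ) + ((p : ℝ) : ℂ) * ψ (2 * ev (aw (aM G) (yv I ω) i))‖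
      ≤ 1 := by
    refine prod_le_one (fun i _ => by positivity) fun i _ => ?_
    have a := norm_step_le (p := p) (AddChar.norm_apply ψ (2 * ev (aw (aM G) (yv I ω) i)))
    have b := (Complex.re_le_norm (ψ (2 * ev (aw (aM G) (yv I ω) i)))).trans
      (AddChar.norm_apply ψ _).le
    have c : 0 ≤ (p : ℝ) * (1 - p) := by nlinarith
    nlinarith
  have h2 : (0 : ℝ) ≤ (1 - (p : ℝ) / 4) ^ (n / 2000 - I.card) := pow_nonneg (by linarith) _
  by_cases hA : Adm p (yv I ω)
  swap
  · rw [if_pos hA]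
    split_ifs <;> linarith
  by_cases hZ : ∀ j, yv I ω j = 0
  · rw [if_pos hZ]
    split_ifs <;> linarith
  by_cases hG : Good p t (yv I ω) G
  swap
  · rw [if_pos ⟨hA, hG⟩]
    split_ifs <;> linarith
  rw [if_neg fun h => h.2 hG, if_neg hZ, if_neg (not_not.2 hA), zero_add, zero_add, zero_add]
  push Not at hZ
  obtain ⟨i, hi⟩ := hZ
  exact far_prod hp (far_of hW2 hG ⟨i, (yv_cases I ω i).resolve_left hi⟩ ev hs hR ψ hψ) I

end EQAux

open EQAux in
theorem rEQ (hM : RMaster) (hDec : RDec) (hW2 : RWalk2) : REQ := by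
  obtain ⟨N, hM⟩ := hM
  refine ⟨max N 100, fun p n t hN hR => ?_⟩
  have ht : 100 ≤ t := (le_max_right _ _).trans hN
  have h0 := p.2.1
  have hp := hR.2.2
  obtain ⟨I, -, hI⟩ := exists_subset_card_eq (s := (univ : Finset (Fin n))) (n := n / 4000)
    (by rw [card_univ, Fintype.card_fin]; omega)
  have hB : (mG p n).pr (fun G => (1 / 2 : ℝ) ^ (2 * t ^ 2 + 2) ≤
      (mD p n).pr fun ω => Adm p (yv I ω) ∧ ¬ Good p t (yv I ω) G) ≤ (1 / 2) ^ (2 * t ^ 2) := by
    refine (FP.pr_markov (f := fun G => (mD p n).pr fun ω => Adm p (yv I ω) ∧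
      ¬ Good p t (yv I ω) G) (by positivity) (fun _ => FP.pr_nonneg _) fun _ h => h).trans ?_
    rw [div_le_iff₀ (by positivity), ← pow_add]
    refine (FP.ex_comm _).le.trans (FP.ex_le_const fun ω => ?_)
    by_cases hA : Adm p (yv I ω)
    · refine le_trans (FP.pr_mono fun G h => h.2) ((hM p n t _ ((le_max_left _ _).trans hN) hR
        hA).trans (pow_le_pow_of_le_one (by norm_num) (by norm_num) ?_))
      nlinarith [Nat.mul_le_mul ht (Nat.le_refl (t ^ 2)), Nat.mul_le_mul ht ht]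
    · exact (FP.pr_false fun G h => hA h.1).le.trans (by positivity)
  refine le_trans (FP.pr_mono fun G hG => ?_) hB
  by_contra hc
  refine hG fun R _ _ ev hs hC ψ hψ => ?_
  have h1 := sq_le hDec hW2 hp G I ev hs hC ψ hψ
  have t0 : (100 : ℝ) ≤ t := by exact_mod_cast ht
  have t2 : (10000 : ℝ) ≤ (t : ℝ) ^ 2 := by nlinarith
  have t4 : (100000000 : ℝ) ≤ ((t : ℝ) ^ 2) ^ 2 := by nlinarith
  have t6 : 100000000 * (t : ℝ) ^ 2 ≤ n * (p : ℝ) := by
    refine le_trans ?_ hR.2.1
    rw [show (t : ℝ) ^ 6 = ((t : ℝ) ^ 2) ^ 2 * (t : ℝ) ^ 2 by ring]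
    nlinarith
  have hm : (n : ℝ) ≤ 4000 * I.card + 4000 := by
    have : n ≤ 4000 * I.card + 4000 := by omega
    exact_mod_cast this
  have hm' : n * (p : ℝ) ≤ 4000 * (I.card * (p : ℝ)) + 2000 := by nlinarith
  have h2 := (zero_le hp I).trans (exp_half (k := 2 * t ^ 2 + 2) (by push_cast; linarith))
  have h3 := (adm_le hp I (by omega)).trans (exp_half (k := 2 * t ^ 2 + 2) (by push_cast; linarith))
  have h4 : (1 - (p : ℝ) / 4) ^ (n / 2000 - I.card) ≤ (1 / 2) ^ (2 * t ^ 2 + 2) := by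
    refine (pow_le_pow_of_le_one (by linarith) (by linarith) (show I.card ≤ _ by omega)).trans ?_
    rw [sub_eq_add_neg]
    refine (pow_exp (by linarith) _).trans ?_
    rw [mul_neg]
    exact exp_half (by push_cast; linarith)
  refine (pow_le_pow_iff_left₀ (norm_nonneg _) (by positivity) two_ne_zero).1 (h1.trans ?_)
  have e : ((1 / 2 : ℝ) ^ t ^ 2) ^ 2 = 4 * (1 / 2) ^ (2 * t ^ 2 + 2) := by
    rw [← pow_mul, pow_add, mul_comm (t ^ 2) 2]
    ring
  rw [e]
  linarith [not_le.1 hc]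

end Pool.Agent.P.MP_f57657_co.RS
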