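import Pool.Agent.P.MP_f57657_co.RS.Base

/-! Small sets have small neighbourhoods. -/

open Matrix Finset Polynomial

namespace Pool.Agent.P.MP_f57657_co.RS

open DG DG.RowAux

namespace Exp1Aux

variable {p : unitInterval} {n : ℕ}

theorem pr_bit (j : Fin n) : (mB p n).pr (fun a => a j = true) = p := by
  have h := bits_prod (p := p) {j} fun _ b => if b = true then (1 : ℝ) else 0
  simp only [prod_singleton] at h
  refine Eq.trans (FP.ex_congr fun a => ?_) (h.trans (by simp))
  by_cases h0 : a j = true <;> simp [h0]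

open Classical in
/-- One fixed set. -/
theorem one (T : Finset (Fin n)) (hT : (p : ℝ) * T.card ≤ 1 / 100) :
    (mG p n).pr (fun G => (n : ℝ) / 25 ≤ ((Tᶜ.filter fun i => ∃ j ∈ T, G.Adj i j).card : ℝ)) ≤
      Real.exp (-(n / 50)) := by
  have h := ex_rows (p := p) T Tᶜ (fun i hi => mem_compl.1 hi) (fun _ => 1)
    (fun i G => Real.exp (if ∃ j ∈ T, G.Adj i j then 1 else 0)) (c := Real.exp (1 / 50))
    (Real.exp_pos _).le (fun _ => zero_le_one) (fun _ _ => (Real.exp_pos _).le)
    (fun _ _ _ _ => rfl) (fun i hi k hk e G a => by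
      congr 1
      refine if_congr (exists_congr fun j => and_congr_right fun hj => ?_) rfl rfl
      exact rsm_out T i _ G a k j (fun h => e h.1) fun h => mem_compl.1 hk h.2)
    fun i hi G _ => by
      have h1 : (mB p n).pr (fun a => ∃ j ∈ T, a j = true) ≤ T.card * (p : ℝ) :=
        FP.pr_le_card_mul T (fun j a => a j = true) (fun _ h => h) fun j _ => (pr_bit j).le
      calc _ ≤ (mB p n).ex fun a => 1 + 2 * (if ∃ j ∈ T, a j = true then 1 else 0) := by
            refine FP.ex_mono fun a => ?_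
            rw [if_congr (exists_congr fun j => and_congr_right fun hj =>
              rsm_in T i (mem_compl.1 hi) G a j hj) rfl rfl]
            split_ifs
            · linarith [Real.exp_one_lt_d9]
            · simp
        _ = 1 + 2 * (mB p n).pr fun a => ∃ j ∈ T, a j = true := by
            rw [FP.ex_add, FP.ex_const, FP.ex_mul, FP.pr]
            congr 2
            exact FP.ex_congr fun a => by congr
        _ ≤ _ := by linarith [Real.add_one_le_exp (1 / 50 : ℝ)]
  rw [FP.ex_const, mul_one, ← Real.exp_nat_mul] at h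
  refine (FP.pr_markov (Real.exp_pos (n / 25)) (fun G => mul_nonneg zero_le_one
    (prod_nonneg fun _ _ => (Real.exp_pos _).le)) fun G hG => ?_).trans
    ((div_le_div_of_nonneg_right h (Real.exp_pos _).le).trans ?_)
  · rw [one_mul, ← Real.exp_sum, sum_boole]
    exact Real.exp_le_exp.2 hG
  · rw [← Real.exp_sub, Real.exp_le_exp]
    have : ((Tᶜ).card : ℝ) ≤ n := by exact_mod_cast (card_le_univ _).trans (Fintype.card_fin n).le
    linarith

end Exp1Aux

open Exp1Aux in
theorem rExp1 : RExp1 := by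
  classical
  refine ⟨10, fun p n t ht h => ?_⟩
  have h1 := h.le
  have t1 : (10 : ℝ) ≤ t := by exact_mod_cast ht
  have n0 : (0 : ℝ) ≤ n := Nat.cast_nonneg n
  have t6 : (10 : ℝ) ^ 6 ≤ (t : ℝ) ^ 6 := pow_le_pow_left₀ (by norm_num) t1 6
  have t5 : (10 : ℝ) ^ 5 ≤ (t : ℝ) ^ 5 := pow_le_pow_left₀ (by norm_num) t1 5
  have t2 : (10 : ℝ) ^ 2 ≤ (t : ℝ) ^ 2 := pow_le_pow_left₀ (by norm_num) t1 2
  obtain ⟨k, hk⟩ : ∃ k, k = n / (100 * t ^ 6) := ⟨_, rfl⟩
  have hk1 : (k : ℝ) * (100 * (t : ℝ) ^ 6) ≤ n := by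
    rw [hk]
    exact_mod_cast Nat.div_mul_le_self n (100 * t ^ 6)
  have k0 : (0 : ℝ) ≤ k := Nat.cast_nonneg k
  refine (FP.pr_le_card_mul (univ.filter fun T : Finset (Fin n) => T.card ≤ k)
    (fun T G => (p : ℝ) * T.card ≤ 1 / 100 ∧
      (n : ℝ) / 25 ≤ ((Tᶜ.filter fun i => ∃ j ∈ T, G.Adj i j).card : ℝ))
    (c := Real.exp (-(n / 50))) (fun G hG => ?_) fun T _ => ?_).trans ?_
  · obtain ⟨T, hT⟩ := not_forall.1 hG
    obtain ⟨hT, hN⟩ := Classical.not_imp.1 hT
    have T0 : (0 : ℝ) ≤ T.card := Nat.cast_nonneg _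
    have a1 : (T.card : ℝ) * (100 * (t : ℝ) ^ 6) ≤ n := by
      nlinarith [mul_le_mul_of_nonneg_left h.2.1 T0, mul_le_mul_of_nonneg_left hT n0]
    refine ⟨T, mem_filter.2 ⟨mem_univ _, ?_⟩, hT, ?_⟩
    · rw [hk, Nat.le_div_iff_mul_le (by positivity)]
      exact_mod_cast a1
    · have a2 : (univ.filter fun i => i ∈ T ∨ ∃ j ∈ T, G.Adj i j).card ≤
          T.card + (Tᶜ.filter fun i => ∃ j ∈ T, G.Adj i j).card := by
        refine le_trans (card_le_card fun i hi => ?_) (card_union_le _ _)
        by_cases b : i ∈ T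
        · exact mem_union_left _ b
        · exact mem_union_right _ (mem_filter.2 ⟨mem_compl.2 b,
            (mem_filter.1 hi).2.resolve_left b⟩)
      have a3 : n ≤ 20 * (T.card + (Tᶜ.filter fun i => ∃ j ∈ T, G.Adj i j).card) :=
        le_trans (not_le.1 hN).le (Nat.mul_le_mul_left _ (by convert a2))
      have a4 : (n : ℝ) ≤ 20 * (T.card + (Tᶜ.filter fun i => ∃ j ∈ T, G.Adj i j).card) := by
        exact_mod_cast a3
      nlinarith [mul_le_mul_of_nonneg_left t6 T0]
  · by_cases b : (p : ℝ) * T.card ≤ 1 / 100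
    · exact (FP.pr_mono fun G hG => by convert hG.2).trans (one T b)
    · rw [FP.pr_false fun G hG => b hG.1]
      positivity
  · have a0 : (0 : ℝ) < (t : ℝ) ^ 6 := by positivity
    have a1 := Pool.Agent.P.MP_f57657_co.card_small (V := Fin n) (a := 1 / (t : ℝ) ^ 6) (by positivity)
      (by rw [div_le_one a0]; linarith) k
    rw [Fintype.card_fin, one_div_one_div] at a1
    have a2 : ((t : ℝ) ^ 6) ^ k ≤ Real.exp (n / 200) := by
      calc _ ≤ (Real.exp t ^ 6) ^ k := by
            gcongr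
            linarith [Real.add_one_le_exp (t : ℝ)]
        _ = Real.exp (k * (6 * t)) := by
            rw [Real.exp_nat_mul, ← Real.exp_nat_mul]
            norm_num
        _ ≤ _ := by
            refine Real.exp_le_exp.2 ?_
            nlinarith [mul_le_mul_of_nonneg_left t5 (mul_nonneg k0 (by linarith : (0 : ℝ) ≤ t))]
    have a3 : Real.exp (1 / (t : ℝ) ^ 6 * n) ≤ Real.exp (n / 200) := by
      refine Real.exp_le_exp.2 ?_
      rw [one_div, ← div_eq_inv_mul]
      exact div_le_div_of_nonneg_left n0 (by norm_num) (by linarith)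
    have a4 : (2 : ℝ) * (t : ℝ) ^ 6 ≤ n := by exact_mod_cast h1
    calc _ ≤ Real.exp (n / 200) * Real.exp (n / 200) * Real.exp (-(n / 50)) := by
          refine mul_le_mul_of_nonneg_right (le_trans (by convert a1) ?_) (Real.exp_pos _).le
          gcongr
      _ ≤ Real.exp (((t ^ 4 : ℕ) : ℝ) * (-1)) := by
          rw [← Real.exp_add, ← Real.exp_add, Real.exp_le_exp]
          push_cast
          nlinarith [mul_le_mul_of_nonneg_left t2 (by positivity : (0 : ℝ) ≤ (t : ℝ) ^ 4)]
      _ ≤ _ := by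
          rw [Real.exp_nat_mul]
          refine pow_le_pow_left₀ (Real.exp_pos _).le ?_ _
          rw [Real.exp_neg, ← one_div]
          exact one_div_le_one_div_of_le two_pos (by linarith [Real.add_one_le_exp (1 : ℝ)])

end Pool.Agent.P.MP_f57657_co.RS
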