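import Pool.Agent.P.MP_f57657_co.RS.Base

/-! Small sets have many unique neighbours. -/

open Matrix Finset Polynomial

namespace Pool.Agent.P.MP_f57657_co.RS

open DG DG.RowAux

namespace Exp2Aux

variable {p : unitInterval} {n : ℕ}

theorem single (T : Finset (Fin n)) {j : Fin n} (hj : j ∈ T) :
    (mB p n).pr (fun a => T.filter (fun k => a k = true) = {j}) =
      (p : ℝ) * (1 - p) ^ (T.card - 1) := by
  classical
  have h := bits_prod (p := p) T fun k b => if (b = true ↔ k = j) then (1 : ℝ) else 0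
  refine Eq.trans (FP.ex_congr fun a => ?_) (h.trans ?_)
  · rw [prod_boole]
    have q : T.filter (fun k => a k = true) = {j} ↔ ∀ k ∈ T, (a k = true ↔ k = j) := by
      refine ⟨fun e k hk => ?_, fun e => ?_⟩
      · simpa [hk] using Finset.ext_iff.1 e k
      · ext k
        rw [mem_filter, mem_singleton]
        exact ⟨fun h => (e k h.1).1 h.2, fun h => ⟨h ▸ hj, (e k (h ▸ hj)).2 h⟩⟩
    simp only [q]
    congr
  · rw [← mul_prod_erase T _ hj, prod_congr rfl (g := fun _ => 1 - (p : ℝ)) fun k hk => by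
      simp [(mem_erase.1 hk).1], prod_const, card_erase_of_mem hj]
    simp

theorem one (T : Finset (Fin n)) (h : (p : ℝ) * T.card ≤ 1 / 100) :
    99 / 100 * ((p : ℝ) * T.card) ≤
      (mB p n).pr fun a => (T.filter fun k => a k = true).card = 1 := by
  classical
  have h0 := p.2.1
  have h1 := p.2.2
  have e := FP.sum_pr_eq (μ := mB p n) (fun a => T.filter fun k => a k = true)
    (T.image fun j => {j})
  rw [sum_image fun a _ b _ h => singleton_injective h, sum_congr rfl fun j hj => single T hj,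
    sum_const, nsmul_eq_mul] at e
  refine le_trans ?_ (e.le.trans (FP.pr_mono fun a ha => ?_))
  · have b := one_add_mul_le_pow (a := -(p : ℝ)) (by linarith) (T.card - 1)
    have c : ((T.card - 1 : ℕ) : ℝ) ≤ T.card := by exact_mod_cast Nat.sub_le _ _
    have d : 99 / 100 ≤ (1 - (p : ℝ)) ^ (T.card - 1) := by
      rw [sub_eq_add_neg]
      nlinarith
    have f : 0 ≤ (p : ℝ) * T.card := by positivity
    nlinarith
  · obtain ⟨j, _, hj⟩ := mem_image.1 ha
    rw [← hj, card_singleton]

theorem half : Real.exp (-1) ≤ 1 / 2 := by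
  have := Real.add_one_le_exp 1
  rw [Real.exp_neg, one_div]
  exact inv_anti₀ (by norm_num) (by linarith)

open Classical in
theorem fixed (T : Finset (Fin n)) (h : (p : ℝ) * T.card ≤ 1 / 100) (hT : T.Nonempty)
    (hn : 1 ≤ n * (p : ℝ)) :
    (mG p n).pr (fun G => ((univ.filter fun i => i ∉ T ∧
      (T.filter fun j => G.Adj i j).card = 1).card : ℝ) ≤ n * (p : ℝ) / 500) ≤
      Real.exp (-(2 / 5 * (n * (p : ℝ)))) ^ T.card := by
  have h0 := p.2.1
  have hW : ∀ i ∈ Tᶜ, i ∉ T := fun i hi => mem_compl.1 hi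
  have e := ex_rows (p := p) T Tᶜ hW (fun _ => 1)
    (fun i G => if (T.filter fun j => G.Adj i j).card = 1 then 1 / 2 else 1)
    (c := Real.exp (-(99 / 200 * ((p : ℝ) * T.card)))) (Real.exp_pos _).le (fun _ => zero_le_one)
    (fun i G => by split_ifs <;> norm_num) (fun _ _ _ _ => rfl) ?_ ?_
  · rw [FP.ex_const, mul_one] at e
    refine (FP.pr_markov (c := Real.exp (-(n * (p : ℝ) / 500))) (Real.exp_pos _)
      (fun G => ?_) fun G hG => ?_).trans
      ((div_le_div_of_nonneg_right e (Real.exp_pos _).le).trans ?_)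
    · exact mul_nonneg zero_le_one (prod_nonneg fun i _ => by split_ifs <;> norm_num)
    · rw [one_mul, prod_ite, prod_const, prod_const, one_pow, mul_one]
      have : (Tᶜ.filter fun i => (T.filter fun j => G.Adj i j).card = 1) =
          univ.filter fun i => i ∉ T ∧ (T.filter fun j => G.Adj i j).card = 1 := by
        ext i
        simp
      rw [this]
      refine le_trans ?_ (pow_le_pow_left₀ (Real.exp_pos _).le half _)
      rw [← Real.exp_nat_mul]
      exact Real.exp_le_exp.2 (by linarith)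
    · rw [← Real.exp_nat_mul, ← Real.exp_nat_mul, ← Real.exp_sub, card_compl, Fintype.card_fin,
        Nat.cast_sub (by simpa using card_le_univ T)]
      refine Real.exp_le_exp.2 ?_
      have s1 : (1 : ℝ) ≤ T.card := by exact_mod_cast hT.card_pos
      have a1 : (T.card : ℝ) * ((p : ℝ) * T.card) ≤ T.card * (n * (p : ℝ)) / 100 := by nlinarith
      have a2 : n * (p : ℝ) ≤ T.card * (n * (p : ℝ)) := by nlinarith
      nlinarith
  · intro i hi k hk hki G a
    have : (T.filter fun j => (rsm T i (hW i hi) G a).Adj k j) = T.filter fun j => G.Adj k j :=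
      filter_congr fun j hj => rsm_out T i _ G a k j (fun e => hki e.1) fun e => hW k hk e.2
    simp only [this]
  · intro i hi G _
    have e1 : ∀ a : Bv n, (if (T.filter fun j => (rsm T i (hW i hi) G a).Adj i j).card = 1
        then (1 / 2 : ℝ) else 1) =
        1 - 1 / 2 * if (T.filter fun k => a k = true).card = 1 then 1 else 0 := by
      intro a
      have : (T.filter fun j => (rsm T i (hW i hi) G a).Adj i j) = T.filter fun k => a k = true :=
        filter_congr fun j hj => rsm_in T i _ G a j hj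
      rw [this]
      split_ifs <;> norm_num
    rw [FP.ex_congr e1, FP.ex_sub, FP.ex_const, FP.ex_mul]
    have e2 := one (p := p) T h
    have e3 := Real.add_one_le_exp (-(99 / 200 * ((p : ℝ) * T.card)))
    have e4 : (mB p n).ex (fun a => if (T.filter fun k => a k = true).card = 1 then (1 : ℝ) else 0) =
        (mB p n).pr fun a => (T.filter fun k => a k = true).card = 1 :=
      FP.ex_congr fun a => by congr
    linarith

theorem sets {a : ℝ} (h0 : 0 ≤ a) (h1 : n * a ≤ 1) :
    ∑ T ∈ (univ : Finset (Finset (Fin n))).erase ∅, a ^ T.card ≤ 2 * (n * a) := by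
  have e1 : ∑ R : Finset (Fin n), a ^ R.card = (a + 1) ^ n := by
    simpa using Finset.sum_pow_mul_eq_add_pow a 1 (univ : Finset (Fin n))
  have e2 : (a + 1) ^ n ≤ Real.exp (n * a) := by
    rw [Real.exp_nat_mul]
    exact pow_le_pow_left₀ (by linarith) (Real.add_one_le_exp a) _
  have e3 := add_sum_erase univ (fun R : Finset (Fin n) => a ^ R.card) (mem_univ ∅)
  have e4 : 0 ≤ n * a := by positivity
  have e5 := Real.abs_exp_sub_one_le (x := n * a) (by rwa [abs_of_nonneg e4])
  rw [abs_of_nonneg e4] at e5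
  have e6 := le_abs_self (Real.exp (n * a) - 1)
  simp only [card_empty, pow_zero] at e3
  linarith

theorem num {t : ℕ} {x : ℝ} (ht : 3 ≤ t) (hn : 2 * n + 1 ≤ 2 ^ t) (hx : (t : ℝ) ^ 6 ≤ x) :
    1 ≤ x ∧ 2 * (n * Real.exp (-(2 / 5 * x))) ≤ (1 / 2) ^ t ^ 4 := by
  have t3 : (3 : ℝ) ≤ t := by exact_mod_cast ht
  have t2 : (9 : ℝ) ≤ (t : ℝ) ^ 2 := by nlinarith
  have t4 : (t : ℝ) ≤ (t : ℝ) ^ 4 := le_self_pow₀ (by linarith) (by norm_num)
  have t6 : 9 * (t : ℝ) ^ 4 ≤ (t : ℝ) ^ 6 := by nlinarith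
  have a0 : 0 < Real.exp (-(2 / 5 * x)) := Real.exp_pos _
  have c1 : (2 * n + 1 : ℝ) ≤ 2 ^ t := by exact_mod_cast hn
  have c2 : (2 : ℝ) ^ t ≤ Real.exp t := by
    have := Real.add_one_le_exp 1
    rw [← Real.exp_one_pow]
    exact pow_le_pow_left₀ (by norm_num) (by linarith) _
  refine ⟨by linarith, ?_⟩
  calc _ ≤ Real.exp t * Real.exp (-(2 / 5 * x)) := by
        rw [← mul_assoc]
        exact mul_le_mul_of_nonneg_right (by linarith) a0.le
    _ ≤ Real.exp (-1) ^ t ^ 4 := by
      rw [← Real.exp_add, ← Real.exp_nat_mul]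
      refine Real.exp_le_exp.2 ?_
      push_cast
      linarith
    _ ≤ _ := pow_le_pow_left₀ (Real.exp_pos _).le half _

end Exp2Aux

open Classical Exp2Aux in
theorem rExp2 : RExp2 := by
  refine ⟨3, fun p n t ht h => ?_⟩
  obtain ⟨hx, b1⟩ := num ht h.1 h.2.1
  have a0 : 0 < Real.exp (-(2 / 5 * (n * (p : ℝ)))) := Real.exp_pos _
  have b2 : ((1 : ℝ) / 2) ^ t ^ 4 ≤ 1 := pow_le_one₀ (by norm_num) (by norm_num)
  have b3 : 0 ≤ n * Real.exp (-(2 / 5 * (n * (p : ℝ)))) := by positivity
  refine le_trans ?_ ((sets a0.le (by linarith)).trans b1)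
  have h1 := FP.pr_le_sum (μ := mG p n) (univ.filter fun T : Finset (Fin n) =>
    (p : ℝ) * T.card ≤ 1 / 100 ∧ T.Nonempty) (E := fun G => ¬ Exp2 p G)
    (fun T G => ((univ.filter fun i => i ∉ T ∧
      (T.filter fun j => G.Adj i j).card = 1).card : ℝ) ≤ n * (p : ℝ) / 500) fun G hG => by
    by_contra hc
    exact hG fun T h1 h2 => not_le.1 fun h3 => hc ⟨T, mem_filter.2 ⟨mem_univ _, h1, h2⟩, h3⟩
  refine h1.trans (le_trans (sum_le_sum fun T hT => ?_) (sum_le_sum_of_subset_of_nonneg
    (fun T hT => mem_erase.2 ⟨(mem_filter.1 hT).2.2.ne_empty, mem_univ _⟩)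
    fun _ _ _ => pow_nonneg a0.le _))
  exact fixed T (mem_filter.1 hT).2.1 (mem_filter.1 hT).2.2 hx

end Pool.Agent.P.MP_f57657_co.RS
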