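import Pool.Agent.P.MP_f57657_co.RS.Base

/-! Fourier inversion: small Fourier coefficients give approximate translation invariance. -/

open Finset

namespace Pool.Agent.P.MP_f57657_co.RS

open DG

namespace FIAux

variable {Ω Γ : Type} [Fintype Ω] [AddCommGroup Γ] [Fintype Γ] (μ : FP Ω)

theorem inv (Z : Ω → Γ) (z : Γ) :
    ((μ.pr (fun ω => Z ω = z) : ℝ) : ℂ) * Fintype.card Γ =
      ∑ ψ : AddChar Γ ℂ, ψ (-z) * μ.exc fun ω => ψ (Z ω) := by
  classical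
  have h1 : ∀ ω, ((if Z ω = z then (1 : ℝ) else 0 : ℝ) : ℂ) * Fintype.card Γ =
      ∑ ψ : AddChar Γ ℂ, ψ (-z) * ψ (Z ω) := by
    intro ω
    simp only [← AddChar.map_add_eq_mul]
    rw [AddChar.sum_apply_eq_ite]
    by_cases h : Z ω = z
    · simp [h]
    · have : -z + Z ω ≠ 0 := fun e => h (neg_add_eq_zero.1 e).symm
      simp [h, this]
  simp only [FP.pr, FP.ex, FP.exc, Complex.ofReal_mul, Complex.ofReal_sum]
  rw [sum_mul]
  simp only [mul_sum]
  rw [sum_comm]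
  refine sum_congr rfl fun ω _ => ?_
  have h2 : ∑ ψ : AddChar Γ ℂ, ψ (-z) * ((μ.w ω : ℂ) * ψ (Z ω)) =
      (μ.w ω : ℂ) * ∑ ψ : AddChar Γ ℂ, ψ (-z) * ψ (Z ω) := by
    rw [mul_sum]
    exact sum_congr rfl fun ψ _ => by ring
  rw [h2, ← h1 ω, mul_assoc]

theorem point (Z : Ω → Γ) (a : Γ) {η : ℝ} (hη : 0 ≤ η)
    (H : ∀ ψ : AddChar Γ ℂ, ψ a ≠ 1 → ‖μ.exc fun ω => ψ (Z ω)‖ ≤ η) (z : Γ) :
    μ.pr (fun ω => Z ω = z) ≤ μ.pr (fun ω => Z ω + a = z) + 2 * η := by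
  have hc : (0 : ℝ) < Fintype.card Γ := Nat.cast_pos.2 Fintype.card_pos
  have e1 : μ.pr (fun ω => Z ω + a = z) = μ.pr (fun ω => Z ω = z - a) :=
    FP.pr_congr fun ω => eq_sub_iff_add_eq.symm
  have e2 : (((μ.pr (fun ω => Z ω = z) - μ.pr (fun ω => Z ω = z - a)) * Fintype.card Γ : ℝ) : ℂ) =
      ∑ ψ : AddChar Γ ℂ, ψ (-z) * (1 - ψ a) * μ.exc fun ω => ψ (Z ω) := by
    rw [Complex.ofReal_mul, Complex.ofReal_sub, Complex.ofReal_natCast, sub_mul, inv, inv,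
      ← sum_sub_distrib]
    refine sum_congr rfl fun ψ _ => ?_
    rw [neg_sub, sub_eq_add_neg a z, AddChar.map_add_eq_mul]
    ring
  have e3 : ‖∑ ψ : AddChar Γ ℂ, ψ (-z) * (1 - ψ a) * μ.exc fun ω => ψ (Z ω)‖ ≤
      2 * η * Fintype.card Γ := by
    refine (norm_sum_le _ _).trans ?_
    have : ∀ ψ ∈ (univ : Finset (AddChar Γ ℂ)),
        ‖ψ (-z) * (1 - ψ a) * μ.exc fun ω => ψ (Z ω)‖ ≤ 2 * η := by
      intro ψ _
      by_cases h : ψ a = 1
      · simp [h, hη]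
      · rw [norm_mul, norm_mul, AddChar.norm_apply, one_mul]
        have h2 := norm_sub_le 1 (ψ a)
        rw [norm_one, AddChar.norm_apply] at h2
        exact mul_le_mul (by linarith) (H ψ h) (norm_nonneg _) (by norm_num)
    refine (sum_le_card_nsmul _ _ _ this).trans ?_
    rw [card_univ, AddChar.card_eq, nsmul_eq_mul, mul_comm]
  rw [← e2, Complex.norm_real, Real.norm_eq_abs] at e3
  have e4 := le_of_mul_le_mul_right ((le_abs_self _).trans e3) hc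
  rw [e1]
  linarith

omit [AddCommGroup Γ] in
theorem split (Z : Ω → Γ) (B : Γ → Prop) [DecidablePred B] :
    μ.pr (fun ω => B (Z ω)) = ∑ z ∈ univ.filter B, μ.pr fun ω => Z ω = z := by
  classical
  simp only [FP.pr]
  rw [← FP.ex_sum]
  refine FP.ex_congr fun ω => ?_
  by_cases h : B (Z ω)
  · rw [if_pos h, sum_eq_single (Z ω)]
    · simp
    · intro z _ hz
      rw [if_neg (Ne.symm hz)]
    · intro hz
      exact absurd (mem_filter.2 ⟨mem_univ _, h⟩) hz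
  · rw [if_neg h, eq_comm]
    refine sum_eq_zero fun z hz => if_neg fun e => h ?_
    rw [e]
    exact (mem_filter.1 hz).2

theorem shift (Z : Ω → Γ) (a : Γ) (B : Γ → Prop) {η : ℝ} (hη : 0 ≤ η)
    (H : ∀ ψ : AddChar Γ ℂ, ψ a ≠ 1 → ‖μ.exc fun ω => ψ (Z ω)‖ ≤ η) :
    μ.pr (fun ω => B (Z ω)) ≤ μ.pr (fun ω => B (Z ω + a)) + 2 * Fintype.card Γ * η := by
  classical
  rw [split μ Z B, split μ (fun ω => Z ω + a) B]
  refine (sum_le_sum fun z _ => point μ Z a hη H z).trans ?_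
  rw [sum_add_distrib, sum_const, nsmul_eq_mul]
  have : ((univ.filter B).card : ℝ) ≤ Fintype.card Γ := Nat.cast_le.2 (card_le_univ _)
  nlinarith

omit [AddCommGroup Γ] [Fintype Γ] in
theorem comm {T : Type} [Fintype T] (f : T → Ω → ℝ) :
    (ex fun t : T => μ.ex (f t)) = μ.ex fun ω => ex fun t : T => f t ω := by
  simp only [ex, FP.ex]
  rw [sum_comm, sum_div]
  refine sum_congr rfl fun ω _ => ?_
  rw [← mul_sum, mul_div_assoc]

end FIAux

theorem rFI : RFI := by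
  intro Ω Γ T _ _ _ _ _ μ Z h B η hη H
  have h1 : ex (fun _ : T => μ.pr fun ω => B (Z ω)) ≤
      ex fun t : T => μ.pr (fun ω => B (Z ω + h t)) + 2 * Fintype.card Γ * η :=
    ex_mono fun t => FIAux.shift μ Z (h t) B hη fun ψ hψ => H ψ ⟨t, hψ⟩
  rw [ex_const, ex_add, ex_const] at h1
  have h2 : (ex fun t : T => μ.pr fun ω => B (Z ω + h t)) =
      μ.ex fun ω => pr fun t => B (Z ω + h t) := by
    simp only [FP.pr, pr]
    exact FIAux.comm μ _
  rw [h2] at h1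
  exact h1

end Pool.Agent.P.MP_f57657_co.RS
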