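import Pool.Agent.P.MP_f57657_co.RS.Base
import Pool.Agent.P.MP_f57657_co.DG.Fin

/-! From integer matrices and finite weights to the final form. -/

open Finset Filter Topology MeasureTheory Matrix

namespace Pool.Agent.P.MP_f57657_co.RS

open DG

theorem iso_of_rooted {n : ℕ} {G H : Gr n} (hG : Rooted G) (h : IsSwitching G H ((n : ℝ) - 1)) :
    Nonempty (H ≃g G) := by
  unfold IsSwitching at h
  rw [Subsingleton.elim (Fintype.ofFinite (Fin n)) (Fin.fintype n),
    Subsingleton.elim (fun a b : Fin n => Classical.propDecidable (a = b))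
      (instDecidableEqFin n)] at h
  obtain ⟨S, U, h1, h2, h3, h4⟩ := h
  obtain ⟨u, hu⟩ : ∃ u, u ∉ S := by
    by_contra hc
    have : S = univ := eq_univ_iff_forall.2 fun u => by
      by_contra hu
      exact hc ⟨u, hu⟩
    rw [this, card_univ, Fintype.card_fin] at h1
    linarith
  refine hG H U u h2 (fun i => ?_) ?_
  · rw [h3 u hu i]
    by_cases e : i = u
    · rw [if_pos e, if_pos e]
    · rw [if_neg e, if_neg e]
  · rw [@adj_real n H (fun _ _ => Classical.propDecidable _),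
      @adj_real n G (fun _ _ => Classical.propDecidable _)] at h4
    exact h4

open Classical in
theorem final_of (hM : RMain) (hP : RPar) (p : ℕ → unitInterval)
    (hp : ∀ᶠ n : ℕ in atTop, Real.log n ^ 8 ≤ (n : ℝ) * (p n : ℝ) ∧ (p n : ℝ) ≤ 1 / 2) :
    Tendsto (fun n : ℕ => (SimpleGraph.binomialRandom (Fin n) (p n)).real
      {G | G.Connected ∧ (∀ v, 2 ≤ G.degree v) ∧ ∀ H : SimpleGraph (Fin n),
        IsSwitching G H ((n : ℝ) - 1) → Nonempty (H ≃g G)}) atTop (𝓝 1) := by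
  rw [Metric.tendsto_atTop]
  intro ε hε
  obtain ⟨N, hN⟩ := hM (ε / 2) (by positivity)
  obtain ⟨n0, h0⟩ := hP N
  obtain ⟨n1, h1⟩ := eventually_atTop.1 hp
  refine ⟨n0 + n1 + 1, fun n hn => ?_⟩
  obtain ⟨n, rfl⟩ : ∃ m, n = m + 1 := ⟨n - 1, by omega⟩
  obtain ⟨t, j0, ht, hj⟩ := h0 n (by omega) (p (n + 1)) (h1 _ (by omega)).1 (h1 _ (by omega)).2
  set A : Set (Gr (n + 1)) := {G | G.Connected ∧ (∀ v, 2 ≤ G.degree v) ∧
    ∀ H : SimpleGraph (Fin (n + 1)), IsSwitching G H (((n + 1 : ℕ) : ℝ) - 1) →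
      Nonempty (H ≃g G)} with hA
  have h2 : (SimpleGraph.binomialRandom (Fin (n + 1)) (p (n + 1))).real Aᶜ ≤ ε / 2 := by
    refine (real_le_Pr _ Aᶜ).trans ?_
    rw [← mG_pr fun G => G ∈ Aᶜ]
    refine le_trans (FP.pr_mono fun G hG => ?_) (hN _ n t j0 ht hj)
    refine fun hc => hG ⟨hc.1.1, fun v => ?_, fun H a => iso_of_rooted hc.2 a⟩
    obtain ⟨a, b, hab, ha, hb⟩ := hc.1.2 v
    rw [← SimpleGraph.card_neighborFinset_eq_degree]
    exact one_lt_card.2 ⟨a, by simpa using ha, b, by simpa using hb, hab⟩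
  have h3 := measureReal_union_le (μ := SimpleGraph.binomialRandom (Fin (n + 1)) (p (n + 1))) A Aᶜ
  rw [Set.union_compl_self, probReal_univ] at h3
  have h4 : (SimpleGraph.binomialRandom (Fin (n + 1)) (p (n + 1))).real A ≤ 1 := measureReal_le_one
  rw [Real.dist_eq, abs_lt]
  constructor <;> linarith

end Pool.Agent.P.MP_f57657_co.RS
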