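import Pool.Agent.P.MP_f57657_co.RS.Base

/-! Few generators suffice for a lattice spanned by short vectors. -/

open Finset

namespace Pool.Agent.P.MP_f57657_co.RS

open DG

namespace GenAux

theorem greedy {κ : Type} [DecidableEq κ] (T : Finset κ) (f : Finset κ → ℕ)
    (P : Finset κ → κ → Prop) (N : ℕ) (hN : ∀ S ⊆ T, f S ≤ N)
    (hP : ∀ S ⊆ T, ∀ k ∈ T, ¬ P S k → f S < f (insert k S)) :
    ∃ S ⊆ T, S.card ≤ N ∧ ∀ k ∈ T, P S k := by
  classical
  obtain ⟨S, hS, hmax⟩ := exists_max_image (T.powerset.filter fun S => S.card ≤ f S) card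
    ⟨∅, by simp⟩
  rw [mem_filter, mem_powerset] at hS
  refine ⟨S, hS.1, hS.2.trans (hN S hS.1), fun k hk => ?_⟩
  by_contra hn
  have h1 := hP S hS.1 k hk hn
  have hkS : k ∉ S := fun h => by
    rw [insert_eq_of_mem h] at h1
    exact lt_irrefl _ h1
  have h2 := hmax (insert k S) (by
    rw [mem_filter, mem_powerset, card_insert_of_notMem hkS]
    exact ⟨insert_subset hk hS.1, by omega⟩)
  rw [card_insert_of_notMem hkS] at h2
  omega

theorem chain {κ G : Type} [AddCommGroup G] (T : Finset κ) (u : κ → G) (N : ℕ)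
    (hfin : Finite (AddSubgroup.closure (u '' T)))
    (hN : Nat.card (AddSubgroup.closure (u '' T)) ≤ 2 ^ N) :
    ∃ S ⊆ T, S.card ≤ N ∧ ∀ k ∈ T, u k ∈ AddSubgroup.closure (u '' S) := by
  classical
  have hle : ∀ S ⊆ T, AddSubgroup.closure (u '' (S : Set κ)) ≤ AddSubgroup.closure (u '' T) :=
    fun S hS => AddSubgroup.closure_mono (Set.image_mono (coe_subset.2 hS))
  have hf : ∀ S ⊆ T, Finite (AddSubgroup.closure (u '' (S : Set κ))) := fun S hS =>
    Finite.of_injective _ (AddSubgroup.inclusion_injective (hle S hS))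
  refine greedy T (fun S => Nat.log 2 (Nat.card (AddSubgroup.closure (u '' (S : Set κ)))))
    (fun S k => u k ∈ AddSubgroup.closure (u '' (S : Set κ))) N ?_ ?_
  · intro S hS
    have h1 : Nat.card (AddSubgroup.closure (u '' (S : Set κ))) ≤ 2 ^ N :=
      (AddSubgroup.card_le_of_le (hle S hS)).trans hN
    calc _ ≤ Nat.log 2 (2 ^ N) := Nat.log_mono_right h1
      _ = N := Nat.log_pow (by norm_num) N
  · intro S hS k hk hn
    have hS' : insert k S ⊆ T := insert_subset hk hS
    have := hf S hS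
    have := hf _ hS'
    have h1 : AddSubgroup.closure (u '' (S : Set κ)) ≤
        AddSubgroup.closure (u '' ((insert k S : Finset κ) : Set κ)) :=
      AddSubgroup.closure_mono (Set.image_mono (coe_subset.2 (subset_insert k S)))
    have h2 : u k ∈ AddSubgroup.closure (u '' ((insert k S : Finset κ) : Set κ)) :=
      AddSubgroup.subset_closure ⟨k, by simp, rfl⟩
    obtain ⟨c, hc⟩ := AddSubgroup.card_dvd_of_le h1
    have hpos : 0 < Nat.card (AddSubgroup.closure (u '' (S : Set κ))) := Nat.card_pos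
    have hpos' : 0 < Nat.card (AddSubgroup.closure (u '' ((insert k S : Finset κ) : Set κ))) :=
      Nat.card_pos
    have hc2 : 2 ≤ c := by
      by_contra hlt
      have : c = 0 ∨ c = 1 := by omega
      rcases this with rfl | rfl
      · omega
      · have := AddSubgroup.eq_of_le_of_card_ge h1 (by omega)
        exact hn (this ▸ h2)
    have h3 : Nat.card (AddSubgroup.closure (u '' (S : Set κ))) * 2 ≤
        Nat.card (AddSubgroup.closure (u '' ((insert k S : Finset κ) : Set κ))) := by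
      rw [hc]
      exact Nat.mul_le_mul_left _ hc2
    have h4 := Nat.log_mono_right (b := 2) h3
    rw [Nat.log_mul_base (by norm_num) hpos.ne'] at h4
    exact h4

theorem basis {ι κ : Type} (D : Finset ι) (T : Finset κ) (v : κ → ι → ℤ)
    (h0 : ∀ k ∈ T, ∀ i, i ∉ D → v k i = 0) :
    ∃ S ⊆ T, S.card ≤ D.card ∧
      ∀ k ∈ T, ∃ c : κ → ℚ, ∀ i, (v k i : ℚ) = ∑ j ∈ S, c j * v j i := by
  classical
  let u : κ → D → ℚ := fun k i => v k i
  obtain ⟨S, hS, hc, hP⟩ := greedy T
    (fun S => Module.finrank ℚ (Submodule.span ℚ (u '' (S : Set κ))))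
    (fun S k => u k ∈ Submodule.span ℚ (u '' (S : Set κ))) D.card
    (fun S _ => by
      have := Submodule.finrank_le (Submodule.span ℚ (u '' (S : Set κ)))
      rwa [Module.finrank_fintype_fun_eq_card, Fintype.card_coe] at this)
    (fun S _ k _ hn => by
      refine Submodule.finrank_lt_finrank_of_lt (lt_of_le_of_ne
        (Submodule.span_mono (Set.image_mono (coe_subset.2 (subset_insert k S)))) fun h => hn ?_)
      rw [h]
      exact Submodule.subset_span ⟨k, by simp, rfl⟩)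
  refine ⟨S, hS, hc, fun k hk => ?_⟩
  obtain ⟨c, hc⟩ := (Submodule.mem_span_image_finset_iff_exists_fun' ℚ).1 (hP k hk)
  refine ⟨c, fun i => ?_⟩
  by_cases hi : i ∈ D
  · have := congrFun hc ⟨i, hi⟩
    simpa [u, Finset.sum_apply] using this.symm
  · rw [h0 k hk i hi, sum_eq_zero fun j hj => by rw [h0 j (hS hj) i hi]; simp]
    simp

theorem rep {ι κ : Type} (T S : Finset κ) (v : κ → ι → ℤ)
    (hs : ∀ k ∈ T, ∃ c : κ → ℚ, ∀ i, (v k i : ℚ) = ∑ j ∈ S, c j * v j i)
    (y : (ι → ℤ) ⧸ AddSubgroup.closure (v '' S))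
    (hy : y ∈ AddSubgroup.closure
      ((fun k => (QuotientAddGroup.mk (v k) : (ι → ℤ) ⧸ AddSubgroup.closure (v '' S))) '' T)) :
    ∃ x : ι → ℤ, QuotientAddGroup.mk x = y ∧ ∃ c : κ → ℚ, (∀ j, 0 ≤ c j ∧ c j < 1) ∧
      ∀ i, (x i : ℚ) = ∑ j ∈ S, c j * v j i := by
  have h1 : ∃ x : ι → ℤ, QuotientAddGroup.mk x = y ∧ ∃ c : κ → ℚ,
      ∀ i, (x i : ℚ) = ∑ j ∈ S, c j * v j i := by
    induction hy using AddSubgroup.closure_induction with
    | mem y hy =>
      obtain ⟨k, hk, rfl⟩ := hy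
      exact ⟨v k, rfl, hs k hk⟩
    | zero => exact ⟨0, rfl, 0, fun i => by simp⟩
    | add y z _ _ hy hz =>
      obtain ⟨x, rfl, c, hc⟩ := hy
      obtain ⟨x', rfl, c', hc'⟩ := hz
      refine ⟨x + x', rfl, c + c', fun i => ?_⟩
      simp [hc, hc', add_mul, sum_add_distrib]
    | neg y _ hy =>
      obtain ⟨x, rfl, c, hc⟩ := hy
      refine ⟨-x, rfl, -c, fun i => ?_⟩
      simp [hc]
  obtain ⟨x, rfl, c, hc⟩ := h1
  refine ⟨x - ∑ j ∈ S, ⌊c j⌋ • v j, ?_, fun j => Int.fract (c j),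
    fun j => ⟨Int.fract_nonneg _, Int.fract_lt_one _⟩, fun i => ?_⟩
  · rw [QuotientAddGroup.eq]
    have : -(x - ∑ j ∈ S, ⌊c j⌋ • v j) + x = ∑ j ∈ S, ⌊c j⌋ • v j := by abel
    rw [this]
    exact AddSubgroup.sum_mem _ fun j hj =>
      AddSubgroup.zsmul_mem _ (AddSubgroup.subset_closure (Set.mem_image_of_mem v (mem_coe.2 hj))) _
  · simp only [Pi.sub_apply, Finset.sum_apply, Pi.smul_apply, smul_eq_mul, Int.cast_sub,
      Int.cast_sum, Int.cast_mul, hc, ← sum_sub_distrib, Int.fract, sub_mul]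

theorem close {ι κ : Type} (S : Finset κ) (v : κ → ι → ℤ) (h b : ℕ) (i : ι)
    (hh : ∀ k ∈ S, |v k i| ≤ h) (hb : S.card * h ≤ 2 ^ b) (c c' : κ → ℚ)
    (hc : ∀ j, 0 ≤ c j ∧ c j < 1) (hc' : ∀ j, 0 ≤ c' j ∧ c' j < 1) :
    |∑ j ∈ S, c j * v j i - ∑ j ∈ S, c' j * v j i| < 2 ^ b := by
  rw [← sum_sub_distrib]
  have h1 : ∀ j ∈ S, |c j * v j i - c' j * v j i| ≤ |c j - c' j| * h := fun j hj => by
    rw [← sub_mul, abs_mul]
    refine mul_le_mul_of_nonneg_left ?_ (abs_nonneg _)
    exact_mod_cast hh j hj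
  refine ((abs_sum_le_sum_abs _ _).trans (sum_le_sum h1)).trans_lt ?_
  rcases S.eq_empty_or_nonempty with rfl | hne
  · simp
  rcases Nat.eq_zero_or_pos h with rfl | hpos
  · simp
  have h2 : ∑ j ∈ S, |c j - c' j| * h < ∑ _j ∈ S, (h : ℚ) := by
    refine sum_lt_sum_of_nonempty hne fun j _ => ?_
    have : |c j - c' j| < 1 := by
      rw [abs_lt]
      constructor <;> linarith [hc j, hc' j]
    have hp : (0 : ℚ) < h := by exact_mod_cast hpos
    nlinarith
  refine h2.trans_le ?_
  rw [sum_const, nsmul_eq_mul]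
  exact_mod_cast hb

end GenAux

open GenAux in
theorem rGen : RGen := by
  intro ι κ _ D T v h b h0 hh hb
  classical
  obtain ⟨S0, hS0, hc0, hs⟩ := basis D T v h0
  have hb' : S0.card * h ≤ 2 ^ b := (Nat.mul_le_mul_right h hc0).trans hb
  set u : κ → (ι → ℤ) ⧸ AddSubgroup.closure (v '' S0) := fun k => QuotientAddGroup.mk (v k)
    with hu
  choose x hx c hc hxc using fun y : AddSubgroup.closure (u '' T) => rep T S0 v hs y.1 y.2
  have : NeZero (2 ^ b) := ⟨by positivity⟩
  have hinj : Function.Injective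
      fun (y : AddSubgroup.closure (u '' T)) (i : D) => ((x y i : ℤ) : ZMod (2 ^ b)) := by
    intro y z hyz
    refine Subtype.ext ?_
    rw [← hx y, ← hx z]
    congr 1
    funext i
    by_cases hi : i ∈ D
    · have h1 := congrFun hyz ⟨i, hi⟩
      have h2 := (ZMod.intCast_eq_intCast_iff_dvd_sub _ _ _).1 h1
      have h3 := close S0 v h b i (fun k hk => hh k (hS0 hk) i) hb' (c z) (c y) (hc z) (hc y)
      rw [← hxc, ← hxc] at h3
      have h4 : |x z i - x y i| < ((2 ^ b : ℕ) : ℤ) := by exact_mod_cast h3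
      have h5 : x z i - x y i = 0 := Int.eq_zero_of_abs_lt_dvd h2 h4
      omega
    · have h1 : ∀ w, x w i = 0 := fun w => by
        have := hxc w i
        rw [sum_eq_zero fun j hj => by rw [h0 j (hS0 hj) i hi]; simp] at this
        exact_mod_cast this
      rw [h1, h1]
  have hfin : Finite (AddSubgroup.closure (u '' T)) := Finite.of_injective _ hinj
  have hcard : Nat.card (AddSubgroup.closure (u '' T)) ≤ 2 ^ (D.card * b) := by
    refine (Nat.card_le_card_of_injective _ hinj).trans ?_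
    rw [Nat.card_eq_fintype_card, Fintype.card_fun, ZMod.card, Fintype.card_coe, ← pow_mul,
      mul_comm]
  obtain ⟨S1, hS1, hc1, hg⟩ := chain T u _ hfin hcard
  refine ⟨S0 ∪ S1, union_subset hS0 hS1, ?_, fun k hk => ?_⟩
  · calc _ ≤ S0.card + S1.card := card_union_le _ _
      _ ≤ D.card + D.card * b := Nat.add_le_add hc0 hc1
      _ = _ := by ring
  · have h1 := hg k hk
    have h2 : u '' (S1 : Set κ) =
        QuotientAddGroup.mk' (AddSubgroup.closure (v '' S0)) '' (v '' S1) := by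
      rw [Set.image_image]
      rfl
    rw [h2, ← AddMonoidHom.map_closure] at h1
    obtain ⟨y, hy, hyk⟩ := h1
    have h3 : -y + v k ∈ AddSubgroup.closure (v '' S0) := QuotientAddGroup.eq.1 hyk
    have h4 : v k = y + (-y + v k) := by abel
    rw [h4]
    refine AddSubgroup.add_mem _ (AddSubgroup.closure_mono (Set.image_mono ?_) hy)
      (AddSubgroup.closure_mono (Set.image_mono ?_) h3)
    · exact coe_subset.2 subset_union_right
    · exact coe_subset.2 subset_union_left

end Pool.Agent.P.MP_f57657_co.RS
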