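import Pool.Agent.P.MP_f57657_co.RS.Base
import Pool.Agent.P.MP_f57657_co.DG.Lev

/-! The derivative of the characteristic polynomial clears the denominators of every rational
orthogonal conjugating matrix. -/

open Matrix Finset Polynomial

namespace Pool.Agent.P.MP_f57657_co.RS

open DG

namespace IntAux

variable {n : ℕ}

theorem semi {A B Z : Matrix (Fin n) (Fin n) ℝ} (h : A * Z = Z * B) (u : ℝ[X]) :
    aeval A u * Z = Z * aeval B u := by
  have hk : ∀ k : ℕ, A ^ k * Z = Z * B ^ k := fun k =>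
    (SemiconjBy.pow_right (a := Z) (x := B) (y := A) h.symm k).symm
  induction u using Polynomial.induction_on' with
  | add a b ha hb => rw [map_add, map_add, add_mul, mul_add, ha, hb]
  | monomial k a =>
    rw [aeval_monomial, aeval_monomial, mul_assoc, hk, ← mul_assoc, ← mul_assoc,
      Algebra.commutes]

theorem diag (θ : Fin n → ℝ) (u : ℝ[X]) :
    aeval (diagonal θ) u = diagonal fun i => eval (θ i) u := by
  induction u using Polynomial.induction_on' with
  | add a b ha hb => rw [map_add, ha, hb, diagonal_add]; simp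
  | monomial k a =>
    rw [aeval_monomial, diagonal_pow, ← Algebra.smul_def, ← diagonal_smul]
    congr 1
    funext i
    simp [eval_monomial]

theorem conj {A O : Matrix (Fin n) (Fin n) ℝ} {θ : Fin n → ℝ} (hO : O * Oᵀ = 1)
    (h : A * O = O * diagonal θ) (u : ℝ[X]) (a b : Fin n) :
    aeval A u a b = ∑ i, eval (θ i) u * O a i * O b i := by
  have h1 : aeval A u = O * (diagonal fun i => eval (θ i) u) * Oᵀ := by
    rw [← diag, ← semi h, mul_assoc, hO, mul_one]
  rw [h1, mul_apply]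
  refine sum_congr rfl fun i _ => ?_
  rw [mul_diagonal, transpose_apply]
  ring

theorem chp {A O : Matrix (Fin n) (Fin n) ℝ} {θ : Fin n → ℝ} (hO : O * Oᵀ = 1)
    (h : A * O = O * diagonal θ) : A.charpoly = ∏ i, (X - C (θ i)) := by
  have hO' : Oᵀ * O = 1 := mul_eq_one_comm.1 hO
  have h1 : A = O * (diagonal θ * Oᵀ) := by rw [← mul_assoc, ← h, mul_assoc, hO, mul_one]
  rw [h1, charpoly_mul_comm, mul_assoc, hO', mul_one, charpoly_diagonal]

theorem ent (M : Matrix (Fin n) (Fin n) ℤ) (θ : Fin n → ℝ) (hθ : ∀ i, IsIntegral ℤ (θ i))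
    (S : Finset (Fin n)) (a b : Fin n) :
    IsIntegral ℤ (aeval (M.map (Int.cast : ℤ → ℝ)) (∏ j ∈ S, (X - C (θ j))) a b) := by
  induction S using Finset.induction_on generalizing a b with
  | empty =>
    rw [prod_empty, map_one, one_apply]
    split_ifs
    exacts [isIntegral_one, isIntegral_zero]
  | insert j S hj ih =>
    rw [prod_insert hj, map_mul, mul_apply]
    refine IsIntegral.sum _ fun k _ => IsIntegral.mul ?_ (ih k b)
    rw [map_sub, aeval_X, aeval_C, Matrix.sub_apply, map_apply, algebraMap_matrix_apply]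
    refine IsIntegral.sub (isIntegral_algebraMap (R := ℤ) (x := M a k)) ?_
    split_ifs
    exacts [hθ j, isIntegral_zero]

theorem key (M : Matrix (Fin n) (Fin n) ℤ) {O : Matrix (Fin n) (Fin n) ℝ} {θ : Fin n → ℝ}
    (hO : O * Oᵀ = 1) (h : M.map (Int.cast : ℤ → ℝ) * O = O * diagonal θ) (i a : Fin n) :
    IsIntegral ℤ (eval (θ i) (∏ j ∈ univ.erase i, (X - C (θ j))) * O a i * O a i) := by
  have hθ : ∀ i, IsIntegral ℤ (θ i) := by
    intro i
    refine ⟨M.charpoly, M.charpoly_monic, ?_⟩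
    rw [← eval_map]
    have : M.charpoly.map (algebraMap ℤ ℝ) = (M.map (Int.cast : ℤ → ℝ)).charpoly :=
      (charpoly_map M (algebraMap ℤ ℝ)).symm
    rw [this, chp hO h, eval_prod]
    exact prod_eq_zero (mem_univ i) (by simp)
  have h1 := ent M θ hθ (univ.erase i) a a
  rw [conj hO h, sum_eq_single i] at h1
  · exact h1
  · intro k _ hk
    rw [eval_prod, prod_eq_zero (mem_erase.2 ⟨hk, mem_univ k⟩) (by simp)]
    simp
  · simp

end IntAux

open IntAux in
theorem int_deriv {n : ℕ} (A B : Matrix (Fin n) (Fin n) ℤ) (hA : A.IsSymm)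
    (Q : Matrix (Fin n) (Fin n) ℚ) (hQ : Qᵀ * Q = 1)
    (h : A.map (Int.cast : ℤ → ℚ) * Q = Q * B.map (Int.cast : ℤ → ℚ)) :
    Intg (aeval (A.map (Int.cast : ℤ → ℚ)) (derivative A.charpoly) * Q) := by
  intro a k
  have hH : (A.map (Int.cast : ℤ → ℝ)).IsHermitian := by
    ext i j
    simp only [conjTranspose_apply, map_apply, star_trivial]
    rw [hA.apply]
  set O : Matrix (Fin n) (Fin n) ℝ := (hH.eigenvectorUnitary : Matrix (Fin n) (Fin n) ℝ) with hOd
  set θ : Fin n → ℝ := hH.eigenvalues with hθd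
  have hO : O * Oᵀ = 1 := by
    have := (Matrix.mem_unitaryGroup_iff).1 hH.eigenvectorUnitary.2
    simpa [star_eq_conjTranspose, conjTranspose_eq_transpose_of_trivial] using this
  have hO' : Oᵀ * O = 1 := mul_eq_one_comm.1 hO
  have hAO : A.map (Int.cast : ℤ → ℝ) * O = O * diagonal θ := by
    ext i j
    have := congrFun (hH.mulVec_eigenvectorBasis j) i
    rw [mul_diagonal, mul_comm]
    simpa [mul_apply, mulVec, dotProduct, hOd, hθd] using this
  set U : Matrix (Fin n) (Fin n) ℝ := Q.map (Rat.cast : ℚ → ℝ) with hU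
  have hm : ∀ M N : Matrix (Fin n) (Fin n) ℚ, (M * N).map (Rat.cast : ℚ → ℝ) =
      M.map (Rat.cast : ℚ → ℝ) * N.map (Rat.cast : ℚ → ℝ) := fun M N =>
    Matrix.map_mul (f := Rat.castHom ℝ)
  have hc : ∀ M : Matrix (Fin n) (Fin n) ℤ, (M.map (Int.cast : ℤ → ℚ)).map (Rat.cast : ℚ → ℝ) =
      M.map (Int.cast : ℤ → ℝ) := fun M => by
    ext i j
    simp
  have hUU : Uᵀ * U = 1 := by
    rw [hU, ← transpose_map, ← hm, hQ]
    exact Matrix.map_one _ Rat.cast_zero Rat.cast_one
  have hUU' : U * Uᵀ = 1 := mul_eq_one_comm.1 hUU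
  have hAU : A.map (Int.cast : ℤ → ℝ) * U = U * B.map (Int.cast : ℤ → ℝ) := by
    rw [← hc A, ← hc B, hU, ← hm, ← hm, h]
  have hB : B.map (Int.cast : ℤ → ℝ) * (Uᵀ * O) = (Uᵀ * O) * diagonal θ := by
    have e : B.map (Int.cast : ℤ → ℝ) = Uᵀ * A.map (Int.cast : ℤ → ℝ) * U := by
      rw [mul_assoc, hAU, ← mul_assoc, hUU, one_mul]
    rw [e, mul_assoc, ← mul_assoc U, hUU', one_mul, mul_assoc, hAO, mul_assoc]
  have hO2 : (Uᵀ * O) * (Uᵀ * O)ᵀ = 1 := by
    rw [transpose_mul, transpose_transpose, mul_assoc, ← mul_assoc O, hO, one_mul, hUU]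
  have hval : (((aeval (A.map (Int.cast : ℤ → ℚ)) (derivative A.charpoly) * Q) a k : ℚ) : ℝ) =
      ∑ i, eval (θ i) (∏ j ∈ univ.erase i, (X - C (θ j))) * O a i * (Uᵀ * O) k i := by
    have e1 := congrFun (congrFun (hm (aeval (A.map (Int.cast : ℤ → ℚ)) (derivative A.charpoly))
      Q) a) k
    rw [map_apply] at e1
    rw [e1, LevAux.aeval_map, hc, ← LevAux.aeval_map, ← hU]
    have e2 : aeval (A.map (Int.cast : ℤ → ℝ)) (derivative A.charpoly) =
        aeval (A.map (Int.cast : ℤ → ℝ)) (derivative (∏ i, (X - C (θ i)) : ℝ[X])) := by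
      rw [← chp hO hAO]
      have : (A.map (Int.cast : ℤ → ℝ)).charpoly = A.charpoly.map (algebraMap ℤ ℝ) :=
        charpoly_map A (algebraMap ℤ ℝ)
      rw [this, derivative_map, aeval_map_algebraMap]
    rw [e2, mul_apply]
    simp only [conj hO hAO, sum_mul, mul_apply, transpose_apply, mul_sum]
    rw [sum_comm]
    refine sum_congr rfl fun i _ => sum_congr rfl fun b _ => ?_
    have e3 : eval (θ i) (derivative (∏ i, (X - C (θ i)) : ℝ[X])) =
        eval (θ i) (∏ j ∈ univ.erase i, (X - C (θ j))) := by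
      rw [← mul_prod_erase univ _ (mem_univ i), derivative_mul]
      simp
    rw [e3]
    ring
  have hint : IsIntegral ℤ
      (((aeval (A.map (Int.cast : ℤ → ℚ)) (derivative A.charpoly) * Q) a k : ℚ) : ℝ) := by
    rw [hval]
    refine IsIntegral.sum _ fun i _ => IsIntegral.of_pow (n := 2) (by norm_num) ?_
    have := (key A hO hAO i a).mul (key B hO2 hB i k)
    convert this using 1
    ring
  have h2 : IsIntegral ℤ ((aeval (A.map (Int.cast : ℤ → ℚ)) (derivative A.charpoly) * Q) a k) :=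
    (isIntegral_algebraMap_iff (R := ℤ) (A := ℚ) (B := ℝ) (algebraMap ℚ ℝ).injective).1 hint
  obtain ⟨z, hz⟩ := IsIntegrallyClosed.isIntegral_iff.1 h2
  exact ⟨z, hz.symm⟩

theorem rInt (_hJac : RJac) : RInt := fun _ G H Q h =>
  int_deriv (aM G) (aM H) (gm_symm 0 1 G) Q h.1 h.2

end Pool.Agent.P.MP_f57657_co.RS
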