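import Pool.Agent.P.MP_f57657_co.RS.Base
import Pool.Agent.P.MP_f57657_co.DG.Jac

/-! Further identities for the adjugate and the characteristic polynomial. -/

open Matrix Finset Polynomial

namespace Pool.Agent.P.MP_f57657_co.RS

open DG

namespace JacAux

variable {n : ℕ}

theorem fld {K : Type} [Field K] (P : Matrix (Fin n) (Fin n) K) (h : P.det ≠ 0)
    (a b : Fin n → K) :
    P.det * (P + Matrix.of fun i j => a i * a j + b i * b j).det =
      (P.det + a ⬝ᵥ P.adjugate *ᵥ a) * (P.det + b ⬝ᵥ P.adjugate *ᵥ b) -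
        (a ⬝ᵥ P.adjugate *ᵥ b) * (b ⬝ᵥ P.adjugate *ᵥ a) := by
  let U : Matrix (Fin n) (Fin 2) K := Matrix.of fun i k => ![a i, b i] k
  have e : (Matrix.of fun i j => a i * a j + b i * b j : Matrix (Fin n) (Fin n) K) = U * Uᵀ := by
    ext i j
    simp [U, mul_apply, Fin.sum_univ_two]
  have e2 : ∀ k l : Fin 2, (Uᵀ * P⁻¹ * U) k l =
      (P.det)⁻¹ * ((fun i => U i k) ⬝ᵥ P.adjugate *ᵥ fun i => U i l) := by
    intro k l
    rw [Matrix.inv_def, Ring.inverse_eq_inv', Matrix.mul_smul, Matrix.smul_mul, Matrix.smul_apply,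
      smul_eq_mul, Matrix.mul_assoc]
    rfl
  rw [e, det_add_mul U Uᵀ (isUnit_iff_ne_zero.2 h), det_fin_two]
  simp only [Matrix.add_apply, e2, one_apply_eq, one_apply_ne (show (0 : Fin 2) ≠ 1 by decide),
    one_apply_ne (show (1 : Fin 2) ≠ 0 by decide)]
  have a0 : (fun i => U i 0) = a := rfl
  have a1 : (fun i => U i 1) = b := rfl
  rw [a0, a1]
  field_simp
  ring

theorem one (M : Matrix (Fin n) (Fin n) ℤ) (a b : Fin n → ℤ) (hM : M.IsSymm) :
    ∃ h : ℤ[X], bf M a b ^ 2 = bf M a a * bf M b b + M.charpoly * h := by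
  let f : ℤ[X] →+* FractionRing ℤ[X] := algebraMap _ _
  have hf : Function.Injective f := IsFractionRing.injective _ _
  have h1 : (f.mapMatrix M.charmatrix).det = f M.charpoly := (RingHom.map_det f _).symm
  have h0 : f M.charpoly ≠ 0 := fun e => M.charpoly_monic.ne_zero (hf (e.trans (map_zero f).symm))
  have h2 := fld (f.mapMatrix M.charmatrix) (h1 ▸ h0) (fun i => f (C (a i))) fun i => f (C (b i))
  have e : ∀ u v : Fin n → ℤ, (fun i => f (C (u i))) ⬝ᵥ (f.mapMatrix M.charmatrix).adjugate *ᵥ
      (fun i => f (C (v i))) = f (bf M u v) := by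
    intro u v
    rw [← RingHom.map_adjugate]
    simp only [bf, aw, dotProduct, mulVec, map_sum, map_mul, RingHom.mapMatrix_apply, map_apply]
  have e3 : (f.mapMatrix M.charmatrix + Matrix.of fun i j =>
      f (C (a i)) * f (C (a j)) + f (C (b i)) * f (C (b j))).det =
      f (M.charmatrix + Matrix.of fun i j => C (a i) * C (a j) + C (b i) * C (b j)).det := by
    rw [RingHom.map_det]
    congr 1
    ext i j
    simp only [Matrix.add_apply, RingHom.mapMatrix_apply, map_apply, of_apply, map_add, map_mul]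
  rw [e, e, e, e, e3, h1, bf_comm hM b a] at h2
  refine ⟨M.charpoly + bf M a a + bf M b b -
    (M.charmatrix + Matrix.of fun i j => C (a i) * C (a j) + C (b i) * C (b j)).det, hf ?_⟩
  simp only [map_pow, map_add, map_mul, map_sub]
  linear_combination h2

theorem skew (S : Matrix (Fin n) (Fin n) ℤ) (hS : Sᵀ = -S) (k : ℕ) :
    S.charpoly.coeff k * (-1) ^ k = (-1) ^ n * S.charpoly.coeff k := by
  have h4 : (compRingHom (C (-1) * X : ℤ[X])).mapMatrix S.charmatrix = -(Sᵀ).charmatrix := by
    ext1 i j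
    rw [hS]
    simp only [RingHom.mapMatrix_apply, map_apply, charmatrix_apply, diagonal_apply,
      coe_compRingHom_apply, Matrix.neg_apply]
    split_ifs
    · simp
      ring
    · simp
  have h5 := RingHom.map_det (compRingHom (C (-1) * X : ℤ[X])) S.charmatrix
  rw [h4, det_neg, Fintype.card_fin] at h5
  have h6 : S.charpoly.comp (C (-1) * X) = C ((-1) ^ n) * S.charpoly := by
    conv_rhs => rw [← charpoly_transpose, map_pow, map_neg, map_one]
    exact h5
  rw [← comp_C_mul_X_coeff, h6, coeff_C_mul]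

theorem three (G : Gr n) : ∃ h : ℤ[X], X * derivative (ph G) = C (n : ℤ) * ph G + 2 * h := by
  let S : Matrix (Fin n) (Fin n) ℤ := Matrix.of fun i j => if i < j then aM G i j else -aM G i j
  have hs : ∀ i j, aM G j i = aM G i j := fun i j => (gm_symm 0 1 G).apply i j
  have hS : Sᵀ = -S := by
    ext i j
    simp only [S, transpose_apply, of_apply, Matrix.neg_apply, hs i j]
    rcases lt_trichotomy i j with h | rfl | h
    · rw [if_neg h.not_gt, if_pos h]
    · simp [gm_diag]
    · rw [if_pos h, if_neg h.not_gt, neg_neg]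
  have hm : (aM G).map (Int.castRingHom (ZMod 2)) = S.map (Int.castRingHom (ZMod 2)) := by
    ext i j
    simp only [S, map_apply, of_apply]
    split_ifs
    · rfl
    · rw [map_neg, CharTwo.neg_eq]
  have hc : ∀ k, (((ph G).coeff k : ℤ) : ZMod 2) = (S.charpoly.coeff k : ℤ) := by
    intro k
    have := congrArg (fun f => coeff f k) ((charpoly_map (aM G) (Int.castRingHom (ZMod 2))).symm.trans
      ((congrArg Matrix.charpoly hm).trans (charpoly_map S (Int.castRingHom (ZMod 2)))))
    simpa using this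
  have hd : C (2 : ℤ) ∣ X * derivative (ph G) - C (n : ℤ) * ph G := by
    rw [C_dvd_iff_dvd_coeff]
    intro k
    have e : (X * derivative (ph G) - C (n : ℤ) * ph G).coeff k =
        ((k : ℤ) - n) * (ph G).coeff k := by
      rw [coeff_sub, coeff_C_mul]
      rcases k with _ | k
      · simp
      · rw [coeff_X_mul, coeff_derivative]
        push_cast
        ring
    rw [e]
    refine (ZMod.intCast_zmod_eq_zero_iff_dvd _ 2).1 ?_
    rw [Int.cast_mul, hc]
    have h := skew S hS k
    rcases Nat.even_or_odd k with hk | hk <;> rcases Nat.even_or_odd n with hn | hn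
    · rw [(ZMod.intCast_zmod_eq_zero_iff_dvd _ 2).2, zero_mul]
      obtain ⟨a, rfl⟩ := hk
      obtain ⟨b, rfl⟩ := hn
      exact ⟨a - b, by push_cast; ring⟩
    · rw [hk.neg_one_pow, hn.neg_one_pow] at h
      rw [show S.charpoly.coeff k = 0 by omega]
      simp
    · rw [hk.neg_one_pow, hn.neg_one_pow] at h
      rw [show S.charpoly.coeff k = 0 by omega]
      simp
    · rw [(ZMod.intCast_zmod_eq_zero_iff_dvd _ 2).2, zero_mul]
      obtain ⟨a, rfl⟩ := hk
      obtain ⟨b, rfl⟩ := hn
      exact ⟨a - b, by push_cast; ring⟩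
  obtain ⟨h, e⟩ := hd
  refine ⟨h, ?_⟩
  rw [show (C (2 : ℤ) : ℤ[X]) = 2 from rfl] at e
  linear_combination e

end JacAux

theorem rJac : RJac := by
  refine ⟨fun _ M a b h => JacAux.one M a b h, fun n G s => ?_, fun _ G => JacAux.three G⟩
  rw [aw, sum_eq_single (Fin.last n)]
  · rw [DG.JacAux.adj_last]
    simp
  · intro j _ hj
    simp [hj]
  · simp

end Pool.Agent.P.MP_f57657_co.RS
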