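import Pool.Agent.P.MP_f57657_co.RS.Base

/-! Few lattices capture all the short relations. -/

open Finset

namespace Pool.Agent.P.MP_f57657_co.RS

open DG

namespace LatAux

theorem step {n : ℕ} (E : Vc n) (j : Fin n) (s : ℤ) (h : |E j - s| + 1 = |E j|) :
    ∑ i, |(E - Pi.single j s : Vc n) i| + 1 = ∑ i, |E i| := by
  rw [← add_sum_erase _ _ (mem_univ j), ← add_sum_erase _ (fun i => |E i|) (mem_univ j),
    sum_congr rfl fun i hi => show |(E - Pi.single j s : Vc n) i| = |E i| by
      rw [Pi.sub_apply, Pi.single_eq_of_ne (mem_erase.1 hi).1, sub_zero],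
    Pi.sub_apply, Pi.single_eq_same, ← h]
  ring

/-- The short vectors are few. -/
theorem short (n K : ℕ) : ∃ T : Finset (Vc n), T.card ≤ (2 * n + 1) ^ K ∧
    ∀ E : Vc n, ∑ j, |E j| ≤ K → E ∈ T := by
  induction K with
  | zero =>
    refine ⟨{0}, by simp, fun E hE => mem_singleton.2 (funext fun j => abs_eq_zero.1 ?_)⟩
    exact le_antisymm ((single_le_sum (fun i _ => abs_nonneg (E i)) (mem_univ j)).trans
      (by simpa using hE)) (abs_nonneg _)
  | succ K ih =>
    obtain ⟨T, h1, h2⟩ := ih
    let U : Finset (Vc n) := insert 0 ((univ.image fun j => Pi.single j 1) ∪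
      univ.image fun j => Pi.single j (-1))
    have hU : U.card ≤ 2 * n + 1 := by
      have a := card_image_le (s := univ) (f := fun j : Fin n => (Pi.single j 1 : Vc n))
      have b := card_image_le (s := univ) (f := fun j : Fin n => (Pi.single j (-1) : Vc n))
      rw [card_univ, Fintype.card_fin] at a b
      refine (card_insert_le _ _).trans (Nat.succ_le_succ ((card_union_le _ _).trans ?_))
      omega
    refine ⟨image₂ (· + ·) T U, (card_image₂_le _ _ _).trans ?_, fun E hE => ?_⟩
    · rw [pow_succ]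
      exact Nat.mul_le_mul h1 hU
    push_cast at hE
    by_cases h0 : ∃ j, E j ≠ 0
    · obtain ⟨j, hj⟩ := h0
      rcases lt_or_gt_of_ne hj with h | h
      · have := step E j (-1) (by rw [abs_of_neg h, abs_of_nonpos (by omega)]; ring)
        exact mem_image₂.2 ⟨_, h2 _ (by omega), _, mem_insert_of_mem (mem_union_right _
          (mem_image_of_mem _ (mem_univ j))), sub_add_cancel _ _⟩
      · have := step E j 1 (by rw [abs_of_pos h, abs_of_nonneg (by omega)]; ring)
        exact mem_image₂.2 ⟨_, h2 _ (by omega), _, mem_insert_of_mem (mem_union_left _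
          (mem_image_of_mem _ (mem_univ j))), sub_add_cancel _ _⟩
    · push Not at h0
      exact mem_image₂.2 ⟨E, h2 E (by simp [h0]), 0, mem_insert_self _ _, add_zero E⟩

/-- Listing a small set. -/
theorem listing {α : Type} (z : α) (S : Finset α) {M : ℕ} (h : S.card ≤ M) :
    ∃ f : Fin M → α, (∀ i, f i = z ∨ f i ∈ S) ∧ ∀ a ∈ S, a ∈ Set.range f := by
  refine ⟨fun i => if hi : i.1 < S.card then S.equivFin.symm ⟨i.1, hi⟩ else z, fun i => ?_,
    fun a ha => ⟨Fin.castLE h (S.equivFin ⟨a, ha⟩), ?_⟩⟩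
  · by_cases hi : i.1 < S.card
    · exact Or.inr (by simp only [dif_pos hi, coe_mem])
    · exact Or.inl (dif_neg hi)
  · simp

end LatAux

open LatAux

theorem rLat (hGen : RGen) : RLat := by
  classical
  intro n t K b J h1 h2
  obtain ⟨T, hT, hT'⟩ := short n K
  refine ⟨(Fintype.piFinset fun _ : Fin (J.card * (b + 1)) => T).image
    fun f => AddSubgroup.closure (Set.range f), card_image_le.trans ?_, fun Γ _ w => ?_⟩
  · rw [Fintype.card_piFinset, prod_const, card_univ, Fintype.card_fin, pow_mul 2]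
    refine Nat.pow_le_pow_left (hT.trans ((Nat.pow_le_pow_left h1 K).trans ?_)) _
    rw [← pow_mul]
    exact Nat.pow_le_pow_right two_pos (Nat.le_succ _)
  obtain ⟨S, hS, hS1, hS2⟩ := hGen (Fin n) (Vc n) J (T.filter fun E => Sh J K E ∧ ap E w = 0) id K b
    (fun E hE => (mem_filter.1 hE).2.1.1) (fun E hE => (mem_filter.1 hE).2.1.abs_le)
    ((Nat.mul_le_mul_right K ((card_le_univ J).trans (Fintype.card_fin n).le)).trans h2)
  obtain ⟨f, hf, hf'⟩ := listing 0 S hS1
  refine ⟨_, mem_image_of_mem _ (Fintype.mem_piFinset.2 fun i => ?_ : f ∈ _), fun E hE => ?_,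
    fun E hE h0 => ?_⟩
  · rcases hf i with h | h
    · exact hT' _ (by simp [h])
    · exact (mem_filter.1 (hS h)).1
  · refine (AddSubgroup.closure_le (apH w).ker).2 ?_ hE
    rintro _ ⟨i, rfl⟩
    rcases hf i with h | h
    · rw [h]
      exact zero_mem _
    · exact (mem_filter.1 (hS h)).2.2
  · refine AddSubgroup.closure_mono ?_ (hS2 E (mem_filter.2 ⟨hT' E hE.2, hE, h0⟩))
    rintro _ ⟨a, ha, rfl⟩
    exact hf' a ha

end Pool.Agent.P.MP_f57657_co.RS
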