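import Pool.Agent.P.MP_f57657_co.RS.Det
import Pool.Agent.P.MP_f57657_co.DG.Lev

/-! The level of a rational orthogonal matrix fixing a unit vector, and its active points. -/

open Matrix Finset Polynomial

namespace Pool.Agent.P.MP_f57657_co.RS

open DG DG.LevAux

theorem rLev : RLev := by
  classical
  intro n G H Q u0 hC hQu hI
  obtain ⟨hQQ, hAQ⟩ := hC
  have hex := exists_lev Q
  obtain ⟨hl0, hlI⟩ := Nat.find_spec hex
  have hmin : ∀ k < Nat.find hex, ¬ (0 < k ∧ Intg ((k : ℚ) • Q)) := fun k hk => Nat.find_min hex hk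
  generalize Nat.find hex = l at hl0 hlI hmin
  refine ⟨l, hl0, hlI, ?_⟩
  choose Z0 hZ0 using hlI
  obtain ⟨Z, hZ⟩ : ∃ Z : Matrix (Fin (n + 1)) (Fin (n + 1)) ℤ,
      Z.map (Int.cast : ℤ → ℚ) = (l : ℚ) • Q := ⟨Matrix.of Z0, by ext i j; exact (hZ0 i j).symm⟩
  choose N0 hN0 using hI
  obtain ⟨N, hN⟩ : ∃ N : Matrix (Fin (n + 1)) (Fin (n + 1)) ℤ, N.map (Int.cast : ℤ → ℚ) =
      aeval ((aM G).map (Int.cast : ℤ → ℚ)) (derivative (ph G)) * Q :=
    ⟨Matrix.of N0, by ext i j; exact (hN0 i j).symm⟩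
  have hZZ : Zᵀ * Z = ((l : ℤ) ^ 2) • (1 : Matrix (Fin (n + 1)) (Fin (n + 1)) ℤ) := by
    apply cast_inj_mat
    rw [cast_mul_mat, cast_smul_mat, transpose_map, hZ, transpose_smul, smul_mul, mul_smul_comm, hQQ,
      smul_smul, Matrix.map_one _ Int.cast_zero Int.cast_one]
    push_cast
    rw [sq]
  have hAZ : aM G * Z = Z * aM H := by
    apply cast_inj_mat
    rw [cast_mul_mat, cast_mul_mat, hZ, mul_smul_comm, smul_mul, hAQ]
  have h1Z : ∀ j, ∃ t : ℤ, Z u0 j = l * t := by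
    intro j
    have h1 := congrFun (congrFun hQQ u0) j
    simp only [Matrix.mul_apply, transpose_apply, hQu, ite_mul, one_mul, zero_mul, sum_ite_eq',
      mem_univ, if_true] at h1
    refine ⟨if u0 = j then 1 else 0, ?_⟩
    apply Int.cast_injective (α := ℚ)
    have h3 : (Z u0 j : ℚ) = l * Q u0 j := congrFun (congrFun hZ u0) j
    rw [h3, h1, Matrix.one_apply]
    push_cast
    rfl
  have hNZ : aeval (aM G) (derivative (ph G)) * Z = (l : ℤ) • N := by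
    apply cast_inj_mat
    rw [cast_mul_mat, cast_smul_mat, hZ, hN, ← aeval_map, mul_smul_comm, Int.cast_natCast]
  intro p c hpc
  have hp : p.1.Prime := p.2
  have hpl : p.1 ∣ l := (dvd_pow_self _ (Nat.succ_ne_zero c)).trans hpc
  have hpK : ((p.1 : ℕ) : FF p) = 0 := CharP.cast_eq_zero (FF p) p.1
  have hlK : ((l : ℕ) : FF p) = 0 := by
    obtain ⟨d, rfl⟩ := hpl
    rw [Nat.cast_mul, hpK, zero_mul]
  have hZK : Z.map (Int.cast : ℤ → FF p) ≠ 0 := by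
    intro e
    obtain ⟨d, hd⟩ := hpl
    have hd0 : 0 < d := Nat.pos_of_ne_zero fun e0 => by simp [hd, e0] at hl0
    refine hmin d (by rw [hd]; nlinarith [hp.two_le]) ⟨hd0, fun i j => ?_⟩
    have h1 : ((Z i j : ℤ) : FF p) = 0 := congrFun (congrFun e i) j
    obtain ⟨t, ht⟩ := (CharP.intCast_eq_zero_iff (FF p) p.1 _).1 h1
    refine ⟨t, ?_⟩
    have h3 : (Z i j : ℚ) = l * Q i j := congrFun (congrFun hZ i) j
    rw [ht, hd] at h3
    push_cast at h3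
    have hp0 : ((p.1 : ℕ) : ℚ) ≠ 0 := Nat.cast_ne_zero.2 hp.ne_zero
    rw [Matrix.smul_apply, smul_eq_mul]
    apply mul_left_cancel₀ hp0
    rw [h3, mul_assoc]
  obtain ⟨θ, w, hw0, hw⟩ := exists_eig (A := (aM G).map (Int.cast : ℤ → FF p))
    (A' := (aM H).map (Int.cast : ℤ → FF p)) (by rw [← cast_mul_mat, ← cast_mul_mat, hAZ]) hZK
  have hiso : (Z.map (Int.cast : ℤ → FF p) *ᵥ w) ⬝ᵥ (Z.map (Int.cast : ℤ → FF p) *ᵥ w) = 0 := by
    rw [dotProduct_mulVec, vecMul_mulVec, ← transpose_map, ← cast_mul_mat, hZZ, cast_smul_mat]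
    push_cast
    rw [hlK]
    simp
  refine ⟨θ, ⟨Z.map (Int.cast : ℤ → FF p) *ᵥ w, mem_eg'.2 hw, hw0, hiso, ?_⟩,
    ⟨⟨Z.map (Int.cast : ℤ → FF p) *ᵥ w, mem_eg'.2 hw, hw0, hiso⟩, ?_⟩, ?_⟩
  · simp only [mulVec, dotProduct, map_apply]
    refine sum_eq_zero fun j _ => ?_
    obtain ⟨t, ht⟩ := h1Z j
    rw [ht, Int.cast_mul, Int.cast_natCast, hlK, zero_mul, zero_mul]
  · obtain ⟨-, hred, -, -, -, -, hroot, -⟩ := dPl ⟨p, θ⟩
    have h0 : aeval θ (lf ⟨p, θ⟩) = 0 := (hroot _).2 (by rw [hred])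
    have h3 := aeval_eig hw (lf ⟨p, θ⟩)
    rw [aeval_int] at h0
    rw [h0, zero_smul, aeval_map, mulVec_mulVec, ← cast_mul_mat] at h3
    obtain ⟨c0, hc1, hc2⟩ := descend (p := p.1) _ Z w hw0 h3
    choose y hy using hc2
    have hy' : aeval (aM G) (lf ⟨p, θ⟩) *ᵥ (Z *ᵥ c0) = (p.1 : ℤ) • y := by
      rw [mulVec_mulVec]
      exact funext hy
    refine dSoc n G ⟨p, θ⟩ (Z *ᵥ c0) y hc1 hy' fun k => ?_
    have hk : aM G ^ k * Z = Z * aM H ^ k :=
      (SemiconjBy.pow_right (a := Z) (x := aM H) (y := aM G) hAZ.symm k).symm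
    have h4 : (p.1 : ℤ) * (y ⬝ᵥ (aM G ^ k *ᵥ (Z *ᵥ c0))) =
        (l : ℤ) ^ 2 * ((aeval (aM H) (lf ⟨p, θ⟩) *ᵥ c0) ⬝ᵥ (aM H ^ k *ᵥ c0)) := by
      rw [← smul_eq_mul, ← smul_dotProduct, ← hy', mulVec_mulVec, mulVec_mulVec, hk,
        aeval_semi hAZ, ← mulVec_mulVec, ← mulVec_mulVec, dotProduct_mulVec _ Z, vecMul_mulVec,
        hZZ, vecMul_smul, vecMul_one, smul_dotProduct, smul_eq_mul]
    obtain ⟨d, hd⟩ := hpl
    have hp0 : (p.1 : ℤ) ≠ 0 := Int.natCast_ne_zero.2 hp.ne_zero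
    refine ⟨(d : ℤ) ^ 2 * ((aeval (aM H) (lf ⟨p, θ⟩) *ᵥ c0) ⬝ᵥ (aM H ^ k *ᵥ c0)), ?_⟩
    apply mul_left_cancel₀ hp0
    rw [h4, hd]
    push_cast
    ring
  · rintro ⟨u, a, b, hu, e⟩
    obtain ⟨d, hd⟩ := hpc
    have h1 := congrArg (fun f => aeval (aM G) f * Z) e
    simp only [map_mul, map_add, aeval_C, Matrix.aeval_self_charpoly, mul_zero, zero_add] at h1
    rw [mul_assoc (aeval (aM G) b), hNZ, ← Algebra.commutes, mul_assoc, ← Algebra.smul_def,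
      mul_smul_comm, hd] at h1
    have h2 : aeval (aM G) u * Z = ((p.1 : ℤ) * d) • (aeval (aM G) b * N) := by
      have hp0 : ((p.1 : ℤ) ^ c) ≠ 0 := pow_ne_zero _ (Int.natCast_ne_zero.2 hp.ne_zero)
      apply smul_right_injective _ hp0
      dsimp only
      rw [h1, smul_smul]
      congr 1
      push_cast
      ring
    have h3 := aeval_eig hw u
    rw [aeval_map, mulVec_mulVec, ← cast_mul_mat, h2, cast_smul_mat] at h3
    push_cast at h3
    rw [hpK, zero_mul, zero_smul, zero_mulVec] at h3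
    rw [aeval_int] at hu
    exact hw0 ((smul_eq_zero.1 h3.symm).resolve_left hu)

end Pool.Agent.P.MP_f57657_co.RS
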