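import Pool.Agent.P.MP_f57657_co.RS.Base

/-! The number of active steps of the lazy walk, and lifting to the quotient of the lattice. -/

open Matrix Finset Polynomial

namespace Pool.Agent.P.MP_f57657_co.RS

open DG

namespace LiftAux

variable {n : ℕ}

/-- the steps of the walk, cut to `J` -/
def cut (J : Finset (Fin n)) (ω : Bv n × Bv n) : Vc n := fun j => if j ∈ J then dv ω j else 0

theorem ap_cut {Γ : Type} [AddCommGroup Γ] (J : Finset (Fin n)) (ω : Bv n × Bv n)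
    (w : Fin n → Γ) : ∑ j ∈ J, dv ω j • w j = ap (cut J ω) w := by
  simp [ap, cut, ite_smul, sum_ite_mem]

theorem sh_cut {J : Finset (Fin n)} {K : ℕ} {ω : Bv n × Bv n}
    (h : ¬ (K : ℤ) < ∑ j ∈ J, |dv ω j|) : Sh J K (cut J ω) := by
  refine ⟨fun j hj => by simp [cut, hj], ?_⟩
  have : ∑ j, |cut J ω j| = ∑ j ∈ J, |dv ω j| := by
    simp [cut, apply_ite abs, sum_ite_mem]
  rw [this]
  exact not_lt.1 h

theorem short {p : unitInterval} {K : ℕ} {J : Finset (Fin n)} {τ : ℝ}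
    (hτ : (mD (qt p) n).pr (fun ω => (K : ℤ) < ∑ j ∈ J, |dv ω j|) ≤ τ)
    {Γ : Type} [AddCommGroup Γ] (w : Fin n → Γ) (g : Γ) (h : τ < lk p J w (· = g)) :
    ∃ E, Sh J K E ∧ ap E w = g := by
  by_contra hc
  refine absurd h (not_lt.2 (le_trans (FP.pr_mono fun ω hω => ?_) hτ))
  by_contra hk
  exact hc ⟨cut J ω, sh_cut hk, (ap_cut J ω w).symm.trans hω⟩

theorem lift {p : unitInterval} {K : ℕ} {J : Finset (Fin n)} {τ : ℝ} {Λ : AddSubgroup (Vc n)}
    (hτ : (mD (qt p) n).pr (fun ω => (K : ℤ) < ∑ j ∈ J, |dv ω j|) ≤ τ)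
    {Γ : Type} [AddCommGroup Γ] {w : Fin n → Γ} (hC : Cmp J (3 * K) Λ w) {E : Vc n}
    (hE : Sh J K E) :
    lk p J w (· = ap E w) - τ ≤ lk p J (un Λ) (· = QuotientAddGroup.mk E) := by
  have : lk p J w (· = ap E w) ≤ (mD (qt p) n).pr (fun ω => (K : ℤ) < ∑ j ∈ J, |dv ω j|) +
      lk p J (un Λ) (· = QuotientAddGroup.mk E) := by
    refine FP.pr_le_add fun ω hω => ?_
    by_cases hk : (K : ℤ) < ∑ j ∈ J, |dv ω j|
    · exact Or.inl hk
    · right
      have h1 : ap (cut J ω) w = ap E w := (ap_cut J ω w).symm.trans hω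
      have h2 : ap (cut J ω - E) w = 0 := by
        have := (apH w).map_sub (cut J ω) E
        exact this.trans (sub_eq_zero.2 h1)
      have h3 := hC.2 _ (((sh_cut hk).sub hE).mono (by omega)) h2
      change ∑ j ∈ J, dv ω j • un Λ j = _
      rw [ap_cut, ap_un]
      exact QuotientAddGroup.eq_iff_sub_mem.2 h3
  linarith

end LiftAux

open LiftAux

theorem rTail : RTail := by
  intro p n t J hJ
  have l0 := lz_nonneg p
  have l1 := lz_le p
  have hE : (mD (qt p) n).ex (fun ω => ∏ j ∈ J, (if ω.1 j = ω.2 j then (1 : ℝ) else 2)) =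
      (1 + lz p) ^ J.card := by
    rw [bits_prod2 J fun _ a b => if a = b then (1 : ℝ) else 2, prod_const]
    congr 1
    simp only [qt_coe, lz, if_true, Bool.true_eq_false, Bool.false_eq_true, if_false]
    ring
  have hM := FP.pr_markov (μ := mD (qt p) n)
    (E := fun ω => ((20000 * t : ℕ) : ℤ) < ∑ j ∈ J, |dv ω j|)
    (f := fun ω => ∏ j ∈ J, (if ω.1 j = ω.2 j then (1 : ℝ) else 2)) (c := 2 ^ (20000 * t))
    (by positivity) (fun ω => prod_nonneg fun j _ => by split_ifs <;> norm_num) fun ω hω => by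
      have e : ∀ j, (if ω.1 j = ω.2 j then (1 : ℝ) else 2) = 2 ^ (dv ω j).natAbs := fun j => by
        unfold dv sv
        cases ω.1 j <;> cases ω.2 j <;> simp
      simp only [e]
      rw [prod_pow_eq_pow_sum]
      refine pow_le_pow_right₀ (by norm_num) ?_
      have : ((∑ j ∈ J, (dv ω j).natAbs : ℕ) : ℤ) = ∑ j ∈ J, |dv ω j| := by
        push_cast; rfl
      omega
  refine hM.trans ?_
  rw [hE, div_le_iff₀ (by positivity)]
  have a1 : (1 + lz p) ^ J.card ≤ Real.exp (lz p) ^ J.card :=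
    pow_le_pow_left₀ (by positivity) (by linarith [Real.add_one_le_exp (lz p)]) _
  have a2 : Real.exp (lz p) ^ J.card ≤ Real.exp 1 ^ (10000 * t) := by
    rw [← Real.exp_nat_mul, ← Real.exp_nat_mul]
    refine Real.exp_le_exp.2 ?_
    have : (0 : ℝ) ≤ J.card := Nat.cast_nonneg _
    push_cast
    nlinarith
  have a3 : Real.exp 1 ^ (10000 * t) ≤ 3 ^ (10000 * t) :=
    pow_le_pow_left₀ (by positivity) (by linarith [Real.exp_one_lt_d9]) _
  have a4 : (3 : ℝ) ^ (10000 * t) = (3 / 4) ^ (10000 * t) * 2 ^ (20000 * t) := by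
    rw [show 20000 * t = 2 * (10000 * t) by ring, pow_mul 2 2, ← mul_pow]
    norm_num
  have a5 : (3 / 4 : ℝ) ^ (10000 * t) ≤ (1 / 2) ^ (4 * t) := by
    refine (pow_le_pow_of_le_one (by norm_num) (by norm_num) (by omega : 3 * (4 * t) ≤ _)).trans ?_
    rw [pow_mul]
    exact pow_le_pow_left₀ (by norm_num) (by norm_num) _
  refine (a1.trans (a2.trans a3)).trans ?_
  rw [a4]
  exact mul_le_mul_of_nonneg_right a5 (by positivity)

theorem rLift : RLift := by
  intro p n K J Λ τ hτ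
  refine ⟨fun g hg => ?_, fun Γ _ w hC => ⟨?_, ?_, fun g hg => ?_⟩⟩
  · obtain ⟨E, h1, h2⟩ := short hτ (un Λ) g hg
    exact ⟨E, h1, (ap_un Λ E).symm.trans h2⟩
  · refine FP.pr_mono fun ω hω => ?_
    change ∑ j ∈ J, dv ω j • un Λ j = 0 at hω
    rw [ap_cut, ap_un] at hω
    rw [ap_cut]
    exact hC.1 _ ((QuotientAddGroup.eq_zero_iff _).1 hω)
  · have := lift hτ hC (E := 0) ⟨fun _ _ => rfl, by simp⟩
    simpa [ap] using this
  · obtain ⟨E, h1, h2⟩ := short hτ w g hg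
    exact ⟨E, h1, h2, h2 ▸ lift hτ hC h1⟩

end Pool.Agent.P.MP_f57657_co.RS
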