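import Pool.Agent.P.MP_f57657_co.RS.Base

/-! Fourier coefficients of the linear forms and the good event of one step. -/

open Matrix Finset Polynomial

namespace Pool.Agent.P.MP_f57657_co.RS

open DG

namespace LinAux

variable {R : Type} [CommRing R] {n : ℕ}

theorem eqn (ev : ℤ[X] →+* R) (G : Gr n) (y : Vc n) :
    Eqn G y (AddMonoidHom.mulLeft (ev X)) (-ev (ph G)) fun i => ev (aw (aM G) y i) := by
  intro i
  have h := congrArg ev (aw_eq (aM G) y i)
  simp only [map_sum, map_mul, map_sub, eq_intCast, map_intCast] at h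
  simp only [zsmul_eq_mul, AddMonoidHom.coe_mulLeft]
  rw [h]
  ring

/-- A subgroup that is stable under the generator is an ideal. -/
theorem mul_mem (ev : ℤ[X] →+* R) (hev : Function.Surjective ev) (H : AddSubgroup R)
    (hH : ∀ h ∈ H, ev X * h ∈ H) (r : R) {h : R} (hh : h ∈ H) : r * h ∈ H := by
  obtain ⟨u, rfl⟩ := hev r
  induction u using Polynomial.induction_on with
  | C a =>
    rw [eq_intCast, map_intCast, ← zsmul_eq_mul]
    exact H.zsmul_mem hh a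
  | add f g hf hg =>
    rw [map_add, add_mul]
    exact H.add_mem hf hg
  | monomial k a ih =>
    have e : ev (C a * X ^ (k + 1)) * h = ev X * (ev (C a * X ^ k) * h) := by
      simp only [map_mul, map_pow]
      ring
    rw [e]
    exact hH _ ih

theorem char_closure {Γ : Type} [AddCommGroup Γ] (ψ : AddChar Γ ℂ) (w : Fin n → Γ)
    (h : ∀ i, ψ (w i) = 1) {g : Γ} (hg : g ∈ AddSubgroup.closure (Set.range w)) : ψ g = 1 := by
  induction hg using AddSubgroup.closure_induction with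
  | mem a ha =>
    obtain ⟨i, rfl⟩ := ha
    exact h i
  | zero => exact ψ.map_zero_eq_one
  | add a b _ _ ha hb => rw [ψ.map_add_eq_mul, ha, hb, one_mul]
  | neg a _ ha => rw [ψ.map_neg_eq_inv, ha, inv_one]

theorem ev_lin (ev : ℤ[X] →+* R) (M : Matrix (Fin n) (Fin n) ℤ) (u y : Vc n) :
    ev (bf M u y) = ∑ i, u i • ev (aw M y i) := by
  simp only [bf, map_sum, map_mul, eq_intCast, map_intCast, zsmul_eq_mul]

theorem small {p : unitInterval} {t : ℕ} (ht : 10 ≤ t) (h : Rg p t n) :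
    (1 - (p : ℝ) / 4) ^ (n / 2000) ≤ (1 / 2) ^ t ^ 2 := by
  have h0 := p.2.1
  have h1 := h.2.2
  have h2 := h.2.1
  have a1 : (1 - (p : ℝ) / 4) ≤ Real.exp (-((p : ℝ) / 4)) := by
    have := Real.add_one_le_exp (-((p : ℝ) / 4))
    linarith
  have a2 : (n : ℝ) ≤ 2000 * ((n / 2000 : ℕ) : ℝ) + 2000 := by
    have : n ≤ 2000 * (n / 2000) + 2000 := by omega
    exact_mod_cast this
  have a3 : (10 : ℝ) ≤ t := by exact_mod_cast ht
  have a4 : (10 : ℝ) ^ 4 ≤ (t : ℝ) ^ 4 := pow_le_pow_left₀ (by norm_num) a3 4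
  have a5 : (10 : ℝ) ^ 2 ≤ (t : ℝ) ^ 2 := pow_le_pow_left₀ (by norm_num) a3 2
  have a6 : 10000 * (t : ℝ) ^ 2 ≤ (t : ℝ) ^ 6 := by
    have : (t : ℝ) ^ 6 = (t : ℝ) ^ 4 * (t : ℝ) ^ 2 := by ring
    rw [this]
    exact mul_le_mul_of_nonneg_right (by linarith) (by positivity)
  have a7 : (t : ℝ) ^ 2 ≤ ((n / 2000 : ℕ) : ℝ) * ((p : ℝ) / 4) := by
    have := mul_le_mul_of_nonneg_right a2 h0
    nlinarith
  have a8 : Real.exp (-1) ≤ 1 / 2 := by
    have := Real.add_one_le_exp (1 : ℝ)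
    rw [Real.exp_neg, one_div]
    exact inv_anti₀ (by norm_num) (by linarith)
  calc _ ≤ Real.exp (-((p : ℝ) / 4)) ^ (n / 2000) := pow_le_pow_left₀ (by linarith) a1 _
    _ = Real.exp (((n / 2000 : ℕ) : ℝ) * -((p : ℝ) / 4)) := (Real.exp_nat_mul _ _).symm
    _ ≤ Real.exp (((t ^ 2 : ℕ) : ℝ) * -1) := Real.exp_le_exp.2 (by push_cast; linarith)
    _ = Real.exp (-1) ^ t ^ 2 := Real.exp_nat_mul _ _
    _ ≤ _ := pow_le_pow_left₀ (Real.exp_pos _).le a8 _

theorem adm_const (p : unitInterval) (a : ℤ) (ha : a = 0 ∨ a = 1 ∨ a = -1) :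
    Adm p (fun _ : Fin n => a) := by
  refine ⟨fun _ => ha, a, ?_⟩
  have h0 := p.2.1
  simp only [ne_eq, not_true_eq_false, filter_false, card_empty, Nat.cast_zero]
  positivity

theorem adm_single {p : unitInterval} (h : 500 ≤ (n : ℝ) * (p : ℝ)) (i : Fin n) :
    Adm p (Pi.single i 1 : Vc n) := by
  classical
  refine ⟨fun j => ?_, 0, ?_⟩
  · by_cases e : j = i
    · simp [e]
    · simp [e]
  · have a : ∀ (S : Finset (Fin n)), S ⊆ {i} → (S.card : ℝ) ≤ n * (p : ℝ) / 500 := fun S hS => by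
      have b : S.card ≤ 1 := (card_le_card hS).trans (card_singleton i).le
      have c : (S.card : ℝ) ≤ 1 := by exact_mod_cast b
      linarith
    refine a _ fun j hj => ?_
    by_contra e
    exact (mem_filter.1 hj).2 (Pi.single_eq_of_ne (by simpa using e) _)

theorem num {t : ℕ} (ht : 2 ≤ t) (hn : n + 2 ≤ 2 ^ t) :
    (1 / 2 : ℝ) ^ t ^ 3 + ((1 / 2) ^ t ^ 3 + (n * (1 / 2) ^ t ^ 3 + (1 / 2) ^ (2 * t ^ 2))) ≤
      (1 / 2) ^ t ^ 2 := by
  have a1 : (n : ℝ) + 2 ≤ 2 ^ t := by exact_mod_cast hn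
  have a2 : t + (t ^ 2 + 1) ≤ t ^ 3 := by
    have : t ^ 3 = t * t * t := by ring
    nlinarith [Nat.mul_le_mul ht ht, Nat.mul_le_mul_left (t * t) ht]
  have a3 : t ^ 2 + 1 ≤ 2 * t ^ 2 := by nlinarith
  have b1 : (1 / 2 : ℝ) ^ t ^ 3 ≤ (1 / 2) ^ (t + (t ^ 2 + 1)) :=
    pow_le_pow_of_le_one (by norm_num) (by norm_num) a2
  have b2 : (1 / 2 : ℝ) ^ (2 * t ^ 2) ≤ (1 / 2) ^ (t ^ 2 + 1) :=
    pow_le_pow_of_le_one (by norm_num) (by norm_num) a3
  have b3 : (2 : ℝ) ^ t * (1 / 2) ^ (t + (t ^ 2 + 1)) = (1 / 2) ^ (t ^ 2 + 1) := by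
    rw [pow_add (1 / 2 : ℝ) t, ← mul_assoc, ← mul_pow]
    norm_num
  have b4 : ((n : ℝ) + 2) * (1 / 2) ^ t ^ 3 ≤ 2 ^ t * (1 / 2) ^ (t + (t ^ 2 + 1)) :=
    mul_le_mul a1 b1 (by positivity) (by positivity)
  have b5 : (1 / 2 : ℝ) ^ (t ^ 2 + 1) = (1 / 2) ^ t ^ 2 / 2 := by
    rw [pow_succ]
    ring
  linarith

end LinAux

open LinAux in
theorem rLin (hW2 : RWalk2) : RLin := by
  refine ⟨10, fun p n t y G ht hR hy hG R _ _ ev hev hc ψ hψ => ?_⟩
  have hE := eqn ev G y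
  have hl : (1 / 2 : ℝ) ^ t ≤ lk p univ (fun i => ev (aw (aM G) y i)) (· = 0) := by
    refine le_trans ?_ (hW2 p R n univ fun i => ev (aw (aM G) y i)).2.2.2.2
    rw [_root_.one_div_pow]
    have a : (0 : ℝ) < Fintype.card R := by exact_mod_cast Fintype.card_pos
    exact one_div_le_one_div_of_le a (by exact_mod_cast hc)
  obtain ⟨-, hs, -, hF⟩ := hG R _ _ _ hE hl
  have hw : ∃ i, ψ (ev (aw (aM G) y i)) ≠ 1 := by
    rcases hψ with h | ⟨r, hr⟩
    · exact h
    · by_contra hcon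
      have hall : ∀ i, ψ (ev (aw (aM G) y i)) = 1 := fun i => by
        by_contra e
        exact hcon ⟨i, e⟩
      refine hr (char_closure ψ _ hall ?_)
      rw [mul_comm]
      refine mul_mem ev hev _ hs r ?_
      obtain ⟨i, hi⟩ := hy
      have e := hE i
      rw [hi, one_smul] at e
      have e' : ev (ph G) = AddMonoidHom.mulLeft (ev X) (ev (aw (aM G) y i)) -
          ∑ j, aM G i j • ev (aw (aM G) y j) := by
        rw [e]
        ring
      rw [e']
      exact AddSubgroup.sub_mem _ (hs _ (AddSubgroup.subset_closure ⟨i, rfl⟩))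
        (AddSubgroup.sum_mem _ fun j _ =>
          AddSubgroup.zsmul_mem _ (AddSubgroup.subset_closure (Set.mem_range_self j)) _)
  have hp := far_prod (p := p) hR.2.2 (hF ψ hw) ∅
  simp only [ev_lin]
  rw [exc_char, norm_prod]
  rw [compl_empty, card_empty, Nat.sub_zero] at hp
  exact hp.trans (small ht hR)

open LinAux in
theorem rGd (hM : RMaster) (hAC : RAC) (hLin : RLin) (hEQ : REQ) : RGd := by
  obtain ⟨N1, h1⟩ := hM
  obtain ⟨N2, h2⟩ := hLin
  obtain ⟨N3, h3⟩ := hEQ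
  refine ⟨N1 + N2 + N3 + 3, fun p n t ht hR => ?_⟩
  have hn : 1 ≤ n := by
    have a := hR.le
    have b : 1 ≤ t ^ 6 := Nat.one_le_pow _ _ (by omega)
    omega
  have h5 : 500 ≤ (n : ℝ) * (p : ℝ) := by
    have a : (3 : ℝ) ≤ t := by exact_mod_cast (by omega : 3 ≤ t)
    have b : (3 : ℝ) ^ 6 ≤ (t : ℝ) ^ 6 := pow_le_pow_left₀ (by norm_num) a 6
    have c := hR.2.1
    linarith
  have m0 := h1 p n t 0 (by omega) hR (adm_const p 0 (Or.inl rfl))
  have m1 := h1 p n t 1 (by omega) hR (adm_const p 1 (Or.inr (Or.inl rfl)))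
  have m2 : (mG p n).pr (fun G => ∃ i, ¬ Good p t (Pi.single i 1) G) ≤ n * (1 / 2) ^ t ^ 3 := by
    have := FP.pr_le_card_mul (μ := mG p n) univ
      (E := fun G => ∃ i, ¬ Good p t (Pi.single i 1) G)
      (fun i G => ¬ Good p t (Pi.single i 1) G) (c := (1 / 2) ^ t ^ 3)
      (fun G hG => hG.imp fun i hi => ⟨mem_univ i, hi⟩)
      fun i _ => h1 p n t _ (by omega) hR (adm_single h5 i)
    simpa using this
  have m3 := h3 p n t (by omega) hR
  refine le_trans ?_ (num (n := n) (by omega) (by have := hR.1; omega))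
  refine (FP.pr_le_add (F := fun G => ¬ Good p t 0 G)
    (F' := fun G => ¬ Good p t 1 G ∨ (∃ i, ¬ Good p t (Pi.single i 1) G) ∨ ¬ EQp p t G)
    fun G hG => ?_).trans (add_le_add m0 ((FP.pr_or _ _).trans
      (add_le_add m1 ((FP.pr_or _ _).trans (add_le_add m2 m3)))))
  by_contra hcon
  have g0 : Good p t 0 G := by
    by_contra h
    exact hcon (Or.inl h)
  have g1 : Good p t 1 G := by
    by_contra h
    exact hcon (Or.inr (Or.inl h))
  have g2 : ∀ i, Good p t (Pi.single i 1) G := fun i => by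
    by_contra h
    exact hcon (Or.inr (Or.inr (Or.inl ⟨i, h⟩)))
  have g3 : EQp p t G := by
    by_contra h
    exact hcon (Or.inr (Or.inr (Or.inr h)))
  have a := hAC p n t G hR.2.2 g0
  exact hG ⟨a.1, a.2, h2 p n t 1 G (by omega) hR ⟨⟨0, hn⟩, rfl⟩ g1,
    fun i => h2 p n t _ G (by omega) hR ⟨i, Pi.single_eq_same i 1⟩ (g2 i), g3⟩

end Pool.Agent.P.MP_f57657_co.RS
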