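import Pool.Agent.P.MP_f57657_co.RS.Base

/-! The master lemma: a union bound over all menus. -/

open Finset

namespace Pool.Agent.P.MP_f57657_co.RS

open DG

namespace MasterAux

theorem pow_half (n : ℕ) : (9995 / 10000 : ℝ) ^ n ≤ (1 / 2) ^ (n / 2000) := by
  have h1 : (9995 / 10000 : ℝ) ^ 2000 ≤ 1 / 2 := by
    have h := one_add_mul_le_pow (show (-2 : ℝ) ≤ 5 / 9995 by norm_num) 2000
    have e : (9995 / 10000 : ℝ) ^ 2000 * (1 + 5 / 9995) ^ 2000 = 1 := by
      rw [← mul_pow, show (9995 / 10000 : ℝ) * (1 + 5 / 9995) = 1 by norm_num, one_pow]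
    have h0 : (0 : ℝ) ≤ (9995 / 10000 : ℝ) ^ 2000 := pow_nonneg (by norm_num) _
    have h2 : (2 : ℝ) ≤ (1 + 5 / 9995) ^ 2000 := le_trans (by norm_num) h
    generalize (9995 / 10000 : ℝ) ^ 2000 = a at *
    generalize (1 + 5 / 9995 : ℝ) ^ 2000 = b at *
    nlinarith
  calc (9995 / 10000 : ℝ) ^ n ≤ (9995 / 10000 : ℝ) ^ (2000 * (n / 2000)) :=
        pow_le_pow_of_le_one (by norm_num) (by norm_num) (Nat.mul_div_le n 2000)
    _ = ((9995 / 10000 : ℝ) ^ 2000) ^ (n / 2000) := pow_mul _ _ _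
    _ ≤ _ := pow_le_pow_left₀ (pow_nonneg (by norm_num) _) h1 _

theorem card_sets (n t k : ℕ) (h : 2 * n + 1 ≤ 2 ^ t) :
    (((univ : Finset (Finset (Fin n))).filter fun R => R.card ≤ k).card : ℝ) ≤ 2 ^ (t * k + 1) := by
  have h0 : (0 : ℝ) < 2 ^ t := by positivity
  have h1 : (1 : ℝ) ≤ 2 ^ t := one_le_pow₀ (by norm_num)
  have a := card_small (V := Fin n) (a := 1 / 2 ^ t) (by positivity)
    ((div_le_one h0).2 h1) k
  refine a.trans ?_
  rw [one_div_one_div, ← pow_mul, pow_succ, Fintype.card_fin]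
  refine mul_le_mul_of_nonneg_left ?_ (by positivity)
  have b : ((2 * n + 1 : ℕ) : ℝ) ≤ 2 ^ t := by exact_mod_cast h
  push_cast at b
  have c : 1 / (2 : ℝ) ^ t * n ≤ 1 / 2 := by
    rw [one_div, inv_mul_eq_div, div_le_iff₀ h0]
    linarith
  refine (Real.exp_le_exp.2 c).trans ?_
  have d : Real.exp (1 / 2) * Real.exp (1 / 2) = Real.exp 1 := by
    rw [← Real.exp_add]
    norm_num
  have e := Real.exp_one_lt_d9
  have f := Real.exp_pos (1 / 2)
  nlinarith

theorem expo (n t k : ℕ) (ht : 10 ^ 8 ≤ t) (hn : 2 * t ^ 6 ≤ n) (hk : k * t ^ 5 ≤ 20000 * n) :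
    (t * k + 1) + (180003 * (t ^ 3 * k) + ((4 * t + 9) + ((24 * (t ^ 3 * k) + 12 * t ^ 3) + k))) +
      (t ^ 3 + 1) ≤ n / 2000 := by
  have t1 : 1 ≤ t := le_trans (by norm_num) ht
  have a1 : t ≤ t ^ 3 := Nat.le_self_pow (by norm_num) t
  have a2 : t * k ≤ t ^ 3 * k := Nat.mul_le_mul_right k a1
  have a3 : k ≤ t ^ 3 * k := Nat.le_mul_of_pos_left k (by positivity)
  have a4 : (10 ^ 8) ^ 2 ≤ t ^ 2 := Nat.pow_le_pow_left ht 2
  have a5 : t ^ 3 * k * (10 ^ 8) ^ 2 ≤ 20000 * n :=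
    (Nat.mul_le_mul_left _ a4).trans (le_of_eq_of_le (by ring) hk)
  have a6 : t ^ 3 * 10 ^ 8 ≤ t ^ 6 :=
    (Nat.mul_le_mul_left _ (ht.trans a1)).trans (le_of_eq (by ring))
  rw [Nat.le_div_iff_mul_le (by norm_num)]
  generalize t ^ 3 * k = u at *
  generalize t ^ 3 = v at *
  generalize t * k = w at *
  generalize t ^ 6 = z at *
  norm_num at ht a5 a6
  linarith

end MasterAux

open MasterAux

theorem rMaster (hSel : RSel) (hLat : RLat) (hMenu : RMenu) (hCnt : RCnt) (hSum : RSum)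
    (hE1 : RExp1) (hE2 : RExp2) : RMaster := by
  classical
  obtain ⟨N0, hMenu⟩ := hMenu
  obtain ⟨N1, hE1⟩ := hE1
  obtain ⟨N2, hE2⟩ := hE2
  refine ⟨N0 + N1 + N2 + 10 ^ 8, fun p n t y ht hR hA => ?_⟩
  have ht8 : 10 ^ 8 ≤ t := by omega
  have t1 : 1 ≤ t := le_trans (by norm_num) ht8
  have hn := hR.le
  have hn2 : n ≤ 2 ^ t := by have := hR.1; omega
  have hK : 3 * (20000 * t) ≤ 2 ^ t := by
    have a : t * 10 ^ 8 ≤ t ^ 6 := (Nat.mul_le_mul_left _ (ht8.trans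
      (Nat.le_self_pow (by norm_num : 5 ≠ 0) t))).trans (le_of_eq (by ring))
    omega
  have hb : n * (3 * (20000 * t)) ≤ 2 ^ (2 * t) := by
    rw [two_mul, pow_add]
    exact Nat.mul_le_mul hn2 hK
  set k := 20000 * n / t ^ 5 with hk
  have hk1 : k * t ^ 5 ≤ 20000 * n := Nat.div_mul_le_self _ _
  have hJ : ∀ J : Finset (Fin n), (p : ℝ) * J.card ≤ 20000 * t → J.card ≤ k := fun J h => by
    rw [hk, Nat.le_div_iff_mul_le (by positivity)]
    have a : ((J.card * t ^ 5 * t : ℕ) : ℝ) ≤ ((20000 * n * t : ℕ) : ℝ) := by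
      push_cast
      have b := mul_le_mul_of_nonneg_left hR.2.1 (Nat.cast_nonneg J.card : (0 : ℝ) ≤ J.card)
      have c := mul_le_mul_of_nonneg_left h (Nat.cast_nonneg n : (0 : ℝ) ≤ n)
      nlinarith
    exact Nat.le_of_mul_le_mul_right (by exact_mod_cast a) t1
  choose F hF1 hF2 using fun J : Finset (Fin n) => hLat n t (3 * (20000 * t)) (2 * t) J hR.1 hb
  have hy : ∀ i, |y i| ≤ 1 := fun i => by
    rcases hA.1 i with h | h | h <;> rw [h] <;> norm_num
  set c : ℝ := (9995 / 10000 : ℝ) ^ n with hc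
  have hc0 : 0 ≤ c := pow_nonneg (by norm_num) _
  -- one menu
  have h1 : ∀ (J : Finset (Fin n)) (m : Menu n), J.card ≤ k → m.Ok t J →
      (mG p n).pr (fun G => ∃ N : Finset (Fin n), N.card ≤ m.ν ∧ Fit p y J m.g (m.pick y N) G) ≤
        2 ^ ((24 * (t ^ 3 * k) + 12 * t ^ 3) + k) * c := by
    intro J m hJk hm
    have hg : 0 ≤ m.g := le_trans (by positivity) hm.1
    refine (FP.pr_le_sum (univ.filter fun N : Finset (Fin n) => N.card ≤ m.ν)
      (fun N G => Fit p y J m.g (m.pick y N) G) fun G ⟨N, a, b⟩ =>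
        ⟨N, mem_filter.2 ⟨mem_univ _, a⟩, b⟩).trans ?_
    have e : (2 * t + 1) * ((2 * J.card + 1) * (3 * t + 1)) ≤ 24 * (t ^ 3 * k) + 12 * t ^ 3 := by
      calc _ ≤ (3 * t) * ((2 * k + 1) * (4 * t)) :=
            Nat.mul_le_mul (by omega) (Nat.mul_le_mul (by omega) (by omega))
        _ = (24 * k + 12) * t ^ 2 := by ring
        _ ≤ (24 * k + 12) * t ^ 3 :=
            Nat.mul_le_mul_left _ (Nat.pow_le_pow_right t1 (by norm_num))
        _ = _ := by ring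
    refine (sum_le_sum fun N _ => (hCnt p n t (20000 * t) J y m.g (m.pick y N) hR.2.2 hR.1
      (by omega) hy hm.1 fun i E hE => ?_).trans (mul_le_mul_of_nonneg_right
        (pow_le_pow_right₀ (by norm_num) e) (prod_nonneg fun i _ => by positivity))).trans ?_
    · unfold Menu.pick at hE
      split_ifs at hE
      · exact hm.2.1 E hE
      · exact hm.2.1 E (hm.2.2.1 _ hE)
    · rw [← mul_sum, pow_add _ _ k, mul_assoc]
      refine mul_le_mul_of_nonneg_left ((hSum n t J y m hm).trans ?_) (by positivity)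
      exact mul_le_mul_of_nonneg_right (pow_le_pow_right₀ (by norm_num) hJk) hc0
  -- the bad event for one set of steps
  let Bad : Finset (Fin n) → AddSubgroup (Vc n) → Gr n → Prop := fun J Λ G =>
    Exp1 p G ∧ Exp2 p G ∧ ∃ (Γ : Type) (_ : AddCommGroup Γ) (x : Γ →+ Γ) (c : Γ) (w : Fin n → Γ),
      Cmp J (3 * (20000 * t)) Λ w ∧ Eqn G y x c w ∧ Sel p t J w ∧ ¬ Concl p x w
  have h2 : ∀ (J : Finset (Fin n)) (Λ : AddSubgroup (Vc n)), (p : ℝ) * J.card ≤ 20000 * t →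
      (mG p n).pr (Bad J Λ) ≤
        2 ^ ((4 * t + 9) + ((24 * (t ^ 3 * k) + 12 * t ^ 3) + k)) * c := by
    intro J Λ hp
    obtain ⟨M, m1, m2, m3⟩ := hMenu p n t J Λ (by omega) hR.2.2 hp
    refine (FP.pr_le_card_mul M (fun m G => ∃ N : Finset (Fin n), N.card ≤ m.ν ∧
      Fit p y J m.g (m.pick y N) G) ?_ fun m hm => h1 J m (hJ J hp) (m2 m hm)).trans ?_
    · rintro G ⟨e1, e2, Γ, _, x, c, w, a1, a2, a3, a4⟩
      obtain ⟨m, hm, N, b1, b2⟩ := m3 G y Γ x c w a1 e1 e2 hA a2 a3 a4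
      exact ⟨m, hm, N, b1, Γ, inferInstance, x, c, w, a2, b2⟩
    · rw [pow_add _ (4 * t + 9), mul_assoc]
      exact mul_le_mul_of_nonneg_right (by exact_mod_cast m1) (by positivity)
  have h3 : ∀ J : Finset (Fin n),
      (mG p n).pr (fun G => (p : ℝ) * J.card ≤ 20000 * t ∧ ∃ Λ ∈ F J, Bad J Λ G) ≤
        2 ^ (180003 * (t ^ 3 * k) + ((4 * t + 9) + ((24 * (t ^ 3 * k) + 12 * t ^ 3) + k))) * c := by
    intro J
    by_cases hp : (p : ℝ) * J.card ≤ 20000 * t
    · refine (FP.pr_le_card_mul (F J) (Bad J) (fun G h => h.2) fun Λ _ => h2 J Λ hp).trans ?_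
      have hJk := hJ J hp
      have e : (t * (3 * (20000 * t)) + 1) * (J.card * (2 * t + 1)) ≤ 180003 * (t ^ 3 * k) := by
        have a : 1 ≤ t * t := Nat.mul_pos t1 t1
        calc _ ≤ (60001 * (t * t)) * (k * (3 * t)) :=
              Nat.mul_le_mul (by nlinarith) (Nat.mul_le_mul hJk (by omega))
          _ = _ := by ring
      rw [pow_add _ (180003 * (t ^ 3 * k)), mul_assoc]
      refine mul_le_mul_of_nonneg_right ?_ (by positivity)
      exact_mod_cast (hF1 J).trans (Nat.pow_le_pow_right (by norm_num) e)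
    · rw [FP.pr_false fun G h => hp h.1]
      positivity
  have h4 : (mG p n).pr (fun G => Exp1 p G ∧ Exp2 p G ∧ ¬ Good p t y G) ≤
      (1 / 2) ^ (t ^ 3 + 1) := by
    refine (FP.pr_le_card_mul (univ.filter fun J : Finset (Fin n) => J.card ≤ k)
      (fun J G => (p : ℝ) * J.card ≤ 20000 * t ∧ ∃ Λ ∈ F J, Bad J Λ G) ?_ fun J _ => h3 J).trans ?_
    · rintro G ⟨e1, e2, hG⟩
      unfold Good at hG
      push Not at hG
      obtain ⟨Γ, _, x, c, w, a1, a2, a3⟩ := hG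
      obtain ⟨J, b1, b2⟩ := hSel p t Γ n w a2
      obtain ⟨Λ, c1, c2⟩ := hF2 J Γ w
      exact ⟨J, mem_filter.2 ⟨mem_univ _, hJ J b1⟩, b1, Λ, c1, e1, e2, Γ, inferInstance, x, c, w,
        c2, a1, b2, a3⟩
    · refine (mul_le_mul (card_sets n t k hR.1) (mul_le_mul_of_nonneg_left (pow_half n)
        (by positivity)) (by positivity) (by positivity)).trans ?_
      have e := expo n t k ht8 hn hk1
      rw [← mul_assoc, ← pow_add]
      generalize t * k + 1 + (180003 * (t ^ 3 * k) + ((4 * t + 9) +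
        ((24 * (t ^ 3 * k) + 12 * t ^ 3) + k))) = E at e ⊢
      refine (mul_le_mul_of_nonneg_left (pow_le_pow_of_le_one (by norm_num) (by norm_num) e)
        (by positivity)).trans (le_of_eq ?_)
      rw [pow_add, ← mul_assoc, ← mul_pow]
      norm_num
  have h5 : (1 / 2 : ℝ) ^ t ^ 4 ≤ (1 / 2) ^ (t ^ 3 + 2) := by
    refine pow_le_pow_of_le_one (by norm_num) (by norm_num) ?_
    have a : 1 ≤ t ^ 3 := Nat.one_le_pow _ _ t1
    have b : t ^ 3 * 3 ≤ t ^ 4 := (Nat.mul_le_mul_left _ (le_trans (by norm_num) ht8)).trans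
      (le_of_eq (by ring))
    omega
  have h6 := hE1 p n t (by omega) hR
  have h7 := hE2 p n t (by omega) hR
  have h8 : (mG p n).pr (fun G => ¬ Good p t y G) ≤
      (mG p n).pr (fun G => ¬ Exp1 p G ∨ ¬ Exp2 p G) +
        (mG p n).pr (fun G => Exp1 p G ∧ Exp2 p G ∧ ¬ Good p t y G) :=
    FP.pr_le_add fun G h => by tauto
  have h9 := FP.pr_or (μ := mG p n) (fun G => ¬ Exp1 p G) fun G => ¬ Exp2 p G
  rw [pow_add] at h4 h5
  linarith

end Pool.Agent.P.MP_f57657_co.RS
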