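import Pool.Agent.P.MP_f57657_co.RS.MedB

/-! Odd points of medium size: multiplicities and isotropic eigenvectors. -/

open Matrix Finset Polynomial

namespace Pool.Agent.P.MP_f57657_co.RS

open DG

namespace MedAAux

theorem tail {t n : ℕ} (h3 : 3 ≤ t) (hn : n ≤ 2 ^ t) :
    4 * (((n + 1 : ℕ) : ℝ) * (1 / 2 : ℝ) ^ (3 * t) ^ 2) ≤ (1 / 2) ^ (5 * t) := by
  have h0 : n + 1 ≤ 2 * 2 ^ t := by
    have := Nat.one_le_two_pow (n := t)
    omega
  have h1 : ((n + 1 : ℕ) : ℝ) ≤ 2 * 2 ^ t := by exact_mod_cast h0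
  have h2 : (1 / 2 : ℝ) ^ (3 * t) ^ 2 ≤ (1 / 2) ^ (5 * t + t + 3) :=
    pow_le_pow_of_le_one (by norm_num) (by norm_num) (by nlinarith)
  have h3 : (2 : ℝ) ^ t * (1 / 2) ^ t = 1 := by rw [← mul_pow]; norm_num
  have h4 := mul_le_mul h1 h2 (by positivity) (by positivity)
  have h5 : 2 * (2 : ℝ) ^ t * (1 / 2) ^ (5 * t + t + 3) =
      (1 / 2) ^ (5 * t) / 4 * (2 ^ t * (1 / 2) ^ t) := by
    rw [pow_add, pow_add]
    ring
  rw [h5, h3] at h4
  linarith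

end MedAAux

open MedBAux in
theorem rMedA (hGd : RGd) (hPot : RPot) (hMq : RMq) : RMedA := by
  obtain ⟨N1, hGd⟩ := hGd
  obtain ⟨N3, hMq⟩ := hMq
  refine ⟨N1 + N3 + 3, 1536, fun p n t j0 m x hN hP hp h32 hq m1 m2 => ?_⟩
  have j3 : 2 ≤ j0 := by
    have h1 := hP.le
    have h3 : 1 ≤ (3 * t) ^ 6 := Nat.one_le_pow _ _ (by omega)
    omega
  have j4 : t * j0 + 5 * j0 ≤ n := by linarith [hP.2.2.1]
  obtain ⟨-, -, -, -, -, -, -, l2, -, -⟩ := dPl x
  have q0 : (32 : ℝ) ≤ sz x := by exact_mod_cast h32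
  obtain ⟨u, hu⟩ : ∃ u : ℝ, u = 1 / sz x := ⟨_, rfl⟩
  have u0 : 0 < u := by rw [hu]; positivity
  have u1 : u ≤ 1 / 32 := by rw [hu]; exact one_div_le_one_div_of_le (by norm_num) q0
  have u2 : ∀ (c : ℝ) (e : ℕ), c / (sz x : ℝ) ^ e = c * u ^ e := fun c e => by
    rw [hu, one_div, inv_pow, div_eq_mul_inv]
  have u3 : ∀ c : ℝ, c / (sz x : ℝ) = c * u := fun c => by rw [hu, mul_one_div]
  obtain ⟨β, hβ⟩ : ∃ β : ℝ, β = (1 / 2) ^ (3 * t) ^ 2 := ⟨_, rfl⟩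
  have b0 : 0 ≤ β := by rw [hβ]; positivity
  have hB : ∀ j, j0 ≤ j → j ≤ n + 1 → (mG p j).pr (fun G => ¬ Gd p (3 * t) G) ≤ β :=
    fun j a b => hβ ▸ hGd p j (3 * t) (by omega) (hP.rg (by omega) a b)
  have hZ : ∀ j (G : Gr j), gd (FF x.1) (aM G) x.2 = 0 → aeval x.2 (ph G) ≠ 0 :=
    fun j G h e => by have := ((dEv (FF x.1) j (aM G)).1 x.2).2 e; omega
  have hK : ∀ k d, n ≤ k + 2 → k ≤ n + 1 →
      (mG p k).pr (fun G => d ≤ gd (FF x.1) (aM G) x.2) ≤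
        3 * (8 * u) ^ d + ((n + 1 : ℕ) : ℝ) * β := by
    intro k d k1 k2
    have := hPot p (fun _ G => gd (FF x.1) (aM G) x.2) (fun _ G => Gd p (3 * t) G) (2 * u) β j0 k d
      (by positivity) (by linarith) b0 (by omega) ?_
      (fun j G => (dBord (FF x.1) 0 1 j G (fun _ => true) x.2).1)
      (fun j G s => (dBord (FF x.1) 0 1 j G s x.2).2.1)
      fun j a b => ⟨hB j a (by omega), fun G hG => ⟨fun h0 => ?_, fun h1 => ?_⟩⟩
    · rw [show 4 * (2 * u) = 8 * u by ring] at this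
      exact this.trans (add_le_add le_rfl (mul_le_mul_of_nonneg_right (by exact_mod_cast k2) b0))
    · have e1 : 1 / (4 * (2 * u)) ≤ 2 ^ t := by
        have : (sz x : ℝ) ≤ 2 ^ t := by exact_mod_cast hq
        rw [hu, show 1 / (4 * (2 * (1 / (sz x : ℝ)))) = sz x / 8 by field_simp; norm_num]
        linarith
      refine (mul_le_mul_of_nonneg_left (pow_le_pow_left₀ (by positivity) e1 j0) two_pos.le).trans ?_
      rw [← pow_mul, ← pow_succ']
      exact pow_le_pow_right₀ one_le_two (by omega)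
    · have := ((hMq p j (3 * t) x G (by omega) hG (cube_le hq) hp).1 (hZ j G h0)).1
      rw [u3] at this
      exact (FP.pr_mono fun s e => ((dEv (FF x.1) _ (aM (bord G s))).1 x.2).1 e).trans this
    · rw [← u3]
      exact stay hG h32 hq h1
  have h9 := MedAAux.tail (show 3 ≤ t by omega) hP.le_pow
  rw [← hβ] at h9
  have b1 : β ≤ ((n + 1 : ℕ) : ℝ) * β :=
    le_mul_of_one_le_left b0 (by exact_mod_cast (by omega : 1 ≤ n + 1))
  have b2 := mul_le_mul_of_nonneg_right u1 (b0.trans b1)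
  refine ⟨fun d hd => (hK m d m1 m2).trans ?_, fun m3 => ?_⟩
  · have e1 : (8 : ℝ) ^ d ≤ 8 ^ 3 := pow_le_pow_right₀ (by norm_num) hd
    have e2 := mul_le_mul_of_nonneg_right e1 (pow_nonneg u0.le d)
    rw [u2, mul_pow]
    linarith
  obtain ⟨j, rfl⟩ : ∃ j, m = j + 1 := ⟨m - 1, by omega⟩
  have h1 := hK j 2 m3 (by omega)
  have h2 := (step (p := p) h32 hq (fun G : Gr j => 1 ≤ gd (FF x.1) (aM G) x.2)
    fun _ e => e).trans (add_le_add le_rfl (hB j (by omega) (by omega)))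
  have h3 := mul_le_mul_of_nonneg_left (hK j 1 m3 (by omega)) (show 0 ≤ 2 * u by positivity)
  rw [u3] at h2
  have h4 := (FP.pr_prod_le' (μ := mG p j) (ν := mB p j) (E := fun ω =>
      aeval x.2 (ph ω.1) ≠ 0 ∧ mp x ^ 2 ∣ red x.1.1 (ph (bord ω.1 ω.2)))
    (fun G => Gd p (3 * t) G) (show 0 ≤ 2 * u ^ 2 by positivity) fun G hG => by
      by_cases c : aeval x.2 (ph G) ≠ 0
      swap
      · rw [FP.pr_false fun s h => c h.1]; positivity
      have e3 := ((hMq p j (3 * t) x G (by omega) hG (cube_le hq) hp).1 c).2.1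
      rw [u2] at e3
      exact (FP.pr_mono fun s h => h.2).trans e3).trans
        (add_le_add le_rfl (hB j (by omega) (by omega)))
  rw [← FP.pr_fst (ν := mB p j)] at h1
  rw [show (mG p (j + 1)).pr (Iso x) = _ from pr_bord _, u2]
  refine (FP.pr_le_add fun ω e => ?_).trans ((add_le_add h1 ((FP.pr_or _ _).trans
    (add_le_add h2 h4))).trans (by nlinarith [sq_nonneg u]))
  have e1 := iso_gd e
  have e2 := (dEv (FF x.1) _ (aM (bord ω.1 ω.2))).2.2 (gm_symm _ _ _) x.2 (Or.inr e)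
  rcases Nat.eq_zero_or_pos (gd (FF x.1) (aM ω.1) x.2) with h | h
  · exact Or.inr (Or.inr ⟨hZ _ _ h, l2 _ e2.1 e2.2⟩)
  · by_cases h' : 2 ≤ gd (FF x.1) (aM ω.1) x.2
    exacts [Or.inl h', Or.inr (Or.inl ⟨h, by omega⟩)]

end Pool.Agent.P.MP_f57657_co.RS
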