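import Pool.Agent.P.MP_f57657_co.RS.Det

/-! Odd points of medium size: multiplicity two and active points. -/

open Matrix Finset Polynomial

namespace Pool.Agent.P.MP_f57657_co.RS

open DG

namespace MedBAux

theorem tail {t a : ℕ} (h3 : 3 ≤ t) : 8 * (1 / 2 : ℝ) ^ (a + t) ≤ (1 / 2) ^ a := by
  have h1 : (1 / 2 : ℝ) ^ t ≤ (1 / 2) ^ 3 := pow_le_pow_of_le_one (by norm_num) (by norm_num) h3
  have h2 : (0 : ℝ) ≤ (1 / 2) ^ a := by positivity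
  rw [pow_add]
  nlinarith

theorem sq_le5 {t : ℕ} (h : 1 ≤ t) : (1 / 2 : ℝ) ^ (3 * t) ^ 2 ≤ (1 / 2) ^ (5 * t) :=
  pow_le_pow_of_le_one (by norm_num) (by norm_num) (by nlinarith)

theorem j0_le {p : unitInterval} {n t j0 j : ℕ} (h : Prm p n t j0) (hj : n ≤ j + 1)
    (ht : 1 ≤ t) : j0 ≤ j := by
  have h1 := h.le
  have h2 := h.2.2.1
  have h3 : 1 ≤ (3 * t) ^ 6 := Nat.one_le_pow _ _ (by omega)
  nlinarith

theorem cube_le {q t : ℕ} (h : q ≤ 2 ^ t) : q ^ 3 ≤ 2 ^ (3 * t) := by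
  rw [mul_comm, pow_mul]
  exact Nat.pow_le_pow_left h 3

theorem orth {x : Pt} {j : ℕ} {G : Gr j} {s : Bv j}
    (h : gd (FF x.1) (aM G) x.2 ≤ gd (FF x.1) (aM (bord G s)) x.2) :
    ∀ z ∈ eg (FF x.1) (aM G) x.2, dt (sv 0 1 s) z = 0 := fun z hz => by
  by_contra e
  have : gd (FF x.1) (aM (bord G s)) x.2 + 1 ≤ gd (FF x.1) (aM G) x.2 :=
    (dBord (FF x.1) 0 1 j G s x.2).2.2.1 ⟨z, hz, e⟩
  omega

theorem stay {p : unitInterval} {t j : ℕ} {x : Pt} {G : Gr j} (hG : Gd p (3 * t) G)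
    (h32 : 32 ≤ sz x) (hq : sz x ≤ 2 ^ t) (h1 : 1 ≤ gd (FF x.1) (aM G) x.2) :
    (mB p j).pr (fun s => gd (FF x.1) (aM G) x.2 ≤ gd (FF x.1) (aM (bord G s)) x.2) ≤
      2 / (sz x : ℝ) := by
  obtain ⟨z, hz, h0⟩ := one_le_gd.1 h1
  obtain ⟨-, -, -, -, -, -, -, -, l3, -⟩ := dPl x
  exact (FP.pr_mono fun s e => orth e z hz).trans (hG.1 _ x.2 z 0 (sz x) hz h0 (by omega)
    (hq.trans (Nat.pow_le_pow_right (by norm_num) (by omega))) l3)

theorem step {p : unitInterval} {t j : ℕ} {x : Pt} (h32 : 32 ≤ sz x) (hq : sz x ≤ 2 ^ t)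
    (F : Gr j → Prop) (hF : ∀ G, F G → 1 ≤ gd (FF x.1) (aM G) x.2) :
    (mS p j).pr (fun ω => F ω.1 ∧
      gd (FF x.1) (aM ω.1) x.2 ≤ gd (FF x.1) (aM (bord ω.1 ω.2)) x.2) ≤
      2 / (sz x : ℝ) * (mG p j).pr F + (mG p j).pr fun G => ¬ Gd p (3 * t) G :=
  FP.pr_prod_le F (fun G => Gd p (3 * t) G) (by positivity) (fun _ e => e.1)
    fun G hG e => (FP.pr_mono fun _ e => e.2).trans (stay hG h32 hq (hF G e))

theorem iso_gd {x : Pt} {j : ℕ} {G : Gr j} (h : Iso x G) : 1 ≤ gd (FF x.1) (aM G) x.2 :=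
  one_le_gd.2 (h.imp fun _ h => ⟨h.1, h.2.1⟩)

theorem iso_res {x : Pt} {j : ℕ} {G : Gr j} {s : Bv j} (h1 : gd (FF x.1) (aM G) x.2 = 1)
    (h2 : gd (FF x.1) (aM (bord G s)) x.2 = 1) (h : Iso x (bord G s)) : Iso x G := by
  obtain ⟨z, hz, h0⟩ := (one_le_gd (K := FF x.1) (M := aM G) (θ := x.2)).1 h1.ge
  have hw := (dBord (FF x.1) 0 1 j G s x.2).2.2.2 z hz (orth (by omega) z hz)
  have hw0 : (Fin.snoc z 0 : Fin (j + 1) → FF x.1) ≠ 0 := fun e => h0 (funext fun i => by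
    simpa using congrFun e i.castSucc)
  obtain ⟨v, v1, v2, v3⟩ := h
  obtain ⟨c, hc⟩ := (finrank_eq_one_iff_of_nonzero' (K := FF x.1)
    (⟨_, hw⟩ : eg (FF x.1) (aM (bord G s)) x.2) (fun e => hw0 (congrArg Subtype.val e))).1 h2
    ⟨v, v1⟩
  have hv : c • (Fin.snoc z 0 : Fin (j + 1) → FF x.1) = v := congrArg Subtype.val hc
  have c0 : c ≠ 0 := fun e => v2 (by rw [← hv, e, zero_smul])
  refine ⟨z, hz, h0, ?_⟩
  rw [← hv, smul_dotProduct, dotProduct_smul, smul_eq_mul, smul_eq_mul] at v3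
  have := (mul_eq_zero.1 ((mul_eq_zero.1 v3).resolve_left c0)).resolve_left c0
  simpa [dotProduct, Fin.sum_univ_castSucc (n := j)] using this

end MedBAux

open MedBAux

theorem rMedB (hGd : RGd) (hA : RMedA) (hMq : RMq) (hEv : REv) : RMedB := by
  obtain ⟨N1, hGd⟩ := hGd
  obtain ⟨N2, c, hA⟩ := hA
  obtain ⟨N3, hMq⟩ := hMq
  refine ⟨N1 + N2 + N3 + 3, 8 * c, fun p n t j0 m x hN hP hp h32 hq m1 m2 => ?_⟩
  have j1 : j0 ≤ m := j0_le hP (by omega) (by omega)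
  have j2 : 1 ≤ j0 := by
    have h1 := hP.le
    have h3 : 1 ≤ (3 * t) ^ 6 := Nat.one_le_pow _ _ (by omega)
    omega
  obtain ⟨j, rfl⟩ : ∃ j, m = j + 1 := ⟨m - 1, by omega⟩
  obtain ⟨-, -, -, -, -, -, -, l2, -, -⟩ := dPl x
  have q0 : (32 : ℝ) ≤ sz x := by exact_mod_cast h32
  obtain ⟨u, hu⟩ : ∃ u : ℝ, u = 1 / sz x := ⟨_, rfl⟩
  have u0 : 0 < u := by rw [hu]; positivity
  have u1 : u ≤ 1 / 32 := by rw [hu]; exact one_div_le_one_div_of_le (by norm_num) q0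
  have u2 : ∀ (c : ℝ) (e : ℕ), c / (sz x : ℝ) ^ e = c * u ^ e := fun c e => by
    rw [hu, one_div, inv_pow, div_eq_mul_inv]
  have u3 : ∀ c : ℝ, c / (sz x : ℝ) = c * u := fun c => by rw [hu, mul_one_div]
  obtain ⟨β, hβ⟩ : ∃ β : ℝ, β = (1 / 2) ^ (5 * t) := ⟨_, rfl⟩
  have b0 : 0 ≤ β := by rw [hβ]; positivity
  have hB : (mG p j).pr (fun G => ¬ Gd p (3 * t) G) ≤ β :=
    (hGd p j (3 * t) (by omega) (hP.rg (by omega) (j0_le hP m1 (by omega)) (by omega))).trans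
      (hβ ▸ sq_le5 (by omega))
  obtain ⟨a1, a2⟩ := hA p n t j0 j x (by omega) hP hp h32 hq (by omega) (by omega)
  have a3 := a2 m1
  simp only [u2, ← hβ] at a1 a3
  have h1 := a1 3 le_rfl
  have h2 := (step (p := p) h32 hq (fun G : Gr j => 2 ≤ gd (FF x.1) (aM G) x.2)
    fun _ e => one_le_two.trans e).trans (add_le_add le_rfl hB)
  have h3 := mul_le_mul_of_nonneg_left (a1 2 (by norm_num)) (show 0 ≤ 2 * u by positivity)
  have h4 := (step (p := p) h32 hq (fun G : Gr j => Iso x G) fun _ e => iso_gd e).trans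
    (add_le_add le_rfl hB)
  have h5 := mul_le_mul_of_nonneg_left a3 (show 0 ≤ 2 * u by positivity)
  rw [u3] at h2 h4
  have h6 := (FP.pr_prod_le (μ := mG p j) (ν := mB p j) (E := fun ω =>
      gd (FF x.1) (aM ω.1) x.2 = 1 ∧ ¬ Iso x ω.1 ∧ mp x ^ 2 ∣ red x.1.1 (ph (bord ω.1 ω.2)))
    (fun G => 1 ≤ gd (FF x.1) (aM G) x.2) (fun G => Gd p (3 * t) G)
    (show 0 ≤ 3 * u ^ 2 by positivity) (fun ω e => e.1.ge) fun G hG e => by
      by_cases c : gd (FF x.1) (aM G) x.2 = 1 ∧ ¬ Iso x G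
      swap
      · rw [FP.pr_false fun s h => c ⟨h.1, h.2.1⟩]; positivity
      have e1 : aeval x.2 (ph G) = 0 := ((dEv (FF x.1) j (aM G)).1 x.2).1 e
      have e2 : aeval x.2 (derivative (ph G)) ≠ 0 := fun e2 =>
        (hEv (FF x.1) j (aM G) x.2 (gm_symm _ _ _) e1 e2).elim (fun a => by omega) c.2
      have e3 := (hMq p j (3 * t) x G (by omega) hG (cube_le hq) hp).2 e1 e2
      have e4 : (mB p j).pr (fun s => aeval x.2 (ph (bord G s)) = 0) ≤ 2 * u := by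
        rw [← u3]
        refine (FP.pr_mono fun s h => ?_).trans (stay hG h32 hq e)
        exact c.1.le.trans (((dEv (FF x.1) _ (aM (bord G s))).1 x.2).2 h)
      rw [u2, u3] at e3
      refine (FP.pr_mono fun s h => h.2.2).trans (e3.trans ?_)
      have e5 := mul_le_mul_of_nonneg_right e4 u0.le
      have e6 := mul_le_mul_of_nonneg_right u1 (sq_nonneg u)
      nlinarith).trans (add_le_add le_rfl hB)
  have h7 := mul_le_mul_of_nonneg_left (a1 1 (by norm_num)) (show 0 ≤ 3 * u ^ 2 by positivity)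
  have h8 := tail (a := 4 * t) (show 3 ≤ t by omega)
  rw [show 4 * t + t = 5 * t by ring, ← hβ] at h8
  have b2 := mul_le_mul_of_nonneg_right u1 b0
  have b3 : u ^ 2 * β ≤ β := mul_le_of_le_one_left b0 (by nlinarith)
  rw [← FP.pr_fst (ν := mB p j)] at h1
  rw [pr_bord, u2]
  refine (FP.pr_le_add fun ω e => ?_).trans ((add_le_add h1 ((FP.pr_or _ _).trans
    (add_le_add h2 ((FP.pr_or _ _).trans (add_le_add h4 h6))))).trans (by nlinarith))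
  have e2 : gd (FF x.1) (aM (bord ω.1 ω.2)) x.2 ≤ gd (FF x.1) (aM ω.1) x.2 + 1 :=
    (dBord (FF x.1) 0 1 _ ω.1 ω.2 x.2).2.1
  have e1 : 2 ≤ gd (FF x.1) (aM (bord ω.1 ω.2)) x.2 := e
  by_cases h : 3 ≤ gd (FF x.1) (aM ω.1) x.2
  · exact Or.inl h
  have e3 : gd (FF x.1) (aM ω.1) x.2 ≤ gd (FF x.1) (aM (bord ω.1 ω.2)) x.2 := by omega
  by_cases h' : 2 ≤ gd (FF x.1) (aM ω.1) x.2
  · exact Or.inr (Or.inl ⟨h', e3⟩)
  by_cases h'' : Iso x ω.1
  · exact Or.inr (Or.inr (Or.inl ⟨h'', e3⟩))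
  have e4 := (dEv (FF x.1) _ (aM (bord ω.1 ω.2))).2.2 (gm_symm _ _ _) x.2 (Or.inl e1)
  exact Or.inr (Or.inr (Or.inr ⟨by omega, h'', l2 _ e4.1 e4.2⟩))

theorem rMed (hGd : RGd) (hA : RMedA) (hB : RMedB) (hMq : RMq) : RMed := by
  obtain ⟨N1, hGd⟩ := hGd
  obtain ⟨N2, c, hA⟩ := hA
  obtain ⟨N3, hMq⟩ := hMq
  obtain ⟨N4, c', hB⟩ := hB
  refine ⟨N1 + N2 + N3 + N4 + 3, 2 * c + 2 * c' + 2, fun p n t j0 x hN hP hp h32 hq => ?_⟩
  obtain ⟨-, -, -, -, -, -, -, l2, -, -⟩ := dPl x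
  have q0 : (32 : ℝ) ≤ sz x := by exact_mod_cast h32
  obtain ⟨u, hu⟩ : ∃ u : ℝ, u = 1 / sz x := ⟨_, rfl⟩
  have u0 : 0 < u := by rw [hu]; positivity
  have u1 : u ≤ 1 / 32 := by rw [hu]; exact one_div_le_one_div_of_le (by norm_num) q0
  have u2 : ∀ (c : ℝ) (e : ℕ), c / (sz x : ℝ) ^ e = c * u ^ e := fun c e => by
    rw [hu, one_div, inv_pow, div_eq_mul_inv]
  have u3 : ∀ c : ℝ, c / (sz x : ℝ) = c * u := fun c => by rw [hu, mul_one_div]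
  obtain ⟨β, hβ⟩ : ∃ β : ℝ, β = (1 / 2) ^ (4 * t) := ⟨_, rfl⟩
  have b0 : 0 ≤ β := by rw [hβ]; positivity
  have b1 : (1 / 2 : ℝ) ^ (5 * t) ≤ β :=
    hβ ▸ pow_le_pow_of_le_one (by norm_num) (by norm_num) (by omega)
  have hD : (mG p n).pr (fun G => ¬ Gd p (3 * t) G) ≤ β :=
    (hGd p n (3 * t) (by omega) (hP.rg (by omega) (j0_le hP (by omega) (by omega))
      (by omega))).trans ((sq_le5 (by omega)).trans b1)
  have a3 := ((hA p n t j0 n x (by omega) hP hp h32 hq (by omega) (by omega)).2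
    (by omega)).trans (add_le_add le_rfl b1)
  have h1 := hB p n t j0 n x (by omega) hP hp h32 hq le_rfl (by omega)
  have h2 := hB p n t j0 (n + 1) x (by omega) hP hp h32 hq (by omega) le_rfl
  rw [u2, ← hβ] at h1 h2
  rw [u2] at a3
  have h4 := (step (p := p) h32 hq (fun G : Gr n => Iso x G) fun _ e => iso_gd e).trans
    (add_le_add le_rfl hD)
  have h5 := mul_le_mul_of_nonneg_left a3 (show 0 ≤ 2 * u by positivity)
  rw [u3] at h4
  have h6 := (FP.pr_prod_le' (μ := mG p n) (ν := mB p n) (E := fun ω =>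
      aeval x.2 (ph ω.1) ≠ 0 ∧ E2 x (ph (bord ω.1 ω.2)) ∧
        mp x ^ 2 ∣ red x.1.1 (ph (bord ω.1 ω.2)))
    (fun G => Gd p (3 * t) G) (show 0 ≤ 2 * u ^ 3 by positivity) fun G hG => by
      by_cases c : aeval x.2 (ph G) ≠ 0
      swap
      · rw [FP.pr_false fun s h => c h.1]; positivity
      have e3 := ((hMq p n (3 * t) x G (by omega) hG (cube_le hq) hp).1 c).2.2
      rw [u2] at e3
      exact (FP.pr_mono fun s h => h.2).trans e3).trans (add_le_add le_rfl hD)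
  have h8 := tail (a := 3 * t) (show 3 ≤ t by omega)
  rw [show 3 * t + t = 4 * t by ring, ← hβ] at h8
  have b2 := mul_le_mul_of_nonneg_right u1 b0
  rw [← FP.pr_fst (ν := mB p n)] at h1
  rw [pr_bord] at h2
  rw [pr_bord, u2]
  refine (FP.pr_le_add fun ω e => ?_).trans ((add_le_add h1 ((FP.pr_or _ _).trans
    (add_le_add h2 ((FP.pr_or _ _).trans (add_le_add h4 h6))))).trans (by nlinarith))
  obtain ⟨e1, e2⟩ : Am x (bord ω.1 ω.2) := e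
  rw [res_bord] at e2
  have e3 := iso_gd e1
  by_cases h : 2 ≤ gd (FF x.1) (aM ω.1) x.2
  · exact Or.inl h
  by_cases h' : 2 ≤ gd (FF x.1) (aM (bord ω.1 ω.2)) x.2
  · exact Or.inr (Or.inl h')
  by_cases h'' : aeval x.2 (ph ω.1) = 0
  · have e4 := ((dEv (FF x.1) _ (aM ω.1)).1 x.2).2 h''
    exact Or.inr (Or.inr (Or.inl ⟨iso_res (by omega) (by omega) e1, by omega⟩))
  have e4 := (dEv (FF x.1) _ (aM (bord ω.1 ω.2))).2.2 (gm_symm _ _ _) x.2 (Or.inr e1)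
  exact Or.inr (Or.inr (Or.inr ⟨h'', e2 h'', l2 _ e4.1 e4.2⟩))

end Pool.Agent.P.MP_f57657_co.RS
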