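import Pool.Agent.P.MP_f57657_co.RS.Base

/-! The lists of allowed integer representations. -/

open Matrix Finset Polynomial

namespace Pool.Agent.P.MP_f57657_co.RS

open DG

namespace MenuAux

variable {p : unitInterval} {n t : ℕ} {J : Finset (Fin n)} {Λ : AddSubgroup (Vc n)}

theorem tau (ht : 6 ≤ t) : (1 / 2 : ℝ) ^ (4 * t) ≤ (1 / 2) ^ t / 100000 := by
  have h1 : (1 / 2 : ℝ) ^ (3 * t) ≤ (1 / 2) ^ 18 :=
    pow_le_pow_of_le_one (by norm_num) (by norm_num) (by omega)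
  rw [show 4 * t = t + 3 * t by ring, pow_add, div_eq_mul_one_div _ (100000 : ℝ)]
  exact mul_le_mul_of_nonneg_left (h1.trans (by norm_num)) (by positivity)

/-- Comparison of the walk with its lift. -/
theorem near (hTail : RTail) (hLift : RLift) (ht : 6 ≤ t) (hJ : (p : ℝ) * J.card ≤ 20000 * t)
    {Γ : Type} [AddCommGroup Γ] {w : Fin n → Γ} (hC : Cmp J (3 * (20000 * t)) Λ w)
    (hS : Sel p t J w) :
    (1 / 2 : ℝ) ^ (t + 1) ≤ lk p J (un Λ) (· = 0) ∧
      lk p J w (· = 0) ≤ (1 + 2 / 10000) * lk p J (un Λ) (· = 0) ∧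
      ∀ i, i ∉ J → ∃ E, ap E w = w i ∧
        (1 - 2 / 10000) * lk p J (un Λ) (· = 0) ≤ lk p J (un Λ) (· = QuotientAddGroup.mk E) := by
  obtain ⟨h1, h2, h3⟩ := (hLift p n _ J Λ _ (hTail p n t J hJ)).2 Γ w hC
  have h4 := tau ht
  have h5 := hS.1
  have h6 : (0 : ℝ) < (1 / 2) ^ t := by positivity
  refine ⟨by rw [pow_succ]; linarith, by linarith, fun i hi => ?_⟩
  have h7 := hS.2 i hi
  obtain ⟨E, -, h8, h9⟩ := h3 (w i) (by linarith)
  exact ⟨E, h8, by linarith⟩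

variable {Q : Type} [AddCommGroup Q]

/-- The shift used for a value of the source. -/
def sel {H : Type} (c : H × H × H) (a : ℤ) : H :=
  if a = 0 then c.1 else if a = 1 then c.2.1 else c.2.2

open Classical in
/-- The lists attached to a character and three shifts. -/
noncomputable def mn (γ : ℝ) (rep : Q → Vc n) (H : AddSubgroup Q) [Fintype H]
    (c : AddChar H ℂ × H × H × H) : Menu n where
  g := γ
  B := univ.image fun h : H => rep h
  E a := (univ.filter fun h : H => 1 / 2 < (c.1 (h - sel c.2 a)).re).image fun h : H => rep h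
  ν := n / 20

theorem mn_ok (hChar : RChar) {γ : ℝ} {rep : Q → Vc n} {H : AddSubgroup Q} [Fintype H]
    {c : AddChar H ℂ × H × H × H} (hc : c.1 ≠ 1) (h1 : (1 / 2 : ℝ) ^ (t + 1) ≤ γ)
    (h2 : ∀ h : H, Sh J (20000 * t) (rep h)) (h3 : γ * Fintype.card H ≤ 105 / 100) :
    (mn γ rep H c).Ok t J := by
  classical
  have h0 : 0 ≤ γ := le_trans (by positivity) h1
  refine ⟨h1, fun E hE => ?_, fun a => image_subset_image (filter_subset _ _), ?_,
    Or.inr ⟨Nat.mul_div_le n 20, fun a => ?_⟩⟩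
  · obtain ⟨h, -, rfl⟩ := mem_image.1 hE
    exact h2 h
  · have : ((mn γ rep H c).B.card : ℝ) ≤ Fintype.card H := by exact_mod_cast card_image_le
    exact (mul_le_mul_of_nonneg_left this h0).trans (h3.trans (by norm_num))
  · have a1 : 3 * ((mn γ rep H c).E a).card ≤ 2 * Fintype.card H :=
      (Nat.mul_le_mul_left 3 card_image_le).trans (by convert hChar H c.1 (sel c.2 a) hc)
    have a2 : (3 : ℝ) * ((mn γ rep H c).E a).card ≤ 2 * Fintype.card H := by exact_mod_cast a1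
    have a3 := mul_le_mul_of_nonneg_left a2 h0
    change γ * _ ≤ _
    linarith

theorem mn_rep {γ : ℝ} {rep : Q → Vc n} {H : AddSubgroup Q} [Fintype H] {Γ : Type}
    [AddCommGroup Γ] {w : Fin n → Γ} {y : Vc n} (π : Q →+ Γ) (χ : AddChar H ℂ) (g : ℤ → H)
    (N : Finset (Fin n)) (hy : ∀ i, y i = 0 ∨ y i = 1 ∨ y i = -1)
    (h0 : lk p J w (· = 0) ≤ γ) (h1 : ∀ h : H, ap (rep h) w = π h)
    (h2 : ∀ i, i ∉ J → ∃ h : H, π h = w i)
    (h3 : ∀ i, i ∉ N → ∃ h : H, π h = w i ∧ 1 / 2 < (χ (h - g (y i))).re) :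
    Rep p J γ ((mn γ rep H (χ, g 0, g 1, g (-1))).pick y N) w := by
  classical
  refine ⟨h0, fun i hi => ?_⟩
  unfold Menu.pick
  split_ifs with hN
  · obtain ⟨h, e⟩ := h2 i hi
    exact ⟨rep h, mem_image.2 ⟨h, mem_univ _, rfl⟩, by rw [h1, e]⟩
  · obtain ⟨h, e, e'⟩ := h3 i hN
    refine ⟨rep h, mem_image.2 ⟨h, mem_filter.2 ⟨mem_univ _, ?_⟩, rfl⟩, by rw [h1, e]⟩
    have : sel (g 0, g 1, g (-1)) (y i) = g (y i) := by
      rcases hy i with k | k | k <;> simp [sel, k]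
    rwa [this]

/-- The structured case: a character that is large at most coordinates. -/
theorem struct (hW3 : RWalk3) (hCase : RCase) (hp : (p : ℝ) ≤ 1 / 2) {H : AddSubgroup Q}
    [Fintype H] {G : Gr n} {y : Vc n} {Γ : Type} [AddCommGroup Γ] {x : Γ →+ Γ} {c : Γ}
    {w : Fin n → Γ} (π : Q →+ Γ) (h1 : Exp1 p G) (h2 : Exp2 p G) (h3 : Adm p y)
    (h4 : Eqn G y x c w) (h5 : ¬ Concl p x w) (T : Finset (Fin n))
    (hT : (p : ℝ) * T.card ≤ 1 / 100) (h6 : ∀ i, i ∉ T → w i ∈ H.map π)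
    (h7 : ∀ h : H, π h ∈ AddSubgroup.closure (Set.range w))
    (h8 : lk p J w (· = 0) * Fintype.card H ≤ 11 / 10) :
    ∃ (χ : AddChar H ℂ) (g : ℤ → H) (N : Finset (Fin n)), χ ≠ 1 ∧ 20 * N.card ≤ n ∧
      ∀ i, i ∉ N → ∃ h : H, π h = w i ∧ 1 / 2 < (χ (h - g (y i))).re := by
  classical
  have hs := π.addSubgroupMap_surjective H
  have hf : Finite (H.map π) := Finite.of_surjective _ hs
  have hT' : (p : ℝ) * (univ.filter fun i => w i ∉ H.map π).card ≤ 1 / 100 := by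
    refine le_trans (mul_le_mul_of_nonneg_left ?_ p.2.1) hT
    have : (univ.filter fun i => w i ∉ H.map π) ⊆ T := fun i hi =>
      by_contra fun h => (mem_filter.1 hi).2 (h6 i h)
    exact_mod_cast card_le_card this
  rcases hCase p n G y Γ x c w (H.map π) hf hp h1 h2 h3 h4 (by convert hT') with
    ⟨χ, hχ, N, g, hN, h⟩ | ⟨ha, hx⟩
  · choose s hs' using hs
    refine ⟨χ.compAddMonoidHom (π.addSubgroupMap H), fun a => s (g a), N, fun e => hχ ?_, hN,
      fun i hi => ?_⟩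
    · ext u
      have := DFunLike.congr_fun e (s u)
      rwa [AddChar.compAddMonoidHom_apply, hs'] at this
    · obtain ⟨m, e⟩ := h i hi
      refine ⟨s ⟨w i, m⟩, congrArg Subtype.val (hs' ⟨w i, m⟩), ?_⟩
      rw [AddChar.compAddMonoidHom_apply, map_sub, hs', hs', e]
      norm_num
  · have e : AddSubgroup.closure (Set.range w) = H.map π := by
      refine le_antisymm ((AddSubgroup.closure_le _).2 ?_) ?_
      · rintro _ ⟨i, rfl⟩
        exact ha i
      · rintro _ ⟨h, hh, rfl⟩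
        exact h7 ⟨h, hh⟩
    have k : lk p univ w (· = 0) * Nat.card (H.map π) ≤ 11 / 10 := by
      refine le_trans (mul_le_mul ((hW3 p Γ n J w).2.1 univ (subset_univ _)) ?_ (by positivity)
        (FP.pr_nonneg _)) h8
      rw [← Nat.card_eq_fintype_card]
      exact_mod_cast Nat.card_le_card_of_surjective _ hs
    unfold Concl at h5
    rw [e] at h5
    obtain ⟨ψ, ⟨i, hi⟩, hF⟩ : ∃ ψ : AddChar Γ ℂ, (∃ i, ψ (w i) ≠ 1) ∧ ¬ Far ψ w := by
      by_contra h
      exact h5 ⟨hf, hx, k, fun ψ a => by_contra fun b => h ⟨ψ, a, b⟩⟩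
    unfold Far at hF
    refine ⟨ψ.compAddMonoidHom (π.comp H.subtype), fun _ => 0,
      univ.filter fun i => (ψ (w i)).re ≤ 1 / 2, fun e' => hi ?_, by omega, fun j hj => ?_⟩
    · obtain ⟨h, hh, e1⟩ := ha i
      rw [← e1]
      exact DFunLike.congr_fun e' ⟨h, hh⟩
    · obtain ⟨h, hh, e1⟩ := ha j
      refine ⟨⟨h, hh⟩, e1, ?_⟩
      rw [sub_zero]
      change 1 / 2 < (ψ (π h)).re
      rw [e1]
      exact not_le.1 fun b => hj (mem_filter.2 ⟨mem_univ _, b⟩)

end MenuAux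

open MenuAux in
theorem rMenu (hW3 : RWalk3) (hTail : RTail) (hLift : RLift) (hDich : RDich) (hChar : RChar)
    (hCase : RCase) : RMenu := by
  classical
  refine ⟨6, fun p n t J Λ ht hp hJ => ?_⟩
  by_cases hγ : (1 / 2 : ℝ) ^ (t + 1) ≤ lk p J (un Λ) (· = 0)
  swap
  · exact ⟨∅, by simp, by simp, fun G y Γ _ x c w hC _ _ _ _ hS _ =>
      absurd (near hTail hLift ht hJ hC hS).1 hγ⟩
  obtain ⟨hB, hD⟩ := hDich p _ n J (un Λ) hp
  obtain ⟨hB2, -⟩ := hB (2 / 10000) (by norm_num)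
  obtain ⟨hB8, hc8⟩ := hB (8 / 10000) (by norm_num)
  have hL := (hLift p n _ J Λ _ (hTail p n t J hJ)).1
  have h0 : (0 : ℝ) < (1 / 2) ^ t := by positivity
  have hτ := tau ht
  have hγ' := hγ
  rw [pow_succ] at hγ'
  have hg : (1 / 2 : ℝ) ^ (t + 1) ≤ (1 + 2 / 10000) * lk p J (un Λ) (· = 0) := by
    rw [pow_succ]; linarith
  have hsub : ∀ g, g ∈ Bs p J (un Λ) (2 / 10000) → g ∈ Bs p J (un Λ) (8 / 10000) := fun g h =>
    (hB8 g).2 (le_trans (by linarith) ((hB2 g).1 h))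
  obtain ⟨rep, hrep⟩ : ∃ rep : Vc n ⧸ Λ → Vc n, ∀ g, g ∈ Bs p J (un Λ) (8 / 10000) →
      Sh J (20000 * t) (rep g) ∧ QuotientAddGroup.mk (rep g) = g := by
    choose! rep hrep using hL
    exact ⟨rep, fun g h => hrep g (lt_of_lt_of_le (by linarith) ((hB8 g).1 h))⟩
  have key : ∀ (Γ : Type) [AddCommGroup Γ] (w : Fin n → Γ), Cmp J (3 * (20000 * t)) Λ w →
      Sel p t J w → ∃ π : Vc n ⧸ Λ →+ Γ, (∀ j, π (un Λ j) = w j) ∧
        (∀ g, g ∈ Bs p J (un Λ) (8 / 10000) → ap (rep g) w = π g) ∧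
        lk p J w (· = 0) ≤ (1 + 2 / 10000) * lk p J (un Λ) (· = 0) ∧
        ∀ i, i ∉ J → ∃ g ∈ Bs p J (un Λ) (2 / 10000), π g = w i := fun Γ _ w hC hS => by
    obtain ⟨-, a1, a2⟩ := near hTail hLift ht hJ hC hS
    refine ⟨QuotientAddGroup.lift Λ (apH w) hC.1, fun j => ap_single j w, fun g h => ?_, a1,
      fun i hi => ?_⟩
    · conv_rhs => rw [← (hrep g h).2]
      rfl
    · obtain ⟨E, e1, e2⟩ := a2 i hi
      exact ⟨_, (hB2 _).2 e2, e1⟩
  rcases hD with hD | ⟨H, hH, hT⟩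
  · refine ⟨{⟨(1 + 2 / 10000) * lk p J (un Λ) (· = 0), (Bs p J (un Λ) (2 / 10000)).image rep,
      fun _ => (Bs p J (un Λ) (2 / 10000)).image rep, 0⟩}, ?_, ?_, ?_⟩
    · rw [card_singleton]
      exact Nat.one_le_two_pow
    · intro m hm
      rw [mem_singleton.1 hm]
      have a1 : (((Bs p J (un Λ) (2 / 10000)).image rep).card : ℝ) ≤
          (Bs p J (un Λ) (2 / 10000)).card := by exact_mod_cast card_image_le
      have a2 : (1 + 2 / 10000) * lk p J (un Λ) (· = 0) *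
          ((Bs p J (un Λ) (2 / 10000)).image rep).card ≤ 9995 / 10000 :=
        (mul_le_mul_of_nonneg_left a1 (le_trans (by positivity) hg)).trans (by linarith)
      refine ⟨hg, fun E hE => ?_, fun _ => Subset.rfl, a2.trans (by norm_num),
        Or.inl ⟨rfl, fun _ => a2⟩⟩
      obtain ⟨g, h, rfl⟩ := mem_image.1 hE
      exact (hrep g (hsub g h)).1
    · intro G y Γ _ x c w hC _ _ _ _ hS _
      obtain ⟨π, -, a1, a2, a3⟩ := key Γ w hC hS
      refine ⟨_, mem_singleton_self _, ∅, le_rfl, a2, fun i hi => ?_⟩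
      obtain ⟨g, h, e⟩ := a3 i hi
      exact ⟨rep g, mem_image_of_mem rep h, by rw [a1 g (hsub g h), e]⟩
  · let _ : Fintype H := Fintype.ofFinset (Bs p J (un Λ) (8 / 10000)) fun g => (hH g).symm
    have hcard : Fintype.card H = (Bs p J (un Λ) (8 / 10000)).card :=
      Fintype.card_ofFinset _ fun g => (hH g).symm
    rw [← hcard] at hc8
    have hc : (1 + 2 / 10000) * lk p J (un Λ) (· = 0) * Fintype.card H ≤ 105 / 100 := by linarith
    refine ⟨(univ.filter fun c : AddChar H ℂ × H × H × H => c.1 ≠ 1).image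
      (mn ((1 + 2 / 10000) * lk p J (un Λ) (· = 0)) rep H), ?_, ?_, ?_⟩
    · refine card_image_le.trans ((card_filter_le _ _).trans ?_)
      have a1 : Fintype.card H ≤ 2 ^ (t + 2) := by
        have a2 : (1 / 2 : ℝ) ^ (t + 1) * Fintype.card H ≤ 2 :=
          (mul_le_mul_of_nonneg_right hg (by positivity)).trans (hc.trans (by norm_num))
        rw [one_div, inv_pow, inv_mul_le_iff₀ (by positivity), ← pow_succ] at a2
        exact_mod_cast a2
      rw [card_univ, Fintype.card_prod, Fintype.card_prod, Fintype.card_prod, AddChar.card_eq]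
      calc _ ≤ 2 ^ (t + 2) * (2 ^ (t + 2) * (2 ^ (t + 2) * 2 ^ (t + 2))) := by gcongr
        _ = 2 ^ (4 * t + 8) := by ring
        _ ≤ _ := Nat.pow_le_pow_right (by norm_num) (by omega)
    · intro m hm
      obtain ⟨c, hc', rfl⟩ := mem_image.1 hm
      exact mn_ok hChar (mem_filter.1 hc').2 hg (fun h => (hrep h ((hH h).1 h.2)).1) hc
    · intro G y Γ _ x c w hC h1 h2 h3 h4 hS h5
      obtain ⟨π, a0, a1, a2, a3⟩ := key Γ w hC hS
      have b1 : ∀ h : H, ap (rep h) w = π h := fun h => a1 h ((hH h).1 h.2)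
      have b2 : ∀ i, i ∉ J → ∃ h : H, π h = w i := fun i hi => by
        obtain ⟨g, h, e⟩ := a3 i hi
        exact ⟨⟨g, (hH g).2 (hsub g h)⟩, e⟩
      obtain ⟨χ, g, N, c1, c2, c3⟩ := struct (J := J) (H := H) hW3 hCase hp π h1 h2 h3 h4 h5 _ hT
        (fun i hi => by
          by_cases hi' : i ∈ J
          · exact ⟨un Λ i, by_contra fun h => hi (mem_filter.2 ⟨hi', h⟩), a0 i⟩
          · obtain ⟨h, e⟩ := b2 i hi'
            exact ⟨h, h.2, e⟩)
        (fun h => b1 h ▸ sum_mem fun j _ =>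
          zsmul_mem (AddSubgroup.subset_closure (Set.mem_range_self j)) _)
        ((mul_le_mul_of_nonneg_right a2 (by positivity)).trans (hc.trans (by norm_num)))
      exact ⟨_, mem_image_of_mem _ (mem_filter.2 ⟨mem_univ (χ, g 0, g 1, g (-1)), c1⟩), N,
        (Nat.le_div_iff_mul_le (by norm_num)).2 (by omega), mn_rep π χ g N h3.1 a2 b1 b2 c3⟩

end Pool.Agent.P.MP_f57657_co.RS
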