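import Pool.Agent.P.MP_f57657_co.RS.Det
import Pool.Agent.P.MP_f57657_co.DG.Odd
import Pool.Agent.P.MP_f57657_co.DG.T1

/-! The sum over all points of medium size. -/

open Matrix Finset Polynomial

namespace Pool.Agent.P.MP_f57657_co.RS

open DG

namespace MidAux

variable {Ω : Type} [Fintype Ω] (μ : FP Ω)

/-- The union over the points of one size. -/
theorem one_size (E : Pt → Ω → Prop) (D : Pt → Prop) (q : ℕ) {b : ℝ} (hb : 0 ≤ b)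
    (h : ∀ x, D x → sz x = q → μ.pr (E x) ≤ b) :
    μ.pr (fun ω => ∃ x : Pt, D x ∧ sz x = q ∧ E x ω) ≤ q * b := by
  obtain ⟨F, hF, hF'⟩ := dPlc.1 q
  refine (FP.pr_le_card_mul F (fun x ω => D x ∧ sz x = q ∧ E x ω) (c := b)
    (fun ω ⟨x, a, e, f⟩ => ⟨x, hF' x e, a, e, f⟩) fun x _ => ?_).trans ?_
  · by_cases hx : D x ∧ sz x = q
    · exact (FP.pr_mono fun ω hω => hω.2.2).trans (h x hx.1 hx.2)
    · rw [FP.pr_false fun ω hω => hx ⟨hω.1, hω.2.1⟩]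
      exact hb
  · exact mul_le_mul_of_nonneg_right (by exact_mod_cast hF) hb

theorem sum_two {c : ℝ} (hc : 0 ≤ c) (a t : ℕ) :
    ∑ f ∈ Ioc a t, ((2 ^ f : ℕ) : ℝ) * (c / ((2 ^ f : ℕ) : ℝ) ^ 2 + (1 / 2) ^ (3 * t)) ≤
      c * (1 / 2) ^ a + (1 / 2) ^ t := by
  have h2 : ∀ f ∈ Ioc a t, ((2 ^ f : ℕ) : ℝ) * (c / ((2 ^ f : ℕ) : ℝ) ^ 2 + (1 / 2) ^ (3 * t)) ≤
      c * (1 / 2) ^ f + 2 ^ t * (1 / 2) ^ (3 * t) := fun f hf => by
    have h4 : (2 : ℝ) ^ f ≤ 2 ^ t := pow_le_pow_right₀ one_le_two (mem_Ioc.1 hf).2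
    push_cast
    rw [mul_add]
    refine add_le_add (le_of_eq ?_) (by gcongr)
    rw [_root_.one_div_pow 2 f]
    field_simp
  refine (sum_le_sum h2).trans ?_
  rw [sum_add_distrib, ← mul_sum, sum_const, nsmul_eq_mul]
  refine add_le_add (mul_le_mul_of_nonneg_left (T1Aux.tail a t) hc) ?_
  have h5 : ((Ioc a t).card : ℝ) ≤ 2 ^ t := by
    rw [Nat.card_Ioc]
    exact_mod_cast (Nat.sub_le _ _).trans Nat.lt_two_pow_self.le
  refine (mul_le_mul_of_nonneg_right h5 (by positivity)).trans (le_of_eq ?_)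
  rw [show 3 * t = t + t + t by ring, pow_add, pow_add, one_div, inv_pow]
  field_simp

end MidAux

theorem rMid (hMed : RMed) (hTwo : RTwo) : RMid := by
  intro ε hε
  obtain ⟨N1, c1, h1⟩ := hMed
  obtain ⟨N2, c2, h2⟩ := hTwo
  have hc : 0 < |c1| + |c2| + 2 := by positivity
  obtain ⟨b, hb⟩ := exists_pow_lt_of_lt_one (div_pos hε hc) (by norm_num : (1 / 2 : ℝ) < 1)
  obtain ⟨a, ha, hb'⟩ : ∃ a : ℕ, 5 ≤ a ∧ (1 / 2 : ℝ) ^ a ≤ ε / (|c1| + |c2| + 2) :=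
    ⟨b + 5, by omega, (pow_le_pow_of_le_one (by norm_num) (by norm_num) (by omega)).trans hb.le⟩
  refine ⟨2 ^ a, N1 + N2 + a, fun p n t j0 ht hp => ?_⟩
  have h32 : 32 ≤ 2 ^ a := Nat.pow_le_pow_right (show 0 < 2 by norm_num) ha
  refine (FP.pr_le_add
    (F := fun G => ∃ q ∈ Ioc (2 ^ a) (2 ^ t), ∃ x : Pt, x.1.1 ≠ 2 ∧ sz x = q ∧ Am x G)
    (F' := fun G => ∃ f ∈ Ioc a t, ∃ x : Pt, x.1.1 = 2 ∧ sz x = 2 ^ f ∧ Am x G) ?_).trans ?_
  · rintro G ⟨x, e1, e2, e3⟩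
    by_cases hx : x.1.1 = 2
    · have e4 : sz x = 2 ^ dg x := by rw [sz, hx]
      rw [e4] at e1 e2
      exact Or.inr ⟨dg x, mem_Ioc.2 ⟨(Nat.pow_lt_pow_iff_right one_lt_two).1 e1,
        (Nat.pow_le_pow_iff_right one_lt_two).1 e2⟩, x, hx, e4, e3⟩
    · exact Or.inl ⟨sz x, mem_Ioc.2 ⟨e1, e2⟩, x, hx, rfl, e3⟩
  have hA : (mG p (n + 1)).pr (fun G => ∃ q ∈ Ioc (2 ^ a) (2 ^ t), ∃ x : Pt,
      x.1.1 ≠ 2 ∧ sz x = q ∧ Am x G) ≤ |c1| / (2 ^ a : ℕ) + (1 / 2) ^ t := by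
    refine (FP.pr_le_sum (Ioc (2 ^ a) (2 ^ t)) _ fun G h => h).trans ?_
    refine le_trans (sum_le_sum fun q hq => ?_) (OddAux.sum_le (abs_nonneg c1) (by omega) t)
    have h8 := mem_Ioc.1 hq
    refine MidAux.one_size _ (fun x G => Am x G) (fun x => x.1.1 ≠ 2) q (by positivity)
      fun x hx hs => (h1 p n t j0 x (by omega) hp hx (by omega) (by omega)).trans ?_
    rw [hs]
    gcongr
    exact le_abs_self c1
  have hB : (mG p (n + 1)).pr (fun G => ∃ f ∈ Ioc a t, ∃ x : Pt,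
      x.1.1 = 2 ∧ sz x = 2 ^ f ∧ Am x G) ≤ |c2| * (1 / 2) ^ a + (1 / 2) ^ t := by
    refine (FP.pr_le_sum (Ioc a t) _ fun G h => h).trans ?_
    refine le_trans (sum_le_sum fun f hf => ?_) (MidAux.sum_two (abs_nonneg c2) a t)
    have h8 := mem_Ioc.1 hf
    have h9 : 2 ^ a ≤ 2 ^ f := Nat.pow_le_pow_right (by norm_num) h8.1.le
    have h10 : 2 ^ f ≤ 2 ^ t := Nat.pow_le_pow_right (by norm_num) h8.2
    refine MidAux.one_size _ (fun x G => Am x G) (fun x => x.1.1 = 2) (2 ^ f) (by positivity)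
      fun x hx hs => (h2 p n t j0 x (by omega) hp hx (by omega) (by omega)).trans ?_
    rw [hs]
    gcongr
    exact le_abs_self c2
  have h9 : (1 / 2 : ℝ) ^ t ≤ (1 / 2) ^ a :=
    pow_le_pow_of_le_one (by norm_num) (by norm_num) (by omega)
  have h10 : |c1| / (2 ^ a : ℕ) = |c1| * (1 / 2) ^ a := by
    push_cast
    rw [_root_.one_div_pow 2 a, mul_one_div]
  rw [le_div_iff₀ hc] at hb'
  rw [h10] at hA
  linarith

end Pool.Agent.P.MP_f57657_co.RS
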