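import Pool.Agent.P.MP_f57657_co.RS.Det

/-! Equidistribution of the bordered characteristic polynomial at a point of odd characteristic. -/

open Matrix Finset Polynomial

namespace Pool.Agent.P.MP_f57657_co.RS

open DG

namespace MqAux

theorem num {t : ℕ} (ht : 3 ≤ t) {Q : ℝ} (h : Q ≤ (2 ^ t) ^ 2) :
    2 * Q * (1 / 2) ^ t ^ 2 ≤ 1 := by
  have h1 : (2 : ℝ) * (2 ^ t) ^ 2 ≤ 2 ^ t ^ 2 := by
    rw [← pow_mul, ← pow_succ']
    exact pow_le_pow_right₀ (by norm_num) (by nlinarith)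
  rw [_root_.one_div_pow, mul_one_div, div_le_one (by positivity)]
  linarith

theorem fi (hFI : RFI) {p : unitInterval} {j t : ℕ} {G : Gr j} (hG : EQp p t G) {R : Type}
    [CommRing R] [Fintype R] {ev : ℤ[X] →+* R} (hs : Function.Surjective ev)
    (hc : Fintype.card R ≤ 2 ^ t) :
    (mB p j).pr (fun s => ev (ph (bord G s)) = 0) ≤
      (mB p j).ex (fun s => pr fun r : R => ev (ph (bord G s)) + 2 * ev (ph G) * r = 0) +
        2 * Fintype.card R * (1 / 2) ^ t ^ 2 := by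
  refine hFI (Bv j) R R (mB p j) (fun s => ev (ph (bord G s))) (fun r => 2 * ev (ph G) * r)
    (· = 0) _ (by positivity) fun ψ ⟨r, hr⟩ => ?_
  have hE := hG R ev hs hc (ψ.mulShift (-1)) ⟨-r, by
    rw [AddChar.mulShift_apply]
    convert hr using 2
    ring⟩
  have e1 : ∀ s : Bv j, ψ (ev (ph (bord G s))) = ψ (ev (X * ph G)) *
      (ψ.mulShift (-1)) (ev (bf (aM G) (sv 0 1 s) (sv 0 1 s))) := fun s => by
    rw [AddChar.mulShift_apply, ← AddChar.map_add_eq_mul, ph, dJac.1 0 1 j G s, map_sub]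
    congr 1
    ring
  simp only [e1]
  rw [FP.exc_mul, norm_mul, AddChar.norm_apply, one_mul]
  exact hE

theorem pr_unit {R : Type} [CommRing R] [Fintype R] {u : R} (hu : IsUnit u) (z : R) :
    pr (fun r : R => z + u * r = 0) ≤ 1 / (Fintype.card R : ℝ) := by
  classical
  rw [pr_eq_card]
  refine div_le_div_of_nonneg_right ?_ (Nat.cast_nonneg _)
  have : (univ.filter fun r : R => z + u * r = 0).card ≤ 1 := by
    refine card_le_one.2 fun a ha b hb => ?_
    exact hu.mul_left_cancel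
      (add_left_cancel (((mem_filter.1 ha).2).trans ((mem_filter.1 hb).2).symm))
  have h2 : ((univ.filter fun r : R => z + u * r = 0).card : ℝ) ≤ 1 := by exact_mod_cast this
  convert h2 using 3

theorem two_ne {x : Pt} (hp : x.1.1 ≠ 2) : aeval x.2 (2 : ℤ[X]) ≠ 0 := by
  intro h
  have h3 : ((2 : ℕ) : FF x.1) = 0 := by
    rw [← map_natCast (aeval x.2 : ℤ[X] →ₐ[ℤ] FF x.1)]
    exact h
  rw [CharP.cast_eq_zero_iff (FF x.1) x.1.1] at h3
  exact hp ((Nat.prime_dvd_prime_iff_eq x.1.2 Nat.prime_two).1 h3)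

theorem unit (hFI : RFI) {p : unitInterval} {j t : ℕ} {G : Gr j} (ht : 3 ≤ t) (hG : EQp p t G)
    {x : Pt} (hp : x.1.1 ≠ 2) (h0 : aeval x.2 (ph G) ≠ 0) {R : Type} [CommRing R] [Fintype R]
    {ev : ℤ[X] →+* R} (hs : Function.Surjective ev) {e : ℕ} (hc : Fintype.card R = sz x ^ e)
    (he : sz x ^ e ≤ 2 ^ t) (hu : ∀ u, aeval x.2 u ≠ 0 → IsUnit (ev u)) :
    (mB p j).pr (fun s => ev (ph (bord G s)) = 0) ≤ 2 / (sz x : ℝ) ^ e := by
  have hu2 : IsUnit (2 * ev (ph G)) := by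
    have := hu (2 * ph G) (by
      rw [map_mul]
      exact mul_ne_zero (two_ne hp) h0)
    rwa [map_mul, map_ofNat] at this
  have h1 := fi hFI hG hs (hc ▸ he)
  have h2 := FP.ex_le_const (μ := mB p j) fun s => pr_unit hu2 (ev (ph (bord G s)))
  have hQ : (0 : ℝ) < Fintype.card R := by exact_mod_cast Fintype.card_pos
  have h3 : (Fintype.card R : ℝ) ≤ 2 ^ t := by exact_mod_cast hc ▸ he
  have h4 := num ht (pow_le_pow_left₀ hQ.le h3 2)
  have h5 : (sz x : ℝ) ^ e = Fintype.card R := by exact_mod_cast hc.symm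
  have h6 : 2 * (Fintype.card R : ℝ) * (1 / 2) ^ t ^ 2 ≤ 1 / Fintype.card R := by
    rw [le_div_iff₀ hQ]
    nlinarith
  rw [h5, show (2 : ℝ) / Fintype.card R = 1 / Fintype.card R + 1 / Fintype.card R by ring]
  linarith

end MqAux

open MqAux in
theorem rMq (hFI : RFI) (hRing : RRing) : RMq := by
  refine ⟨3, fun p j t x G ht hG hsz hp => ?_⟩
  have hE : EQp p t G := hG.2.2.2.2
  have hq : 1 ≤ sz x := Nat.one_le_pow _ _ x.1.2.pos
  have hpw : ∀ e ≤ 3, sz x ^ e ≤ 2 ^ t := fun e he => (Nat.pow_le_pow_right hq he).trans hsz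
  have hmp := (dPl x).2.2.2.2.2.2.1
  refine ⟨fun h0 => ⟨?_, ?_, ?_⟩, fun h0 h1 => ?_⟩
  · obtain ⟨R, _, _, ev, hL, hc, hu, hz⟩ := (dRing x).1 1 le_rfl
    have := unit hFI ht hE hp h0 hL.1 hc (hpw 1 (by norm_num)) hu
    rw [pow_one] at this
    refine le_trans (FP.pr_mono fun s hs => hz _ ?_) this
    rw [pow_one]
    exact (hmp _).1 hs
  · obtain ⟨R, _, _, ev, hL, hc, hu, hz⟩ := (dRing x).1 2 (by norm_num)
    exact le_trans (FP.pr_mono fun s hs => hz _ hs)
      (unit hFI ht hE hp h0 hL.1 hc (hpw 2 (by norm_num)) hu)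
  · obtain ⟨R, _, _, ev, hL, hc, hz⟩ := (hRing x).2.2
    exact le_trans (FP.pr_mono fun s hs => hz _ hs.1 hs.2)
      (unit hFI ht hE hp h0 hL.1 hc hsz hL.2.1)
  · obtain ⟨R, _, _, ev, ⟨hs, hu, hv, hL⟩, hc, hz⟩ := (hRing x).1
    classical
    have ha : 2 * ev (ph G) ≠ 0 := fun h => h1 (by
      have h2 : IsUnit (2 : R) := by simpa only [map_ofNat] using hu 2 (two_ne hp)
      have h3 := pow_sub_one_dvd_derivative_of_pow_dvd ((hz _).1 (h2.mul_right_eq_zero.1 h))
      rw [hmp, red, ← derivative_map]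
      simpa [red] using h3)
    have hq' : (1 : ℝ) ≤ sz x := by exact_mod_cast hq
    have h2 := fi hFI hE hs (hc.trans (hpw 2 (by norm_num)))
    have h3 : (mB p j).ex (fun s => pr fun r : R => ev (ph (bord G s)) + 2 * ev (ph G) * r = 0) ≤
        (mB p j).pr (fun s => aeval x.2 (ph (bord G s)) = 0) / (sz x : ℝ) := by
      rw [div_eq_inv_mul, FP.pr, ← FP.ex_mul]
      refine FP.ex_mono fun s => ?_
      split_ifs with h
      · simpa using hL _ (ev (ph (bord G s))) ha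
      · rw [mul_zero, pr_false fun r hr => h ?_]
        obtain ⟨ρ, rfl⟩ := hs r
        have := hv (ph (bord G s) + 2 * ph G * ρ) (by simpa only [map_add, map_mul, map_ofNat])
        simpa [h0] using this
    have h4 : (Fintype.card R : ℝ) ≤ (sz x : ℝ) ^ 2 := by exact_mod_cast hc
    have h5 : (sz x : ℝ) ^ 3 ≤ 2 ^ t := by exact_mod_cast hsz
    have h6 := num ht (Q := Fintype.card R * (sz x : ℝ) ^ 3)
      ((mul_le_mul_of_nonneg_right (h4.trans ((pow_le_pow_right₀ hq' (by norm_num)).trans h5))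
        (by positivity)).trans (by nlinarith [(by positivity : (0 : ℝ) < 2 ^ t)]))
    have h7 : 2 * (Fintype.card R : ℝ) * (1 / 2) ^ t ^ 2 ≤ 1 / (sz x : ℝ) ^ 3 := by
      rw [le_div_iff₀ (by positivity)]
      nlinarith
    refine le_trans (FP.pr_mono fun s h => (hz _).2 h) (h2.trans ?_)
    linarith

end Pool.Agent.P.MP_f57657_co.RS
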