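import Pool.Agent.P.MP_f57657_co.RS.Base

/-! The choice of the scales. -/

namespace Pool.Agent.P.MP_f57657_co.RS

open DG

theorem rPar : RPar := by
  intro N
  refine ⟨2 ^ (max (5376 * (48 ^ 6 + 1)) N), fun n hn p h8 hp => ?_⟩
  have hn0 : n ≠ 0 := by
    have : 0 < 2 ^ (max (5376 * (48 ^ 6 + 1)) N) := by positivity
    omega
  have hL1 : max (5376 * (48 ^ 6 + 1)) N ≤ Nat.log 2 n := Nat.le_log_of_pow_le one_lt_two hn
  have h1 : 2 ^ Nat.log 2 n ≤ n := Nat.pow_log_le_self 2 hn0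
  have h2 : n < 2 ^ (Nat.log 2 n + 1) := Nat.lt_pow_succ_log_self one_lt_two n
  generalize Nat.log 2 n = L at hL1 h1 h2
  have hL0 : 5376 * (48 ^ 6 + 1) ≤ L := le_trans (le_max_left _ _) hL1
  have hN : N ≤ L := le_trans (le_max_right _ _) hL1
  refine ⟨8 * (L + 1), n / (8 * (L + 1) + 5), by omega, ?_, ?_, Nat.div_mul_le_self _ _, hp⟩
  · rw [mul_comm, pow_mul]
    exact Nat.pow_le_pow_left h2.le 8
  · have a0 : n + 1 ≤ (n / (8 * (L + 1) + 5) + 1) * (8 * (L + 1) + 5) := by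
      have := Nat.lt_mul_div_succ n (show 0 < 8 * (L + 1) + 5 by omega)
      rw [mul_comm] at this
      exact this
    generalize n / (8 * (L + 1) + 5) = j at a0
    have a1 : ((n + 1 : ℕ) : ℝ) ≤ (j + 1) * (8 * (L + 1) + 5) := by exact_mod_cast a0
    have b0 : (5376 * (48 ^ 6 + 1) : ℝ) ≤ L := by exact_mod_cast hL0
    have b1 : (1 : ℝ) ≤ L := le_trans (by norm_num) b0
    have p0 := p.2.1
    have c1 : (L : ℝ) / 2 ≤ Real.log (n + 1 : ℕ) := by
      have d1 : (2 : ℝ) ^ L ≤ ((n + 1 : ℕ) : ℝ) := by exact_mod_cast h1.trans (Nat.le_succ n)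
      have d2 := Real.log_le_log (by positivity) d1
      rw [Real.log_pow] at d2
      nlinarith [Real.log_two_gt_d9]
    have c2 : ((L : ℝ) / 2) ^ 8 ≤ (j + 1) * (8 * (L + 1) + 5) * (p : ℝ) :=
      (pow_le_pow_left₀ (by positivity) c1 8).trans
        (h8.trans (mul_le_mul_of_nonneg_right a1 p0))
    have c3 : (3 * ((8 * (L + 1) : ℕ) : ℝ)) ^ 6 ≤ (48 * L) ^ 6 :=
      pow_le_pow_left₀ (by positivity) (by push_cast; linarith) 6
    refine c3.trans ?_
    have c4 : (j + 1) * (8 * (L + 1) + 5) * (p : ℝ) ≤ (j * (p : ℝ) + 1 / 2) * (21 * L) := by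
      calc (j + 1) * (8 * (L + 1) + 5) * (p : ℝ) = (j * (p : ℝ) + p) * (8 * (L + 1) + 5) := by ring
        _ ≤ _ := mul_le_mul (by linarith) (by linarith) (by positivity) (by positivity)
    have c5 : (1 : ℝ) ≤ (L : ℝ) ^ 6 := one_le_pow₀ b1
    have c6 : ((48 * L : ℝ) ^ 6 + 1 / 2) * (21 * L) ≤ ((L : ℝ) / 2) ^ 8 := by
      calc ((48 * L : ℝ) ^ 6 + 1 / 2) * (21 * L) ≤ ((48 ^ 6 + 1) * (L : ℝ) ^ 6) * (21 * L) :=
            mul_le_mul_of_nonneg_right (by rw [mul_pow]; linarith) (by positivity)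
        _ = 5376 * (48 ^ 6 + 1) * ((L : ℝ) ^ 7 / 256) := by ring
        _ ≤ L * ((L : ℝ) ^ 7 / 256) := mul_le_mul_of_nonneg_right b0 (by positivity)
        _ = _ := by ring
    have c7 := le_of_mul_le_mul_right (c6.trans (c2.trans c4)) (by positivity)
    linarith

end Pool.Agent.P.MP_f57657_co.RS
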