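import Pool.Agent.P.MP_f57657_co.RS.Base
import Pool.Agent.P.MP_f57657_co.DG.Pot

/-! The potential argument along the bordering chain, for biased bits. -/

open Matrix Finset Polynomial

namespace Pool.Agent.P.MP_f57657_co.RS

open DG DG.PotAux

namespace PotAux

variable {p : unitInterval}

theorem pr_ind' {Ω : Type} [Fintype Ω] (μ : FP Ω) (E : Ω → Prop) :
    μ.pr E = μ.ex fun ω => ind (E ω) := rfl

theorem bad' {D : (j : ℕ) → Gr j → Prop} {β : ℝ} {j0 n : ℕ} (hβ : 0 ≤ β)
    (h : ∀ j, j0 ≤ j → j < n → (mG p j).pr (fun G => ¬ D j G) ≤ β) (j : ℕ) (hj : j0 ≤ j) :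
    j ≤ n → (mG p j).pr (fun G => ¬ Ok D j0 j G) ≤ j * β := by
  induction j, hj using Nat.le_induction with
  | base =>
    intro _
    rw [FP.pr_false fun G hG => hG fun i _ h1 h2 => absurd h1 (by omega)]
    positivity
  | succ j hj ih =>
    intro hn
    rw [pr_bord]
    have h1 : (mS p j).pr (fun ω => ¬ Ok D j0 (j + 1) (bord ω.1 ω.2)) ≤
        (mS p j).pr (fun ω => ¬ Ok D j0 j ω.1) + (mS p j).pr (fun ω => ¬ D j ω.1) :=
      FP.pr_le_add fun ω hω => by
        rw [ok_bord hj] at hω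
        exact not_and_or.1 hω
    rw [FP.pr_fst (fun G : Gr j => ¬ Ok D j0 j G), FP.pr_fst (fun G : Gr j => ¬ D j G)] at h1
    have h2 := ih (by omega)
    have h3 := h j hj (by omega)
    push_cast
    linarith

/-- An upper bound that is affine in an indicator. -/
theorem aff {Ω : Type} [Fintype Ω] {μ : FP Ω} {f : Ω → ℝ} {E : Ω → Prop} {c d a : ℝ} (hd : 0 ≤ d)
    (h1 : ∀ ω, E ω → f ω ≤ c + d) (h2 : ∀ ω, ¬ E ω → f ω ≤ c) (h : μ.pr E ≤ a) :
    μ.ex f ≤ c + d * a := by
  have : μ.ex f ≤ μ.ex fun ω => c + d * ind (E ω) := FP.ex_mono fun ω => by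
    by_cases e : E ω
    · rw [ind_pos e, mul_one]
      exact h1 ω e
    · rw [ind_neg e, mul_zero, add_zero]
      exact h2 ω e
  rw [FP.ex_add, FP.ex_const, FP.ex_mul, ← pr_ind'] at this
  exact this.trans (add_le_add le_rfl (mul_le_mul_of_nonneg_left h hd))

theorem step' {g : (j : ℕ) → Gr j → ℕ} {D : (j : ℕ) → Gr j → Prop} {a l : ℝ} {j0 j : ℕ}
    (hj : j0 ≤ j) (hl : 4 ≤ l) (hal : l * a = 1 / 4)
    (hg : ∀ G s, g (j + 1) (bord G s) ≤ g j G + 1)
    (h : ∀ G, D j G → (g j G = 0 → (mB p j).pr (fun s => 1 ≤ g (j + 1) (bord G s)) ≤ a) ∧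
      (1 ≤ g j G → (mB p j).pr (fun s => g j G ≤ g (j + 1) (bord G s)) ≤ a)) :
    (mG p (j + 1)).ex (fun G => l ^ g (j + 1) G * ind (Ok D j0 (j + 1) G)) ≤
      1 / 2 * (mG p j).ex (fun G => l ^ g j G * ind (Ok D j0 j G)) + 5 / 4 := by
  have hl1 : 1 ≤ l := by linarith
  have hl0 : 0 ≤ l := by linarith
  rw [ex_bord, FP.ex_prod, ← FP.ex_mul, ← FP.ex_const (μ := mG p j) (5 / 4), ← FP.ex_add]
  refine FP.ex_mono fun G => ?_
  dsimp only
  simp only [ok_bord hj]
  have q0 : 0 ≤ l ^ g j G := by positivity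
  by_cases hok : Ok D j0 j G ∧ D j G
  swap
  · simp only [ind_neg hok, mul_zero]
    rw [FP.ex_const]
    have := ind_nonneg (Ok D j0 j G)
    positivity
  simp only [ind_pos hok, ind_pos hok.1, mul_one]
  by_cases hz : g j G = 0
  · refine (aff (c := 1) hl0 (fun s _ => ?_) (fun s e => ?_) ((h G hok.2).1 hz)).trans (by linarith)
    · have := pow_le_pow_right₀ hl1 (hg G s)
      rw [hz, zero_add, pow_one] at this
      linarith
    · rw [show g (j + 1) (bord G s) = 0 by omega, pow_zero]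
  · refine (aff (c := l ^ g j G / 4) (d := l ^ g j G * l) (by positivity) (fun s _ => ?_)
      (fun s e => ?_) ((h G hok.2).2 (by omega))).trans ?_
    · have := pow_le_pow_right₀ hl1 (hg G s)
      rw [pow_succ] at this
      linarith
    · have q1 : l ^ (g (j + 1) (bord G s) + 1) ≤ l ^ g j G := pow_le_pow_right₀ hl1 (by omega)
      rw [pow_succ] at q1
      have q2 : 0 ≤ l ^ g (j + 1) (bord G s) := by positivity
      nlinarith
    · rw [mul_assoc, hal]
      linarith

end PotAux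

open PotAux in
theorem rPot : RPot := by
  intro p g D a β j0 n d ha ha' hβ hn hpow hg0 hg hstep
  set l : ℝ := 1 / (4 * a) with hl
  have hal : l * a = 1 / 4 := by rw [hl]; field_simp
  have hl4 : 4 ≤ l := by
    rw [hl, le_div_iff₀ (by positivity)]
    linarith
  have hl1 : 1 ≤ l := by linarith
  have main : ∀ j, j0 ≤ j → j ≤ n →
      (mG p j).ex (fun G => l ^ g j G * ind (Ok D j0 j G)) ≤ l ^ j0 / 2 ^ (j - j0) + 5 / 2 := by
    intro j hj
    induction j, hj using Nat.le_induction with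
    | base =>
      intro _
      have : (mG p j0).ex (fun G => l ^ g j0 G * ind (Ok D j0 j0 G)) ≤ l ^ j0 :=
        FP.ex_le_const fun G => by
          rw [ind_pos (show Ok D j0 j0 G from fun i _ h1 h2 => absurd h1 (by omega)), mul_one]
          exact pow_le_pow_right₀ hl1 (hg0 j0 G)
      rw [Nat.sub_self, pow_zero, div_one]
      linarith
    | succ j hj ih =>
      intro hjn
      have s1 := step' hj hl4 hal (hg j) (hstep j hj (by omega)).2
      have s2 := ih (by omega)
      have e : l ^ j0 / 2 ^ (j + 1 - j0) = 1 / 2 * (l ^ j0 / 2 ^ (j - j0)) := by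
        rw [Nat.sub_add_comm hj, pow_succ]
        field_simp
      rw [e]
      linarith
  have m1 := main n hn le_rfl
  have m2 : l ^ j0 / 2 ^ (n - j0) ≤ 1 / 2 := by
    rw [div_le_iff₀ (by positivity)]
    linarith
  have m3 := bad' hβ (fun j h1 h2 => (hstep j h1 h2).1) n hn le_rfl
  have m4 : (mG p n).pr (fun G => d ≤ g n G) ≤
      (mG p n).pr (fun G => Ok D j0 n G ∧ d ≤ g n G) + (mG p n).pr (fun G => ¬ Ok D j0 n G) :=
    FP.pr_le_add fun G hG => by
      by_cases h : Ok D j0 n G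
      · exact Or.inl ⟨h, hG⟩
      · exact Or.inr h
  have m5 : (mG p n).pr (fun G => Ok D j0 n G ∧ d ≤ g n G) ≤
      (mG p n).ex (fun G => l ^ g n G * ind (Ok D j0 n G)) / l ^ d :=
    FP.pr_markov (by positivity) (fun G => mul_nonneg (by positivity) (ind_nonneg _)) fun G hG => by
      rw [ind_pos hG.1, mul_one]
      exact pow_le_pow_right₀ hl1 hG.2
  have m6 : (mG p n).ex (fun G => l ^ g n G * ind (Ok D j0 n G)) / l ^ d ≤ 3 * (4 * a) ^ d := by
    have e : (4 * a) ^ d * l ^ d = 1 := by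
      rw [← mul_pow, hl, mul_one_div_cancel (by positivity), one_pow]
    rw [div_le_iff₀ (by positivity), mul_assoc, e]
    linarith
  linarith

end Pool.Agent.P.MP_f57657_co.RS
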