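import Pool.Agent.P.MP_f57657_co.RS.Det
import Pool.Agent.P.MP_f57657_co.DG.Reg

/-! The geometric multiplicity along the chain of borderings is a recurrent walk. -/

open Matrix Finset Polynomial

namespace Pool.Agent.P.MP_f57657_co.RS

open DG

namespace RRegAux

open RegAux (hh hh_nonneg hh_le le_hh hh_mono)

variable {K : Type} [Field K] {θ : K} {p : unitInterval} {t : ℕ}

theorem num (d : ℕ) :
    hh d + (hh (d + 2) - hh d) * (11 / 10 * (1 / 2) ^ min (d + 1) 2) ≤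
      9 / 10 * (3 / 2 : ℝ) ^ (d + 1) := by
  rcases d with _ | d
  · norm_num [hh]
  · have h1 : hh (d + 1) = (3 / 2) ^ (d + 1) := if_pos (by omega)
    have h2 : hh (d + 1 + 2) = (3 / 2) ^ (d + 1 + 2) := if_pos (by omega)
    have h4 : (0 : ℝ) < (3 / 2) ^ (d + 1) := by positivity
    rw [h1, h2, min_eq_right (by omega), pow_succ _ (d + 1 + 1), pow_succ (3 / 2 : ℝ) (d + 1)]
    nlinarith

theorem step (ht : 2 ≤ t) {n : ℕ} {G : Gr n} (hD : ODp p t G) (h : 1 ≤ gd K (aM G) θ) :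
    (mB p n).ex (fun s => hh (gd K (aM (bord G s)) θ)) ≤ 9 / 10 * (3 / 2 : ℝ) ^ gd K (aM G) θ := by
  classical
  obtain ⟨d, hd⟩ : ∃ d, gd K (aM G) θ = d + 1 := ⟨_, (Nat.sub_add_cancel h).symm⟩
  have h1 := hD K θ (min (d + 1) 2) ((min_le_right _ _).trans ht) (hd ▸ min_le_left _ _)
  rw [hd]
  have h2 : 0 ≤ hh (d + 2) - hh d := sub_nonneg.2 (hh_mono (by omega))
  refine le_trans ?_ (num d)
  refine le_trans ?_ (add_le_add le_rfl (mul_le_mul_of_nonneg_left h1 h2))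
  rw [FP.pr, ← FP.ex_mul, ← FP.ex_const (μ := mB p n) (hh d), ← FP.ex_add]
  simp only [FP.ex_const]
  refine FP.ex_mono fun s => ?_
  obtain ⟨-, b1, b2, -⟩ := dBord K 0 1 n G s θ
  rw [hd] at b1 b2
  split_ifs with hs
  · have := hh_mono (g' := d + 2) b1
    linarith
  · push Not at hs
    have := hh_mono (g' := d) (Nat.le_of_succ_le_succ (b2 hs))
    linarith

theorem step' (ht : 2 ≤ t) {n : ℕ} {G : Gr n} (hD : ODp p t G) :
    (mB p n).ex (fun s => (3 / 2 : ℝ) ^ gd K (aM (bord G s)) θ) ≤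
      9 / 10 * (3 / 2 : ℝ) ^ gd K (aM G) θ + 1 := by
  by_cases h : 1 ≤ gd K (aM G) θ
  · refine (FP.ex_mono fun s => le_hh _).trans ?_
    rw [FP.ex_add, FP.ex_const]
    linarith [step ht hD h]
  · have h0 : gd K (aM G) θ = 0 := by omega
    rw [h0]
    refine FP.ex_le_const fun s => ?_
    have b1 := (dBord K 0 1 n G s θ).2.1
    rw [h0] at b1
    have : (3 / 2 : ℝ) ^ gd K (aM (bord G s)) θ ≤ (3 / 2) ^ (0 + 1) :=
      pow_le_pow_right₀ (by norm_num) b1
    norm_num at this ⊢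
    linarith

/-- All the earlier steps are good. -/
def Al (p : unitInterval) (t j0 : ℕ) {n : ℕ} (G : Gr n) : Prop :=
  ∀ (j : ℕ) (h : j ≤ n), j0 ≤ j → j < n → ODp p t (rs G j h)

/-- The multiplicity stays positive. -/
def Ps (K : Type) [Field K] (θ : K) (j1 : ℕ) {n : ℕ} (G : Gr n) : Prop :=
  ∀ (j : ℕ) (h : j ≤ n), j1 ≤ j → 1 ≤ gd K (aM (rs G j h)) θ

theorem Al.of {j0 n : ℕ} (hj : j0 ≤ n) {G : Gr n} {s : Bv n} (h : Al p t j0 (bord G s)) :
    Al p t j0 G ∧ ODp p t G := by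
  refine ⟨fun j a b c => ?_, ?_⟩
  · have := h j (a.trans (Nat.le_succ _)) b (by omega)
    rwa [rs_bord G s a] at this
  · have := h n (Nat.le_succ _) hj (Nat.lt_succ_self _)
    rwa [rs_bord G s le_rfl] at this

theorem Ps.of {j1 n : ℕ} (hj : j1 ≤ n) {G : Gr n} {s : Bv n} (h : Ps K θ j1 (bord G s)) :
    Ps K θ j1 G ∧ 1 ≤ gd K (aM (bord G s)) θ := by
  refine ⟨fun j a b => ?_, h (n + 1) le_rfl (by omega)⟩
  have := h j (a.trans (Nat.le_succ _)) b
  rwa [rs_bord G s a] at this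

open Classical in
theorem first (ht : 2 ≤ t) (j0 m : ℕ) :
    (mG p (j0 + m)).ex (fun G => if Al p t j0 G then (3 / 2 : ℝ) ^ gd K (aM G) θ else 0) ≤
      (9 / 10) ^ m * (3 / 2) ^ j0 + 10 := by
  induction m with
  | zero =>
    refine FP.ex_le_const fun G => ?_
    have h1 := (dBord K 0 1 _ G (fun _ => true) θ).1
    have h2 : (3 / 2 : ℝ) ^ gd K (aM G) θ ≤ (3 / 2) ^ j0 := pow_le_pow_right₀ (by norm_num) h1
    have h3 : (0 : ℝ) < (3 / 2) ^ j0 := by positivity
    split_ifs <;> linarith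
  | succ m ih =>
    refine (ex_bord (n := j0 + m) _).trans_le ?_
    rw [FP.ex_prod]
    refine le_trans (FP.ex_mono (g := fun G =>
      9 / 10 * (if Al p t j0 G then (3 / 2 : ℝ) ^ gd K (aM G) θ else 0) + 1) fun G => ?_) ?_
    · dsimp only
      by_cases hG : Al p t j0 G ∧ ODp p t G
      · rw [if_pos hG.1]
        refine le_trans (FP.ex_mono fun s => ?_) (step' ht hG.2)
        split_ifs
        exacts [le_rfl, by positivity]
      · refine le_trans (FP.ex_le_const (c := 0) fun s => ?_) (by split_ifs <;> positivity)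
        rw [if_neg fun h => hG (Al.of (Nat.le_add_right _ _) h)]
    · rw [FP.ex_add, FP.ex_mul, FP.ex_const, pow_succ]
      linarith

open Classical in
theorem second (ht : 2 ≤ t) {j0 j1 : ℕ} (hj : 5 * j0 ≤ j1) (k : ℕ) :
    (mG p (j1 + k)).ex (fun G =>
      if Al p t j0 G ∧ Ps K θ j1 G then (3 / 2 : ℝ) ^ gd K (aM G) θ else 0) ≤
      11 * (9 / 10) ^ k := by
  induction k with
  | zero =>
    obtain ⟨m, rfl⟩ := Nat.exists_eq_add_of_le (show j0 ≤ j1 by omega)
    refine le_trans (FP.ex_mono fun G => ?_) ((first (K := K) (θ := θ) ht j0 m).trans ?_)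
    · split_ifs with h1 h2
      exacts [le_rfl, (h2 h1.1).elim, by positivity, le_rfl]
    · have h1 : (9 / 10 : ℝ) ^ m ≤ (9 / 10) ^ (4 * j0) :=
        pow_le_pow_of_le_one (by norm_num) (by norm_num) (by omega)
      have h2 : ((9 / 10 : ℝ) ^ 4 * (3 / 2)) ^ j0 ≤ 1 := pow_le_one₀ (by norm_num) (by norm_num)
      rw [mul_pow, ← pow_mul] at h2
      have h3 : (0 : ℝ) < (3 / 2) ^ j0 := by positivity
      nlinarith
  | succ k ih =>
    refine (ex_bord (n := j1 + k) _).trans_le ?_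
    rw [FP.ex_prod, pow_succ]
    refine le_trans ?_ (le_of_le_of_eq
      (mul_le_mul_of_nonneg_left ih (by norm_num : (0 : ℝ) ≤ 9 / 10)) (by ring))
    rw [← FP.ex_mul]
    refine FP.ex_mono fun G => ?_
    dsimp only
    by_cases hG : (Al p t j0 G ∧ ODp p t G) ∧ Ps K θ j1 G
    · rw [if_pos ⟨hG.1.1, hG.2⟩]
      refine le_trans (FP.ex_mono fun s => ?_)
        (step ht hG.1.2 (hG.2 (j1 + k) le_rfl (Nat.le_add_right _ _)))
      split_ifs with hs
      · rw [hh, if_pos (Ps.of (Nat.le_add_right _ _) hs.2).2]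
      · exact hh_nonneg _
    · refine le_trans (FP.ex_le_const (c := 0) fun s => ?_) (by split_ifs <;> positivity)
      rw [if_neg fun h => hG ⟨Al.of (by omega) h.1, (Ps.of (Nat.le_add_right _ _) h.2).1⟩]

theorem third (ht : 2 ≤ t) {j0 j1 k m : ℕ} (hj : 5 * j0 ≤ j1) (hm : m = j1 + k) {β : ℝ}
    (h0 : 0 ≤ β) (hβ : ∀ j, j0 ≤ j → j < m → (mG p j).pr (fun G => ¬ ODp p t G) ≤ β) :
    (mG p m).pr (fun G => ∀ (j : ℕ) (h : j ≤ m), m ≤ j + k → 1 ≤ gd K (aM (rs G j h)) θ) ≤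
      11 * (9 / 10) ^ k + m * β := by
  classical
  subst hm
  refine (FP.pr_le_add (F := fun G => Al p t j0 G ∧ Ps K θ j1 G)
    (F' := fun G => ¬ Al p t j0 G) fun G hG => ?_).trans (add_le_add ?_ ?_)
  · by_cases h : Al p t j0 G
    · exact Or.inl ⟨h, fun j a b => hG j a (by omega)⟩
    · exact Or.inr h
  · refine le_trans (FP.pr_le_ex (fun G => ?_) fun G hG => ?_) (second (θ := θ) ht hj k)
    · split_ifs <;> positivity
    · rw [if_pos hG]
      exact one_le_pow₀ (by norm_num)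
  · have h := FP.pr_le_card_mul (μ := mG p (j1 + k)) (univ : Finset (Fin (j1 + k)))
      (E := fun G => ¬ Al p t j0 G)
      (fun j G => j0 ≤ j.1 ∧ ¬ ODp p t (rs G j.1 j.2.le)) (c := β) (fun G hG => ?_) fun j _ => ?_
    · simpa using h
    · simp only [Al, not_forall] at hG
      obtain ⟨j, a, b, c, d⟩ := hG
      exact ⟨⟨j, c⟩, mem_univ _, b, d⟩
    · by_cases hj0 : j0 ≤ j.1
      · refine le_trans (FP.pr_mono fun G hG => hG.2) ?_
        rw [pr_rs j.2.le fun G => ¬ ODp p t G]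
        exact hβ j hj0 j.2
      · rw [FP.pr_false fun G hG => hj0 hG.1]
        exact h0

end RRegAux

theorem rReg (hGd : RGd) : RReg := by
  obtain ⟨N, hN⟩ := hGd
  refine ⟨max N 5, fun p n t j0 k x ht hP hk => ?_⟩
  have t5 : 5 ≤ t := (le_max_right _ _).trans ht
  have tN : N ≤ t := (le_max_left _ _).trans ht
  have h10 : j0 * 10 ≤ n := (Nat.mul_le_mul_left _ (by omega)).trans hP.2.2.1
  have h := RRegAux.third (K := FF x.1) (θ := x.2) (p := p) (t := 3 * t) (j0 := j0)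
    (j1 := n + 1 - k) (k := k) (m := n + 1) (by omega) (by omega) (by omega)
    (β := (1 / 2) ^ (3 * t) ^ 2) (by positivity) fun j a b =>
      le_trans (FP.pr_mono (F := fun G => ¬ Gd p (3 * t) G) fun G hG h => hG h.2.1)
        (hN p j (3 * t) (by omega) (hP.rg (by omega) a b.le))
  refine h.trans (add_le_add (by gcongr; norm_num) ?_)
  have h1 : ((n + 1 : ℕ) : ℝ) ≤ 2 ^ (t + 1) := by
    have := hP.le_pow
    have h2 : 1 ≤ 2 ^ t := Nat.one_le_two_pow
    exact_mod_cast (show n + 1 ≤ 2 ^ (t + 1) by rw [pow_succ]; omega)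
  have h2 : (1 / 2 : ℝ) ^ (3 * t) ^ 2 ≤ (1 / 2) ^ (t + 1 + t) :=
    pow_le_pow_of_le_one (by norm_num) (by norm_num) (by nlinarith)
  refine (mul_le_mul h1 h2 (by positivity) (by positivity)).trans_eq ?_
  rw [pow_add (1 / 2 : ℝ) (t + 1) t, ← mul_assoc, ← mul_pow]
  norm_num

end Pool.Agent.P.MP_f57657_co.RS
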