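import Pool.Agent.P.MP_f57657_co.RS.Det

/-! Three finite local quotients of the integer polynomials attached to a point. -/

open Finset Polynomial

namespace Pool.Agent.P.MP_f57657_co.RS

open DG

namespace RingAux

theorem mem_span (m : ℕ) (μ u : ℤ[X]) :
    u ∈ Ideal.span {C (m : ℤ), μ} ↔ red m μ ∣ red m u := by
  rw [Ideal.mem_span_pair]
  constructor
  · rintro ⟨a, b, rfl⟩
    refine ⟨red m b, ?_⟩
    simp [red, mul_comm]
  · rintro ⟨c, hc⟩
    obtain ⟨b, rfl⟩ := map_surjective _ (ZMod.ringHom_surjective (Int.castRingHom (ZMod m))) c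
    have h : C (m : ℤ) ∣ u - b * μ := by
      refine (C_dvd_iff_dvd_coeff _ _).2 fun i => (ZMod.intCast_zmod_eq_zero_iff_dvd _ m).1 ?_
      have h0 : (u - b * μ).map (Int.castRingHom (ZMod m)) = 0 := by
        rw [Polynomial.map_sub, Polynomial.map_mul, mul_comm, sub_eq_zero]
        exact hc
      have : coeff _ i = coeff _ i := congrArg (fun f => coeff f i) h0
      rwa [coeff_map, coeff_zero, eq_intCast] at this
    obtain ⟨a, ha⟩ := h
    exact ⟨a, b, by linear_combination -ha⟩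

theorem index_span {m : ℕ} (hm : 1 < m) {μ : ℤ[X]} (hμ : μ.Monic) :
    (Ideal.span {C (m : ℤ), μ}).toAddSubgroup.index = m ^ μ.natDegree := by
  have : Fact (1 < m) := ⟨hm⟩
  have : NeZero m := ⟨by omega⟩
  have h6 : (red m μ).Monic := hμ.map _
  let pb := AdjoinRoot.powerBasis' h6
  let ev : ℤ[X] →+* AdjoinRoot (red m μ) :=
    (AdjoinRoot.mk (red m μ)).comp (mapRingHom (Int.castRingHom (ZMod m)))
  have hs : Function.Surjective ev :=
    AdjoinRoot.mk_surjective.comp (map_surjective _ (ZMod.ringHom_surjective _))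
  have e : (Ideal.span {C (m : ℤ), μ}).toAddSubgroup =
      (⊥ : AddSubgroup (AdjoinRoot (red m μ))).comap ev.toAddMonoidHom := by
    ext u
    exact (mem_span m μ u).trans AdjoinRoot.mk_eq_zero.symm
  rw [e, AddSubgroup.index_comap_of_surjective _ hs, AddSubgroup.index_bot,
    Nat.card_congr pb.basis.equivFun.toEquiv, Nat.card_fun, Nat.card_zmod, Nat.card_fin,
    AdjoinRoot.powerBasis'_dim, red, hμ.natDegree_map]

/-- The maximal ideal of the point. -/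
noncomputable def mx (x : Pt) : Ideal ℤ[X] := Ideal.span {C (x.1.1 : ℤ), lf x}

theorem mem_mx (x : Pt) (u : ℤ[X]) : u ∈ mx x ↔ aeval x.2 u = 0 := by
  obtain ⟨-, h2, -, -, -, -, h7, -⟩ := dPl x
  rw [mx, mem_span, h2, h7]

theorem index_mx (x : Pt) : (mx x).toAddSubgroup.index = sz x := by
  obtain ⟨h1, -, h3, -⟩ := dPl x
  rw [mx, index_span x.1.2.one_lt h1, h3, sz]

theorem sz_pos (x : Pt) : 0 < sz x := pow_pos x.1.2.pos _

theorem loc (x : Pt) {I : Ideal ℤ[X]} [Fintype (ℤ[X] ⧸ I)] (h1 : I ≤ mx x)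
    (h2 : mx x * mx x ≤ I) : Loc x (Ideal.Quotient.mk I) := by
  obtain ⟨-, a2, -, -, a5, -, a7, -⟩ := dPl x
  have hu : ∀ u, aeval x.2 u ≠ 0 → IsUnit (Ideal.Quotient.mk I u) := by
    intro u hu
    obtain ⟨a, b, hab⟩ : IsCoprime (mp x) (red x.1.1 u) :=
      a5.coprime_iff_not_dvd.2 fun h => hu ((a7 u).2 h)
    obtain ⟨c, rfl⟩ := map_surjective _ (ZMod.ringHom_surjective (Int.castRingHom (ZMod x.1.1))) b
    have h3 : 1 - c * u ∈ mx x := by
      rw [mx, mem_span, a2]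
      refine ⟨a, ?_⟩
      rw [red, Polynomial.map_sub, Polynomial.map_mul, Polynomial.map_one, ← hab, red]
      ring
    have h4 := Ideal.Quotient.eq_zero_iff_mem.2 (h2 (Ideal.mul_mem_mul h3 h3))
    simp only [map_mul, map_sub, map_one] at h4
    exact IsUnit.of_mul_eq_one (Ideal.Quotient.mk I c * (2 - Ideal.Quotient.mk I c *
      Ideal.Quotient.mk I u)) (by linear_combination -h4)
  refine ⟨Ideal.Quotient.mk_surjective, hu,
    fun u h => (mem_mx x u).1 (h1 (Ideal.Quotient.eq_zero_iff_mem.1 h)), fun a z ha => ?_⟩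
  by_cases h0 : ∃ r0, z + a * r0 = 0
  swap
  · rw [pr_false fun r h => h0 ⟨r, h⟩]
    positivity
  obtain ⟨r0, h0⟩ := h0
  let M : AddSubgroup (ℤ[X] ⧸ I) := ((mx x).map (Ideal.Quotient.mk I)).toAddSubgroup
  have hM : M.index = sz x := by
    rw [← index_mx, ← AddSubgroup.index_comap_of_surjective
      (f := (Ideal.Quotient.mk I).toAddMonoidHom) M Ideal.Quotient.mk_surjective]
    congr 1
    ext u
    exact Ideal.mem_quotient_iff_mem h1
  have h5 : pr (fun r : ℤ[X] ⧸ I => z + a * r = 0) ≤ pr fun r : ℤ[X] ⧸ I => r - r0 ∈ M := by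
    refine pr_mono fun r hr => ?_
    obtain ⟨u, e⟩ := Ideal.Quotient.mk_surjective (r - r0)
    rw [← e]
    refine Ideal.mem_map_of_mem _ ((mem_mx x u).2 ?_)
    by_contra h
    refine ha ((hu u h).mul_left_eq_zero.1 ?_)
    rw [e]
    linear_combination hr - h0
  refine h5.trans ((pr_equiv (Equiv.subRight r0) (· ∈ M)).le.trans ?_)
  have h6 := M.card_mul_index
  rw [hM, Nat.card_eq_fintype_card (α := ℤ[X] ⧸ I)] at h6
  have h7 : (0 : ℝ) < sz x := by exact_mod_cast sz_pos x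
  have h8 : (0 : ℝ) < Fintype.card (ℤ[X] ⧸ I) := by exact_mod_cast Fintype.card_pos
  classical
  rw [pr_eq_card, div_le_div_iff₀ h8 h7, one_mul, ← h6, Nat.card_eq_fintype_card,
    Fintype.card_subtype]
  push_cast
  refine le_of_eq ?_
  congr

theorem out (x : Pt) (I : Ideal ℤ[X]) {k : ℕ} (h0 : I.toAddSubgroup.index = sz x ^ k)
    (h1 : I ≤ mx x) (h2 : mx x * mx x ≤ I) :
    ∃ (R : Type) (_ : CommRing R) (_ : Fintype R) (ev : ℤ[X] →+* R), Loc x ev ∧
      Fintype.card R = sz x ^ k ∧ ∀ u, ev u = 0 ↔ u ∈ I := by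
  have h3 : Nat.card (ℤ[X] ⧸ I) = sz x ^ k := h0
  have : Finite (ℤ[X] ⧸ I) := Nat.finite_of_card_ne_zero (h3 ▸ (pow_pos (sz_pos x) k).ne')
  let : Fintype (ℤ[X] ⧸ I) := Fintype.ofFinite _
  exact ⟨ℤ[X] ⧸ I, inferInstance, inferInstance, Ideal.Quotient.mk I, loc x h1 h2,
    Nat.card_eq_fintype_card.symm.trans h3, fun u => Ideal.Quotient.eq_zero_iff_mem⟩

end RingAux

open RingAux in
theorem rRing : RRing := by
  intro x
  obtain ⟨h1, h2, h3, -⟩ := dPl x
  have hp := x.1.2.one_lt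
  let I1 : Ideal ℤ[X] := Ideal.span {C (x.1.1 : ℤ), lf x ^ 2}
  let I2 : Ideal ℤ[X] := Ideal.span {C ((x.1.1 ^ 2 : ℕ) : ℤ), lf x}
  have m1 : ∀ u, u ∈ I1 ↔ mp x ^ 2 ∣ red x.1.1 u := fun u => by
    rw [mem_span, red, Polynomial.map_pow, ← h2]
    rfl
  have m2 : ∀ u, u ∈ I2 ↔ E2 x u := fun u => by
    simp only [I2, E2, Nat.cast_pow]
  have i1 : I1.toAddSubgroup.index = sz x ^ 2 := by
    rw [index_span hp (h1.pow 2), h1.natDegree_pow, h3, sz, ← pow_mul, mul_comm]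
  have i2 : I2.toAddSubgroup.index = sz x ^ 2 := by
    rw [index_span (Nat.one_lt_pow two_ne_zero hp) h1, h3, sz, ← pow_mul, ← pow_mul, mul_comm]
  have e : C ((x.1.1 ^ 2 : ℕ) : ℤ) = C (x.1.1 : ℤ) * C (x.1.1 : ℤ) := by
    rw [← C_mul, Nat.cast_pow, sq]
  have l1 : I1 ≤ mx x := fun u hu => by
    obtain ⟨a, b, rfl⟩ := Ideal.mem_span_pair.1 hu
    exact Ideal.mem_span_pair.2 ⟨a, b * lf x, by ring⟩
  have l2 : I2 ≤ mx x := fun u hu => by
    obtain ⟨a, b, rfl⟩ := Ideal.mem_span_pair.1 hu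
    exact Ideal.mem_span_pair.2 ⟨a * C (x.1.1 : ℤ), b, by rw [e]; ring⟩
  have s1 : mx x * mx x ≤ I1 := Ideal.mul_le.2 fun u hu v hv => by
    obtain ⟨a, b, rfl⟩ := Ideal.mem_span_pair.1 hu
    obtain ⟨c, d, rfl⟩ := Ideal.mem_span_pair.1 hv
    exact Ideal.mem_span_pair.2 ⟨a * (c * C (x.1.1 : ℤ) + d * lf x) + b * lf x * c, b * d, by ring⟩
  have s2 : mx x * mx x ≤ I2 := Ideal.mul_le.2 fun u hu v hv => by
    obtain ⟨a, b, rfl⟩ := Ideal.mem_span_pair.1 hu
    obtain ⟨c, d, rfl⟩ := Ideal.mem_span_pair.1 hv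
    exact Ideal.mem_span_pair.2 ⟨a * c,
      b * (c * C (x.1.1 : ℤ) + d * lf x) + a * C (x.1.1 : ℤ) * d, by rw [e]; ring⟩
  have su : I1.toAddSubgroup ⊔ I2.toAddSubgroup = (mx x).toAddSubgroup := by
    refine le_antisymm (sup_le l1 l2) fun u hu => ?_
    obtain ⟨a, b, rfl⟩ := Ideal.mem_span_pair.1 hu
    exact AddSubgroup.add_mem_sup (Ideal.mem_span_pair.2 ⟨a, 0, by ring⟩)
      (Ideal.mem_span_pair.2 ⟨0, b, by ring⟩)
  have i3 : (I1 ⊓ I2).toAddSubgroup.index = sz x ^ 3 := by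
    have a1 := AddSubgroup.relIndex_mul_index (H := I1.toAddSubgroup ⊓ I2.toAddSubgroup)
      (K := I2.toAddSubgroup) inf_le_right
    have a2 := AddSubgroup.relIndex_mul_index (H := I1.toAddSubgroup)
      (K := (mx x).toAddSubgroup) l1
    rw [AddSubgroup.inf_relIndex_right, ← AddSubgroup.relIndex_sup_left, su, i2] at a1
    rw [index_mx, i1, sq] at a2
    rw [Nat.eq_of_mul_eq_mul_right (sz_pos x) a2] at a1
    exact a1.symm.trans (by ring)
  refine ⟨?_, ?_, ?_⟩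
  · obtain ⟨R, _, _, ev, a, b, c⟩ := RingAux.out x I1 i1 l1 s1
    exact ⟨R, _, _, ev, a, b.le, fun u => (c u).trans (m1 u)⟩
  · obtain ⟨R, _, _, ev, a, b, c⟩ := RingAux.out x I2 i2 l2 s2
    exact ⟨R, _, _, ev, a, b.le, fun u => (c u).trans (m2 u)⟩
  · obtain ⟨R, _, _, ev, a, b, c⟩ := RingAux.out x (I1 ⊓ I2) i3 (inf_le_left.trans l1) (le_inf s1 s2)
    exact ⟨R, _, _, ev, a, b, fun u p q => (c u).2 ⟨(m1 u).2 q, (m2 u).2 p⟩⟩

end Pool.Agent.P.MP_f57657_co.RS
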