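import Pool.Agent.P.MP_f57657_co.RS.Base

/-! Eigenvectors that vanish at a vertex. -/

open Matrix Finset Polynomial

namespace Pool.Agent.P.MP_f57657_co.RS

open DG

namespace RootAux

variable {K : Type} [Field K] {n : ℕ} {θ : K}

theorem eg_perm {G : Gr n} {z : Fin n → K} (σ : Equiv.Perm (Fin n)) (h : z ∈ eg K (aM G) θ) :
    (fun i => z (σ i)) ∈ eg K (aM (G.comap σ)) θ := by
  rw [mem_eg] at h ⊢
  intro i
  rw [← h (σ i), ← Equiv.sum_comp σ fun j => ((aM G (σ i) j : ℤ) : K) * z j]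
  refine sum_congr rfl fun j _ => ?_
  simp only [gm, of_apply, σ.injective.eq_iff]
  rfl

theorem ne_perm {z : Fin n → K} (σ : Equiv.Perm (Fin n)) (h : z ≠ 0) : (fun i => z (σ i)) ≠ 0 :=
  fun e => h (funext fun i => by simpa using congrFun e (σ.symm i))

theorem dot_perm (z : Fin n → K) (σ : Equiv.Perm (Fin n)) :
    (fun i => z (σ i)) ⬝ᵥ (fun i => z (σ i)) = z ⬝ᵥ z := Equiv.sum_comp σ fun i => z i * z i

theorem eg_bord {G : Gr n} {s : Bv n} {z : Fin (n + 1) → K} (h : z ∈ eg K (aM (bord G s)) θ)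
    (h0 : z (Fin.last n) = 0) :
    (fun i : Fin n => z i.castSucc) ∈ eg K (aM G) θ ∧
      dt (sv 0 1 s) (fun i : Fin n => z i.castSucc) = 0 := by
  rw [mem_eg] at h ⊢
  refine ⟨fun i => ?_, ?_⟩
  · have := h i.castSucc
    rw [Fin.sum_univ_castSucc, h0, mul_zero, add_zero] at this
    simpa only [gm_cc] using this
  · have := h (Fin.last n)
    rw [Fin.sum_univ_castSucc, h0, mul_zero, add_zero, mul_zero] at this
    simpa only [gm_lc, dt] using this

theorem ne_bord {z : Fin (n + 1) → K} (h : z ≠ 0) (h0 : z (Fin.last n) = 0) :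
    (fun i : Fin n => z i.castSucc) ≠ 0 := fun e => h (funext fun i => by
  cases i using Fin.lastCases with
  | last => exact h0
  | cast j => exact congrFun e j)

theorem dot_bord {z : Fin (n + 1) → K} (h0 : z (Fin.last n) = 0) :
    (fun i : Fin n => z i.castSucc) ⬝ᵥ (fun i : Fin n => z i.castSucc) = z ⬝ᵥ z := by
  simp only [dotProduct]
  rw [Fin.sum_univ_castSucc, h0, mul_zero, add_zero]

/-- The bad event at one vertex. -/
def Bad (t : ℕ) (G : Gr n) (u : Fin n) : Prop := RealR G u ∨ ∃ x : Pt, 2 ^ t < sz x ∧ IsoR x G u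

theorem bad_perm {t : ℕ} {G : Gr n} (σ : Equiv.Perm (Fin n)) {u : Fin n} (h : Bad t G (σ u)) :
    Bad t (G.comap σ) u := by
  rcases h with ⟨θ, z, h1, h2, h3⟩ | ⟨x, hx, z, h1, h2, h3, h4⟩
  · exact Or.inl ⟨θ, _, eg_perm σ h1, ne_perm σ h2, h3⟩
  · exact Or.inr ⟨x, hx, _, eg_perm σ h1, ne_perm σ h2, (dot_perm z σ).trans h3, h4⟩

theorem bad_bord {t : ℕ} {G : Gr n} {s : Bv n} (h : Bad t (bord G s) (Fin.last n)) :
    RealP (aM G) (sv 0 1 s) ∨ ∃ x : Pt, 2 ^ t < sz x ∧ IsoP x (aM G) (sv 0 1 s) := by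
  rcases h with ⟨θ, z, h1, h2, h3⟩ | ⟨x, hx, z, h1, h2, h3, h4⟩
  · exact Or.inl ⟨θ, _, (eg_bord h1 h3).1, ne_bord h2 h3, (eg_bord h1 h3).2⟩
  · exact Or.inr ⟨x, hx, _, (eg_bord h1 h4).1, ne_bord h2 h4, (dot_bord h4).trans h3,
      (eg_bord h1 h4).2⟩

end RootAux

open RootAux in
theorem rRoot (hL : RLarge) : RRoot := by
  obtain ⟨N, hN⟩ := hL
  intro ε hε
  obtain ⟨M, hM⟩ := exists_nat_ge (2 / ε)
  refine ⟨N + M + 1, fun p n t j0 ht h => ?_⟩
  have h1 := hN p n t j0 (by omega) h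
  have h2 : t ≤ n := by
    have a := h.le
    have b := h.2.2.1
    have c : 3 * t ≤ (3 * t) ^ 6 := Nat.le_self_pow (by norm_num) _
    have d : j0 * 1 ≤ j0 * (t + 5) := Nat.mul_le_mul_left _ (by omega)
    omega
  have h3 : ∀ u : Fin (n + 1), (mG p (n + 1)).pr (fun G => Bad t G u) ≤ 1 / (n : ℝ) ^ 2 := by
    intro u
    calc _ ≤ (mG p (n + 1)).pr fun G =>
            Bad t (G.comap (Equiv.swap u (Fin.last n))) (Fin.last n) :=
          FP.pr_mono fun G hG => bad_perm _ (by rwa [Equiv.swap_apply_right])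
      _ = (mG p (n + 1)).pr fun G => Bad t G (Fin.last n) :=
          pr_perm _ fun G => Bad t G (Fin.last n)
      _ = (mS p n).pr fun ω => Bad t (bord ω.1 ω.2) (Fin.last n) := pr_bord _
      _ ≤ _ := (FP.pr_mono fun ω => bad_bord).trans h1
  refine (FP.pr_le_card_mul univ (fun u G => Bad t G u) (fun G ⟨u, hu⟩ => ⟨u, mem_univ u, hu⟩)
    fun u _ => h3 u).trans ?_
  rw [card_univ, Fintype.card_fin]
  have n1 : (1 : ℝ) ≤ n := by exact_mod_cast (by omega : 1 ≤ n)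
  have n2 : (M : ℝ) ≤ n := by exact_mod_cast (by omega : M ≤ n)
  have n3 : 2 ≤ n * ε := (div_le_iff₀ hε).1 (hM.trans n2)
  push_cast
  rw [mul_one_div, div_le_iff₀ (by positivity)]
  nlinarith

end Pool.Agent.P.MP_f57657_co.RS
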