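import Pool.Agent.P.MP_f57657_co.RS.Det

/-! The chain at a fixed small point. -/

open Matrix Finset Polynomial

namespace Pool.Agent.P.MP_f57657_co.RS

open DG

namespace SmallAux

theorem half_le {ε : ℝ} (hε : 0 < ε) : ∃ N : ℕ, ∀ t, N ≤ t → (1 / 2 : ℝ) ^ t ≤ ε := by
  obtain ⟨N, hN⟩ := exists_pow_lt_of_lt_one hε (show (1 / 2 : ℝ) < 1 by norm_num)
  exact ⟨N, fun t ht => (pow_le_pow_of_le_one (by norm_num) (by norm_num) ht).trans hN.le⟩

theorem cop_symm {x : Pt} {c : ℕ} {f g : ℤ[X]} (h : Cop x c f g) : Cop x c g f := by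
  obtain ⟨u, a, b, hu, e⟩ := h
  exact ⟨u, b, a, hu, e.trans (add_comm _ _)⟩

theorem st_zero (x : Pt) {n : ℕ} (hn : 0 < n) (G : Gr n)
    (h : gd (FF x.1) (aM G) x.2 = 0) : Stt x 1 0 G := by
  have h1 : aeval x.2 (ph G) ≠ 0 := fun e => by
    have := ((dEv (FF x.1) n (aM G)).1 x.2).2 e
    omega
  have h2 : ∀ g, Cop x 0 (ph G) g := fun g => ⟨ph G, 1, 0, h1, by simp⟩
  exact ⟨fun hd => h1 (((dPl x).2.2.2.2.2.2.1 (ph G)).2 (by simpa using hd)),
    ⟨⟨0, hn⟩, h2 _⟩, h2 _⟩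

theorem step (hGd : RGd) (hVa : RVa) (hVb : RVb) (hVc : RVc) (hVw : RVw) (hJac : RJac) (x : Pt)
    (r c : ℕ) {ε : ℝ} (hε : 0 < ε) :
    ∃ r' c' N : ℕ, ∀ (p : unitInterval) (t n : ℕ), N ≤ t → Rg p t n →
      (mS p n).pr (fun ω => Stt x r c ω.1 ∧ ¬ Stt x r' c' (bord ω.1 ω.2)) ≤ ε := by
  have h5 : 0 < ε / 5 := by linarith
  obtain ⟨N0, h0⟩ := hGd
  obtain ⟨c2, N1, h1⟩ := hVa x r c _ h5
  obtain ⟨r2, N2, h2⟩ := hVb x r _ h5
  obtain ⟨r3, N3, h3⟩ := hVc x (max r r2) _ h5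
  obtain ⟨c4, N4, h4⟩ := hVw x (max r r3) (max c c2) _ h5
  obtain ⟨N5, h6⟩ := half_le h5
  refine ⟨r2, max c2 c4, N0 + N1 + N2 + N3 + N4 + N5, fun p t n ht hr => ?_⟩
  have a0 := (h0 p n t (by omega) hr).trans
    (h6 (t ^ 2) (le_trans (by omega) (Nat.le_self_pow two_ne_zero t)))
  refine (FP.pr_prod_le' (c := ε / 5 + ε / 5 + ε / 5 + ε / 5) (Gd p t) (by linarith)
    fun G hG => ?_).trans (by linarith)
  by_cases hs : Stt x r c G
  · have a1 := h1 p n t G (by omega) hG hs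
    have a2 := h2 p n t G (by omega) hG hs.1
    have a3 := h3 p n t G (by omega) hG (hs.1.mono (le_max_left _ _))
    have a4 := h4 p n t G (by omega) hG (hs.mono (le_max_left _ _) (le_max_left _ _))
    refine le_trans ?_ (add_le_add (add_le_add (add_le_add a1 a2) a3) a4)
    refine le_trans ?_ (add_le_add (add_le_add (FP.pr_or _ _) le_rfl) le_rfl)
    refine le_trans ?_ (add_le_add (FP.pr_or _ _) le_rfl)
    refine FP.pr_le_add fun s hb => ?_
    by_contra hc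
    simp only [not_or, not_not, not_and] at hc
    obtain ⟨⟨⟨b1, b2⟩, b3⟩, b4⟩ := hc
    refine hb.2 ⟨b2, ⟨Fin.last n, ?_⟩, ?_⟩
    · rw [hJac.2.1 n G s]
      exact (cop_symm b1).mono (le_max_left _ _)
    · exact (b4 (b1.mono (le_max_right _ _))
        ((b3 (b2.mono (le_max_right _ _))).mono (le_max_right _ _))).mono (le_max_right _ _)
  · rw [FP.pr_false fun s hb => hs hb.1]
    linarith

theorem chain (hGd : RGd) (hVa : RVa) (hVb : RVb) (hVc : RVc) (hVw : RVw) (hJac : RJac) (x : Pt)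
    {ε : ℝ} (hε : 0 < ε) (i : ℕ) : ∃ r c N : ℕ, ∀ (p : unitInterval) (t n : ℕ), N ≤ t → i < n →
      (∀ j, n ≤ j + i → j ≤ n → Rg p t j) →
      (mG p n).pr (fun G => (∃ (j : ℕ) (h : j ≤ n), n ≤ j + i ∧
        gd (FF x.1) (aM (rs G j h)) x.2 = 0) ∧ ¬ Stt x r c G) ≤ i * ε := by
  induction i with
  | zero =>
    refine ⟨1, 0, 0, fun p t n _ hn _ => ?_⟩
    rw [FP.pr_false]
    · simp
    · rintro G ⟨⟨j, h, hj, h0⟩, hs⟩
      obtain rfl : j = n := by omega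
      exact hs (st_zero x hn G h0)
  | succ i ih =>
    obtain ⟨r, c, N, h1⟩ := ih
    obtain ⟨r', c', N', h2⟩ := step hGd hVa hVb hVc hVw hJac x r c hε
    refine ⟨max r' 1, c', max N N', fun p t n ht hn hr => ?_⟩
    obtain ⟨m, rfl⟩ : ∃ m, n = m + 1 := ⟨n - 1, by omega⟩
    have a1 := h1 p t m (le_of_max_le_left ht) (by omega) fun j h3 h4 =>
      hr j (by omega) (by omega)
    have a2 := h2 p t m (le_of_max_le_right ht) (hr m (by omega) (by omega))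
    rw [← FP.pr_fst (ν := mB p m)] at a1
    rw [pr_bord]
    refine (FP.pr_le_add (fun ω hω => ?_)).trans
      ((add_le_add a1 a2).trans (by push_cast; linarith))
    obtain ⟨⟨j, h, hj, h0⟩, hs⟩ := hω
    by_cases hjm : j ≤ m
    · rw [rs_bord ω.1 ω.2 hjm h] at h0
      by_cases hb : Stt x r c ω.1
      · exact Or.inr ⟨hb, fun hc => hs (hc.mono (le_max_left _ _) le_rfl)⟩
      · exact Or.inl ⟨⟨j, hjm, by omega, h0⟩, hb⟩
    · obtain rfl : j = m + 1 := by omega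
      exact absurd ((st_zero x (Nat.succ_pos m) _ h0).mono (le_max_right _ _) (Nat.zero_le _)) hs

end SmallAux

open SmallAux in
theorem rSmall (hGd : RGd) (hReg : RReg) (hVa : RVa) (hVb : RVb) (hVc : RVc) (hVw : RVw)
    (hJac : RJac) : RSmall := by
  intro x ε hε
  obtain ⟨k, hk⟩ := exists_pow_lt_of_lt_one (show 0 < ε / 80 by linarith)
    (show (9 / 10 : ℝ) < 1 by norm_num)
  have hk1 : (0 : ℝ) < k + 1 := by positivity
  obtain ⟨r, c, N, h1⟩ := chain hGd hVa hVb hVc hVw hJac x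
    (show 0 < ε / (2 * (k + 1)) by positivity) k
  obtain ⟨N1, h2⟩ := hReg
  obtain ⟨N2, h3⟩ := half_le (show 0 < ε / 4 by linarith)
  refine ⟨c, N + N1 + N2 + k + 2, fun p n t j0 ht hP => ?_⟩
  have b1 : 2 * j0 ≤ n := le_trans (by nlinarith) hP.2.2.1
  have b2 : 2 * k ≤ j0 :=
    le_trans (Nat.mul_le_mul_left 2 (le_trans (by omega) (Nat.le_self_pow (by norm_num) (3 * t))))
      hP.le
  have a1 := h1 p (3 * t) (n + 1) (by omega) (by omega) fun j h4 h5 =>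
    hP.rg (by omega) (by omega) h5
  have a2 := h2 p n t j0 k x (by omega) hP (by omega)
  have a3 : (k : ℝ) * (ε / (2 * (k + 1))) ≤ ε / 2 := by
    rw [mul_div_assoc', div_le_div_iff₀ (by positivity) (by norm_num)]
    nlinarith
  have a4 := h3 t (by omega)
  refine (FP.pr_le_add (fun G hG => ?_)).trans ((add_le_add a1 a2).trans (by linarith))
  by_cases hb : ∃ (j : ℕ) (h : j ≤ n + 1), n + 1 ≤ j + k ∧ gd (FF x.1) (aM (rs G j h)) x.2 = 0
  · exact Or.inl ⟨hb, fun hc => hG hc.2.2⟩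
  · exact Or.inr fun j h hj => Nat.one_le_iff_ne_zero.2 fun h0 => hb ⟨j, h, hj, h0⟩

end Pool.Agent.P.MP_f57657_co.RS
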