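import Pool.Agent.P.MP_f57657_co.RS.Defs

/-! The sum over the exceptional sets of the product of the list sizes. -/

open Finset

namespace Pool.Agent.P.MP_f57657_co.RS

namespace SumAux

theorem prod_le {n t : ℕ} {J : Finset (Fin n)} (y : Vc n) {m : Menu n} (h : m.Ok t J) {β : ℝ}
    (hβ : 1 / 2 ≤ β) (hE : ∀ a, m.g * (m.E a).card ≤ β) (N : Finset (Fin n)) :
    ∏ i ∈ Jᶜ, m.g * (m.pick y N i).card ≤ 2 ^ J.card * (2 ^ N.card * β ^ (n - N.card)) := by
  have hg : 0 ≤ m.g := le_trans (by positivity) h.1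
  have h1 : ∏ i ∈ Jᶜ, m.g * (m.pick y N i).card ≤ ∏ i ∈ Jᶜ, if i ∈ N then (2 : ℝ) else β := by
    refine prod_le_prod (fun i _ => by positivity) fun i _ => ?_
    unfold Menu.pick
    split_ifs
    exacts [h.2.2.2.1, hE _]
  have h2 : (1 : ℝ) ≤ 2 ^ J.card * ∏ i ∈ J, if i ∈ N then (2 : ℝ) else β := by
    rw [← prod_const, ← prod_mul_distrib]
    refine le_trans (le_of_eq prod_const_one.symm) (prod_le_prod (fun _ _ => zero_le_one)
      fun i _ => ?_)
    split_ifs <;> linarith
  have h3 : ∏ i, (if i ∈ N then (2 : ℝ) else β) = 2 ^ N.card * β ^ (n - N.card) := by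
    rw [prod_ite, prod_const, prod_const, filter_mem_eq_inter, univ_inter, filter_not,
      filter_mem_eq_inter, univ_inter, card_univ_sdiff, Fintype.card_fin]
  have h4 : (0 : ℝ) ≤ ∏ i ∈ Jᶜ, if i ∈ N then (2 : ℝ) else β :=
    prod_nonneg fun i _ => by split_ifs <;> linarith
  rw [← h3, ← prod_mul_prod_compl J, ← mul_assoc]
  exact h1.trans (le_mul_of_one_le_left h4 h2)

end SumAux

theorem rSum : RSum := by
  intro n t J y m h
  rcases h.2.2.2.2 with ⟨h1, h2⟩ | ⟨h1, h2⟩
  · have e : (univ.filter fun N : Finset (Fin n) => N.card ≤ m.ν) = {∅} := by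
      ext N
      simp [h1]
    rw [e, sum_singleton]
    simpa using SumAux.prod_le y h (by norm_num) h2 ∅
  · refine (sum_le_sum fun N _ => SumAux.prod_le y h (by norm_num) h2 N).trans ?_
    rw [← mul_sum]
    refine mul_le_mul_of_nonneg_left ?_ (by positivity)
    have h3 : (20 : ℝ) ^ m.ν ≤ (6 / 5) ^ n := by
      calc (20 : ℝ) ^ m.ν ≤ ((6 / 5) ^ 20) ^ m.ν := pow_le_pow_left₀ (by norm_num) (by norm_num) _
        _ ≤ _ := by
          rw [← pow_mul]
          exact pow_le_pow_right₀ (by norm_num) h1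
    calc _ ≤ ∑ N ∈ univ.filter (fun N : Finset (Fin n) => N.card ≤ m.ν),
          (6 / 5 : ℝ) ^ n * ((1 / 10) ^ N.card * (7 / 10) ^ (n - N.card)) := by
          refine sum_le_sum fun N hN => ?_
          have h4 : (20 : ℝ) ^ N.card ≤ 20 ^ m.ν :=
            pow_le_pow_right₀ (by norm_num) (mem_filter.1 hN).2
          have h5 : (2 : ℝ) ^ N.card = 20 ^ N.card * (1 / 10) ^ N.card := by
            rw [← mul_pow]
            norm_num
          rw [h5, mul_assoc]
          exact mul_le_mul_of_nonneg_right (h4.trans h3) (by positivity)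
      _ ≤ ∑ N : Finset (Fin n), (6 / 5 : ℝ) ^ n * ((1 / 10) ^ N.card * (7 / 10) ^ (n - N.card)) :=
          sum_le_sum_of_subset_of_nonneg (filter_subset _ _) fun _ _ _ => by positivity
      _ = (6 / 5 * (1 / 10 + 7 / 10)) ^ n := by
          have := Fintype.sum_pow_mul_eq_add_pow (Fin n) (1 / 10 : ℝ) (7 / 10)
          rw [Fintype.card_fin] at this
          rw [← mul_sum, this, mul_pow]
      _ ≤ _ := pow_le_pow_left₀ (by norm_num) (by norm_num) _

end Pool.Agent.P.MP_f57657_co.RS
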