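import Pool.Agent.P.MP_f57657_co.RS.Det
import Pool.Agent.P.MP_f57657_co.DG.Med

/-! Active points of medium size in characteristic two. -/

open Matrix Finset Polynomial

namespace Pool.Agent.P.MP_f57657_co.RS

open DG

namespace TwoAux

theorem ne_zero {x : Pt} (hp : x.1.1 = 2) (h : 32 ≤ sz x) : x.2 ≠ 0 := by
  intro e
  have h1 : dg x = 1 := by
    rw [dg, mp, e, minpoly.zero, natDegree_X]
  rw [sz, h1, hp] at h
  omega

end TwoAux

theorem rTwo (hGd : RGd) (hPot : RPot) (hXq : RXq) : RTwo := by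
  obtain ⟨N1, hGd⟩ := hGd
  obtain ⟨N2, hXq⟩ := hXq
  refine ⟨N1 + N2 + 5, 243, fun p n t j0 x hN hP hp h32 hq => ?_⟩
  have j3 : 1 ≤ j0 := by
    have a := hP.le
    have b : 1 ≤ (3 * t) ^ 6 := Nat.one_le_pow _ _ (by omega)
    omega
  have j4 : t * j0 + 5 * j0 ≤ n := by linarith [hP.2.2.1]
  have n1 := hP.le_pow
  have l3 := (dPl x).2.2.2.2.2.2.2.2.1
  have h0 := TwoAux.ne_zero hp h32
  have hq3 : sz x ^ 3 ≤ 2 ^ (3 * t) := by
    rw [mul_comm, pow_mul]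
    exact Nat.pow_le_pow_left hq 3
  have hq1 : sz x ≤ 2 ^ (3 * t) := hq.trans (Nat.pow_le_pow_right (by norm_num) (by omega))
  have q0 : (32 : ℝ) ≤ sz x := by exact_mod_cast h32
  obtain ⟨u, hu⟩ : ∃ u : ℝ, u = 1 / sz x := ⟨_, rfl⟩
  have u0 : 0 < u := by rw [hu]; positivity
  have u1 : u ≤ 1 / 32 := by rw [hu]; exact one_div_le_one_div_of_le (by norm_num) q0
  have u2 : ∀ (c : ℝ) (e : ℕ), c / (sz x : ℝ) ^ e = c * u ^ e := fun c e => by
    rw [hu, one_div, inv_pow, div_eq_mul_inv]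
  have u3 : 2 / (sz x : ℝ) = 2 * u := by rw [hu, mul_one_div]
  obtain ⟨β, hβ⟩ : ∃ β : ℝ, β = (1 / 2) ^ t ^ 2 := ⟨_, rfl⟩
  have b0 : 0 ≤ β := by rw [hβ]; positivity
  have hB : ∀ j, j0 ≤ j → j ≤ n → (mG p j).pr (fun G => ¬ Gd p (3 * t) G) ≤ β := fun j h h' =>
    (hGd p j (3 * t) (by omega) (hP.rg (by omega) h (by omega))).trans (hβ ▸
      pow_le_pow_of_le_one (by norm_num) (by norm_num) (Nat.pow_le_pow_left (by omega) 2))
  have hC : ∀ j (G : Gr j), Gd p (3 * t) G → 1 ≤ gd (FF x.1) (aM G) x.2 →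
      (mB p j).pr (fun s => gd (FF x.1) (aM G) x.2 ≤ gd (FF x.1) (aM (bord G s)) x.2) ≤ 2 * u :=
    fun j G hG h1 => by
      obtain ⟨z, hz, z0⟩ := one_le_gd.1 h1
      refine (FP.pr_mono fun s e => ?_).trans
        (u3 ▸ hG.1 _ x.2 z 0 (sz x) hz z0 (by omega) hq1 l3)
      by_contra e'
      have : gd (FF x.1) (aM (bord G s)) x.2 + 1 ≤ gd (FF x.1) (aM G) x.2 :=
        (dBord (FF x.1) 0 1 j G s x.2).2.2.1 ⟨z, hz, e'⟩
      omega
  have hZ : ∀ j (G : Gr j), gd (FF x.1) (aM G) x.2 = 0 → aeval x.2 (ph G) ≠ 0 :=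
    fun j G h e => by have := ((dEv (FF x.1) j (aM G)).1 x.2).2 e; omega
  have hD : ∀ d,
      (mG p n).pr (fun G => d ≤ gd (FF x.1) (aM G) x.2) ≤ 3 * (8 * u) ^ d + n * β := by
    intro d
    have := hPot p (fun _ G => gd (FF x.1) (aM G) x.2) (fun _ G => Gd p (3 * t) G) (2 * u) β
      j0 n d (by positivity) (by linarith) b0 (by omega) ?_
      (fun j G => (dBord (FF x.1) 0 1 j G (fun _ => true) x.2).1)
      (fun j G s => (dBord (FF x.1) 0 1 j G s x.2).2.1)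
      fun j a b => ⟨hB j a b.le, fun G hG => ⟨fun g0 => ?_, hC j G hG⟩⟩
    · rwa [show 4 * (2 * u) = 8 * u by ring] at this
    · have e1 : 1 / (4 * (2 * u)) ≤ 2 ^ t := by
        have : (sz x : ℝ) ≤ 2 ^ t := by exact_mod_cast hq
        rw [hu, show 1 / (4 * (2 * (1 / (sz x : ℝ)))) = sz x / 8 by field_simp; norm_num]
        linarith
      refine (mul_le_mul_of_nonneg_left (pow_le_pow_left₀ (by positivity) e1 j0) two_pos.le).trans ?_
      rw [← pow_mul, ← pow_succ']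
      exact pow_le_pow_right₀ one_le_two (by omega)
    · exact (FP.pr_mono fun s e => ((dEv (FF x.1) _ _).1 x.2).1 e).trans
        (u3 ▸ (hXq p j (3 * t) x G (by omega) hG hq3 hp h0 (hZ j G g0)).1)
  have b1 : β ≤ n * β := le_mul_of_one_le_left b0 (by exact_mod_cast (by omega : 1 ≤ n))
  have b2 := mul_le_mul_of_nonneg_right u1 (b0.trans b1)
  have h1 := hD 2
  have h2 : (mS p n).pr (fun ω => 1 ≤ gd (FF x.1) (aM ω.1) x.2 ∧
      gd (FF x.1) (aM ω.1) x.2 ≤ gd (FF x.1) (aM (bord ω.1 ω.2)) x.2) ≤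
      2 * u * (mG p n).pr (fun G => 1 ≤ gd (FF x.1) (aM G) x.2) + β :=
    (FP.pr_prod_le (fun G => 1 ≤ gd (FF x.1) (aM G) x.2) (fun G => Gd p (3 * t) G)
      (by positivity) (fun _ e => e.1)
      fun G hG e => (FP.pr_mono fun s e => e.2).trans (hC n G hG e)).trans
        (add_le_add le_rfl (hB n (by omega) le_rfl))
  have h3 := mul_le_mul_of_nonneg_left (hD 1) (show 0 ≤ 2 * u by positivity)
  have h4 : (mS p n).pr (fun ω => aeval x.2 (ph ω.1) ≠ 0 ∧ E2 x (ph (bord ω.1 ω.2))) ≤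
      3 * u ^ 2 + β := by
    refine (FP.pr_prod_le' (fun G => Gd p (3 * t) G) (by positivity) fun G hG => ?_).trans
      (add_le_add le_rfl (hB n (by omega) le_rfl))
    by_cases c : aeval x.2 (ph G) ≠ 0
    · exact (FP.pr_mono fun s e => e.2).trans
        (u2 3 2 ▸ (hXq p n (3 * t) x G (by omega) hG hq3 hp h0 c).2)
    · rw [FP.pr_false fun s e => c e.1]
      positivity
  have h5 := MedAux.tail (by omega) n1
  rw [← hβ] at h5
  rw [← FP.pr_fst (ν := mB p n)] at h1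
  rw [u2, pr_bord]
  refine (FP.pr_le_add fun ω e => ?_).trans ((add_le_add h1 ((FP.pr_or _ _).trans
    (add_le_add h2 h4))).trans (by linarith))
  have e1 : 1 ≤ gd (FF x.1) (aM (bord ω.1 ω.2)) x.2 :=
    one_le_gd.2 (e.1.imp fun z h => ⟨h.1, h.2.1⟩)
  have e2 := e.2
  rw [res_bord] at e2
  rcases Nat.eq_zero_or_pos (gd (FF x.1) (aM ω.1) x.2) with h | h
  · exact Or.inr (Or.inr ⟨hZ _ _ h, e2 (hZ _ _ h)⟩)
  · by_cases h' : 2 ≤ gd (FF x.1) (aM ω.1) x.2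
    exacts [Or.inl h', Or.inr (Or.inl ⟨h, by omega⟩)]

end Pool.Agent.P.MP_f57657_co.RS
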