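import Pool.Agent.P.MP_f57657_co.RS.Det

/-! Consecutive characteristic polynomials are nearly coprime at a small point. -/

open Matrix Finset Polynomial

namespace Pool.Agent.P.MP_f57657_co.RS

open DG

namespace VaAux

theorem cop_sq {x : Pt} {c : ℕ} {f y w v h : ℤ[X]} (h1 : Cop x c f y)
    (e2 : y ^ 2 = w * v + f * h) : Cop x (c + c) f (X * f - w) := by
  obtain ⟨u, a, b, hu, e⟩ := h1
  refine ⟨u * u, a * a * f + 2 * a * b * y + b ^ 2 * h + b ^ 2 * v * X, -(b ^ 2 * v), ?_, ?_⟩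
  · rw [map_mul]
    exact mul_ne_zero hu hu
  · rw [pow_add, C_mul]
    linear_combination (u * C ((x.1.1 : ℤ) ^ c) + (a * f + b * y)) * e + b ^ 2 * e2

end VaAux

open VaAux in
theorem rVa (hFI : RFI) (hJac : RJac) : RVa := by
  intro x r c ε hε
  have hp2 : (2 : ℝ) ≤ x.1.1 := by exact_mod_cast x.1.2.two_le
  obtain ⟨m, hm⟩ := pow_unbounded_of_one_lt (((r * dg x : ℕ) : ℝ) / (ε / 2))
    (show (1 : ℝ) < x.1.1 by linarith)
  have hm' : ((r * dg x : ℕ) : ℝ) / (x.1.1 : ℝ) ^ (m + 1) ≤ ε / 2 := by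
    rw [div_lt_iff₀ (by positivity)] at hm
    rw [div_le_iff₀ (by positivity), pow_succ]
    have : 0 < (x.1.1 : ℝ) ^ m * (ε / 2) := by positivity
    nlinarith
  set c2 := (r * dg x + 1) * (r * dg x) * (c + m) with hc2
  set L := r * (c2 + 1) + (c2 + 1) with hL
  have hL1 : r * (c2 + 1) ≤ L := by omega
  have hL2 : c2 + 1 ≤ L := by omega
  obtain ⟨R, _, _, ev, hLev, hker⟩ := (dRing x).2 L
  obtain ⟨M1, hM1⟩ := exists_pow_lt_of_lt_one (show 0 < ε / 4 by positivity)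
    (show (1 / 2 : ℝ) < 1 by norm_num)
  refine ⟨c2 + c2, Fintype.card R + M1 + 2, fun p j t G ht hG hS => ?_⟩
  have ht2 : t ≤ 2 ^ t := Nat.lt_two_pow_self.le
  have hcard : Fintype.card R ≤ 2 ^ t := by omega
  have hη : 2 * (Fintype.card R : ℝ) * (1 / 2) ^ t ^ 2 ≤ ε / 2 := by
    have h1 : (Fintype.card R : ℝ) ≤ 2 ^ t := by exact_mod_cast hcard
    have h2 : (1 / 2 : ℝ) ^ t ^ 2 ≤ (1 / 2) ^ (t + t) :=
      pow_le_pow_of_le_one (by norm_num) (by norm_num) (by nlinarith)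
    have h3 : (2 : ℝ) ^ t * (1 / 2) ^ (t + t) = (1 / 2) ^ t := by
      rw [pow_add, ← mul_assoc, ← mul_pow]
      norm_num
    have h4 : (1 / 2 : ℝ) ^ t ≤ (1 / 2) ^ M1 :=
      pow_le_pow_of_le_one (by norm_num) (by norm_num) (by omega)
    calc 2 * (Fintype.card R : ℝ) * (1 / 2) ^ t ^ 2 ≤ 2 * 2 ^ t * (1 / 2) ^ (t + t) := by gcongr
      _ = 2 * (1 / 2) ^ t := by rw [mul_assoc, h3]
      _ ≤ ε / 2 := by linarith
  obtain ⟨i, hi⟩ := hS.2.1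
  have : Nonempty (Fin (x.1.1 ^ (m + 1))) := ⟨⟨0, pow_pos x.1.2.pos _⟩⟩
  have h1 := hFI (Bv j) R (Fin (x.1.1 ^ (m + 1))) (mB p j)
    (fun s => ev (bf (aM G) (sv 0 1 s) (Pi.single i 1)))
    (fun τ => τ.val • ev (aw (aM G) (Pi.single i 1) i))
    (fun z => ∃ w, ev w = z ∧ ¬ Cop x c2 (ph G) w) ((1 / 2) ^ t ^ 2) (by positivity)
    fun ψ hψ => hG.2.2.2.1 i R ev hLev.1 hcard ψ (Or.inl ⟨i, fun e => hψ.elim fun τ hτ =>
      hτ (by rw [AddChar.map_nsmul_eq_pow, e, one_pow])⟩)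
  have h2 : ∀ z : R, pr (fun τ : Fin (x.1.1 ^ (m + 1)) =>
      ∃ w, ev w = z + τ.val • ev (aw (aM G) (Pi.single i 1) i) ∧ ¬ Cop x c2 (ph G) w) ≤ ε / 2 := by
    intro z
    obtain ⟨z0, e0⟩ := hLev.1 z
    refine le_trans (pr_mono ?_) ((dPV x r c m L (ph G) _ z0 hS.1 hi hL1 hL2).trans hm')
    rintro τ ⟨w, e1, b1⟩
    refine ⟨w, (hker _).1 ?_, b1⟩
    rw [map_sub, map_add, map_mul, e0, e1, nsmul_eq_mul, map_natCast, map_natCast, sub_self]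
  refine le_trans (FP.pr_mono fun s hs => ?_)
    (h1.trans ((add_le_add (FP.ex_le_const fun s => h2 _) hη).trans (by linarith)))
  refine ⟨_, rfl, fun h => hs ?_⟩
  obtain ⟨k, hk⟩ := hJac.1 j (aM G) (sv 0 1 s) (Pi.single i 1) (gm_symm 0 1 G)
  rw [show ph (bord G s) = _ from dJac.1 0 1 j G s]
  exact cop_sq h hk

end Pool.Agent.P.MP_f57657_co.RS
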