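import Pool.Agent.P.MP_f57657_co.RS.Det
import Pool.Agent.P.MP_f57657_co.DG.Vc

/-! The order of vanishing after one step of the chain at a small point. -/

open Matrix Finset Polynomial

namespace Pool.Agent.P.MP_f57657_co.RS

open DG

namespace VbAux

theorem key (hFI : RFI) {R : Type} [CommRing R] [Fintype R] (ev : ℤ[X] →+* R) {η ρ : ℝ}
    (hη : 0 ≤ η) {Ω : Type} [Fintype Ω] (μ : FP Ω) (Z : Ω → ℤ[X]) {T : Type} [Fintype T]
    [Nonempty T] (a : T → ℤ[X]) (Bd : ℤ[X] → Prop)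
    (ha : ∀ ψ : AddChar R ℂ, (∃ t, ψ (ev (a t)) ≠ 1) → ‖μ.exc fun ω => ψ (ev (Z ω))‖ ≤ η)
    (h : ∀ z : R, pr (fun t => ∃ z', ev z' = z + ev (a t) ∧ Bd z') ≤ ρ) :
    μ.pr (fun ω => Bd (Z ω)) ≤ ρ + 2 * (Fintype.card R : ℝ) * η := by
  have h1 := hFI Ω R T μ (fun ω => ev (Z ω)) (fun t => ev (a t))
    (fun z => ∃ z', ev z' = z ∧ Bd z') η hη ha
  exact (FP.pr_mono fun s hs => ⟨_, rfl, hs⟩).trans
    (h1.trans (add_le_add (FP.ex_le_const fun ω => h _) le_rfl))

end VbAux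

open VbAux VcAux in
theorem rVb (hFI : RFI) : RVb := by
  intro x r ε hε
  obtain ⟨k, hk⟩ := exists_pow_lt_of_lt_one (show 0 < ε / 2 by positivity)
    (show (1 / 2 : ℝ) < 1 by norm_num)
  obtain ⟨R, _, _, ev, hLev, hker⟩ := (dRing x).2 (r + k)
  have hc0 : (0 : ℝ) < Fintype.card R := by exact_mod_cast Fintype.card_pos
  obtain ⟨M, hM⟩ := exists_pow_lt_of_lt_one (show 0 < ε / (4 * Fintype.card R) by positivity)
    (show (1 / 2 : ℝ) < 1 by norm_num)
  refine ⟨2 * (r + k), M + Fintype.card R, fun p j t G ht hG ho => ?_⟩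
  have hcard : Fintype.card R ≤ 2 ^ t := le_trans (by omega) (Nat.lt_two_pow_self (n := t)).le
  have hη : 2 * (Fintype.card R : ℝ) * (1 / 2) ^ t ^ 2 ≤ ε / 2 := by
    have h1 : (1 / 2 : ℝ) ^ t ^ 2 ≤ ε / (4 * Fintype.card R) :=
      (pow_le_pow_of_le_one (by norm_num) (by norm_num)
        (le_trans (by omega) (Nat.le_self_pow two_ne_zero t))).trans hM.le
    rw [le_div_iff₀ (by positivity)] at h1
    linarith
  by_cases hp : x.1.1 = 2
  · have a2 := key hFI ev (by positivity) (mB p j) (yy G) (T := Bv k) (ρ := ε / 2)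
      (fun b => ph G * pb b) (fun y => ¬ Ord x (r + k) (ph G + y))
      (fun ψ ⟨b, hb⟩ => hG.2.2.1 R ev hLev.1 hcard ψ (Or.inr ⟨ev (pb b), by rwa [← map_mul]⟩))
      fun z => by
        obtain ⟨z0, e0⟩ := hLev.1 z
        refine le_trans (pr_mono ?_)
          (((dInv x).2.2 r k (r + k) (ph G) (ph G + z0) ho le_rfl).trans hk.le)
        rintro b ⟨z', e1, b1⟩
        refine ⟨ph G + z', (hker _).1 ?_, b1⟩
        rw [map_sub, map_add, map_add, map_add, e0, e1]
        ring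
    exact (FP.pr_mono fun s hs h => hs (ord_even dJac dPl hp G s h)).trans
      (a2.trans (by linarith))
  · have a3 := key hFI ev (by positivity) (mB p j)
      (fun s => bf (aM G) (sv 0 1 s) (sv 0 1 s)) (T := Bv k) (ρ := ε / 2)
      (fun b => -(2 * ph G * pb b)) (fun w => ¬ Ord x (r + k) (X * ph G - w))
      (fun ψ ⟨b, hb⟩ => hG.2.2.2.2 R ev hLev.1 hcard ψ ⟨-ev (pb b), fun e => hb (by
        rw [← e]
        simp [map_ofNat])⟩)
      fun w => by
        obtain ⟨w0, e1⟩ := hLev.1 w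
        refine le_trans (pr_mono ?_) (((dInv x).2.2 r k (r + k) (2 * ph G) (X * ph G - w0)
          (ord_two hp ho) le_rfl).trans hk.le)
        rintro b ⟨w', e3, b4⟩
        refine ⟨X * ph G - w', (hker _).1 ?_, b4⟩
        simp only [map_sub, map_add, map_mul, map_neg, e1, e3]
        ring
    refine (FP.pr_mono fun s hs h => hs ?_).trans (a3.trans (by linarith))
    have hb : ph (bord G s) = X * ph G - bf (aM G) (sv 0 1 s) (sv 0 1 s) := dJac.1 0 1 j G s
    rw [hb]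
    exact h.mono (by omega)

end Pool.Agent.P.MP_f57657_co.RS
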