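import Pool.Agent.P.MP_f57657_co.RS.Det
import Pool.Agent.P.MP_f57657_co.DG.Vc

/-! The order of vanishing of the Wronskian in the step of the chain at a small point. -/

open Matrix Finset Polynomial

namespace Pool.Agent.P.MP_f57657_co.RS

open DG DG.InvAux

namespace VcAux

theorem ord_mul {x : Pt} {r s : ℕ} {f g : ℤ[X]} (hf : Ord x r f) (hg : Ord x s g) :
    Ord x (r + s) (f * g) := by
  obtain ⟨o, q, ho, hq, e⟩ := split dPl x hf
  obtain ⟨o', q', ho', hq', e'⟩ := split dPl x hg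
  have hirr := (dPl x).2.2.2.2.1
  intro h
  rw [red_mul, e, e', show mp x ^ o * q * (mp x ^ o' * q') = mp x ^ (o + o') * (q * q') by ring]
    at h
  have h1 : mp x ^ (o + o') * mp x ∣ mp x ^ (o + o') * (q * q') := by
    rw [← pow_succ]
    exact (pow_dvd_pow _ (by omega)).trans h
  exact (hirr.prime.dvd_or_dvd
    ((mul_dvd_mul_iff_left (pow_ne_zero _ hirr.ne_zero)).1 h1)).elim hq hq'

theorem red_der (p : ℕ) (u : ℤ[X]) : red p (derivative u) = derivative (red p u) := by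
  simp [red, derivative_map]

theorem red_p (p : ℕ) : red p (p : ℤ[X]) = 0 := by
  have := red_Cpow p 1 le_rfl
  rwa [pow_one, map_natCast] at this

/-- Characteristic two: the Wronskian is the product up to the factor `X`. -/
theorem ord_even (hJac : RJac) {x : Pt} (hp : x.1.1 = 2) {n r : ℕ} (G : Gr n) (H : Gr (n + 1))
    (hG : Ord x r (ph G)) (hH : Ord x r (ph H)) : Ord x (r + r) (Wr (ph G) (ph H)) := by
  obtain ⟨a, ha⟩ := hJac.2.2 n G
  obtain ⟨b, hb⟩ := hJac.2.2 (n + 1) H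
  intro h
  apply ord_mul hG hH
  have h2 : ((x.1.1 : ℕ) : ℤ[X]) = 2 := by rw [hp]; rfl
  have e : ph G * ph H =
      ((x.1.1 : ℕ) : ℤ[X]) * (ph H * a - b * ph G) - X * Wr (ph G) (ph H) := by
    rw [h2, Wr]
    push_cast at hb
    rw [C_add, C_1] at hb
    linear_combination ph H * ha - ph G * hb
  rw [e, red_sub, red_mul, red_mul, red_p, zero_mul, zero_sub]
  exact (h.mul_left _).neg_right

/-- The shifts. -/
noncomputable def sh (p : ℕ) {k : ℕ} (b : Bv k) : ℤ[X] := X * expand ℤ p (pb b)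

theorem red_sh (p : ℕ) {k : ℕ} (b : Bv k) :
    red p (derivative (sh p b)) = red p (expand ℤ p (pb b)) := by
  rw [sh, derivative_mul, derivative_X, one_mul, derivative_expand, red_add, red_mul, red_mul,
    red_mul, red_p, zero_mul, mul_zero, mul_zero, add_zero]

theorem ord_pb (x : Pt) {k : ℕ} {b b' : Bv k} (hne : b ≠ b') :
    Ord x (k * x.1.1 + 1) (expand ℤ x.1.1 (pb b - pb b')) := by
  have : Fact x.1.1.Prime := ⟨x.1.2⟩
  obtain ⟨i, hi⟩ := Function.ne_iff.1 hne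
  have h7 : red x.1.1 (pb b - pb b') ≠ 0 := by
    intro e0
    have h8 := congrArg (fun f => f.coeff i.val) e0
    simp only [red, coeff_map, coeff_sub, coeff_pb, coeff_zero] at h8
    cases hb : b i <;> cases hb' : b' i <;> simp_all
  have h9 : (red x.1.1 (pb b - pb b')).natDegree ≤ k := by
    rw [natDegree_le_iff_coeff_eq_zero]
    intro m hm
    simp [red, coeff_map, coeff_pb_ge _ m hm.le]
  intro h
  have e : red x.1.1 (expand ℤ x.1.1 (pb b - pb b')) =
      expand (ZMod x.1.1) x.1.1 (red x.1.1 (pb b - pb b')) := map_expand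
  rw [e] at h
  have h8 := natDegree_le_of_dvd h ((expand_ne_zero x.1.2.pos).2 h7)
  rw [(dPl x).2.2.2.2.2.1.natDegree_pow, natDegree_expand] at h8
  have h10 : 1 ≤ (mp x).natDegree := (dPl x).2.2.2.1
  have h11 := Nat.mul_le_mul_right x.1.1 h9
  have h12 := Nat.mul_le_mul_left (k * x.1.1 + 1) h10
  omega

/-- At most one shift is bad. -/
theorem uniq {x : Pt} (hp : x.1.1 ≠ 2) {r k : ℕ} {f g g' : ℤ[X]} (hf : Ord x r f) {b b' : Bv k}
    (hm : g - g' - 2 * f * (sh x.1.1 b - sh x.1.1 b') ∈ IL x (r + r + (k * x.1.1 + 1) + 1))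
    (h : ¬ Ord x (r + r + (k * x.1.1 + 1)) (Wr f g))
    (h' : ¬ Ord x (r + r + (k * x.1.1 + 1)) (Wr f g')) : b = b' := by
  by_contra hne
  apply ord_mul (ord_mul hf (DG.VcAux.ord_two hp hf)) (ord_pb x hne)
  set δ := g - g' - 2 * f * (sh x.1.1 b - sh x.1.1 b') with hδ
  have h1 := il_dvd dPl x (Nat.le_add_left _ _) hm
  have h2 := pow_sub_one_dvd_derivative_of_pow_dvd h1
  rw [Nat.add_sub_cancel, ← red_der] at h2
  have h3 := (pow_dvd_pow (mp x) (Nat.le_succ _)).trans h1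
  have e : f * (2 * f) * (derivative (sh x.1.1 b) - derivative (sh x.1.1 b')) =
      δ * derivative f - derivative δ * f - (Wr f g - Wr f g') := by
    simp only [hδ, Wr, derivative_sub, derivative_mul, derivative_ofNat]
    ring
  have e2 : red x.1.1 (f * (2 * f) * expand ℤ x.1.1 (pb b - pb b')) =
      red x.1.1 (f * (2 * f) * (derivative (sh x.1.1 b) - derivative (sh x.1.1 b'))) := by
    rw [red_mul, red_mul _ (f * (2 * f)), map_sub, red_sub, red_sub, red_sh, red_sh]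
  rw [e2, e, red_sub, red_sub, red_sub, red_mul, red_mul]
  exact dvd_sub (dvd_sub (h3.mul_right _) (h2.mul_right _))
    (dvd_sub (not_not.1 h) (not_not.1 h'))

end VcAux

open VcAux in
theorem rVc (hFI : RFI) (hJac : RJac) : RVc := by
  intro x r ε hε
  by_cases hp : x.1.1 = 2
  · refine ⟨r + r, 0, fun p j t G _ _ hG => ?_⟩
    rw [FP.pr_false fun s hs => hs.2 (ord_even hJac hp G _ hG hs.1)]
    exact hε.le
  obtain ⟨k, hk⟩ := exists_pow_lt_of_lt_one (show 0 < ε / 4 by positivity)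
    (show (1 / 2 : ℝ) < 1 by norm_num)
  obtain ⟨R, _, _, ev, hLev, hker⟩ := (dRing x).2 (r + r + (k * x.1.1 + 1) + 1)
  refine ⟨r + r + (k * x.1.1 + 1), Fintype.card R + k + 2, fun p j t G ht hGd hG => ?_⟩
  have ht2 : t ≤ 2 ^ t := Nat.lt_two_pow_self.le
  have hcard : Fintype.card R ≤ 2 ^ t := by omega
  have hη : 2 * (Fintype.card R : ℝ) * (1 / 2) ^ t ^ 2 ≤ ε / 2 := by
    have h1 : (Fintype.card R : ℝ) ≤ 2 ^ t := by exact_mod_cast hcard
    have h2 : (2 : ℝ) ^ t * (1 / 2) ^ (2 * t) = (1 / 2) ^ t := by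
      rw [mul_comm 2 t, pow_mul, one_div, inv_pow]
      field_simp
    have h3 : (1 / 2 : ℝ) ^ t ^ 2 ≤ (1 / 2) ^ (2 * t) :=
      pow_le_pow_of_le_one (by norm_num) (by norm_num) (by nlinarith)
    have h4 : (1 / 2 : ℝ) ^ t ≤ (1 / 2) ^ k :=
      pow_le_pow_of_le_one (by norm_num) (by norm_num) (by omega)
    have h5 : (Fintype.card R : ℝ) * (1 / 2) ^ t ^ 2 ≤ 2 ^ t * (1 / 2) ^ (2 * t) := by gcongr
    linarith
  have h1 := hFI (Bv j) R (Bv k) (mB p j)
    (fun s => ev (bf (aM G) (sv 0 1 s) (sv 0 1 s))) (fun b => -ev (2 * ph G * sh x.1.1 b))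
    (fun z => ∃ w, ev w = z ∧ ¬ Ord x (r + r + (k * x.1.1 + 1)) (Wr (ph G) (X * ph G - w)))
    ((1 / 2) ^ t ^ 2) (by positivity) fun ψ hψ => by
      obtain ⟨b, hb⟩ := hψ
      refine hGd.2.2.2.2 R ev hLev.1 hcard ψ ⟨-ev (sh x.1.1 b), fun e => hb ?_⟩
      rw [← e]
      simp [map_ofNat]
  have h2 : ∀ z : R, pr (fun b : Bv k => ∃ w, ev w = z + -ev (2 * ph G * sh x.1.1 b) ∧
      ¬ Ord x (r + r + (k * x.1.1 + 1)) (Wr (ph G) (X * ph G - w))) ≤ ε / 4 := by
    intro z
    by_cases hex : ∃ b : Bv k, ∃ w, ev w = z + -ev (2 * ph G * sh x.1.1 b) ∧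
      ¬ Ord x (r + r + (k * x.1.1 + 1)) (Wr (ph G) (X * ph G - w))
    · obtain ⟨b0, w0, e0, a0⟩ := hex
      refine (pr_mono (F := fun b => b = b0) ?_).trans ?_
      · rintro b ⟨w, e, a⟩
        refine uniq hp hG ((hker _).1 ?_) a a0
        simp only [map_sub, map_mul] at e e0 ⊢
        rw [e, e0]
        ring
      · rw [pr_single]
        simpa using hk.le
    · rw [pr_false fun b hb => hex ⟨b, hb⟩]
      positivity
  have h3 := h1.trans (add_le_add (FP.ex_le_const fun s => h2 _) hη)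
  refine (FP.pr_mono fun s hs => ⟨_, rfl, ?_⟩).trans (h3.trans (by linarith))
  rw [← dJac.1 0 1 j G s]
  exact hs.2

end Pool.Agent.P.MP_f57657_co.RS
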