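import Pool.Agent.P.MP_f57657_co.RS.Det

/-! The discriminant step of the chain at a small point. -/

open Matrix Finset Polynomial

namespace Pool.Agent.P.MP_f57657_co.RS

open DG

namespace VwAux

theorem il_succ {x : Pt} {L : ℕ} {d : ℤ[X]} (h : d ∈ IL x (L + 1)) :
    d ∈ IL x L ∧ derivative d ∈ IL x L := by
  obtain ⟨a, b, rfl⟩ := Ideal.mem_span_pair.1 h
  constructor
  · refine Ideal.mem_span_pair.2 ⟨a * C (x.1.1 : ℤ), b * lf x, ?_⟩
    rw [pow_succ, pow_succ, C_mul]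
    ring
  · refine Ideal.mem_span_pair.2 ⟨derivative a * C (x.1.1 : ℤ),
      derivative b * lf x + b * (C ((L + 1 : ℕ) : ℤ) * derivative (lf x)), ?_⟩
    rw [derivative_add, derivative_mul, derivative_mul, derivative_C, derivative_pow,
      Nat.add_sub_cancel, pow_succ, pow_succ, C_mul]
    ring

theorem cop_two {x : Pt} {c : ℕ} {g f : ℤ[X]} (h : Cop x c g f) : Cop x (c + 1) g (2 * f) := by
  obtain ⟨u, a, b, hu, e⟩ := h
  by_cases hp : x.1.1 = 2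
  · refine ⟨u, 2 * a, b, hu, ?_⟩
    have h2 : (C (x.1.1 : ℤ) : ℤ[X]) = 2 := by rw [hp]; rfl
    rw [pow_succ, C_mul, h2]
    linear_combination 2 * e
  · refine Cop.mono (c := c) ⟨2 * u, 2 * a, b, ?_, by linear_combination 2 * e⟩ (Nat.le_succ c)
    rw [map_mul, map_ofNat]
    refine mul_ne_zero ?_ hu
    have h1 : (2 : ZMod x.1.1) ≠ 0 := by
      intro h2
      have h3 : ((2 : ℕ) : ZMod x.1.1) = 0 := by exact_mod_cast h2
      rw [ZMod.natCast_eq_zero_iff] at h3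
      exact hp ((Nat.prime_dvd_prime_iff_eq x.1.2 Nat.prime_two).1 h3)
    have := (map_ne_zero (algebraMap (ZMod x.1.1) (FF x.1))).2 h1
    rwa [map_ofNat] at this

theorem cop_wr {x : Pt} {c : ℕ} {f y : ℤ[X]} (h1 : Cop x c f y) (h2 : Cop x c f (derivative f)) :
    Cop x (c + c) (Wr f y) f := by
  obtain ⟨u1, a1, b1, hu1, e1⟩ := h1
  obtain ⟨u2, a2, b2, hu2, e2⟩ := h2
  refine ⟨u1 * u2, b1 * b2,
    a1 * a2 * f + a1 * b2 * derivative f + a2 * b1 * y + b1 * b2 * derivative y, ?_, ?_⟩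
  · rw [map_mul]
    exact mul_ne_zero hu1 hu2
  · rw [pow_add, C_mul, Wr]
    linear_combination (u2 * C ((x.1.1 : ℤ) ^ c)) * e1 + (a1 * f + b1 * y) * e2

theorem cop_end {x : Pt} {c : ℕ} {f y : ℤ[X]} (h : Cop x c (Wr f y) y) :
    Cop x c y (derivative y) := by
  obtain ⟨u, a, b, hu, e⟩ := h
  refine ⟨u, a * derivative f + b, -(a * f), hu, ?_⟩
  rw [e, Wr]
  ring

theorem wr_shift (f y0 y : ℤ[X]) (k l : ℤ) :
    Wr f y0 - Wr f y =
      f * derivative (y - (y0 - C k * (2 * f) + C l * (2 * f))) -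
        derivative f * (y - (y0 - C k * (2 * f) + C l * (2 * f))) := by
  simp only [Wr, derivative_sub, derivative_add, derivative_mul, derivative_C, derivative_ofNat]
  ring

end VwAux

open VwAux in
theorem rVw (hFI : RFI) : RVw := by
  intro x r c ε hε
  have hp2 : (2 : ℝ) ≤ x.1.1 := by exact_mod_cast x.1.2.two_le
  obtain ⟨m, hm⟩ := pow_unbounded_of_one_lt (((r * dg x : ℕ) : ℝ) / (ε / 2))
    (show (1 : ℝ) < x.1.1 by linarith)
  have hm' : ((r * dg x : ℕ) : ℝ) / (x.1.1 : ℝ) ^ (m + 1) ≤ ε / 2 := by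
    rw [div_lt_iff₀ (by positivity)] at hm
    rw [div_le_iff₀ (by positivity), pow_succ]
    have : 0 < (x.1.1 : ℝ) ^ m * (ε / 2) := by positivity
    nlinarith
  set c3 := (r * dg x + 1) * (r * dg x) * (c + c + 1 + m) with hc3
  set L := r * (c3 + 1) + (c3 + 1) with hL
  have hL1 : r * (c3 + 1) ≤ L := by omega
  have hL2 : c3 + 1 ≤ L := by omega
  obtain ⟨R, _, _, ev, hLev, hker⟩ := (dRing x).2 (L + 1)
  obtain ⟨M1, hM1⟩ := exists_pow_lt_of_lt_one (show 0 < ε / 4 by positivity)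
    (show (1 / 2 : ℝ) < 1 by norm_num)
  refine ⟨c3, Fintype.card R + M1 + 2, fun p j t G ht hG hS => ?_⟩
  have ht2 : t ≤ 2 ^ t := Nat.lt_two_pow_self.le
  have hcard : Fintype.card R ≤ 2 ^ t := by omega
  have hη : 2 * (Fintype.card R : ℝ) * (1 / 2) ^ t ^ 2 ≤ ε / 2 := by
    have h1 : (Fintype.card R : ℝ) ≤ 2 ^ t := by exact_mod_cast hcard
    have h2 : (1 / 2 : ℝ) ^ t ^ 2 ≤ (1 / 2) ^ (t + t) :=
      pow_le_pow_of_le_one (by norm_num) (by norm_num) (by nlinarith)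
    have h3 : (2 : ℝ) ^ t * (1 / 2) ^ (t + t) = (1 / 2) ^ t := by
      rw [pow_add, ← mul_assoc, ← mul_pow]
      norm_num
    have h4 : (1 / 2 : ℝ) ^ t ≤ (1 / 2) ^ M1 :=
      pow_le_pow_of_le_one (by norm_num) (by norm_num) (by omega)
    calc 2 * (Fintype.card R : ℝ) * (1 / 2) ^ t ^ 2 ≤ 2 * 2 ^ t * (1 / 2) ^ (t + t) := by gcongr
      _ = 2 * (1 / 2) ^ t := by rw [mul_assoc, h3]
      _ ≤ ε / 2 := by linarith
  have hb : ∀ s : Bv j, ph (bord G s) = X * ph G - bf (aM G) (sv 0 1 s) (sv 0 1 s) :=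
    fun s => dJac.1 0 1 j G s
  have : Nonempty (Fin (x.1.1 ^ (m + 1))) := ⟨⟨0, pow_pos x.1.2.pos _⟩⟩
  have h1 := hFI (Bv j) R (Fin (x.1.1 ^ (m + 1))) (mB p j)
    (fun s => ev (bf (aM G) (sv 0 1 s) (sv 0 1 s)))
    (fun τ => 2 * ev (ph G) * -ev (C ((τ.val : ℕ) : ℤ)))
    (fun z => ∃ w, ev w = z ∧ Cop x c (ph G) (X * ph G - w) ∧
      Ord x r (Wr (ph G) (X * ph G - w)) ∧ ¬ Cop x c3 (Wr (ph G) (X * ph G - w)) (X * ph G - w))
    ((1 / 2) ^ t ^ 2) (by positivity)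
    fun ψ hψ => hG.2.2.2.2 R ev hLev.1 hcard ψ (hψ.elim fun τ hτ => ⟨_, hτ⟩)
  have h2 : ∀ z : R, pr (fun τ : Fin (x.1.1 ^ (m + 1)) =>
      ∃ w, ev w = z + 2 * ev (ph G) * -ev (C ((τ.val : ℕ) : ℤ)) ∧ Cop x c (ph G) (X * ph G - w) ∧
      Ord x r (Wr (ph G) (X * ph G - w)) ∧
      ¬ Cop x c3 (Wr (ph G) (X * ph G - w)) (X * ph G - w)) ≤ ε / 2 := by
    intro z
    by_cases hex : ∃ (τ : Fin (x.1.1 ^ (m + 1))) (w : ℤ[X]),
        ev w = z + 2 * ev (ph G) * -ev (C ((τ.val : ℕ) : ℤ)) ∧ Cop x c (ph G) (X * ph G - w) ∧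
        Ord x r (Wr (ph G) (X * ph G - w))
    · obtain ⟨τ0, w0, e0, b1, b2⟩ := hex
      refine le_trans (pr_mono ?_) ((dPV x r (c + c + 1) m L (Wr (ph G) (X * ph G - w0))
        (2 * ph G) (X * ph G - w0 - C ((τ0.val : ℕ) : ℤ) * (2 * ph G)) b2
        (cop_two (cop_wr b1 hS.2.2)) hL1 hL2).trans hm')
      rintro τ ⟨w, e1, -, b3, b4⟩
      have hd := il_succ ((hker (X * ph G - w - (X * ph G - w0 -
        C ((τ0.val : ℕ) : ℤ) * (2 * ph G) + C ((τ.val : ℕ) : ℤ) * (2 * ph G)))).1 (by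
          simp only [map_sub, map_add, map_mul, e0, e1, map_ofNat]
          ring))
      refine ⟨X * ph G - w, hd.1, fun ⟨u, a, b, hu, e⟩ => b4 ?_⟩
      refine (dInv x).1 r c3 L _ _ u a b b3 hL1 hL2 hu ?_
      rw [e, add_sub_add_right_eq_sub, ← mul_sub,
        wr_shift _ _ _ ((τ0.val : ℕ) : ℤ) ((τ.val : ℕ) : ℤ)]
      exact Ideal.mul_mem_left _ _
        (Ideal.sub_mem _ (Ideal.mul_mem_left _ _ hd.2) (Ideal.mul_mem_left _ _ hd.1))
    · rw [pr_false]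
      · positivity
      · rintro τ ⟨w, e1, b1, b2, -⟩
        exact hex ⟨τ, w, e1, b1, b2⟩
  refine le_trans (FP.pr_mono fun s hs => ?_)
    (h1.trans ((add_le_add (FP.ex_le_const fun s => h2 _) hη).trans (by linarith)))
  rw [hb] at hs
  exact ⟨_, rfl, hs.1, hs.2.1, fun h => hs.2.2 (cop_end h)⟩

end Pool.Agent.P.MP_f57657_co.RS
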