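import Pool.Agent.P.MP_f57657_co.RS.Base

/-! The concentration function of a biased walk is at most the return probability of the lazy
walk. -/

open Finset

namespace Pool.Agent.P.MP_f57657_co.RS

open DG

namespace Walk1Aux

variable {Γ : Type} [AddCommGroup Γ]

/-- Fourier inversion. -/
theorem pr_fourier [Fintype Γ] {Ω : Type} [Fintype Ω] (μ : FP Ω) (Z : Ω → Γ) (c : Γ) :
    ((μ.pr fun ω => Z ω = c : ℝ) : ℂ) =
      (∑ ψ : AddChar Γ ℂ, ψ (-c) * μ.exc fun ω => ψ (Z ω)) / Fintype.card Γ := by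
  classical
  have h0 : (Fintype.card Γ : ℂ) ≠ 0 := Nat.cast_ne_zero.2 Fintype.card_ne_zero
  simp only [← FP.exc_mul]
  rw [← FP.exc_sum, FP.pr, ← FP.exc_ofReal, div_eq_inv_mul, ← FP.exc_mul]
  refine FP.exc_congr fun ω => ?_
  simp only [← AddChar.map_add_eq_mul]
  rw [AddChar.sum_apply_eq_ite]
  by_cases h : Z ω = c
  · simp [h]
  · rw [if_neg h, if_neg fun e => h (by rw [neg_add_eq_zero] at e; exact e.symm)]
    simp

theorem exc_J (p : unitInterval) (ψ : AddChar Γ ℂ) {n : ℕ} (J : Finset (Fin n))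
    (w : Fin n → Γ) :
    (mB p n).exc (fun s => ψ (∑ j ∈ J, sv 0 1 s j • w j)) =
      ∏ j ∈ J, (1 - ((p : ℝ) : ℂ) + ((p : ℝ) : ℂ) * ψ (w j)) := by
  have h := exc_char (p := p) ψ fun j => if j ∈ J then w j else 0
  simp only [smul_ite, smul_zero, sum_ite_mem, univ_inter] at h
  rw [h, ← univ_inter J, ← prod_ite_mem]
  refine prod_congr rfl fun j _ => ?_
  by_cases hj : j ∈ J <;> simp [hj]

theorem exc_dv [Fintype Γ] (p : unitInterval) (ψ : AddChar Γ ℂ) {n : ℕ} (J : Finset (Fin n))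
    (w : Fin n → Γ) :
    (mD (qt p) n).exc (fun ω => ψ (∑ j ∈ J, dv ω j • w j)) =
      ((∏ j ∈ J, (1 - lz p * (1 - (ψ (w j)).re)) : ℝ) : ℂ) := by
  have e : ∀ a b : Bv n, ψ (∑ j ∈ J, dv (a, b) j • w j) =
      ψ (∑ j ∈ J, sv 0 1 a j • w j) * ψ (∑ j ∈ J, sv 0 1 b j • (-w j)) := by
    intro a b
    rw [← AddChar.map_add_eq_mul, ← sum_add_distrib]
    congr 1
    refine sum_congr rfl fun j _ => ?_
    rw [dv, sub_smul, smul_neg, sub_eq_add_neg]
  rw [FP.exc_prod]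
  simp only [e, FP.exc_mul]
  rw [exc_J (qt p) ψ J fun j => -w j]
  simp only [mul_comm (ψ _) (∏ j ∈ J, _), FP.exc_mul]
  rw [exc_J, ← prod_mul_distrib, Complex.ofReal_prod]
  refine prod_congr rfl fun j _ => ?_
  have h1 := Complex.add_conj (ψ (w j))
  have h2 := Complex.mul_conj (ψ (w j))
  rw [Complex.normSq_eq_norm_sq, AddChar.norm_apply] at h2
  rw [AddChar.map_neg_eq_conj, qt_coe, lz]
  push_cast at h1 h2 ⊢
  linear_combination ((p : ℝ) : ℂ) / 4 * (1 - ((p : ℝ) : ℂ) / 4) * h1 +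
    (((p : ℝ) : ℂ) / 4) ^ 2 * h2

theorem fin_case [Fintype Γ] (p : unitInterval) {n : ℕ} (J : Finset (Fin n)) (w : Fin n → Γ)
    (b : Γ) (hp : (p : ℝ) ≤ 1 / 2) :
    (mB p n).pr (fun a => ∑ j ∈ J, sv 0 1 a j • w j = b) ≤ lk p J w (· = 0) := by
  have hc : (0 : ℝ) < Fintype.card Γ := Nat.cast_pos.2 Fintype.card_pos
  have h := pr_fourier (mB p n) (fun a : Bv n => ∑ j ∈ J, sv 0 1 a j • w j) b
  simp only [exc_J] at h
  have h2 := congrArg norm h
  rw [Complex.norm_real, Real.norm_eq_abs, norm_div, Complex.norm_natCast] at h2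
  refine (le_abs_self _).trans (h2.le.trans ?_)
  have k := pr_fourier (mD (qt p) n) (fun ω => ∑ j ∈ J, dv ω j • w j) 0
  simp only [exc_dv, neg_zero, AddChar.map_zero_eq_one, one_mul] at k
  have k2 : lk p J w (· = 0) =
      (∑ ψ : AddChar Γ ℂ, ∏ j ∈ J, (1 - lz p * (1 - (ψ (w j)).re))) / Fintype.card Γ := by
    apply Complex.ofReal_injective
    rw [lk, k]
    push_cast
    rfl
  rw [k2]
  refine div_le_div_of_nonneg_right ((norm_sum_le _ _).trans (sum_le_sum fun ψ _ => ?_)) hc.le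
  rw [norm_mul, AddChar.norm_apply, one_mul, norm_prod]
  refine prod_le_prod (fun _ _ => norm_nonneg _) fun j _ => ?_
  have a := norm_step_le (p := p) (AddChar.norm_apply ψ (w j))
  have b := (Complex.re_le_norm (ψ (w j))).trans (AddChar.norm_apply ψ (w j)).le
  have c := lz_le p
  have d : lz p ≤ (p : ℝ) * (1 - p) := by nlinarith [p.2.1]
  nlinarith

theorem tors (x : AddCircle (1 : ℚ)) : IsOfFinAddOrder x := by
  induction x using QuotientAddGroup.induction_on with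
  | H q =>
    rw [isOfFinAddOrder_iff_nsmul_eq_zero]
    refine ⟨q.den, q.den_pos, ?_⟩
    rw [← AddCircle.coe_nsmul, AddCircle.coe_eq_zero_iff]
    exact ⟨q.num, by simp⟩

end Walk1Aux

open Walk1Aux

theorem rWalk1 : RWalk1 := by
  intro p Γ _ n J w b hp
  by_cases hb : ∃ a0 : Bv n, ∑ j ∈ J, sv 0 1 a0 j • w j = b
  swap
  · rw [FP.pr_false fun a ha => hb ⟨a, ha⟩]
    exact FP.pr_nonneg _
  obtain ⟨a0, rfl⟩ := hb
  have hχ : ∀ ω : Bv n × Bv n, ∃ χ : Γ →+ AddCircle (1 : ℚ),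
      χ (∑ j ∈ J, dv ω j • w j) = 0 → ∑ j ∈ J, dv ω j • w j = 0 := by
    intro ω
    by_cases h : ∑ j ∈ J, dv ω j • w j = 0
    · exact ⟨0, fun _ => h⟩
    · obtain ⟨c, hc⟩ := CharacterModule.exists_character_apply_ne_zero_of_ne_zero h
      exact ⟨c, fun e => absurd e hc⟩
  choose χ hχ using hχ
  let π : Γ →+ (Bv n × Bv n → AddCircle (1 : ℚ)) := AddMonoidHom.pi χ
  let H := AddSubgroup.closure (Set.range fun j => π (w j))
  have hT : IsAddTorsion H := fun h =>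
    H.subtype_injective.isOfFinAddOrder_iff.1 (IsOfFinAddOrder.pi fun i => tors _)
  have : Finite H := AddCommGroup.finite_of_fg_isAddTorsion H hT
  have : Fintype H := Fintype.ofFinite H
  let w' : Fin n → H := fun j => ⟨π (w j), AddSubgroup.subset_closure ⟨j, rfl⟩⟩
  have e : ∀ v : Fin n → ℤ, ((∑ j ∈ J, v j • w' j : H) : Bv n × Bv n → AddCircle (1 : ℚ)) =
      π (∑ j ∈ J, v j • w j) := by
    intro v
    rw [map_sum, AddSubgroup.val_finsetSum]
    exact sum_congr rfl fun j _ => by rw [map_zsmul]; rfl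
  refine le_trans (FP.pr_mono fun a ha => ?_)
    ((fin_case p J w' (∑ j ∈ J, sv 0 1 a0 j • w' j) hp).trans (FP.pr_mono fun ω hω => ?_))
  · exact Subtype.ext (by rw [e, e, ha])
  · have h := congrFun ((e (dv ω)).symm.trans (congrArg Subtype.val hω)) ω
    exact hχ ω h

end Pool.Agent.P.MP_f57657_co.RS
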