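import Pool.Agent.P.MP_f57657_co.RS.Base

/-! The law of the lazy walk is positive definite. -/

open Finset

namespace Pool.Agent.P.MP_f57657_co.RS

open DG

namespace Walk2Aux

variable {Ω Γ : Type} [Fintype Ω] [AddCommGroup Γ] (μ : FP Ω) (S : Ω → Γ)

theorem key (F : Finset Γ) (g h : Γ) (hF : ∀ b, S b - h ∈ F) :
    ∑ v ∈ F, μ.pr (fun a => S a = v + g) * μ.pr (fun b => S b = v + h) =
      (μ.prod μ).pr fun ω => S ω.1 - S ω.2 = g - h := by
  classical
  have h1 : ∀ v, μ.pr (fun a => S a = v + g) * μ.pr (fun b => S b = v + h) =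
      μ.ex fun b => if v = S b - h then μ.pr (fun a => S a = v + g) else 0 := fun v => by
    rw [FP.pr.eq_1 μ fun b => S b = v + h, ← FP.ex_mul]
    refine FP.ex_congr fun b => ?_
    by_cases e : S b = v + h
    · simp [e]
    · rw [if_neg e, if_neg fun e' => e (by rw [e']; abel), mul_zero]
  simp only [h1]
  rw [← FP.ex_sum, FP.pr_prod']
  refine FP.ex_congr fun b => ?_
  rw [sum_ite_eq' F, if_pos (hF b)]
  refine FP.pr_congr fun a => ⟨fun e => by rw [e]; abel, fun e => ?_⟩
  rw [sub_eq_iff_eq_add] at e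
  rw [e]
  abel

theorem dist (F : Finset Γ) (g h : Γ) (hg : ∀ b, S b - g ∈ F) (hh : ∀ b, S b - h ∈ F) :
    ∑ v ∈ F, (μ.pr (fun a => S a = v + g) - μ.pr fun b => S b = v + h) ^ 2 =
      2 * (((μ.prod μ).pr fun ω => S ω.1 - S ω.2 = 0) -
        (μ.prod μ).pr fun ω => S ω.1 - S ω.2 = g - h) := by
  have a := key μ S F g g hg
  have b := key μ S F h h hh
  rw [sub_self] at a b
  rw [two_mul, ← key μ S F g h hh]
  nth_rewrite 1 [← a]
  rw [← b, ← sum_sub_distrib, ← sum_sub_distrib, ← sum_add_distrib]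
  exact sum_congr rfl fun v _ => by ring

theorem cover (g h k : Γ) :
    ∃ F : Finset Γ, (∀ b, S b - g ∈ F) ∧ (∀ b, S b - h ∈ F) ∧ ∀ b, S b - k ∈ F := by
  classical
  refine ⟨(univ.image fun b => S b - g) ∪ ((univ.image fun b => S b - h) ∪
    univ.image fun b => S b - k), fun b => ?_, fun b => ?_, fun b => ?_⟩ <;> simp

theorem low (F : Finset Γ) (hF : ∀ b, S b ∈ F) :
    1 ≤ (F.card : ℝ) * (μ.prod μ).pr fun ω => S ω.1 - S ω.2 = 0 := by
  have a := key μ S F 0 0 (by simpa using hF)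
  simp only [add_zero, sub_self] at a
  have b := FP.sum_pr_eq (μ := μ) S F
  rw [FP.pr_true hF] at b
  have c := sq_sum_le_card_mul_sum_sq (s := F) (f := fun v => μ.pr fun a => S a = v)
  rw [b] at c
  simpa only [sq, a, mul_one] using c

end Walk2Aux

open Walk2Aux

theorem rWalk2 : RWalk2 := by
  intro p Γ _ n J w
  set μ := mB (qt p) n
  let S : Bv n → Γ := fun a => ∑ j ∈ J, sv 0 1 a j • w j
  have e : ∀ g, lk p J w (· = g) = (μ.prod μ).pr fun ω => S ω.1 - S ω.2 = g := fun g => by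
    refine FP.pr_congr fun ω => ?_
    simp only [S, dv, sub_smul, sum_sub_distrib]
  simp only [e]
  refine ⟨?_, fun g => ?_, fun g => ?_, fun g h => ?_, ?_⟩
  · obtain ⟨F, hF, -⟩ := cover S 0 0 0
    have := low μ S F (by simpa using hF)
    by_contra hc
    nlinarith [(Nat.cast_nonneg F.card : (0 : ℝ) ≤ _)]
  · obtain ⟨F, h1, h2, -⟩ := cover S g 0 0
    have a := dist μ S F g 0 h1 h2
    have b := sum_nonneg fun v (_ : v ∈ F) =>
      sq_nonneg (μ.pr (fun a => S a = v + g) - μ.pr fun b => S b = v + 0)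
    rw [sub_zero] at a
    linarith
  · obtain ⟨F, h1, h2, -⟩ := cover S g 0 0
    have a := key μ S F g 0 h2
    have b := key μ S F 0 g h1
    rw [sub_zero] at a
    rw [zero_sub] at b
    rw [← a, ← b]
    exact sum_congr rfl fun v _ => mul_comm _ _
  · obtain ⟨F, h1, h2, h3⟩ := cover S (g + h) h 0
    have a := dist μ S F (g + h) 0 h1 h3
    have b := dist μ S F (g + h) h h1 h2
    have c := dist μ S F h 0 h2 h3
    rw [sub_zero] at a c
    rw [add_sub_cancel_right] at b
    have d : ∑ v ∈ F, (μ.pr (fun a => S a = v + (g + h)) - μ.pr fun b => S b = v + 0) ^ 2 ≤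
        2 * ∑ v ∈ F, (μ.pr (fun a => S a = v + (g + h)) - μ.pr fun b => S b = v + h) ^ 2 +
        2 * ∑ v ∈ F, (μ.pr (fun a => S a = v + h) - μ.pr fun b => S b = v + 0) ^ 2 := by
      rw [mul_sum, mul_sum, ← sum_add_distrib]
      refine sum_le_sum fun v _ => ?_
      nlinarith [sq_nonneg (μ.pr (fun a => S a = v + (g + h)) -
        2 * μ.pr (fun b => S b = v + h) + μ.pr fun b => S b = v + 0)]
    linarith
  · intro _
    have : (0 : ℝ) < Fintype.card Γ := Nat.cast_pos.2 Fintype.card_pos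
    rw [div_le_iff₀' this]
    exact low μ S univ fun _ => mem_univ _

end Pool.Agent.P.MP_f57657_co.RS
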