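import Pool.Agent.P.MP_f57657_co.RS.Base

/-! Adding one step to the lazy walk, and the choice of a good set of steps. -/

open Finset

namespace Pool.Agent.P.MP_f57657_co.RS

open DG

namespace Walk3Aux

theorem upd {r : unitInterval} {n : ℕ} (j : Fin n) (f : Bv n → ℝ) :
    (mB r n).ex f = (mB r n).ex fun a =>
      (r : ℝ) * f (Function.update a j true) + (1 - r) * f (Function.update a j false) := by
  rw [bits_mix {j}]
  refine FP.ex_congr fun a => ?_
  have h := bits_prod (p := r) {j} fun _ b => f (Function.update a j b)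
  simp only [prod_singleton] at h
  rw [← h]
  refine FP.ex_congr fun a' => congrArg f ?_
  funext i
  by_cases e : i = j
  · subst e
    simp [mix]
  · simp [mix, e]

variable {p : unitInterval} {Γ : Type} [AddCommGroup Γ] {n : ℕ}

theorem step (J : Finset (Fin n)) (w : Fin n → Γ) {j : Fin n} (hj : j ∉ J) :
    lk p (insert j J) w (· = 0) = (1 - lz p) * lk p J w (· = 0) +
      lz p / 2 * (lk p J w (· = -w j) + lk p J w (· = w j)) := by
  classical
  have h : ∀ (a b : Bv n) (x y : Bool),
      ∑ i ∈ insert j J, dv (Function.update a j x, Function.update b j y) i • w i =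
        ((if x = true then 1 else 0) - (if y = true then 1 else 0) : ℤ) • w j +
          ∑ i ∈ J, dv (a, b) i • w i := fun a b x y => by
    rw [sum_insert hj]
    congr 1
    · simp [dv, sv]
    · refine sum_congr rfl fun i hi => ?_
      have : i ≠ j := fun e => hj (e ▸ hi)
      simp [dv, sv, this]
  simp only [lk, FP.pr, FP.ex_prod]
  rw [upd j]
  simp only [← FP.ex_mul, ← FP.ex_add]
  refine FP.ex_congr fun a => ?_
  rw [upd j]
  refine FP.ex_congr fun b => ?_
  simp only [h, qt_coe, lz]
  simp only [if_true, Bool.false_eq_true, if_false, sub_self, zero_smul, zero_add, sub_zero,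
    one_smul, zero_sub, neg_smul, add_eq_zero_iff_eq_neg', neg_neg]
  ring

theorem lz_lt (p : unitInterval) : lz p ≤ 1 / 2 := (lz_le p).trans (by linarith [p.2.2])

theorem empty (w : Fin n → Γ) : lk p ∅ w (· = 0) = 1 := FP.pr_true fun _ => by simp

end Walk3Aux

open Walk3Aux

theorem rWalk3 (hW2 : RWalk2) : RWalk3 := by
  intro p Γ _ n J w
  have l0 := lz_nonneg p
  have l1 := lz_lt p
  have a : ∀ (J : Finset (Fin n)) j, j ∉ J → lk p (insert j J) w (· = 0) =
      (1 - lz p) * lk p J w (· = 0) + lz p * lk p J w (· = w j) := fun J j hj => by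
    rw [step J w hj, (hW2 p Γ n J w).2.2.1]
    ring
  refine ⟨a J, fun J' h => ?_, ?_⟩
  · have c : ∀ D : Finset (Fin n), lk p (D ∪ J) w (· = 0) ≤ lk p J w (· = 0) := fun D => by
      induction D using Finset.induction_on with
      | empty => simp
      | insert j D _ ih =>
        rw [insert_union]
        by_cases hj : j ∈ D ∪ J
        · rwa [insert_eq_of_mem hj]
        · rw [a _ j hj]
          nlinarith [(hW2 p Γ n (D ∪ J) w).2.1 (w j)]
    simpa only [union_eq_left.2 h] using c J'
  · have b : ∀ J : Finset (Fin n), (1 - lz p) ^ J.card ≤ lk p J w (· = 0) := fun J => by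
      induction J using Finset.induction_on with
      | empty => simp [empty]
      | insert j J hj ih =>
        rw [a J j hj, card_insert_of_notMem hj, pow_succ]
        have : 0 ≤ lk p J w (· = w j) := FP.pr_nonneg _
        nlinarith
    induction J using Finset.induction_on with
    | empty => simp [empty]
    | insert j J hj ih =>
      intro h
      have h1 := ih fun i hi => h i (mem_insert_of_mem hi)
      have h2 : lk p J w (· = w j) ≤ 1 - lk p J w (· = 0) := by
        rw [lk, lk, ← FP.pr_not]
        exact FP.pr_mono fun ω e e' => h j (mem_insert_self _ _) (e.symm.trans e')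
      have h3 : (J.card : ℝ) * ((1 - lz p) * (1 - lz p) ^ (J.card - 1)) =
          J.card * (1 - lz p) ^ J.card := by
        rcases J.card with _ | s
        · simp
        · simp [pow_succ']
      have h4 := mul_le_mul_of_nonneg_left h1 (show 0 ≤ 1 - lz p by linarith)
      have h5 := mul_le_mul_of_nonneg_left (h2.trans (sub_le_sub_left (b J) 1)) l0
      rw [a J j hj, card_insert_of_notMem hj, Nat.add_sub_cancel]
      push_cast
      have h6 := congrArg (lz p * ·) h3
      nlinarith

theorem rSel (hW3 : RWalk3) : RSel := by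
  intro p t Γ _ n w h
  rcases p.2.1.eq_or_lt with e | e
  · exact ⟨univ, by rw [← e, zero_mul]; positivity, h, fun i hi => absurd (mem_univ i) hi⟩
  have l0 : 0 < lz p := lt_of_lt_of_le (by linarith) (le_lz p)
  have l1 := lz_lt p
  set ρ : ℝ := 1 - lz p / 10000 with hρ
  have r0 : 0 < ρ := by linarith
  obtain ⟨J, -, hJ⟩ := exists_min_image (univ : Finset (Finset (Fin n)))
    (fun J => lk p J w (· = 0) / ρ ^ J.card) univ_nonempty
  have h1 : (1 / 2 : ℝ) ^ t ≤ lk p J w (· = 0) :=
    h.trans ((hW3 p Γ n J w).2.1 univ (subset_univ J))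
  refine ⟨J, ?_, h1, fun i hi => ?_⟩
  · have h2 := hJ ∅ (mem_univ _)
    rw [empty, card_empty, pow_zero, div_one, div_le_one (by positivity)] at h2
    have h3 : ρ ^ J.card ≤ Real.exp (-(lz p / 10000) * J.card) := by
      rw [mul_comm, Real.exp_nat_mul]
      exact pow_le_pow_left₀ r0.le (by linarith [Real.add_one_le_exp (-(lz p / 10000))]) _
    have h4 : (1 / 2 : ℝ) ^ t = Real.exp (-Real.log 2 * t) := by
      rw [mul_comm, Real.exp_nat_mul, Real.exp_neg, Real.exp_log two_pos, one_div]
    have h5 := Real.exp_le_exp.1 (h4.symm.le.trans (h1.trans (h2.trans h3)))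
    have h6 := mul_le_mul_of_nonneg_right (le_lz p) (Nat.cast_nonneg J.card : (0 : ℝ) ≤ _)
    have h7 := mul_le_mul_of_nonneg_right Real.log_two_lt_d9.le (Nat.cast_nonneg t : (0 : ℝ) ≤ _)
    have h8 : (0 : ℝ) ≤ t := Nat.cast_nonneg t
    nlinarith
  · have h2 := hJ (insert i J) (mem_univ _)
    rw [(hW3 p Γ n J w).1 i hi, card_insert_of_notMem hi, pow_succ,
      div_le_div_iff₀ (by positivity) (by positivity), ← mul_assoc, mul_right_comm,
      mul_le_mul_iff_left₀ (by positivity)] at h2
    refine le_of_mul_le_mul_left ?_ l0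
    rw [hρ] at h2
    linarith

end Pool.Agent.P.MP_f57657_co.RS
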