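import Pool.Agent.P.MP_f57657_co.RS.Main
import Pool.Agent.P.MP_f57657_co.RS.Fin
import Pool.Agent.P.MP_f57657_co.RS.Walk1
import Pool.Agent.P.MP_f57657_co.RS.Walk2
import Pool.Agent.P.MP_f57657_co.RS.Walk3
import Pool.Agent.P.MP_f57657_co.RS.Gen
import Pool.Agent.P.MP_f57657_co.RS.Lat
import Pool.Agent.P.MP_f57657_co.RS.Lift
import Pool.Agent.P.MP_f57657_co.RS.Dich
import Pool.Agent.P.MP_f57657_co.RS.Case
import Pool.Agent.P.MP_f57657_co.RS.Menu
import Pool.Agent.P.MP_f57657_co.RS.Cnt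
import Pool.Agent.P.MP_f57657_co.RS.Sum
import Pool.Agent.P.MP_f57657_co.RS.Exp1
import Pool.Agent.P.MP_f57657_co.RS.Exp2
import Pool.Agent.P.MP_f57657_co.RS.Master
import Pool.Agent.P.MP_f57657_co.RS.AC
import Pool.Agent.P.MP_f57657_co.RS.Lin
import Pool.Agent.P.MP_f57657_co.RS.Dec
import Pool.Agent.P.MP_f57657_co.RS.EQ
import Pool.Agent.P.MP_f57657_co.RS.FI
import Pool.Agent.P.MP_f57657_co.RS.Pot
import Pool.Agent.P.MP_f57657_co.RS.Reg
import Pool.Agent.P.MP_f57657_co.RS.Q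
import Pool.Agent.P.MP_f57657_co.RS.Jac
import Pool.Agent.P.MP_f57657_co.RS.Ev2
import Pool.Agent.P.MP_f57657_co.RS.Int
import Pool.Agent.P.MP_f57657_co.RS.Lev
import Pool.Agent.P.MP_f57657_co.RS.Ring
import Pool.Agent.P.MP_f57657_co.RS.Par
import Pool.Agent.P.MP_f57657_co.RS.Core
import Pool.Agent.P.MP_f57657_co.RS.Coarse
import Pool.Agent.P.MP_f57657_co.RS.Large
import Pool.Agent.P.MP_f57657_co.RS.Root
import Pool.Agent.P.MP_f57657_co.RS.Mq
import Pool.Agent.P.MP_f57657_co.RS.Xq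
import Pool.Agent.P.MP_f57657_co.RS.MedA
import Pool.Agent.P.MP_f57657_co.RS.MedB
import Pool.Agent.P.MP_f57657_co.RS.Two
import Pool.Agent.P.MP_f57657_co.RS.Mid
import Pool.Agent.P.MP_f57657_co.RS.Va
import Pool.Agent.P.MP_f57657_co.RS.Vb
import Pool.Agent.P.MP_f57657_co.RS.Vc
import Pool.Agent.P.MP_f57657_co.RS.Vw
import Pool.Agent.P.MP_f57657_co.RS.Small

/-! All the packages together. -/

namespace Pool.Agent.P.MP_f57657_co.RS

theorem aW3 : RWalk3 := rWalk3 rWalk2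

theorem aMaster : RMaster :=
  rMaster (rSel aW3) (rLat rGen) (rMenu aW3 rTail rLift (rDich rWalk2 aW3) rChar rCase)
    (rCnt rWalk1 rGen) rSum rExp1 rExp2

theorem aGd : RGd := rGd aMaster (rAC rWalk1) (rLin rWalk2) (rEQ aMaster rDec rWalk2)

theorem aMq : RMq := rMq rFI rRing

theorem aA : RMedA := rMedA aGd rPot aMq

theorem aMain : RMain :=
  rMain rQ (rInt rJac) rLev (rCoarse rCore) (rRoot (rLarge aGd rDisc2))
    (rMid (rMed aGd aA (rMedB aGd aA aMq rEv2) aMq) (rTwo aGd rPot (rXq rFI rRing)))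
    (rSmall aGd (rReg aGd) (rVa rFI rJac) (rVb rFI) (rVc rFI rJac) (rVw rFI) rJac)

end Pool.Agent.P.MP_f57657_co.RS
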