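import Pool.Agent.P.MP_f57657_co.RS.Defs

/-! Basic facts on finite probability spaces, biased bits and the binomial random graph. -/

open Matrix Finset Polynomial

namespace Pool.Agent.P.MP_f57657_co.RS

open DG DG.RowAux

namespace FP

variable {Ω Ω' : Type} [Fintype Ω] [Fintype Ω'] {μ : FP Ω} {ν : FP Ω'}

theorem ex_mono {f g : Ω → ℝ} (h : ∀ ω, f ω ≤ g ω) : μ.ex f ≤ μ.ex g :=
  sum_le_sum fun ω _ => mul_le_mul_of_nonneg_left (h ω) (μ.nn ω)

theorem ex_nonneg {f : Ω → ℝ} (h : ∀ ω, 0 ≤ f ω) : 0 ≤ μ.ex f :=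
  sum_nonneg fun ω _ => mul_nonneg (μ.nn ω) (h ω)

theorem ex_congr {f g : Ω → ℝ} (h : ∀ ω, f ω = g ω) : μ.ex f = μ.ex g :=
  congrArg μ.ex (funext h)

theorem ex_add (f g : Ω → ℝ) : μ.ex (fun ω => f ω + g ω) = μ.ex f + μ.ex g := by
  simp only [ex, mul_add, sum_add_distrib]

theorem ex_sub (f g : Ω → ℝ) : μ.ex (fun ω => f ω - g ω) = μ.ex f - μ.ex g := by
  simp only [ex, mul_sub, sum_sub_distrib]

theorem ex_mul (c : ℝ) (f : Ω → ℝ) : μ.ex (fun ω => c * f ω) = c * μ.ex f := by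
  simp only [ex, mul_sum]
  exact sum_congr rfl fun _ _ => by ring

theorem ex_sum {τ : Type*} (T : Finset τ) (f : τ → Ω → ℝ) :
    μ.ex (fun ω => ∑ t ∈ T, f t ω) = ∑ t ∈ T, μ.ex (f t) := by
  simp only [ex, mul_sum]
  rw [sum_comm]

theorem ex_const (c : ℝ) : μ.ex (fun _ => c) = c := by
  rw [ex, ← sum_mul, μ.tot, one_mul]

theorem ex_le_const {f : Ω → ℝ} {c : ℝ} (h : ∀ ω, f ω ≤ c) : μ.ex f ≤ c :=
  (ex_mono h).trans (ex_const c).le

theorem ex_prod (f : Ω × Ω' → ℝ) : (μ.prod ν).ex f = μ.ex fun a => ν.ex fun b => f (a, b) := by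
  simp only [ex, prod, Fintype.sum_prod_type, mul_sum, mul_assoc]

theorem ex_comm (f : Ω → Ω' → ℝ) :
    (μ.ex fun a => ν.ex fun b => f a b) = ν.ex fun b => μ.ex fun a => f a b := by
  simp only [ex, mul_sum]
  rw [sum_comm]
  exact sum_congr rfl fun _ _ => sum_congr rfl fun _ _ => by ring

theorem ex_map (f : Ω → Ω') (g : Ω' → ℝ) : (μ.map f).ex g = μ.ex fun ω => g (f ω) := by
  classical
  simp only [ex, map, sum_mul]
  rw [sum_comm]
  refine sum_congr rfl fun a _ => ?_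
  simp

/-- A weight preserving bijection. -/
theorem ex_equiv (e : Ω ≃ Ω') (h : ∀ ω, ν.w (e ω) = μ.w ω) (f : Ω' → ℝ) :
    μ.ex (fun ω => f (e ω)) = ν.ex f := by
  rw [ex, ex, ← Equiv.sum_comp e]
  exact sum_congr rfl fun ω _ => by rw [h]

theorem exc_congr {f g : Ω → ℂ} (h : ∀ ω, f ω = g ω) : μ.exc f = μ.exc g :=
  congrArg μ.exc (funext h)

theorem exc_mul (c : ℂ) (f : Ω → ℂ) : μ.exc (fun ω => c * f ω) = c * μ.exc f := by
  simp only [exc, mul_sum]
  exact sum_congr rfl fun _ _ => by ring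

theorem exc_sum {τ : Type*} (T : Finset τ) (f : τ → Ω → ℂ) :
    μ.exc (fun ω => ∑ t ∈ T, f t ω) = ∑ t ∈ T, μ.exc (f t) := by
  simp only [exc, mul_sum]
  rw [sum_comm]

theorem exc_ofReal (f : Ω → ℝ) : μ.exc (fun ω => (f ω : ℂ)) = (μ.ex f : ℝ) := by
  simp only [exc, ex, Complex.ofReal_sum, Complex.ofReal_mul]

theorem exc_prod (f : Ω × Ω' → ℂ) :
    (μ.prod ν).exc f = μ.exc fun a => ν.exc fun b => f (a, b) := by
  simp only [exc, prod, Fintype.sum_prod_type, mul_sum, Complex.ofReal_mul, mul_assoc]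

theorem exc_re (f : Ω → ℂ) : (μ.exc f).re = μ.ex fun ω => (f ω).re := by
  simp [exc, ex, Complex.re_sum]

theorem exc_im (f : Ω → ℂ) : (μ.exc f).im = μ.ex fun ω => (f ω).im := by
  simp [exc, ex, Complex.im_sum]

theorem norm_exc_le (f : Ω → ℂ) : ‖μ.exc f‖ ≤ μ.ex fun ω => ‖f ω‖ :=
  (norm_sum_le _ _).trans (sum_le_sum fun ω _ => by
    rw [norm_mul, Complex.norm_real, Real.norm_of_nonneg (μ.nn ω)])

theorem pr_nonneg (E : Ω → Prop) : 0 ≤ μ.pr E := ex_nonneg fun _ => by split_ifs <;> norm_num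

theorem pr_le_one (E : Ω → Prop) : μ.pr E ≤ 1 := ex_le_const fun _ => by split_ifs <;> norm_num

theorem pr_le_ex {E : Ω → Prop} {f : Ω → ℝ} (h0 : ∀ ω, 0 ≤ f ω) (h1 : ∀ ω, E ω → 1 ≤ f ω) :
    μ.pr E ≤ μ.ex f :=
  ex_mono fun ω => by
    split_ifs with h
    exacts [h1 ω h, h0 ω]

theorem pr_mono {E F : Ω → Prop} (h : ∀ ω, E ω → F ω) : μ.pr E ≤ μ.pr F :=
  pr_le_ex (fun _ => by split_ifs <;> norm_num) fun ω hω => by rw [if_pos (h ω hω)]

theorem pr_congr {E F : Ω → Prop} (h : ∀ ω, E ω ↔ F ω) : μ.pr E = μ.pr F :=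
  le_antisymm (pr_mono fun ω => (h ω).1) (pr_mono fun ω => (h ω).2)

theorem pr_false {E : Ω → Prop} (h : ∀ ω, ¬ E ω) : μ.pr E = 0 := by
  simp [pr, ex, h]

theorem pr_true {E : Ω → Prop} (h : ∀ ω, E ω) : μ.pr E = 1 := by
  simpa [pr, h] using ex_const (μ := μ) 1

theorem exists_of_pr_pos {E : Ω → Prop} (h : 0 < μ.pr E) : ∃ ω, E ω := by
  by_contra hc
  rw [pr_false fun ω hω => hc ⟨ω, hω⟩] at h
  exact lt_irrefl _ h

theorem pr_le_add {E F F' : Ω → Prop} (h : ∀ ω, E ω → F ω ∨ F' ω) :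
    μ.pr E ≤ μ.pr F + μ.pr F' := by
  rw [pr, pr, pr, ← ex_add]
  refine ex_mono fun ω => ?_
  have := h ω
  by_cases a : E ω <;> by_cases b : F ω <;> by_cases c : F' ω <;> simp_all

theorem pr_or (E F : Ω → Prop) : μ.pr (fun ω => E ω ∨ F ω) ≤ μ.pr E + μ.pr F :=
  pr_le_add fun _ h => h

theorem pr_not (E : Ω → Prop) : μ.pr (fun ω => ¬ E ω) = 1 - μ.pr E := by
  rw [eq_sub_iff_add_eq, pr, pr, ← ex_add]
  refine Eq.trans (ex_congr fun ω => ?_) (ex_const 1)
  by_cases h : E ω <;> simp [h]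

/-- Union bound. -/
theorem pr_le_sum {τ : Type*} (T : Finset τ) {E : Ω → Prop} (F : τ → Ω → Prop)
    (h : ∀ ω, E ω → ∃ t ∈ T, F t ω) : μ.pr E ≤ ∑ t ∈ T, μ.pr (F t) := by
  simp only [pr]
  rw [← ex_sum]
  refine pr_le_ex (fun ω => sum_nonneg fun _ _ => by split_ifs <;> norm_num) fun ω hω => ?_
  obtain ⟨t, ht, hF⟩ := h ω hω
  refine le_trans ?_ (single_le_sum (fun _ _ => by split_ifs <;> norm_num) ht)
  rw [if_pos hF]

theorem pr_le_card_mul {τ : Type*} (T : Finset τ) {E : Ω → Prop} (F : τ → Ω → Prop) {c : ℝ}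
    (h : ∀ ω, E ω → ∃ t ∈ T, F t ω) (hc : ∀ t ∈ T, μ.pr (F t) ≤ c) : μ.pr E ≤ T.card * c :=
  (pr_le_sum T F h).trans (by simpa using sum_le_card_nsmul T _ c hc)

/-- The values of a random variable are disjoint events. -/
theorem sum_pr_eq {Γ : Type*} (Z : Ω → Γ) (F : Finset Γ) :
    ∑ g ∈ F, μ.pr (fun ω => Z ω = g) = μ.pr fun ω => Z ω ∈ F := by
  classical
  simp only [pr]
  rw [← ex_sum]
  refine ex_congr fun ω => ?_
  simp

/-- Markov inequality. -/
theorem pr_markov {E : Ω → Prop} {f : Ω → ℝ} {c : ℝ} (hc : 0 < c) (h0 : ∀ ω, 0 ≤ f ω)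
    (h1 : ∀ ω, E ω → c ≤ f ω) : μ.pr E ≤ μ.ex f / c := by
  rw [div_eq_inv_mul, ← ex_mul]
  exact pr_le_ex (fun ω => mul_nonneg (inv_nonneg.2 hc.le) (h0 ω)) fun ω hω => by
    rw [← div_eq_inv_mul, le_div_iff₀ hc, one_mul]
    exact h1 ω hω

theorem pr_map (f : Ω → Ω') (E : Ω' → Prop) : (μ.map f).pr E = μ.pr fun ω => E (f ω) :=
  ex_map f _

theorem pr_equiv (e : Ω ≃ Ω') (h : ∀ ω, ν.w (e ω) = μ.w ω) (E : Ω' → Prop) :
    μ.pr (fun ω => E (e ω)) = ν.pr E := by
  classical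
  exact ex_equiv e h fun ω => if E ω then 1 else 0

theorem pr_prod (E : Ω × Ω' → Prop) :
    (μ.prod ν).pr E = μ.ex fun a => ν.pr fun b => E (a, b) := ex_prod _

theorem pr_prod' (E : Ω × Ω' → Prop) :
    (μ.prod ν).pr E = ν.ex fun b => μ.pr fun a => E (a, b) := (ex_prod _).trans (ex_comm _)

theorem ex_fst (f : Ω → ℝ) : (μ.prod ν).ex (fun ω => f ω.1) = μ.ex f := by
  rw [ex_prod]
  exact ex_congr fun a => ex_const (f a)

theorem pr_fst (F : Ω → Prop) : (μ.prod ν).pr (fun ω => F ω.1) = μ.pr F := by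
  classical
  exact ex_fst fun a => if F a then 1 else 0

/-- Conditioning on the first coordinate, outside a bad set. -/
theorem pr_prod_le {E : Ω × Ω' → Prop} (F D : Ω → Prop) {c : ℝ} (hc : 0 ≤ c)
    (h1 : ∀ ω, E ω → F ω.1) (h2 : ∀ a, D a → F a → ν.pr (fun b => E (a, b)) ≤ c) :
    (μ.prod ν).pr E ≤ c * μ.pr F + μ.pr fun a => ¬ D a := by
  rw [pr_prod, pr, pr, ← ex_mul, ← ex_add]
  refine ex_mono fun a => ?_
  by_cases hF : F a
  · by_cases hG : D a
    · simpa [hF, hG] using h2 a hG hF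
    · have := pr_le_one (μ := ν) fun b => E (a, b)
      simp only [hF, hG, if_true, not_false_eq_true]
      linarith
  · rw [pr_false fun b hb => hF (h1 _ hb)]
    split_ifs <;> norm_num

theorem pr_prod_le' {E : Ω × Ω' → Prop} (D : Ω → Prop) {c : ℝ} (hc : 0 ≤ c)
    (h2 : ∀ a, D a → ν.pr (fun b => E (a, b)) ≤ c) :
    (μ.prod ν).pr E ≤ c + μ.pr fun a => ¬ D a := by
  have := pr_prod_le (μ := μ) (E := E) (fun _ => True) D hc (fun _ _ => trivial)
    fun a h _ => h2 a h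
  rwa [pr_true fun _ => trivial, mul_one] at this

end FP

section Bits

variable {p : unitInterval} {ι κ : Type} [Fintype ι] [DecidableEq ι] [Fintype κ] [DecidableEq κ]

theorem bits_w (ω : ι → Bool) :
    (bits p ι).w ω = ∏ e, if ω e = true then (p : ℝ) else 1 - p := rfl

theorem bits_ex (f : (ι → Bool) → ℝ) : (bits p ι).ex f = Ex p f := rfl

theorem bits_pr (E : (ι → Bool) → Prop) : (bits p ι).pr E = Pr p E := rfl

/-- Expectation of a product over the coordinates. -/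
theorem bits_prod (D : Finset ι) (h : ι → Bool → ℝ) :
    (bits p ι).ex (fun ω => ∏ e ∈ D, h e (ω e)) =
      ∏ e ∈ D, ((p : ℝ) * h e true + (1 - p) * h e false) := Ex_prod D h

theorem bits_prodc (h : ι → Bool → ℂ) :
    (bits p ι).exc (fun ω => ∏ e, h e (ω e)) =
      ∏ e, (((p : ℝ) : ℂ) * h e true + (1 - ((p : ℝ) : ℂ)) * h e false) := by
  have := Finset.prod_univ_sum (fun _ : ι => (univ : Finset Bool))
    fun e b => ((if b = true then (p : ℝ) else 1 - p : ℝ) : ℂ) * h e b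
  rw [Fintype.piFinset_univ] at this
  simp only [FP.exc, bits_w, Complex.ofReal_prod, ← prod_mul_distrib]
  rw [← this]
  exact prod_congr rfl fun e _ => by simp

/-- Expectation of a product over the coordinates of two rows. -/
theorem bits_prod2 (D : Finset ι) (h : ι → Bool → Bool → ℝ) :
    ((bits p ι).prod (bits p ι)).ex (fun ω => ∏ e ∈ D, h e (ω.1 e) (ω.2 e)) =
      ∏ e ∈ D, ((p : ℝ) * ((p : ℝ) * h e true true + (1 - p) * h e true false) +
        (1 - p) * ((p : ℝ) * h e false true + (1 - p) * h e false false)) := by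
  rw [FP.ex_prod]
  exact (FP.ex_congr fun a : ι → Bool => bits_prod D fun e b => h e (a e) b).trans
    (bits_prod D fun e a => (p : ℝ) * h e a true + (1 - p) * h e a false)

theorem bits_sum (F : (ι → Bool) → (κ → Bool) → ℝ) :
    (bits p (ι ⊕ κ)).ex (fun ω => F (fun i => ω (Sum.inl i)) fun k => ω (Sum.inr k)) =
      (bits p ι).ex fun a => (bits p κ).ex fun b => F a b := by
  rw [← FP.ex_prod fun ω : (ι → Bool) × (κ → Bool) => F ω.1 ω.2]
  exact FP.ex_equiv (Equiv.sumArrowEquivProdArrow ι κ Bool) (fun ω => by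
    simp only [FP.prod, bits_w, Fintype.prod_sum_type]
    rfl) fun ω => F ω.1 ω.2

theorem bits_equiv (e : κ ≃ ι) (F : (κ → Bool) → ℝ) :
    (bits p ι).ex (fun ω => F fun k => ω (e k)) = (bits p κ).ex F :=
  FP.ex_equiv (Equiv.arrowCongr e.symm (Equiv.refl Bool)) (fun ω => by
    simp only [bits_w]
    exact Equiv.prod_comp e fun i => if ω i = true then (p : ℝ) else 1 - p) F

/-- The bits along an injection are independent bits. -/
theorem bits_inj {f : κ → ι} (hf : Function.Injective f) (F : (κ → Bool) → ℝ) :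
    (bits p ι).ex (fun ω => F fun k => ω (f k)) = (bits p κ).ex F := by
  classical
  let e : κ ⊕ {i // i ∉ Set.range f} ≃ ι :=
    ((Equiv.ofInjective f hf).sumCongr (Equiv.refl _)).trans (Equiv.sumCompl _)
  have h1 := bits_equiv (p := p) e fun ω => F fun k => ω (Sum.inl k)
  have h2 := bits_sum (p := p) (κ := {i // i ∉ Set.range f}) fun a _ => F a
  exact h1.trans (h2.trans (FP.ex_congr fun a => FP.ex_const _))

/-- Resampling the coordinates in `D`. -/
theorem bits_mix (D : Finset ι) (f : (ι → Bool) → ℝ) :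
    (bits p ι).ex f = (bits p ι).ex fun ω => (bits p ι).ex fun ω' => f (mix D ω ω') :=
  Ex_mix D f

theorem lz_nonneg (p : unitInterval) : 0 ≤ lz p := by
  have := p.2.1
  have := p.2.2
  unfold lz
  nlinarith

theorem lz_le (p : unitInterval) : lz p ≤ (p : ℝ) / 2 := by
  have := p.2.1
  unfold lz
  nlinarith

theorem le_lz (p : unitInterval) : 3 / 8 * (p : ℝ) ≤ lz p := by
  have := p.2.1
  have := p.2.2
  unfold lz
  nlinarith

theorem le_lz' (hp : (p : ℝ) ≤ 1 / 2) : 7 / 16 * (p : ℝ) ≤ lz p := by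
  have := p.2.1
  unfold lz
  nlinarith

theorem qt_coe (p : unitInterval) : (qt p : ℝ) = p / 4 := rfl

theorem dv_cases {n : ℕ} (ω : Bv n × Bv n) (j : Fin n) :
    dv ω j = 0 ∨ dv ω j = 1 ∨ dv ω j = -1 := by
  unfold dv sv
  split_ifs <;> simp

/-- Average of a character over a random row. -/
theorem exc_char {Γ : Type} [AddCommGroup Γ] (ψ : AddChar Γ ℂ) {n : ℕ} (w : Fin n → Γ) :
    (mB p n).exc (fun s => ψ (∑ i, sv 0 1 s i • w i)) =
      ∏ i, (1 - ((p : ℝ) : ℂ) + ((p : ℝ) : ℂ) * ψ (w i)) := by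
  simp only [char_sum]
  rw [bits_prodc fun i b => if b = true then ψ (w i) else 1]
  exact prod_congr rfl fun i _ => by simp [add_comm]

theorem norm_step_le {z : ℂ} (hz : ‖z‖ = 1) :
    ‖1 - ((p : ℝ) : ℂ) + ((p : ℝ) : ℂ) * z‖ ≤ 1 - (p : ℝ) * (1 - p) * (1 - z.re) := by
  have h0 := p.2.1
  have h1 := p.2.2
  have h2 : z.re ^ 2 + z.im ^ 2 = 1 := by
    have := Complex.sq_norm z
    rw [hz, Complex.normSq_apply] at this
    nlinarith
  have h3 : -1 ≤ z.re := by nlinarith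
  have h4 : (p : ℝ) * (1 - p) ≤ 1 / 4 := by nlinarith [sq_nonneg ((p : ℝ) - 1 / 2)]
  have h5 : 0 ≤ (p : ℝ) * (1 - p) := by nlinarith
  refine abs_le_of_sq_le_sq' ?_ (by nlinarith) |>.2
  rw [Complex.sq_norm, Complex.normSq_apply]
  simp only [Complex.add_re, Complex.sub_re, Complex.one_re, Complex.ofReal_re, Complex.mul_re,
    Complex.ofReal_im, zero_mul, sub_zero, Complex.add_im, Complex.sub_im, Complex.one_im,
    Complex.mul_im, add_zero, sub_self, zero_add]
  nlinarith [sq_nonneg ((p : ℝ) * (1 - p) * (1 - z.re))]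

theorem far_prod {Γ : Type} [AddCommGroup Γ] [Fintype Γ] {ψ : AddChar Γ ℂ} {n : ℕ}
    {w : Fin n → Γ} (hp : (p : ℝ) ≤ 1 / 2) (h : Far ψ w) (I : Finset (Fin n)) :
    ∏ i ∈ Iᶜ, ‖1 - ((p : ℝ) : ℂ) + ((p : ℝ) : ℂ) * ψ (w i)‖ ≤
      (1 - (p : ℝ) / 4) ^ (n / 2000 - I.card) := by
  classical
  have h0 := p.2.1
  set F := (univ.filter fun i => (ψ (w i)).re ≤ 1 / 2) \ I with hF
  have h1 : n / 2000 - I.card ≤ F.card := by
    have := le_card_sdiff I (univ.filter fun i => (ψ (w i)).re ≤ 1 / 2)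
    rw [← hF] at this
    unfold Far at h
    omega
  have h2 : F ⊆ Iᶜ := fun i hi => mem_compl.2 (mem_sdiff.1 hi).2
  have h5 : 0 ≤ (p : ℝ) * (1 - p) := by nlinarith
  have h3 : ∀ i, ‖1 - ((p : ℝ) : ℂ) + ((p : ℝ) : ℂ) * ψ (w i)‖ ≤ 1 := fun i => by
    have a := norm_step_le (p := p) (AddChar.norm_apply ψ (w i))
    have b := (Complex.re_le_norm (ψ (w i))).trans (AddChar.norm_apply ψ (w i)).le
    nlinarith
  calc _ ≤ ∏ i ∈ F, ‖1 - ((p : ℝ) : ℂ) + ((p : ℝ) : ℂ) * ψ (w i)‖ :=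
        prod_le_prod_of_subset_of_le_one h2 (fun i _ => by positivity) fun i _ _ => h3 i
    _ ≤ ∏ _i ∈ F, (1 - (p : ℝ) / 4) := prod_le_prod (fun i _ => by positivity) fun i hi => by
        have a := norm_step_le (p := p) (AddChar.norm_apply ψ (w i))
        have b := (mem_filter.1 (mem_sdiff.1 hi).1).2
        nlinarith
    _ ≤ _ := by
        rw [prod_const]
        exact pow_le_pow_of_le_one (by linarith) (by linarith) h1

end Bits

section Graphs

variable {p : unitInterval} {n : ℕ}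

theorem mG_ex (f : Gr n → ℝ) : (mG p n).ex f = Ex p fun ω => f (gr ω) := FP.ex_map gr f

theorem mG_pr (E : Gr n → Prop) : (mG p n).pr E = Pr p fun ω => E (gr ω) := FP.pr_map gr E

theorem ex_bord (f : Gr (n + 1) → ℝ) :
    (mG p (n + 1)).ex f = (mS p n).ex fun ω => f (bord ω.1 ω.2) := by
  let e : Sym2 (Fin n) ⊕ Fin n → Sym2 (Fin (n + 1)) :=
    Sum.elim (Sym2.map Fin.castSucc) fun i => s(i.castSucc, Fin.last n)
  have he : Function.Injective e := by
    rintro (a | a) (b | b) h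
    · exact congrArg _ (Sym2.map.injective (Fin.castSucc_injective n) h)
    · induction a using Sym2.ind with
      | h i j => simp [e, Fin.castSucc_ne_last] at h
    · induction b using Sym2.ind with
      | h i j => simp [e, (Fin.castSucc_ne_last _).symm] at h
    · simpa [e, Fin.castSucc_ne_last] using h
  rw [FP.ex_prod, mG, mG, FP.ex_map, FP.ex_map, ← bits_sum fun a b => f (bord (gr a) b), ← bits_inj he]
  refine FP.ex_congr fun ω => congrArg f ?_
  rw [← bord_res (gr ω)]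
  congr 1
  · ext i j
    simp [res_adj, gr_adj, e]
  · funext i
    simp [DG.col, gr_adj, e, Fin.castSucc_ne_last]

theorem pr_bord (E : Gr (n + 1) → Prop) :
    (mG p (n + 1)).pr E = (mS p n).pr fun ω => E (bord ω.1 ω.2) := ex_bord _

theorem pr_res (E : Gr n → Prop) : (mG p (n + 1)).pr (fun G => E (res G)) = (mG p n).pr E := by
  rw [pr_bord]
  simp only [res_bord]
  exact FP.pr_fst E

theorem pr_rs {j : ℕ} (h : j ≤ n) (E : Gr j → Prop) :
    (mG p n).pr (fun G => E (rs G j h)) = (mG p j).pr E := by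
  induction n, h using Nat.le_induction with
  | base => rfl
  | succ n h ih => exact (pr_res fun G : Gr n => E (rs G j h)).trans ih

theorem pr_step {j : ℕ} (h : j + 1 ≤ n) (E : Gr j → Bv j → Prop) :
    (mG p n).pr (fun G => E (rs G j (Nat.le_of_succ_le h)) (DG.col (rs G (j + 1) h))) =
      (mS p j).pr fun ω => E ω.1 ω.2 := by
  refine (pr_rs h fun G => E (res G) (col G)).trans ?_
  rw [pr_bord]
  simp only [res_bord, col_bord]

/-- Relabelling the vertices. -/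
theorem pr_perm (σ : Equiv.Perm (Fin n)) (E : Gr n → Prop) :
    (mG p n).pr (fun G => E (G.comap σ)) = (mG p n).pr E := by
  classical
  rw [mG, FP.pr_map, FP.pr_map]
  refine Eq.trans ?_ (bits_inj (Sym2.map.injective σ.injective) fun ω => if E (gr ω) then 1 else 0)
  refine FP.ex_congr fun ω => ?_
  have : (gr ω).comap σ = gr fun k => ω (Sym2.map σ k) := by
    ext i j
    simp [gr_adj]
  simp only [this]

/-- Resampling the edges from `i` to `J`. -/
theorem ex_rsm (J : Finset (Fin n)) (i : Fin n) (hi : i ∉ J) (f : Gr n → ℝ) :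
    (mG p n).ex f = (mG p n).ex fun G => (mB p n).ex fun a => f (rsm J i hi G a) := by
  rw [mG, FP.ex_map, FP.ex_map, bits_mix (star J i)]
  refine FP.ex_congr fun ω => ?_
  have hf : Function.Injective fun j : Fin n => s(i, j) := fun a b h => Sym2.congr_right.1 h
  rw [← bits_inj hf]
  refine FP.ex_congr fun ω' => congrArg f ?_
  have key : ∀ y, s(i, y) ∈ star J i ↔ y ∈ J := fun y => by
    simp only [star, mem_image, Sym2.congr_right, exists_eq_right]
  ext a b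
  by_cases h1 : a = i ∧ b ∈ J
  · obtain ⟨rfl, hb⟩ := h1
    have : a ≠ b := fun e => hi (e ▸ hb)
    rw [rsm_in J a hi _ _ b hb, gr_adj, mix, if_pos ((key b).2 hb)]
    simp [this]
  · by_cases h2 : b = i ∧ a ∈ J
    · obtain ⟨rfl, ha⟩ := h2
      have : b ≠ a := fun e => hi (e ▸ ha)
      rw [SimpleGraph.adj_comm, (rsm J b hi _ _).adj_comm, rsm_in J b hi _ _ a ha, gr_adj, mix,
        if_pos ((key a).2 ha)]
      simp [this]
    · rw [rsm_out J i hi _ _ a b h1 h2, gr_adj, gr_adj, mix, if_neg]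
      simp only [star, mem_image, not_exists, not_and]
      intro y hy e
      rcases Sym2.eq_iff.1 e with e | e
      · exact h1 ⟨e.1.symm, e.2 ▸ hy⟩
      · exact h2 ⟨e.1.symm, e.2 ▸ hy⟩

/-- Independent rows: the edges from the vertices of `W` to `J`. -/
theorem ex_rows (J W : Finset (Fin n)) (hW : ∀ i ∈ W, i ∉ J) (f : Gr n → ℝ)
    (g : Fin n → Gr n → ℝ) {c : ℝ} (hc0 : 0 ≤ c) (hf0 : ∀ G, 0 ≤ f G) (hg0 : ∀ i G, 0 ≤ g i G)
    (hf : ∀ i (hi : i ∈ W) G a, f (rsm J i (hW i hi) G a) = f G)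
    (hg : ∀ i (hi : i ∈ W), ∀ k ∈ W, k ≠ i → ∀ G a, g k (rsm J i (hW i hi) G a) = g k G)
    (hc : ∀ i (hi : i ∈ W) G, f G ≠ 0 → (mB p n).ex (fun a => g i (rsm J i (hW i hi) G a)) ≤ c) :
    (mG p n).ex (fun G => f G * ∏ i ∈ W, g i G) ≤ c ^ W.card * (mG p n).ex f := by
  induction W using Finset.induction_on with
  | empty => simp
  | insert t T ht ih =>
    have m := mem_insert_self t T
    have ih' := ih (fun i hi => hW i (mem_insert_of_mem hi))
      (fun i hi => hf i (mem_insert_of_mem hi))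
      (fun i hi k hk => hg i (mem_insert_of_mem hi) k (mem_insert_of_mem hk))
      (fun i hi => hc i (mem_insert_of_mem hi))
    rw [card_insert_of_notMem ht, pow_succ', mul_assoc]
    refine le_trans ?_ (mul_le_mul_of_nonneg_left ih' hc0)
    rw [ex_rsm J t (hW t m), ← FP.ex_mul]
    refine FP.ex_mono fun G => ?_
    have e : ∀ a, f (rsm J t (hW t m) G a) * ∏ s ∈ insert t T, g s (rsm J t (hW t m) G a) =
        (f G * ∏ s ∈ T, g s G) * g t (rsm J t (hW t m) G a) := by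
      intro a
      rw [prod_insert ht, hf t m, prod_congr rfl fun s hs =>
        hg t m s (mem_insert_of_mem hs) (fun e => ht (e ▸ hs)) G a]
      ring
    rw [FP.ex_congr e, FP.ex_mul, mul_comm c]
    by_cases h0 : f G = 0
    · simp [h0]
    · exact mul_le_mul_of_nonneg_left (hc t m G h0)
        (mul_nonneg (hf0 G) (prod_nonneg fun s _ => hg0 s G))

theorem pr_rows (J W : Finset (Fin n)) (hW : ∀ i ∈ W, i ∉ J) (F : Gr n → Prop)
    (E : Fin n → Gr n → Prop) {c : ℝ} (hc0 : 0 ≤ c)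
    (hF : ∀ i (hi : i ∈ W) G a, F (rsm J i (hW i hi) G a) ↔ F G)
    (hE : ∀ i (hi : i ∈ W), ∀ k ∈ W, k ≠ i → ∀ G a, E k (rsm J i (hW i hi) G a) ↔ E k G)
    (hc : ∀ i (hi : i ∈ W) G, F G → (mB p n).pr (fun a => E i (rsm J i (hW i hi) G a)) ≤ c) :
    (mG p n).pr (fun G => F G ∧ ∀ i ∈ W, E i G) ≤ c ^ W.card := by
  classical
  have h := ex_rows (p := p) J W hW (fun G => if F G then 1 else 0)
    (fun i G => if E i G then 1 else 0) hc0 (fun G => by split_ifs <;> norm_num)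
    (fun i G => by split_ifs <;> norm_num) (fun i hi G a => by simp only [hF i hi G a])
    (fun i hi k hk e G a => by simp only [hE i hi k hk e G a])
    fun i hi G h0 => hc i hi G (by simpa using h0)
  refine le_trans (FP.pr_le_ex (fun G => mul_nonneg (by split_ifs <;> norm_num)
    (prod_nonneg fun _ _ => by split_ifs <;> norm_num)) fun G hG => ?_) (h.trans ?_)
  · rw [if_pos hG.1, prod_congr rfl fun i hi => if_pos (hG.2 i hi)]
    simp
  · exact mul_le_of_le_one_right (pow_nonneg hc0 _) (FP.pr_le_one F)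

theorem Rg.le {t : ℕ} (h : Rg p t n) : 2 * t ^ 6 ≤ n := by
  have h1 : ((2 * t ^ 6 : ℕ) : ℝ) ≤ n := by
    push_cast
    nlinarith [h.2.1, h.2.2, (Nat.cast_nonneg n : (0 : ℝ) ≤ n)]
  exact_mod_cast h1

theorem Prm.le {t j0 : ℕ} (h : Prm p n t j0) : 2 * (3 * t) ^ 6 ≤ j0 := by
  have h1 : ((2 * (3 * t) ^ 6 : ℕ) : ℝ) ≤ j0 := by
    push_cast
    nlinarith [h.2.1, h.2.2.2, (Nat.cast_nonneg j0 : (0 : ℝ) ≤ j0)]
  exact_mod_cast h1

theorem Prm.le_pow {t j0 : ℕ} (h : Prm p n t j0) : n ≤ 2 ^ t :=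
  (Nat.le_self_pow (by norm_num) n).trans h.1

/-- All the steps of the chain are in the range of the master lemma. -/
theorem Prm.rg {t j0 j : ℕ} (h : Prm p n t j0) (ht : 2 ≤ t) (h0 : j0 ≤ j) (h1 : j ≤ n + 1) :
    Rg p (3 * t) j := by
  refine ⟨?_, ?_, h.2.2.2⟩
  · have a := h.le_pow
    have b : 2 ^ 2 ≤ 2 ^ t := Nat.pow_le_pow_right (by norm_num) ht
    rw [show 3 * t = t + t + t by ring, pow_add, pow_add]
    nlinarith [Nat.mul_le_mul b b]
  · have a : (j0 : ℝ) ≤ j := by exact_mod_cast h0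
    push_cast
    exact h.2.1.trans (mul_le_mul_of_nonneg_right a p.2.1)

theorem Stt.mono {x : Pt} {r r' c c' : ℕ} {G : Gr n} (h : Stt x r c G) (hr : r ≤ r')
    (hc : c ≤ c') : Stt x r' c' G :=
  ⟨h.1.mono hr, h.2.1.imp fun _ a => a.mono hc, h.2.2.mono hc⟩

theorem ap_add {Γ : Type} [AddCommGroup Γ] (E E' : Vc n) (w : Fin n → Γ) :
    ap (E + E') w = ap E w + ap E' w := by
  simp only [ap, Pi.add_apply, add_smul, sum_add_distrib]

theorem ap_sub {Γ : Type} [AddCommGroup Γ] (E E' : Vc n) (w : Fin n → Γ) :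
    ap (E - E') w = ap E w - ap E' w := by
  simp only [ap, Pi.sub_apply, sub_smul, sum_sub_distrib]

theorem ap_single {Γ : Type} [AddCommGroup Γ] (j : Fin n) (w : Fin n → Γ) :
    ap (Pi.single j 1) w = w j := by
  simp [ap, Pi.single_apply]

/-- Evaluation as a homomorphism. -/
def apH {Γ : Type} [AddCommGroup Γ] (w : Fin n → Γ) : Vc n →+ Γ :=
  AddMonoidHom.mk' (fun E => ap E w) fun E E' => ap_add E E' w

theorem ap_un (Λ : AddSubgroup (Vc n)) (E : Vc n) : ap E (un Λ) = QuotientAddGroup.mk E := by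
  have : E = ∑ j, E j • (Pi.single j 1 : Vc n) := by
    funext i
    simp [Pi.single_apply]
  conv_rhs => rw [this]
  simp only [ap, un]
  rw [← QuotientAddGroup.mk'_apply, map_sum]
  simp

theorem Sh.mono {J : Finset (Fin n)} {K K' : ℕ} {E : Vc n} (h : Sh J K E) (hK : K ≤ K') :
    Sh J K' E := ⟨h.1, h.2.trans (by exact_mod_cast hK)⟩

theorem Sh.sub {J : Finset (Fin n)} {K K' : ℕ} {E E' : Vc n} (h : Sh J K E) (h' : Sh J K' E') :
    Sh J (K + K') (E - E') := by
  refine ⟨fun j hj => by simp [h.1 j hj, h'.1 j hj], ?_⟩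
  refine (sum_le_sum fun j _ => abs_sub (E j) (E' j)).trans ?_
  rw [sum_add_distrib]
  push_cast
  exact add_le_add h.2 h'.2

theorem sh_single {J : Finset (Fin n)} {j : Fin n} (hj : j ∈ J) : Sh J 1 (Pi.single j 1) := by
  refine ⟨fun i hi => Pi.single_eq_of_ne (fun e : i = j => hi (e ▸ hj)) _, ?_⟩
  simp [Pi.single_apply, apply_ite abs]

theorem Sh.abs_le {J : Finset (Fin n)} {K : ℕ} {E : Vc n} (h : Sh J K E) (j : Fin n) :
    |E j| ≤ K := (single_le_sum (fun i _ => abs_nonneg (E i)) (mem_univ j)).trans h.2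

end Graphs

end Pool.Agent.P.MP_f57657_co.RS
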