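import Pool.Agent.P.MP_f57657_co.RS.Base

/-! Counting the graphs that fit a list of integer representations. -/

open Matrix Finset

namespace Pool.Agent.P.MP_f57657_co.RS

open DG DG.RowAux

namespace CntAux

variable {n : ℕ}

/-- Coordinates of the relations. -/
abbrev Ix (n : ℕ) : Type := Fin n ⊕ Fin n ⊕ Unit

/-- The relation given by a row. -/
noncomputable def rho (y : Vc n) (E : Fin n → Vc n) (G : Gr n) (i : Fin n) : Ix n → ℤ :=
  Sum.elim (fun k => ∑ j, aM G i j * E j k) (Sum.elim (fun k => -E i k) fun _ => -y i)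

/-- The group generated by some rows. -/
noncomputable def lam (y : Vc n) (E : Fin n → Vc n) (S : Finset (Fin n)) (G : Gr n) :
    AddSubgroup (Ix n → ℤ) := AddSubgroup.closure (rho y E G '' S)

/-- Classes of the unit vectors. -/
def uq (Λ : AddSubgroup (Ix n → ℤ)) (j : Fin n) : (Ix n → ℤ) ⧸ Λ :=
  QuotientAddGroup.mk (Pi.single (Sum.inl j) 1)

/-- Evaluation of a relation. -/
def ev {Γ : Type} [AddCommGroup Γ] (x : Γ →+ Γ) (c : Γ) (w : Fin n → Γ) : (Ix n → ℤ) →+ Γ :=
  AddMonoidHom.mk' (fun v => ∑ k, v k • Sum.elim w (Sum.elim (fun k => x (w k)) fun _ => c) k)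
    fun v v' => by simp only [Pi.add_apply, add_smul, sum_add_distrib]

theorem ev_single {Γ : Type} [AddCommGroup Γ] (x : Γ →+ Γ) (c : Γ) (w : Fin n → Γ) (j : Fin n) :
    ev x c w (Pi.single (Sum.inl j) 1) = w j := by
  simp [ev, Pi.single_apply]

theorem ev_rho {Γ : Type} [AddCommGroup Γ] {x : Γ →+ Γ} {c : Γ} {w : Fin n → Γ} {y : Vc n}
    {E : Fin n → Vc n} {G : Gr n} (h : Eqn G y x c w) (hE : ∀ j, w j = ap (E j) w) (i : Fin n) :
    ev x c w (rho y E G i) = 0 := by
  have h1 : ∑ k, (∑ j, aM G i j * E j k) • w k = ∑ j, aM G i j • w j := by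
    simp only [sum_smul, mul_smul]
    rw [sum_comm]
    refine sum_congr rfl fun j _ => ?_
    rw [← smul_sum]
    exact congrArg _ (hE j).symm
  have h2 : ∑ k, E i k • x (w k) = x (w i) := by
    conv_rhs => rw [hE i, ap, map_sum]
    simp only [map_zsmul]
  simp only [ev, rho, AddMonoidHom.mk'_apply, Fintype.sum_sum_type, Sum.elim_inl, Sum.elim_inr,
    neg_smul, sum_neg_distrib, h1, h2, h i, univ_unique, sum_singleton]
  abel

theorem lk_le {Γ : Type} [AddCommGroup Γ] (p : unitInterval) (J : Finset (Fin n)) {x : Γ →+ Γ}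
    {c : Γ} {w : Fin n → Γ} {Λ : AddSubgroup (Ix n → ℤ)} (h : ∀ v ∈ Λ, ev x c w v = 0) :
    lk p J (uq Λ) (· = 0) ≤ lk p J w (· = 0) := by
  refine FP.pr_mono fun ω hω => ?_
  have h1 : (QuotientAddGroup.mk (∑ j ∈ J, dv ω j • Pi.single (Sum.inl j) 1) :
      (Ix n → ℤ) ⧸ Λ) = 0 := by
    rw [← hω, ← QuotientAddGroup.mk'_apply, map_sum]
    simp [uq]
  have h2 := h _ ((QuotientAddGroup.eq_zero_iff _).1 h1)
  rw [map_sum] at h2
  simpa only [map_zsmul, ev_single] using h2

theorem rho_out (y : Vc n) (E : Fin n → Vc n) {J : Finset (Fin n)} {i k : Fin n} (hi : i ∉ J)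
    (hk : k ∉ J) (hne : k ≠ i) (G : Gr n) (a : Bv n) :
    rho y E (rsm J i hi G a) k = rho y E G k := by
  unfold rho
  congr 1
  funext l
  exact sum_congr rfl fun j _ => by
    rw [aM_out J i hi G a k j (fun h => hne h.1) fun h => hk h.2]

theorem lam_out (y : Vc n) (E : Fin n → Vc n) {J S : Finset (Fin n)} {i : Fin n} (hi : i ∉ J)
    (hS : S ⊆ Jᶜ) (hiS : i ∉ S) (G : Gr n) (a : Bv n) :
    lam y E S (rsm J i hi G a) = lam y E S G := by
  unfold lam
  congr 1
  refine Set.image_congr fun k hk => ?_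
  have hk' : k ∈ S := hk
  exact rho_out y E hi (mem_compl.1 (hS hk')) (fun e => hiS (e ▸ hk')) G a

theorem rho_in (y : Vc n) {E : Fin n → Vc n} {J : Finset (Fin n)} {i : Fin n} (hi : i ∉ J)
    (hE : ∀ j ∈ J, E j = Pi.single j 1) (G : Gr n) :
    ∃ r : Ix n → ℤ, ∀ a : Bv n, rho y E (rsm J i hi G a) i =
      ∑ j ∈ J, sv 0 1 a j • Pi.single (Sum.inl j) 1 + r := by
  refine ⟨Sum.elim (fun k => ∑ j ∈ Jᶜ, aM G i j * E j k)
    (Sum.elim (fun k => -E i k) fun _ => -y i), fun a => ?_⟩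
  funext k
  rcases k with k | k
  · simp only [rho, Sum.elim_inl, Pi.add_apply, Finset.sum_apply, Pi.smul_apply, smul_eq_mul]
    rw [← sum_add_sum_compl J]
    congr 1
    · refine sum_congr rfl fun j hj => ?_
      rw [aM_in J i hi G a j hj, hE j hj]
      simp [Pi.single_apply]
    · refine sum_congr rfl fun j hj => ?_
      rw [aM_out J i hi G a i j (fun h => mem_compl.1 hj h.2) fun h => hi h.2]
  · simp [rho, Finset.sum_apply]

theorem one (hW1 : RWalk1) {p : unitInterval} (hp : (p : ℝ) ≤ 1 / 2) (y : Vc n)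
    {E : Fin n → Vc n} {J S : Finset (Fin n)} {g : ℝ} (hg : 0 ≤ g)
    (hE : ∀ j ∈ J, E j = Pi.single j 1) (hS : S ⊆ Jᶜ) :
    (mG p n).pr (fun G => lk p J (uq (lam y E S G)) (· = 0) ≤ g ∧
      ∀ i ∈ Jᶜ \ S, rho y E G i ∈ lam y E S G) ≤ g ^ (Jᶜ \ S).card := by
  have hW : ∀ i ∈ Jᶜ \ S, i ∉ J := fun i hi => mem_compl.1 (mem_sdiff.1 hi).1
  refine pr_rows J (Jᶜ \ S) hW _ (fun i G => rho y E G i ∈ lam y E S G) hg
    (fun i hi G a => ?_) (fun i hi k hk hne G a => ?_) fun i hi G hG => ?_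
  · rw [lam_out y E (hW i hi) hS (mem_sdiff.1 hi).2]
  · rw [lam_out y E (hW i hi) hS (mem_sdiff.1 hi).2, rho_out y E (hW i hi) (hW k hk) hne]
  · obtain ⟨r, hr⟩ := rho_in y (hW i hi) hE G
    refine le_trans (FP.pr_mono fun a ha => ?_)
      ((hW1 p _ n J (uq (lam y E S G)) (-QuotientAddGroup.mk r) hp).trans hG)
    rw [lam_out y E (hW i hi) hS (mem_sdiff.1 hi).2, hr, ← QuotientAddGroup.eq_zero_iff,
      QuotientAddGroup.mk_add, add_eq_zero_iff_eq_neg] at ha
    rw [← ha, ← QuotientAddGroup.mk'_apply, map_sum]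
    simp [uq]

theorem small (M : ℕ) :
    ((univ : Finset (Finset (Fin n))).filter fun S => S.card ≤ M).card ≤ (n + 1) ^ M := by
  induction M with
  | zero =>
    refine (card_le_card (t := {∅}) fun S hS => ?_).trans (by simp)
    simpa using hS
  | succ M ih =>
    refine (card_le_card (t := insert ∅ ((univ ×ˢ ((univ : Finset (Finset (Fin n))).filter
      fun S => S.card ≤ M)).image fun q : Fin n × Finset (Fin n) => insert q.1 q.2))
      fun S hS => ?_).trans ?_
    · rcases S.eq_empty_or_nonempty with rfl | ⟨a, ha⟩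
      · exact mem_insert_self _ _
      · refine mem_insert_of_mem (mem_image.2 ⟨(a, S.erase a), ?_, insert_erase ha⟩)
        have := (mem_filter.1 hS).2
        simp only [mem_product, mem_univ, mem_filter, true_and, card_erase_of_mem ha]
        omega
    · refine (card_insert_le _ _).trans ?_
      have h1 := card_image_le (s := univ ×ˢ ((univ : Finset (Finset (Fin n))).filter
        fun S => S.card ≤ M)) (f := fun q : Fin n × Finset (Fin n) => insert q.1 q.2)
      rw [card_product, card_univ, Fintype.card_fin] at h1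
      have h2 := Nat.mul_le_mul_left n ih
      have h3 : 1 ≤ (n + 1) ^ M := Nat.one_le_pow _ _ (Nat.succ_pos n)
      rw [pow_succ']
      nlinarith

/-- The support of the relations. -/
def sup (J : Finset (Fin n)) : Finset (Ix n) := J.disjSum (J.disjSum univ)

theorem card_sup (J : Finset (Fin n)) : (sup J).card = 2 * J.card + 1 := by
  simp [sup, card_disjSum]
  ring

theorem abs_aM (G : Gr n) (i j : Fin n) : |aM G i j| ≤ 1 := by
  simp only [gm, of_apply]
  split_ifs <;> simp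

theorem gen (hGen : RGen) {t : ℕ} {y : Vc n} {E : Fin n → Vc n} {J : Finset (Fin n)}
    (hn : 2 * n + 1 ≤ 2 ^ t) (hy : ∀ i, |y i| ≤ 1) (hE : ∀ j, Sh J (2 ^ t) (E j)) (G : Gr n) :
    ∃ S ⊆ Jᶜ, S.card ≤ (2 * J.card + 1) * (3 * t + 1) ∧
      ∀ k ∈ Jᶜ, rho y E G k ∈ lam y E S G := by
  have hn' : (n : ℤ) ≤ 2 ^ t := by exact_mod_cast (by omega : n ≤ 2 ^ t)
  have h1 : (1 : ℤ) ≤ 2 ^ t := one_le_pow₀ (by norm_num)
  have hE' : ∀ j k, |E j k| ≤ 2 ^ t := fun j k => by exact_mod_cast (hE j).abs_le k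
  have h := hGen (Ix n) (Fin n) (sup J) Jᶜ (rho y E G) (2 ^ t * 2 ^ t) (3 * t) ?_ ?_ ?_
  · rwa [card_sup] at h
  · rintro k - (i | i | i) hi
    · have hi' : i ∉ J := by simpa [sup] using hi
      simp [rho, fun j => (hE j).1 i hi']
    · have hi' : i ∉ J := by simpa [sup] using hi
      simp [rho, (hE k).1 i hi']
    · simp [sup] at hi
  · rintro k - (i | i | i)
    · simp only [rho, Sum.elim_inl]
      push_cast
      refine (abs_sum_le_sum_abs _ _).trans ((sum_le_card_nsmul _ _ (2 ^ t) fun j _ => ?_).trans ?_)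
      · rw [abs_mul]
        exact (mul_le_of_le_one_left (abs_nonneg _) (abs_aM G k j)).trans (hE' j i)
      · rw [card_univ, Fintype.card_fin, nsmul_eq_mul]
        exact mul_le_mul_of_nonneg_right hn' (by positivity)
    · simp only [rho, Sum.elim_inr, Sum.elim_inl, abs_neg]
      push_cast
      nlinarith [hE' k i]
    · simp only [rho, Sum.elim_inr, abs_neg]
      push_cast
      nlinarith [hy k]
  · have h2 : J.card ≤ n := by simpa using card_le_univ J
    rw [card_sup, show 3 * t = t + (t + t) by ring, pow_add, pow_add]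
    exact Nat.mul_le_mul_right _ (by omega)

theorem arith {a b c d e : ℝ} (h : a ≤ b) (hc : 0 ≤ c) (hd : 0 ≤ d) (he : 0 ≤ e) :
    c * a * (d * e) ≤ b * d * (e * c) := by
  nlinarith [mul_le_mul_of_nonneg_left h (mul_nonneg hc (mul_nonneg hd he))]

end CntAux

open CntAux in
theorem rCnt (hW1 : RWalk1) (hGen : RGen) : RCnt := by
  intro p n t K J y g L hp hn hK hy hg hL
  classical
  set M := (2 * J.card + 1) * (3 * t + 1) with hM
  have hg0 : 0 < g := lt_of_lt_of_le (by positivity) hg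
  obtain ⟨T, hTi, hTo⟩ : ∃ T : Fin n → Finset (Vc n), (∀ i ∈ J, T i = {Pi.single i 1}) ∧
      ∀ i, i ∉ J → T i = L i :=
    ⟨fun i => if i ∈ J then {Pi.single i 1} else L i, fun i hi => if_pos hi, fun i hi => if_neg hi⟩
  let SS : Finset (Finset (Fin n)) := (univ.filter fun S => S.card ≤ M).filter (· ⊆ Jᶜ)
  have hT1 : ∀ E ∈ Fintype.piFinset T, ∀ j ∈ J, E j = Pi.single j 1 := fun E hE j hj =>
    mem_singleton.1 (hTi j hj ▸ Fintype.mem_piFinset.1 hE j)
  have hT2 : ∀ E ∈ Fintype.piFinset T, ∀ j, Sh J (2 ^ t) (E j) := fun E hE j => by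
    by_cases hj : j ∈ J
    · rw [hT1 E hE j hj]
      exact (sh_single hj).mono Nat.one_le_two_pow
    · exact (hL j _ (hTo j hj ▸ Fintype.mem_piFinset.1 hE j)).mono hK
  have key := FP.pr_le_card_mul (μ := mG p n) (Fintype.piFinset T ×ˢ SS) (E := Fit p y J g L)
    (fun q G => lk p J (uq (lam y q.1 q.2 G)) (· = 0) ≤ g ∧
      ∀ i ∈ Jᶜ \ q.2, rho y q.1 G i ∈ lam y q.1 q.2 G)
    (c := (2 ^ (t + 1)) ^ M * g ^ Jᶜ.card) ?_ ?_
  · refine key.trans ?_
    have h1 : (Fintype.piFinset T).card = ∏ i ∈ Jᶜ, (L i).card := by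
      rw [Fintype.card_piFinset, ← prod_mul_prod_compl J,
        prod_eq_one fun i hi => by rw [hTi i hi, card_singleton], one_mul]
      exact prod_congr rfl fun i hi => by rw [hTo i (mem_compl.1 hi)]
    have h2 : SS.card ≤ (2 ^ t) ^ M :=
      (card_filter_le _ _).trans ((small M).trans (Nat.pow_le_pow_left (by omega) M))
    have h3 : (SS.card : ℝ) ≤ (2 ^ t) ^ M := by exact_mod_cast h2
    rw [card_product, h1, prod_mul_distrib, prod_const, show 2 * t + 1 = t + (t + 1) by ring,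
      pow_mul (2 : ℝ) (t + (t + 1)) M, pow_add (2 : ℝ) t (t + 1), mul_pow, Nat.cast_mul, Nat.cast_prod]
    exact arith h3 (prod_nonneg fun _ _ => Nat.cast_nonneg _) (by positivity) (by positivity)
  · rintro G ⟨Γ, _, x, c, w, hEq, h0, hR⟩
    choose! F hF using hR
    obtain ⟨E, hEi, hEo⟩ : ∃ E : Fin n → Vc n, (∀ i ∈ J, E i = Pi.single i 1) ∧
        ∀ i, i ∉ J → E i = F i :=
      ⟨fun i => if i ∈ J then Pi.single i 1 else F i, fun i hi => if_pos hi, fun i hi => if_neg hi⟩
    have hE : E ∈ Fintype.piFinset T := Fintype.mem_piFinset.2 fun i => by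
      by_cases hi : i ∈ J
      · rw [hEi i hi, hTi i hi]
        exact mem_singleton_self _
      · rw [hEo i hi, hTo i hi]
        exact (hF i hi).1
    have hw : ∀ j, w j = ap (E j) w := fun j => by
      by_cases hj : j ∈ J
      · rw [hEi j hj, ap_single]
      · rw [hEo j hj]
        exact (hF j hj).2
    obtain ⟨S, hS, hc, hk⟩ := gen hGen hn hy (hT2 E hE) G
    refine ⟨(E, S), mem_product.2 ⟨hE, mem_filter.2 ⟨mem_filter.2 ⟨mem_univ _, hc⟩, hS⟩⟩,
      (lk_le p J (x := x) (c := c) fun v hv => ?_).trans h0, fun i hi => hk i (mem_sdiff.1 hi).1⟩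
    have : lam y E S G ≤ (ev x c w).ker := by
      refine (AddSubgroup.closure_le _).2 ?_
      rintro _ ⟨k, -, rfl⟩
      exact ev_rho hEq hw k
    exact this hv
  · rintro ⟨E, S⟩ hq
    obtain ⟨hE, hS⟩ := mem_product.1 hq
    obtain ⟨hc, hS⟩ := mem_filter.1 hS
    have hc' : S.card ≤ M := (mem_filter.1 hc).2
    refine (one hW1 hp y hg0.le (hT1 E hE) hS).trans ?_
    have h1 : Jᶜ.card = (Jᶜ \ S).card + S.card := (card_sdiff_add_card_eq_card hS).symm
    have h2 : (1 : ℝ) ≤ 2 ^ (t + 1) * g := by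
      have : (2 : ℝ) ^ (t + 1) * (1 / 2) ^ (t + 1) = 1 := by
        rw [← mul_pow]
        norm_num
      nlinarith [mul_le_mul_of_nonneg_left hg (by positivity : (0 : ℝ) ≤ 2 ^ (t + 1))]
    have h3 : (1 : ℝ) ≤ (2 ^ (t + 1)) ^ M * g ^ S.card :=
      (one_le_pow₀ h2 (n := S.card)).trans (by
        rw [mul_pow]
        exact mul_le_mul_of_nonneg_right
          (pow_le_pow_right₀ (one_le_pow₀ (by norm_num)) hc') (by positivity))
    simp only at h1 ⊢
    rw [h1, pow_add g, mul_left_comm]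
    exact le_mul_of_one_le_right (by positivity) h3

end Pool.Agent.P.MP_f57657_co.RS
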