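import Pool.Agent.P.MP_f57657_co.DG.Row
import Pool.Agent.P.MP_f57657_co.Forest

/-! Interface for the theorem that no switching fixing one vertex gives a cospectral mate of a
sparse random graph. -/

open Matrix Finset Polynomial

namespace Pool.Agent.P.MP_f57657_co.RS

open DG DG.RowAux

/-! ### Finite probability spaces -/

/-- A probability vector. -/
structure FP (Ω : Type) [Fintype Ω] where
  w : Ω → ℝ
  nn : ∀ ω, 0 ≤ w ω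
  tot : ∑ ω, w ω = 1

namespace FP

variable {Ω Ω' : Type} [Fintype Ω] [Fintype Ω']

/-- Expectation. -/
noncomputable def ex (μ : FP Ω) (f : Ω → ℝ) : ℝ := ∑ ω, μ.w ω * f ω

/-- Expectation of a complex function. -/
noncomputable def exc (μ : FP Ω) (f : Ω → ℂ) : ℂ := ∑ ω, (μ.w ω : ℂ) * f ω

open Classical in
/-- Probability. -/
noncomputable def pr (μ : FP Ω) (E : Ω → Prop) : ℝ := μ.ex fun ω => if E ω then 1 else 0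

/-- Product. -/
noncomputable def prod (μ : FP Ω) (ν : FP Ω') : FP (Ω × Ω') where
  w ω := μ.w ω.1 * ν.w ω.2
  nn ω := mul_nonneg (μ.nn _) (ν.nn _)
  tot := by simp only [Fintype.sum_prod_type, ← mul_sum, ν.tot, mul_one, μ.tot]

open Classical in
/-- Image. -/
noncomputable def map (μ : FP Ω) (f : Ω → Ω') : FP Ω' where
  w b := ∑ a, if f a = b then μ.w a else 0
  nn b := sum_nonneg fun a _ => by
    split_ifs
    exacts [μ.nn a, le_rfl]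
  tot := by
    rw [sum_comm]
    simp [μ.tot]

end FP

/-- Independent bits of mean `p`. -/
noncomputable def bits (p : unitInterval) (ι : Type) [Fintype ι] [DecidableEq ι] :
    FP (ι → Bool) where
  w := wt p
  nn := wt_nonneg p.2.1 p.2.2
  tot := by simpa [Ex] using Ex_const (ι := ι) (p := (p : ℝ)) 1

/-- A random row. -/
noncomputable abbrev mB (p : unitInterval) (n : ℕ) : FP (Bv n) := bits p (Fin n)

/-- The binomial random graph. -/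
noncomputable def mG (p : unitInterval) (n : ℕ) : FP (Gr n) := (bits p (Sym2 (Fin n))).map gr

/-- A graph and a new row. -/
noncomputable abbrev mS (p : unitInterval) (n : ℕ) : FP (Gr n × Bv n) := (mG p n).prod (mB p n)

/-- Two independent rows. -/
noncomputable abbrev mD (p : unitInterval) (n : ℕ) : FP (Bv n × Bv n) := (mB p n).prod (mB p n)

/-! ### The lazy walk -/

/-- A quarter. -/
noncomputable def qt (p : unitInterval) : unitInterval :=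
  ⟨p / 4, by have := p.2.1; positivity, by have := p.2.2; linarith⟩

/-- Probability of an active step. -/
noncomputable def lz (p : unitInterval) : ℝ := 2 * ((p : ℝ) / 4) * (1 - (p : ℝ) / 4)

/-- Difference of two rows. -/
def dv {n : ℕ} (ω : Bv n × Bv n) (j : Fin n) : ℤ := sv 0 1 ω.1 j - sv 0 1 ω.2 j

/-- Law of the lazy walk with steps `w j`, `j ∈ J`. -/
noncomputable def lk (p : unitInterval) {Γ : Type} [AddCommGroup Γ] {n : ℕ} (J : Finset (Fin n))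
    (w : Fin n → Γ) (B : Γ → Prop) : ℝ :=
  (mD (qt p) n).pr fun ω => B (∑ j ∈ J, dv ω j • w j)

open Classical in
/-- The points where the law of the walk is nearly maximal. -/
noncomputable def Bs (p : unitInterval) {Γ : Type} [AddCommGroup Γ] {n : ℕ} (J : Finset (Fin n))
    (w : Fin n → Γ) (a : ℝ) : Finset Γ :=
  (univ.image fun ω : Bv n × Bv n => ∑ j ∈ J, dv ω j • w j).filter
    fun g => (1 - a) * lk p J w (· = 0) ≤ lk p J w (· = g)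

/-- Integer vectors. -/
abbrev Vc (n : ℕ) : Type := Fin n → ℤ

/-- Integer combination. -/
def ap {Γ : Type} [AddCommGroup Γ] {n : ℕ} (E : Vc n) (w : Fin n → Γ) : Γ := ∑ j, E j • w j

/-- Short vectors supported on `J`. -/
def Sh {n : ℕ} (J : Finset (Fin n)) (K : ℕ) (E : Vc n) : Prop :=
  (∀ j, j ∉ J → E j = 0) ∧ ∑ j, |E j| ≤ K

/-- The classes of the unit vectors. -/
def un {n : ℕ} (Λ : AddSubgroup (Vc n)) (j : Fin n) : Vc n ⧸ Λ :=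
  QuotientAddGroup.mk (Pi.single j 1)

/-- `Λ` consists of relations and contains the short ones. -/
def Cmp {Γ : Type} [AddCommGroup Γ] {n : ℕ} (J : Finset (Fin n)) (K : ℕ)
    (Λ : AddSubgroup (Vc n)) (w : Fin n → Γ) : Prop :=
  (∀ E ∈ Λ, ap E w = 0) ∧ ∀ E, Sh J K E → ap E w = 0 → E ∈ Λ

/-- The eigenvector equation with a source term. -/
def Eqn {Γ : Type} [AddCommGroup Γ] {n : ℕ} (G : Gr n) (y : Vc n) (x : Γ →+ Γ) (c : Γ)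
    (w : Fin n → Γ) : Prop :=
  ∀ i, ∑ j, aM G i j • w j = x (w i) + y i • c

open Classical in
/-- Many coordinates are far from the kernel of the character. -/
def Far {Γ : Type} [AddCommGroup Γ] (ψ : AddChar Γ ℂ) {n : ℕ} (w : Fin n → Γ) : Prop :=
  n ≤ 2000 * (univ.filter fun i => (ψ (w i)).re ≤ 1 / 2).card

/-- The coordinates are spread over a finite stable subgroup. -/
def Concl (p : unitInterval) {Γ : Type} [AddCommGroup Γ] {n : ℕ} (x : Γ →+ Γ)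
    (w : Fin n → Γ) : Prop :=
  Finite (AddSubgroup.closure (Set.range w)) ∧
  (∀ h ∈ AddSubgroup.closure (Set.range w), x h ∈ AddSubgroup.closure (Set.range w)) ∧
  lk p univ w (· = 0) * Nat.card (AddSubgroup.closure (Set.range w)) ≤ 11 / 10 ∧
  ∀ ψ : AddChar Γ ℂ, (∃ i, ψ (w i) ≠ 1) → Far ψ w

/-- The good event of the master lemma. -/
def Good (p : unitInterval) (t : ℕ) {n : ℕ} (y : Vc n) (G : Gr n) : Prop :=
  ∀ (Γ : Type) [AddCommGroup Γ] (x : Γ →+ Γ) (c : Γ) (w : Fin n → Γ), Eqn G y x c w →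
    (1 / 2 : ℝ) ^ t ≤ lk p univ w (· = 0) → Concl p x w

open Classical in
/-- Almost constant source. -/
def Adm (p : unitInterval) {n : ℕ} (y : Vc n) : Prop :=
  (∀ i, y i = 0 ∨ y i = 1 ∨ y i = -1) ∧
    ∃ a : ℤ, ((univ.filter fun i => y i ≠ a).card : ℝ) ≤ n * (p : ℝ) / 500

open Classical in
/-- Small sets have small neighbourhoods. -/
def Exp1 (p : unitInterval) {n : ℕ} (G : Gr n) : Prop :=
  ∀ T : Finset (Fin n), (p : ℝ) * T.card ≤ 1 / 100 →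
    20 * (univ.filter fun i => i ∈ T ∨ ∃ j ∈ T, G.Adj i j).card ≤ n

open Classical in
/-- Small sets have many unique neighbours. -/
def Exp2 (p : unitInterval) {n : ℕ} (G : Gr n) : Prop :=
  ∀ T : Finset (Fin n), (p : ℝ) * T.card ≤ 1 / 100 → T.Nonempty → n * (p : ℝ) / 500 <
    (univ.filter fun i => i ∉ T ∧ (T.filter fun j => G.Adj i j).card = 1).card

/-- A set of steps that cannot be improved. -/
def Sel (p : unitInterval) (t : ℕ) {Γ : Type} [AddCommGroup Γ] {n : ℕ} (J : Finset (Fin n))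
    (w : Fin n → Γ) : Prop :=
  (1 / 2 : ℝ) ^ t ≤ lk p J w (· = 0) ∧
    ∀ i, i ∉ J → (1 - 1 / 10000) * lk p J w (· = 0) ≤ lk p J w (· = w i)

/-- Lists of allowed integer representations. -/
structure Menu (n : ℕ) where
  g : ℝ
  B : Finset (Vc n)
  E : ℤ → Finset (Vc n)
  ν : ℕ

/-- The lists are short. -/
def Menu.Ok {n : ℕ} (m : Menu n) (t : ℕ) (J : Finset (Fin n)) : Prop :=
  (1 / 2 : ℝ) ^ (t + 1) ≤ m.g ∧ (∀ E ∈ m.B, Sh J (20000 * t) E) ∧ (∀ a, m.E a ⊆ m.B) ∧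
    m.g * m.B.card ≤ 2 ∧ ((m.ν = 0 ∧ ∀ a, m.g * (m.E a).card ≤ 9995 / 10000) ∨
      (20 * m.ν ≤ n ∧ ∀ a, m.g * (m.E a).card ≤ 7 / 10))

/-- The list used at a vertex. -/
def Menu.pick {n : ℕ} (m : Menu n) (y : Vc n) (N : Finset (Fin n)) (i : Fin n) : Finset (Vc n) :=
  if i ∈ N then m.B else m.E (y i)

/-- The coordinates outside `J` are represented by the lists. -/
def Rep (p : unitInterval) {Γ : Type} [AddCommGroup Γ] {n : ℕ} (J : Finset (Fin n)) (g : ℝ)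
    (L : Fin n → Finset (Vc n)) (w : Fin n → Γ) : Prop :=
  lk p J w (· = 0) ≤ g ∧ ∀ i, i ∉ J → ∃ E ∈ L i, w i = ap E w

/-- Some solution is represented by the lists. -/
def Fit (p : unitInterval) {n : ℕ} (y : Vc n) (J : Finset (Fin n)) (g : ℝ)
    (L : Fin n → Finset (Vc n)) (G : Gr n) : Prop :=
  ∃ (Γ : Type) (_ : AddCommGroup Γ) (x : Γ →+ Γ) (c : Γ) (w : Fin n → Γ),
    Eqn G y x c w ∧ Rep p J g L w

/-- The range of the parameters at size `j`. -/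
def Rg (p : unitInterval) (t j : ℕ) : Prop :=
  2 * j + 1 ≤ 2 ^ t ∧ (t : ℝ) ^ 6 ≤ j * (p : ℝ) ∧ (p : ℝ) ≤ 1 / 2

/-- Choice of the scales. -/
def Prm (p : unitInterval) (n t j0 : ℕ) : Prop :=
  n ^ 8 ≤ 2 ^ t ∧ (3 * t : ℝ) ^ 6 ≤ j0 * (p : ℝ) ∧ j0 * (t + 5) ≤ n ∧ (p : ℝ) ≤ 1 / 2

/-! ### Good events for one step -/

/-- Anticoncentration for eigenvectors. -/
def ACp (p : unitInterval) (t : ℕ) {n : ℕ} (G : Gr n) : Prop :=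
  ∀ (K : Type) [Field K] (θ : K) (z : Fin n → K) (b : K) (Q : ℕ), z ∈ eg K (aM G) θ → z ≠ 0 →
    1 ≤ Q → Q ≤ 2 ^ t → Big θ Q → (mB p n).pr (fun s => dt (sv 0 1 s) z = b) ≤ 2 / (Q : ℝ)

/-- A random row is rarely orthogonal to an eigenspace. -/
def ODp (p : unitInterval) (t : ℕ) {n : ℕ} (G : Gr n) : Prop :=
  ∀ (K : Type) [Field K] (θ : K) (d : ℕ), d ≤ t → d ≤ gd K (aM G) θ →
    (mB p n).pr (fun s => ∀ z ∈ eg K (aM G) θ, dt (sv 0 1 s) z = 0) ≤ 11 / 10 * (1 / 2) ^ d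

/-- Small Fourier coefficients of a linear form. -/
def LINp (p : unitInterval) (t : ℕ) {n : ℕ} (y : Vc n) (G : Gr n) : Prop :=
  ∀ (R : Type) [CommRing R] [Fintype R] (ev : ℤ[X] →+* R), Function.Surjective ev →
    Fintype.card R ≤ 2 ^ t → ∀ ψ : AddChar R ℂ,
      ((∃ i, ψ (ev (aw (aM G) y i)) ≠ 1) ∨ ∃ r, ψ (ev (ph G) * r) ≠ 1) →
      ‖(mB p n).exc fun s => ψ (ev (bf (aM G) (sv 0 1 s) y))‖ ≤ (1 / 2) ^ t ^ 2

/-- Small Fourier coefficients of the quadratic form. -/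
def EQp (p : unitInterval) (t : ℕ) {n : ℕ} (G : Gr n) : Prop :=
  ∀ (R : Type) [CommRing R] [Fintype R] (ev : ℤ[X] →+* R), Function.Surjective ev →
    Fintype.card R ≤ 2 ^ t → ∀ ψ : AddChar R ℂ, (∃ r, ψ (2 * ev (ph G) * r) ≠ 1) →
      ‖(mB p n).exc fun s => ψ (ev (bf (aM G) (sv 0 1 s) (sv 0 1 s)))‖ ≤ (1 / 2) ^ t ^ 2

/-- All good events. -/
def Gd (p : unitInterval) (t : ℕ) {n : ℕ} (G : Gr n) : Prop :=
  ACp p t G ∧ ODp p t G ∧ LINp p t 1 G ∧ (∀ i, LINp p t (Pi.single i 1) G) ∧ EQp p t G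

/-! ### Algebra -/

/-- A rational orthogonal matrix conjugating the graphs. -/
def Cj {n : ℕ} (G H : Gr n) (Q : Matrix (Fin n) (Fin n) ℚ) : Prop :=
  Qᵀ * Q = 1 ∧ (aM G).map (Int.cast : ℤ → ℚ) * Q = Q * (aM H).map (Int.cast : ℤ → ℚ)

/-- A real eigenvector vanishing at `u`. -/
def RealR {n : ℕ} (G : Gr n) (u : Fin n) : Prop :=
  ∃ θ : ℝ, ∃ z ∈ eg ℝ (aM G) θ, z ≠ 0 ∧ z u = 0

/-- An isotropic eigenvector vanishing at `u`. -/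
def IsoR (x : Pt) {n : ℕ} (G : Gr n) (u : Fin n) : Prop :=
  ∃ z ∈ eg (FF x.1) (aM G) x.2, z ≠ 0 ∧ z ⬝ᵥ z = 0 ∧ z u = 0

/-- An isotropic eigenvector. -/
def Iso (x : Pt) {n : ℕ} (G : Gr n) : Prop :=
  ∃ z ∈ eg (FF x.1) (aM G) x.2, z ≠ 0 ∧ z ⬝ᵥ z = 0

/-- An active point of medium size. -/
def Am (x : Pt) {n : ℕ} (G : Gr (n + 1)) : Prop :=
  Iso x G ∧ (aeval x.2 (ph (res G)) ≠ 0 → E2 x (ph G))

/-- A Wronskian. -/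
noncomputable def Wr (f g : ℤ[X]) : ℤ[X] := g * derivative f - derivative g * f

/-- State of the chain at a small point. -/
def Stt (x : Pt) (r c : ℕ) {n : ℕ} (G : Gr n) : Prop :=
  Ord x r (ph G) ∧ (∃ i, Cop x c (ph G) (aw (aM G) (Pi.single i 1) i)) ∧
    Cop x c (ph G) (derivative (ph G))

/-- A finite local quotient of `ℤ[X]` at the point. -/
def Loc (x : Pt) {R : Type} [CommRing R] [Fintype R] (ev : ℤ[X] →+* R) : Prop :=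
  Function.Surjective ev ∧ (∀ u, aeval x.2 u ≠ 0 → IsUnit (ev u)) ∧
    (∀ u, ev u = 0 → aeval x.2 u = 0) ∧
    ∀ a z : R, a ≠ 0 → pr (fun r : R => z + a * r = 0) ≤ 1 / (sz x : ℝ)

/-- No mate through an orthogonal matrix that fixes a unit vector. -/
def Rooted {n : ℕ} (G : Gr n) : Prop :=
  ∀ (H : Gr n) (U : Matrix (Fin n) (Fin n) ℝ) (u : Fin n), Uᵀ * U = 1 →
    (∀ i, U i u = if i = u then 1 else 0) →
    (aM H).map (Int.cast : ℤ → ℝ) = Uᵀ * (aM G).map (Int.cast : ℤ → ℝ) * U → Nonempty (H ≃g G)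

/-! ### Statements: the master lemma -/

def RWalk1 : Prop := ∀ (p : unitInterval) (Γ : Type) [AddCommGroup Γ] (n : ℕ)
  (J : Finset (Fin n)) (w : Fin n → Γ) (b : Γ), (p : ℝ) ≤ 1 / 2 →
  (mB p n).pr (fun a => ∑ j ∈ J, sv 0 1 a j • w j = b) ≤ lk p J w (· = 0)

def RWalk2 : Prop := ∀ (p : unitInterval) (Γ : Type) [AddCommGroup Γ] (n : ℕ)
  (J : Finset (Fin n)) (w : Fin n → Γ),
  0 < lk p J w (· = 0) ∧ (∀ g, lk p J w (· = g) ≤ lk p J w (· = 0)) ∧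
  (∀ g, lk p J w (· = -g) = lk p J w (· = g)) ∧
  (∀ g h, lk p J w (· = 0) - lk p J w (· = g + h) ≤
    2 * (lk p J w (· = 0) - lk p J w (· = g)) + 2 * (lk p J w (· = 0) - lk p J w (· = h))) ∧
  ∀ [Fintype Γ], 1 / (Fintype.card Γ : ℝ) ≤ lk p J w (· = 0)

def RWalk3 : Prop := ∀ (p : unitInterval) (Γ : Type) [AddCommGroup Γ] (n : ℕ)
  (J : Finset (Fin n)) (w : Fin n → Γ),
  (∀ j, j ∉ J → lk p (insert j J) w (· = 0) =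
    (1 - lz p) * lk p J w (· = 0) + lz p * lk p J w (· = w j)) ∧
  (∀ J', J ⊆ J' → lk p J' w (· = 0) ≤ lk p J w (· = 0)) ∧
  ((∀ j ∈ J, w j ≠ 0) → lk p J w (· = 0) ≤ 1 - J.card * lz p * (1 - lz p) ^ (J.card - 1))

def RSel : Prop := ∀ (p : unitInterval) (t : ℕ) (Γ : Type) [AddCommGroup Γ] (n : ℕ)
  (w : Fin n → Γ), (1 / 2 : ℝ) ^ t ≤ lk p univ w (· = 0) →
  ∃ J : Finset (Fin n), (p : ℝ) * J.card ≤ 20000 * t ∧ Sel p t J w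

def RGen : Prop := ∀ (ι κ : Type) [Fintype ι] (D : Finset ι) (T : Finset κ) (v : κ → ι → ℤ)
  (h b : ℕ), (∀ k ∈ T, ∀ i, i ∉ D → v k i = 0) → (∀ k ∈ T, ∀ i, |v k i| ≤ h) →
  D.card * h ≤ 2 ^ b →
  ∃ S ⊆ T, S.card ≤ D.card * (b + 1) ∧ ∀ k ∈ T, v k ∈ AddSubgroup.closure (v '' S)

def RLat : Prop := ∀ (n t K b : ℕ) (J : Finset (Fin n)), 2 * n + 1 ≤ 2 ^ t → n * K ≤ 2 ^ b →
  ∃ F : Finset (AddSubgroup (Vc n)), F.card ≤ 2 ^ ((t * K + 1) * (J.card * (b + 1))) ∧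
    ∀ (Γ : Type) [AddCommGroup Γ] (w : Fin n → Γ), ∃ Λ ∈ F, Cmp J K Λ w

def RTail : Prop := ∀ (p : unitInterval) (n t : ℕ) (J : Finset (Fin n)),
  (p : ℝ) * J.card ≤ 20000 * t →
  (mD (qt p) n).pr (fun ω => ((20000 * t : ℕ) : ℤ) < ∑ j ∈ J, |dv ω j|) ≤ (1 / 2) ^ (4 * t)

def RLift : Prop := ∀ (p : unitInterval) (n K : ℕ) (J : Finset (Fin n)) (Λ : AddSubgroup (Vc n))
  (τ : ℝ), (mD (qt p) n).pr (fun ω => (K : ℤ) < ∑ j ∈ J, |dv ω j|) ≤ τ →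
  (∀ g, τ < lk p J (un Λ) (· = g) → ∃ E, Sh J K E ∧ QuotientAddGroup.mk E = g) ∧
  ∀ (Γ : Type) [AddCommGroup Γ] (w : Fin n → Γ), Cmp J (3 * K) Λ w →
    lk p J (un Λ) (· = 0) ≤ lk p J w (· = 0) ∧ lk p J w (· = 0) - τ ≤ lk p J (un Λ) (· = 0) ∧
    ∀ g, τ < lk p J w (· = g) → ∃ E, Sh J K E ∧ ap E w = g ∧
      lk p J w (· = g) - τ ≤ lk p J (un Λ) (· = QuotientAddGroup.mk E)

open Classical in
def RDich : Prop := ∀ (p : unitInterval) (Γ : Type) [AddCommGroup Γ] (n : ℕ)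
  (J : Finset (Fin n)) (w : Fin n → Γ), (p : ℝ) ≤ 1 / 2 →
  (∀ a, a < 1 → (∀ g, g ∈ Bs p J w a ↔ (1 - a) * lk p J w (· = 0) ≤ lk p J w (· = g)) ∧
    (Bs p J w a).card * ((1 - a) * lk p J w (· = 0)) ≤ 1) ∧
  ((Bs p J w (2 / 10000)).card * lk p J w (· = 0) ≤ 999 / 1000 ∨
    ∃ H : AddSubgroup Γ, (∀ g, g ∈ H ↔ g ∈ Bs p J w (8 / 10000)) ∧
      (p : ℝ) * (J.filter fun j => w j ∉ H).card ≤ 1 / 100)

open Classical in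
def RChar : Prop := ∀ (H : Type) [AddCommGroup H] [Fintype H] (χ : AddChar H ℂ) (g : H),
  χ ≠ 1 → 3 * (univ.filter fun h => 1 / 2 < (χ (h - g)).re).card ≤ 2 * Fintype.card H

open Classical in
def RCase : Prop := ∀ (p : unitInterval) (n : ℕ) (G : Gr n) (y : Vc n) (Γ : Type)
  [AddCommGroup Γ] (x : Γ →+ Γ) (c : Γ) (w : Fin n → Γ) (H : AddSubgroup Γ), Finite H →
  (p : ℝ) ≤ 1 / 2 → Exp1 p G → Exp2 p G → Adm p y → Eqn G y x c w →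
  (p : ℝ) * (univ.filter fun i => w i ∉ H).card ≤ 1 / 100 →
  (∃ χ : AddChar H ℂ, χ ≠ 1 ∧ ∃ (N : Finset (Fin n)) (g : ℤ → H), 20 * N.card ≤ n ∧
    ∀ i, i ∉ N → ∃ h : w i ∈ H, χ (⟨w i, h⟩ - g (y i)) = 1) ∨
  ((∀ i, w i ∈ H) ∧ ∀ h ∈ H, x h ∈ H)

def RMenu : Prop := ∃ N : ℕ, ∀ (p : unitInterval) (n t : ℕ) (J : Finset (Fin n))
  (Λ : AddSubgroup (Vc n)), N ≤ t → (p : ℝ) ≤ 1 / 2 → (p : ℝ) * J.card ≤ 20000 * t →
  ∃ M : Finset (Menu n), M.card ≤ 2 ^ (4 * t + 9) ∧ (∀ m ∈ M, m.Ok t J) ∧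
    ∀ (G : Gr n) (y : Vc n) (Γ : Type) [AddCommGroup Γ] (x : Γ →+ Γ) (c : Γ) (w : Fin n → Γ),
      Cmp J (3 * (20000 * t)) Λ w → Exp1 p G → Exp2 p G → Adm p y → Eqn G y x c w →
      Sel p t J w → ¬ Concl p x w →
      ∃ m ∈ M, ∃ N : Finset (Fin n), N.card ≤ m.ν ∧ Rep p J m.g (m.pick y N) w

def RCnt : Prop := ∀ (p : unitInterval) (n t K : ℕ) (J : Finset (Fin n)) (y : Vc n) (g : ℝ)
  (L : Fin n → Finset (Vc n)), (p : ℝ) ≤ 1 / 2 → 2 * n + 1 ≤ 2 ^ t → K ≤ 2 ^ t →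
  (∀ i, |y i| ≤ 1) → (1 / 2 : ℝ) ^ (t + 1) ≤ g → (∀ i, ∀ E ∈ L i, Sh J K E) →
  (mG p n).pr (Fit p y J g L) ≤
    2 ^ ((2 * t + 1) * ((2 * J.card + 1) * (3 * t + 1))) * ∏ i ∈ Jᶜ, g * (L i).card

def RSum : Prop := ∀ (n t : ℕ) (J : Finset (Fin n)) (y : Vc n) (m : Menu n), m.Ok t J →
  ∑ N ∈ univ.filter (fun N : Finset (Fin n) => N.card ≤ m.ν),
    ∏ i ∈ Jᶜ, m.g * (m.pick y N i).card ≤ 2 ^ J.card * (9995 / 10000) ^ n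

def RExp1 : Prop := ∃ N : ℕ, ∀ (p : unitInterval) (n t : ℕ), N ≤ t → Rg p t n →
  (mG p n).pr (fun G => ¬ Exp1 p G) ≤ (1 / 2) ^ t ^ 4

def RExp2 : Prop := ∃ N : ℕ, ∀ (p : unitInterval) (n t : ℕ), N ≤ t → Rg p t n →
  (mG p n).pr (fun G => ¬ Exp2 p G) ≤ (1 / 2) ^ t ^ 4

def RMaster : Prop := ∃ N : ℕ, ∀ (p : unitInterval) (n t : ℕ) (y : Vc n), N ≤ t → Rg p t n →
  Adm p y → (mG p n).pr (fun G => ¬ Good p t y G) ≤ (1 / 2) ^ t ^ 3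

/-! ### Statements: consequences -/

def RAC : Prop := ∀ (p : unitInterval) (n t : ℕ) (G : Gr n), (p : ℝ) ≤ 1 / 2 → Good p t 0 G →
  ACp p t G ∧ ODp p t G

def RLin : Prop := ∃ N : ℕ, ∀ (p : unitInterval) (n t : ℕ) (y : Vc n) (G : Gr n), N ≤ t →
  Rg p t n → (∃ i, y i = 1) → Good p t y G → LINp p t y G

def RDec : Prop := ∀ (p : unitInterval) (Γ : Type) [AddCommGroup Γ] [Fintype Γ]
  (ψ : AddChar Γ ℂ) (n : ℕ) (N : Fin n → Fin n → Γ) (I : Finset (Fin n)),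
  (∀ i j, N i j = N j i) →
  ‖(mB p n).exc fun s => ψ (∑ i, ∑ j, (sv 0 1 s i * sv 0 1 s j) • N i j)‖ ^ 2 ≤
  (mD p n).ex fun ω => ∏ i ∈ Iᶜ,
    ‖1 - ((p : ℝ) : ℂ) + ((p : ℝ) : ℂ) * ψ (∑ j ∈ I, (2 * dv ω j) • N i j)‖

def REQ : Prop := ∃ N : ℕ, ∀ (p : unitInterval) (n t : ℕ), N ≤ t → Rg p t n →
  (mG p n).pr (fun G => ¬ EQp p t G) ≤ (1 / 2) ^ (2 * t ^ 2)

def RGd : Prop := ∃ N : ℕ, ∀ (p : unitInterval) (n t : ℕ), N ≤ t → Rg p t n →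
  (mG p n).pr (fun G => ¬ Gd p t G) ≤ (1 / 2) ^ t ^ 2

def RFI : Prop := ∀ (Ω Γ T : Type) [Fintype Ω] [AddCommGroup Γ] [Fintype Γ] [Fintype T]
  [Nonempty T] (μ : FP Ω) (Z : Ω → Γ) (h : T → Γ) (B : Γ → Prop) (η : ℝ), 0 ≤ η →
  (∀ ψ : AddChar Γ ℂ, (∃ t, ψ (h t) ≠ 1) → ‖μ.exc fun ω => ψ (Z ω)‖ ≤ η) →
  μ.pr (fun ω => B (Z ω)) ≤
    μ.ex (fun ω => pr fun t => B (Z ω + h t)) + 2 * Fintype.card Γ * η

def RPot : Prop := ∀ (p : unitInterval) (g : (j : ℕ) → Gr j → ℕ) (D : (j : ℕ) → Gr j → Prop)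
  (a β : ℝ) (j0 n d : ℕ), 0 < a → a ≤ 1 / 16 → 0 ≤ β → j0 ≤ n →
  2 * (1 / (4 * a)) ^ j0 ≤ 2 ^ (n - j0) →
  (∀ j G, g j G ≤ j) → (∀ j G s, g (j + 1) (bord G s) ≤ g j G + 1) →
  (∀ j, j0 ≤ j → j < n → (mG p j).pr (fun G => ¬ D j G) ≤ β ∧
    ∀ G, D j G → (g j G = 0 → (mB p j).pr (fun s => 1 ≤ g (j + 1) (bord G s)) ≤ a) ∧
      (1 ≤ g j G → (mB p j).pr (fun s => g j G ≤ g (j + 1) (bord G s)) ≤ a)) →
  (mG p n).pr (fun G => d ≤ g n G) ≤ 3 * (4 * a) ^ d + n * β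

def RReg : Prop := ∃ N : ℕ, ∀ (p : unitInterval) (n t j0 k : ℕ) (x : Pt), N ≤ t →
  Prm p n t j0 → 2 * k ≤ n →
  (mG p (n + 1)).pr (fun G => ∀ (j : ℕ) (h : j ≤ n + 1), n + 1 ≤ j + k →
    1 ≤ gd (FF x.1) (aM (rs G j h)) x.2) ≤ 20 * (9 / 10) ^ k + (1 / 2) ^ t

/-! ### Statements: algebra -/

def RQ : Prop := ∀ (n : ℕ) (G H : Gr n) (U : Matrix (Fin n) (Fin n) ℝ) (u : Fin n),
  Uᵀ * U = 1 → (∀ i, U i u = if i = u then 1 else 0) →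
  (aM H).map (Int.cast : ℤ → ℝ) = Uᵀ * (aM G).map (Int.cast : ℤ → ℝ) * U → ¬ RealR G u →
  ∃ Q, Cj G H Q ∧ ∀ i, Q i u = if i = u then 1 else 0

def RJac : Prop :=
  (∀ (n : ℕ) (M : Matrix (Fin n) (Fin n) ℤ) (a b : Fin n → ℤ), M.IsSymm →
    ∃ h : ℤ[X], bf M a b ^ 2 = bf M a a * bf M b b + M.charpoly * h) ∧
  (∀ (n : ℕ) (G : Gr n) (s : Bv n),
    aw (aM (bord G s)) (Pi.single (Fin.last n) 1) (Fin.last n) = ph G) ∧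
  (∀ (n : ℕ) (G : Gr n), ∃ h : ℤ[X], X * derivative (ph G) = C (n : ℤ) * ph G + 2 * h)

def REv : Prop := ∀ (K : Type) [Field K] (n : ℕ) (M : Matrix (Fin n) (Fin n) ℤ) (θ : K),
  M.IsSymm → aeval θ M.charpoly = 0 → aeval θ (derivative M.charpoly) = 0 →
  2 ≤ gd K M θ ∨ ∃ z ∈ eg K M θ, z ≠ 0 ∧ z ⬝ᵥ z = 0

def RInt : Prop := ∀ (n : ℕ) (G H : Gr n) (Q : Matrix (Fin n) (Fin n) ℚ), Cj G H Q →
  Intg (aeval ((aM G).map (Int.cast : ℤ → ℚ)) (derivative (ph G)) * Q)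

def RLev : Prop := ∀ (n : ℕ) (G H : Gr (n + 1)) (Q : Matrix (Fin (n + 1)) (Fin (n + 1)) ℚ)
  (u : Fin (n + 1)), Cj G H Q → (∀ i, Q i u = if i = u then 1 else 0) →
  Intg (aeval ((aM G).map (Int.cast : ℤ → ℚ)) (derivative (ph G)) * Q) →
  ∃ l : ℕ, 0 < l ∧ Intg ((l : ℚ) • Q) ∧
    ∀ (p : Nat.Primes) (c : ℕ), p.1 ^ (c + 1) ∣ l → ∃ θ : FF p, IsoR ⟨p, θ⟩ G u ∧
      Am ⟨p, θ⟩ G ∧ ¬ Cop ⟨p, θ⟩ c (ph G) (derivative (ph G))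

def RDisc : Prop := ∀ (n : ℕ) (G : Gr n), (∀ θ : ℝ, gd ℝ (aM G) θ ≤ 1) →
  ∃ F : Finset Pt, F.card ≤ n ^ 4 ∧ ∀ x : Pt, aeval x.2 (ph G) = 0 →
    aeval x.2 (derivative (ph G)) = 0 → x ∈ F

def RRing : Prop := ∀ x : Pt,
  (∃ (R : Type) (_ : CommRing R) (_ : Fintype R) (ev : ℤ[X] →+* R), Loc x ev ∧
    Fintype.card R ≤ sz x ^ 2 ∧ ∀ u, ev u = 0 ↔ mp x ^ 2 ∣ red x.1.1 u) ∧
  (∃ (R : Type) (_ : CommRing R) (_ : Fintype R) (ev : ℤ[X] →+* R), Loc x ev ∧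
    Fintype.card R ≤ sz x ^ 2 ∧ ∀ u, ev u = 0 ↔ E2 x u) ∧
  ∃ (R : Type) (_ : CommRing R) (_ : Fintype R) (ev : ℤ[X] →+* R), Loc x ev ∧
    Fintype.card R = sz x ^ 3 ∧ ∀ u, E2 x u → mp x ^ 2 ∣ red x.1.1 u → ev u = 0

def RPar : Prop := ∀ N : ℕ, ∃ n0 : ℕ, ∀ n ≥ n0, ∀ p : unitInterval,
  Real.log (n + 1 : ℕ) ^ 8 ≤ ((n + 1 : ℕ) : ℝ) * (p : ℝ) → (p : ℝ) ≤ 1 / 2 →
  ∃ t j0 : ℕ, N ≤ t ∧ Prm p n t j0

def RCore : Prop := ∃ N : ℕ, ∀ (p : unitInterval) (n t : ℕ), N ≤ t → Rg p t n →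
  (mG p n).pr (fun G => ¬ DG.Core G) ≤ (1 / 2) ^ t

def RCoarse : Prop := ∀ l : ℕ, 0 < l → ∀ ε : ℝ, 0 < ε → ∃ N : ℕ, ∀ (p : unitInterval) (n t : ℕ),
  N ≤ t → Rg p t n → (mG p n).pr (fun G => ¬ (DG.Core G ∧
    ∀ H Q, Cj G H Q → Intg ((l : ℚ) • Q) → Nonempty (H ≃g G))) ≤ ε

/-! ### Statements: large and medium points -/

def RLarge : Prop := ∃ N : ℕ, ∀ (p : unitInterval) (n t j0 : ℕ), N ≤ t → Prm p n t j0 →
  (mS p n).pr (fun ω => RealP (aM ω.1) (sv 0 1 ω.2) ∨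
    ∃ x : Pt, 2 ^ t < sz x ∧ IsoP x (aM ω.1) (sv 0 1 ω.2)) ≤ 1 / (n : ℝ) ^ 2

def RRoot : Prop := ∀ ε : ℝ, 0 < ε → ∃ N : ℕ, ∀ (p : unitInterval) (n t j0 : ℕ), N ≤ t →
  Prm p n t j0 → (mG p (n + 1)).pr (fun G => ∃ u, RealR G u ∨
    ∃ x : Pt, 2 ^ t < sz x ∧ IsoR x G u) ≤ ε

def RMq : Prop := ∃ N : ℕ, ∀ (p : unitInterval) (j t : ℕ) (x : Pt) (G : Gr j), N ≤ t →
  Gd p t G → sz x ^ 3 ≤ 2 ^ t → x.1.1 ≠ 2 →
  (aeval x.2 (ph G) ≠ 0 →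
    (mB p j).pr (fun s => aeval x.2 (ph (bord G s)) = 0) ≤ 2 / (sz x : ℝ) ∧
    (mB p j).pr (fun s => mp x ^ 2 ∣ red x.1.1 (ph (bord G s))) ≤ 2 / (sz x : ℝ) ^ 2 ∧
    (mB p j).pr (fun s => E2 x (ph (bord G s)) ∧ mp x ^ 2 ∣ red x.1.1 (ph (bord G s))) ≤
      2 / (sz x : ℝ) ^ 3) ∧
  (aeval x.2 (ph G) = 0 → aeval x.2 (derivative (ph G)) ≠ 0 →
    (mB p j).pr (fun s => mp x ^ 2 ∣ red x.1.1 (ph (bord G s))) ≤
      (mB p j).pr (fun s => aeval x.2 (ph (bord G s)) = 0) / (sz x : ℝ) + 1 / (sz x : ℝ) ^ 3)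

def RXq : Prop := ∃ N : ℕ, ∀ (p : unitInterval) (j t : ℕ) (x : Pt) (G : Gr j), N ≤ t →
  Gd p t G → sz x ^ 3 ≤ 2 ^ t → x.1.1 = 2 → x.2 ≠ 0 → aeval x.2 (ph G) ≠ 0 →
  (mB p j).pr (fun s => aeval x.2 (ph (bord G s)) = 0) ≤ 2 / (sz x : ℝ) ∧
  (mB p j).pr (fun s => E2 x (ph (bord G s))) ≤ 3 / (sz x : ℝ) ^ 2

def RMedA : Prop := ∃ (N : ℕ) (c : ℝ), ∀ (p : unitInterval) (n t j0 m : ℕ) (x : Pt), N ≤ t →
  Prm p n t j0 → x.1.1 ≠ 2 → 32 ≤ sz x → sz x ≤ 2 ^ t → n ≤ m + 2 → m ≤ n + 1 →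
  (∀ d ≤ 3, (mG p m).pr (fun G => d ≤ gd (FF x.1) (aM G) x.2) ≤
    c / (sz x : ℝ) ^ d + (1 / 2) ^ (5 * t)) ∧
  (n ≤ m + 1 → (mG p m).pr (Iso x) ≤ c / (sz x : ℝ) ^ 2 + (1 / 2) ^ (5 * t))

def RMedB : Prop := ∃ (N : ℕ) (c : ℝ), ∀ (p : unitInterval) (n t j0 m : ℕ) (x : Pt), N ≤ t →
  Prm p n t j0 → x.1.1 ≠ 2 → 32 ≤ sz x → sz x ≤ 2 ^ t → n ≤ m → m ≤ n + 1 →
  (mG p m).pr (fun G => 2 ≤ gd (FF x.1) (aM G) x.2) ≤ c / (sz x : ℝ) ^ 3 + (1 / 2) ^ (4 * t)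

def RMed : Prop := ∃ (N : ℕ) (c : ℝ), ∀ (p : unitInterval) (n t j0 : ℕ) (x : Pt), N ≤ t →
  Prm p n t j0 → x.1.1 ≠ 2 → 32 ≤ sz x → sz x ≤ 2 ^ t →
  (mG p (n + 1)).pr (Am x) ≤ c / (sz x : ℝ) ^ 3 + (1 / 2) ^ (3 * t)

def RTwo : Prop := ∃ (N : ℕ) (c : ℝ), ∀ (p : unitInterval) (n t j0 : ℕ) (x : Pt), N ≤ t →
  Prm p n t j0 → x.1.1 = 2 → 32 ≤ sz x → sz x ≤ 2 ^ t →
  (mG p (n + 1)).pr (Am x) ≤ c / (sz x : ℝ) ^ 2 + (1 / 2) ^ (3 * t)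

def RMid : Prop := ∀ ε : ℝ, 0 < ε → ∃ Q0 N : ℕ, ∀ (p : unitInterval) (n t j0 : ℕ), N ≤ t →
  Prm p n t j0 →
  (mG p (n + 1)).pr (fun G => ∃ x : Pt, Q0 < sz x ∧ sz x ≤ 2 ^ t ∧ Am x G) ≤ ε

/-! ### Statements: small points -/

def RVa : Prop := ∀ (x : Pt) (r c : ℕ) (ε : ℝ), 0 < ε → ∃ c2 N : ℕ,
  ∀ (p : unitInterval) (j t : ℕ) (G : Gr j), N ≤ t → Gd p t G → Stt x r c G →
  (mB p j).pr (fun s => ¬ Cop x c2 (ph G) (ph (bord G s))) ≤ ε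

def RVb : Prop := ∀ (x : Pt) (r : ℕ) (ε : ℝ), 0 < ε → ∃ r2 N : ℕ,
  ∀ (p : unitInterval) (j t : ℕ) (G : Gr j), N ≤ t → Gd p t G → Ord x r (ph G) →
  (mB p j).pr (fun s => ¬ Ord x r2 (ph (bord G s))) ≤ ε

def RVc : Prop := ∀ (x : Pt) (r : ℕ) (ε : ℝ), 0 < ε → ∃ r2 N : ℕ,
  ∀ (p : unitInterval) (j t : ℕ) (G : Gr j), N ≤ t → Gd p t G → Ord x r (ph G) →
  (mB p j).pr (fun s => Ord x r (ph (bord G s)) ∧ ¬ Ord x r2 (Wr (ph G) (ph (bord G s)))) ≤ ε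

def RVw : Prop := ∀ (x : Pt) (r c : ℕ) (ε : ℝ), 0 < ε → ∃ c2 N : ℕ,
  ∀ (p : unitInterval) (j t : ℕ) (G : Gr j), N ≤ t → Gd p t G → Stt x r c G →
  (mB p j).pr (fun s => Cop x c (ph G) (ph (bord G s)) ∧ Ord x r (Wr (ph G) (ph (bord G s))) ∧
    ¬ Cop x c2 (ph (bord G s)) (derivative (ph (bord G s)))) ≤ ε

def RSmall : Prop := ∀ (x : Pt) (ε : ℝ), 0 < ε → ∃ c N : ℕ,
  ∀ (p : unitInterval) (n t j0 : ℕ), N ≤ t → Prm p n t j0 →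
  (mG p (n + 1)).pr (fun G => ¬ Cop x c (ph G) (derivative (ph G))) ≤ ε

def RMain : Prop := ∀ ε : ℝ, 0 < ε → ∃ N : ℕ, ∀ (p : unitInterval) (n t j0 : ℕ), N ≤ t →
  Prm p n t j0 → (mG p (n + 1)).pr (fun G => ¬ (DG.Core G ∧ Rooted G)) ≤ ε

end Pool.Agent.P.MP_f57657_co.RS
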