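import Pool.Agent.P.MP_f57657_co.RS.Base
import Pool.Agent.P.MP_f57657_co.DG.Bord
import Pool.Agent.P.MP_f57657_co.DG.Ev
import Pool.Agent.P.MP_f57657_co.DG.Pl
import Pool.Agent.P.MP_f57657_co.DG.Plc
import Pool.Agent.P.MP_f57657_co.DG.Ring
import Pool.Agent.P.MP_f57657_co.DG.Inv
import Pool.Agent.P.MP_f57657_co.DG.PV
import Pool.Agent.P.MP_f57657_co.DG.Soc
import Pool.Agent.P.MP_f57657_co.DG.Jac

/-! The deterministic facts that are reused. -/

namespace Pool.Agent.P.MP_f57657_co.RS

open DG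

theorem dBord : StBord := pBord
theorem dTw : StTw := pTw
theorem dEv : StEv := pEv
theorem dPl : StPl := pPl
theorem dPlc : StPlc := pPlc
theorem dRing : StRing := pRing pPl
theorem dInv : StInv := pInv pPl
theorem dPV : StPV := pPV pPl dInv
theorem dSoc : StSoc := pSoc pPl
theorem dJac : StJac := pJac

end Pool.Agent.P.MP_f57657_co.RS
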