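import Pool.Agent.P.MP_f57657_co.RS.Det

/-! Assembly: tightness of the level gives the theorem. -/

open Matrix Finset Polynomial

namespace Pool.Agent.P.MP_f57657_co.RS

open DG

theorem small_all (hS : RSmall) (Q0 : ℕ) (ε : ℝ) (hε : 0 < ε) :
    ∃ c N : ℕ, ∀ (p : unitInterval) (n t j0 : ℕ), N ≤ t → Prm p n t j0 → (mG p (n + 1)).pr
      (fun G => ∃ x : Pt, sz x ≤ Q0 ∧ ¬ Cop x c (ph G) (derivative (ph G))) ≤ ε := by
  classical
  choose F hF using dPlc.1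
  set T : Finset Pt := (range (Q0 + 1)).biUnion F with hT
  have h1 : 0 < ε / (T.card + 1) := by positivity
  choose c N h using fun x => hS x _ h1
  refine ⟨T.sup c, T.sup N, fun p n t j0 hn hP => ?_⟩
  refine (FP.pr_le_card_mul T
    (fun x (G : Gr (n + 1)) => ¬ Cop x (c x) (ph G) (derivative (ph G)))
    (c := ε / (T.card + 1)) ?_ fun x hx => h x p n t j0 ((le_sup hx).trans hn) hP).trans ?_
  · rintro G ⟨x, hx, hc⟩
    have hm : x ∈ T := mem_biUnion.2 ⟨sz x, mem_range.2 (by omega), (hF _).2 x rfl⟩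
    exact ⟨x, hm, fun h' => hc (h'.mono (le_sup hm))⟩
  · rw [mul_div_assoc', div_le_iff₀ (by positivity)]
    nlinarith

theorem rMain (hQ : RQ) (hInt : RInt) (hLev : RLev) (hCo : RCoarse) (hRoot : RRoot) (hMid : RMid)
    (hS : RSmall) : RMain := by
  intro ε hε
  have h5 : 0 < ε / 4 := by positivity
  obtain ⟨N1, h1⟩ := hRoot _ h5
  obtain ⟨Q0, N2, h2⟩ := hMid _ h5
  obtain ⟨c, N3, h3⟩ := small_all hS Q0 _ h5
  obtain ⟨N4, h4⟩ := hCo (Q0.factorial ^ c) (by positivity) _ h5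
  refine ⟨N1 + N2 + N3 + N4 + 2, fun p n t j0 ht hP => ?_⟩
  have e1 := h1 p n t j0 (by omega) hP
  have e2 := h2 p n t j0 (by omega) hP
  have e3 := h3 p n t j0 (by omega) hP
  have j1 : j0 ≤ n + 1 := by nlinarith [hP.2.2.1]
  have e4 := h4 p (n + 1) (3 * t) (by omega) (hP.rg (by omega) j1 le_rfl)
  refine (FP.pr_le_add (F := _) (F' := fun G => _ ∨ _ ∨ _) fun G hG => ?_).trans
    ((add_le_add e1 ((FP.pr_or _ _).trans (add_le_add e2
      ((FP.pr_or _ _).trans (add_le_add e3 e4))))).trans (by linarith))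
  by_contra hc
  simp only [not_or, not_not, not_exists] at hc
  obtain ⟨c1, c2, c3, c5, c6⟩ := hc
  refine hG ⟨c5, fun H U u a1 a2 a3 => ?_⟩
  obtain ⟨Q, hC, hu⟩ := hQ _ G H U u a1 a2 a3 (c1 u).1
  obtain ⟨l, l0, l1, l2⟩ := hLev n G H Q u hC hu (hInt _ G H Q hC)
  have hd : l ∣ Q0.factorial ^ c := by
    rw [Nat.dvd_iff_prime_pow_dvd_dvd]
    intro q k hq hk
    rcases k with _ | k
    · simp
    obtain ⟨θ, hA, hB, hD⟩ := l2 ⟨q, hq⟩ k hk
    have k1 : sz ⟨⟨q, hq⟩, θ⟩ ≤ Q0 := by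
      by_contra hlt
      by_cases hb : 2 ^ t < sz ⟨⟨q, hq⟩, θ⟩
      · exact (c1 u).2 _ ⟨hb, hA⟩
      · exact c2 _ ⟨not_le.1 hlt, not_lt.1 hb, hB⟩
    have k2 : q ≤ Q0 := by
      refine le_trans ?_ k1
      exact Nat.le_self_pow (by have := (dPl ⟨⟨q, hq⟩, θ⟩).2.2.2.1; omega) q
    have k3 : k + 1 ≤ c := by
      by_contra hlt
      exact c3 _ ⟨k1, fun h' => hD (h'.mono (by omega))⟩
    exact (pow_dvd_pow q k3).trans (pow_dvd_pow_of_dvd (hq.dvd_factorial.2 k2) c)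
  refine c6 H Q hC fun i j => ?_
  obtain ⟨d, hd⟩ := hd
  obtain ⟨z, hz⟩ := l1 i j
  refine ⟨d * z, ?_⟩
  simp only [Matrix.smul_apply, smul_eq_mul] at hz ⊢
  rw [hd]
  push_cast
  rw [← hz]
  ring

end Pool.Agent.P.MP_f57657_co.RS
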