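import Pool.Agent.P.MP_f57657_co.RS.Base
import Pool.Agent.P.MP_f57657_co.DG.PBH

/-! An orthogonal conjugating matrix that fixes a controllable vertex is rational. -/

open Matrix Finset Polynomial

namespace Pool.Agent.P.MP_f57657_co.RS

open DG

namespace QAux

variable {n : ℕ}

/-- The walk matrix of a vertex. -/
noncomputable def wu (G : Gr n) (u : Fin n) : Matrix (Fin n) (Fin n) ℚ :=
  Matrix.of fun i k => ((aM G).map (Int.cast : ℤ → ℚ) ^ k.val) i u

theorem cast_mul (M N : Matrix (Fin n) (Fin n) ℚ) : (M * N).map (Rat.cast : ℚ → ℝ) =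
    M.map (Rat.cast : ℚ → ℝ) * N.map (Rat.cast : ℚ → ℝ) :=
  Matrix.map_mul (f := Rat.castHom ℝ)

theorem cast_cast (M : Matrix (Fin n) (Fin n) ℤ) :
    (M.map (Int.cast : ℤ → ℚ)).map (Rat.cast : ℚ → ℝ) = M.map (Int.cast : ℤ → ℝ) := by
  ext i j
  simp

theorem cast_inj {M N : Matrix (Fin n) (Fin n) ℚ}
    (h : M.map (Rat.cast : ℚ → ℝ) = N.map (Rat.cast : ℚ → ℝ)) : M = N := by
  ext i j
  exact Rat.cast_injective (α := ℝ) (congrFun (congrFun h i) j)

theorem wu_cast (G : Gr n) (u i k : Fin n) :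
    (wu G u).map (Rat.cast : ℚ → ℝ) i k = ((aM G).map (Int.cast : ℤ → ℝ) ^ k.val) i u := by
  have e := map_pow (Rat.castHom ℝ).mapMatrix ((aM G).map (Int.cast : ℤ → ℚ)) k.val
  have e2 : (Rat.castHom ℝ).mapMatrix ((aM G).map (Int.cast : ℤ → ℚ)) =
      (aM G).map (Int.cast : ℤ → ℝ) := cast_cast _
  rw [e2] at e
  rw [← e]
  rfl

theorem det_ne (G : Gr n) (u : Fin n) (hR : ¬ RealR G u) :
    ((wu G u).map (Rat.cast : ℚ → ℝ)).det ≠ 0 := by
  intro hW
  apply hR
  obtain ⟨y, hy, hyW⟩ := Matrix.exists_vecMul_eq_zero_iff.2 hW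
  have hS : ((aM G).map (Int.cast : ℤ → ℝ)).IsSymm := (gm_symm 0 1 G).map _
  have h1 : ∀ k : Fin n,
      y ⬝ᵥ (((aM G).map (Int.cast : ℤ → ℝ) ^ k.val) *ᵥ (Pi.single u 1 : Fin n → ℝ)) = 0 := by
    intro k
    have := congrFun hyW k
    simp only [vecMul, dotProduct, wu_cast, Pi.zero_apply] at this
    simpa [dotProduct] using this
  obtain ⟨θ, z, hz, hz0, hzu⟩ :=
    PBHAux.eig _ hS y _ hy (PBHAux.all_pow _ y _ u.pos h1)
  exact ⟨θ, z, mem_eg'.2 hz, hz0, by simpa using hzu⟩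

end QAux

open QAux in
theorem rQ : RQ := by
  intro n G H U u hU hu hH hR
  have hU' : U * Uᵀ = 1 := mul_eq_one_comm.1 hU
  have hA : (aM G).map (Int.cast : ℤ → ℝ) * U = U * (aM H).map (Int.cast : ℤ → ℝ) := by
    rw [hH, ← mul_assoc, ← mul_assoc, hU', one_mul]
  have hk : ∀ k : ℕ, (aM G).map (Int.cast : ℤ → ℝ) ^ k * U =
      U * (aM H).map (Int.cast : ℤ → ℝ) ^ k := fun k =>
    (SemiconjBy.pow_right (a := U) hA.symm k).symm
  have hW : (wu G u).map (Rat.cast : ℚ → ℝ) = U * (wu H u).map (Rat.cast : ℚ → ℝ) := by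
    ext i k
    have := congrFun (congrFun (hk k.val) i) u
    rw [mul_apply, mul_apply] at this
    simp only [hu, mul_ite, mul_one, mul_zero, sum_ite_eq', mem_univ, if_true] at this
    rw [wu_cast, this, mul_apply]
    simp only [wu_cast]
  have hd : ((wu H u).map (Rat.cast : ℚ → ℝ)).det ≠ 0 := by
    intro e
    refine det_ne G u hR ?_
    rw [hW, det_mul, e, mul_zero]
  have hd' : IsUnit (wu H u).det := by
    refine isUnit_iff_ne_zero.2 fun e => hd ?_
    have := (Rat.castHom ℝ).map_det (wu H u)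
    rw [e, map_zero] at this
    exact this.symm
  have hQ : (wu G u * (wu H u)⁻¹).map (Rat.cast : ℚ → ℝ) = U := by
    rw [cast_mul, hW, mul_assoc, ← cast_mul, mul_nonsing_inv _ hd',
      Matrix.map_one _ Rat.cast_zero Rat.cast_one, mul_one]
  refine ⟨wu G u * (wu H u)⁻¹, ⟨cast_inj ?_, cast_inj ?_⟩, fun i => ?_⟩
  · rw [cast_mul, transpose_map, hQ, hU, Matrix.map_one _ Rat.cast_zero Rat.cast_one]
  · rw [cast_mul, cast_mul _ ((aM H).map _), hQ, QAux.cast_cast, QAux.cast_cast, hA]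
  · apply Rat.cast_injective (α := ℝ)
    have := congrFun (congrFun hQ i) u
    rw [map_apply] at this
    rw [this, hu]
    split_ifs <;> simp

end Pool.Agent.P.MP_f57657_co.RS
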