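import Pool.Agent.P.MP_f57657_co.RS.Det

/-! One step at a point of characteristic two. -/

open Matrix Finset Polynomial

namespace Pool.Agent.P.MP_f57657_co.RS

open DG

namespace XqAux

theorem two_eq (x : Pt) (h : x.1.1 = 2) : (2 : FF x.1) = 0 := by
  exact_mod_cast (CharP.cast_eq_zero_iff (FF x.1) x.1.1 2).2 (h ▸ dvd_rfl)

theorem not_E2 (x : Pt) (h : x.1.1 = 2) : ¬ E2 x 2 := by
  obtain ⟨m1, -, m3, m4, -⟩ := dPl x
  intro e
  obtain ⟨a, b, e⟩ := Ideal.mem_span_pair.1 e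
  have m := m1.map (Int.castRingHom (ZMod 4))
  have e2 := congrArg (Polynomial.map (Int.castRingHom (ZMod 4))) e
  have e3 : (Int.castRingHom (ZMod 4)) (((x.1.1 : ℕ) : ℤ) ^ 2) = 0 := by rw [h]; decide
  have e4 : (2 : ℤ[X]) = C 2 := rfl
  rw [Polynomial.map_add, Polynomial.map_mul, Polynomial.map_mul, map_C, e3, C_0, mul_zero,
    zero_add, e4, map_C] at e2
  refine m.not_dvd_of_natDegree_lt (q := C ((Int.castRingHom (ZMod 4)) 2))
    (C_ne_zero.2 (by decide)) ?_ ⟨_, by rw [← e2, mul_comm]⟩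
  have : Nontrivial (ZMod 4) := ⟨0, 1, by decide⟩
  rw [natDegree_C, m1.natDegree_map, m3]
  exact m4

theorem pr_unit {R : Type} [CommRing R] [Fintype R] {a : R} (ha : IsUnit a) (z : R) :
    pr (fun r : R => z + a * r = 0) ≤ 1 / (Fintype.card R : ℝ) := by
  classical
  rw [pr_eq_card]
  refine div_le_div_of_nonneg_right ?_ (Nat.cast_nonneg _)
  refine Nat.cast_le_one.2 (card_le_one.2 fun r hr r' hr' => ?_)
  simp only [mem_filter, mem_univ, true_and] at hr hr'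
  exact ha.mul_left_cancel (add_left_cancel (hr.trans hr'.symm))

theorem exc_shift {Ω R : Type} [Fintype Ω] [CommRing R] [Fintype R] (μ : FP Ω) (ψ : AddChar R ℂ)
    (a : R) (Z : Ω → R) : ‖μ.exc fun ω => ψ (a + Z ω)‖ = ‖μ.exc fun ω => ψ (Z ω)‖ := by
  simp only [AddChar.map_add_eq_mul]
  rw [FP.exc_mul, norm_mul, AddChar.norm_apply, one_mul]

theorem small {q t : ℕ} (h0 : 1 ≤ q) (hq : q ^ 3 ≤ 2 ^ t) (ht : 3 ≤ t) :
    2 * (q : ℝ) ^ 4 * (1 / 2) ^ t ^ 2 ≤ 1 := by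
  have h1 : 2 * q ^ 4 ≤ 2 ^ t ^ 2 :=
    calc 2 * q ^ 4 ≤ 2 * (q ^ 3) ^ 2 := by
          rw [← pow_mul]; exact Nat.mul_le_mul_left _ (Nat.pow_le_pow_right h0 (by norm_num))
      _ ≤ 2 * (2 ^ t) ^ 2 := by gcongr
      _ = 2 ^ (t * 2 + 1) := by rw [← pow_mul, pow_succ']
      _ ≤ _ := Nat.pow_le_pow_right (by norm_num) (by nlinarith)
  rw [one_div, inv_pow, ← div_eq_mul_inv, div_le_one (by positivity)]
  exact_mod_cast h1

end XqAux

open XqAux in
theorem rXq (hFI : RFI) (hRing : RRing) : RXq := by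
  refine ⟨3, fun p j t x G ht hG hq hp h0 hph => ?_⟩
  obtain ⟨-, -, hL, -, hE⟩ := hG
  have h2 := two_eq x hp
  have q1 : 1 ≤ sz x := Nat.one_le_pow _ _ x.1.2.pos
  have q1' : (1 : ℝ) ≤ sz x := by exact_mod_cast q1
  have hs := small q1 hq ht
  obtain ⟨η, hη⟩ : ∃ η : ℝ, η = (1 / 2) ^ t ^ 2 := ⟨_, rfl⟩
  have η0 : 0 ≤ η := by rw [hη]; positivity
  rw [← hη] at hs
  have two : aeval x.2 (2 : ℤ[X]) = 0 := by rw [map_ofNat, h2]
  have first : (mB p j).pr (fun s => aeval x.2 (ph (bord G s)) = 0) ≤ 2 / (sz x : ℝ) := by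
    obtain ⟨R, _, _, ev, l1, l2, l3, l4⟩ := (dRing x).1 1 le_rfl
    rw [pow_one] at l2
    have hc : Fintype.card R ≤ 2 ^ t :=
      l2 ▸ (Nat.le_self_pow (by norm_num) _).trans hq
    have h := hFI (Bv j) R R (mB p j) (fun s => ev (ph G) + ev (yy G s)) (fun r => ev (ph G) * r)
      (· = 0) η η0 fun ψ hψ => by
        rw [exc_shift, hη]
        exact hL R ev l1.1 hc ψ (Or.inr hψ)
    refine (FP.pr_mono fun s e => ?_).trans (h.trans ?_)
    · obtain ⟨g, hg⟩ := dJac.2.2.2 j G s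
      have e1 := congrArg (aeval x.2) hg
      rw [map_mul, e, mul_zero, map_add, map_mul, map_mul, two, zero_mul, add_zero, aeval_X,
        map_pow] at e1
      have e2 := pow_eq_zero_iff two_ne_zero |>.1 ((mul_eq_zero.1 e1.symm).resolve_left h0)
      rw [← map_add]
      exact l4 _ (by rw [pow_one]; exact ((dPl x).2.2.2.2.2.2.1 _).1 e2)
    · have a := FP.ex_le_const (μ := mB p j) fun s =>
        pr_unit (l3 _ hph) (ev (ph G) + ev (yy G s))
      rw [l2] at a ⊢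
      have b : 2 * (sz x : ℝ) * η ≤ 1 / sz x := by
        rw [le_div_iff₀ (by linarith)]
        refine le_trans ?_ hs
        have : (sz x : ℝ) ^ 2 ≤ (sz x : ℝ) ^ 4 := pow_le_pow_right₀ q1' (by norm_num)
        nlinarith
      rw [show 2 / (sz x : ℝ) = 1 / sz x + 1 / sz x by ring]
      exact add_le_add a b
  refine ⟨first, ?_⟩
  obtain ⟨R, _, _, ev, ⟨l1, l2, l3, l4⟩, l5, l6⟩ := (hRing x).2.1
  have hc : Fintype.card R ≤ 2 ^ t :=
    l5.trans ((Nat.pow_le_pow_right q1 (by norm_num)).trans hq)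
  have hne : 2 * ev (ph G) ≠ 0 := fun e => not_E2 x hp ((l6 2).1 (by
    rw [map_ofNat]; exact (l2 _ hph).mul_left_eq_zero.1 e))
  have h := hFI (Bv j) R R (mB p j) (fun s => ev (ph (bord G s))) (fun r => 2 * ev (ph G) * r)
    (· = 0) η η0 fun ψ ⟨r, hr⟩ => by
      have e : ∀ s : Bv j, ev (ph (bord G s)) =
          ev (X * ph G) + -ev (bf (aM G) (sv 0 1 s) (sv 0 1 s)) := fun s => by
        rw [← sub_eq_add_neg, ← map_sub]; exact congrArg ev (dJac.1 0 1 j G s)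
      simp only [e]
      rw [exc_shift, hη]
      simp only [← AddChar.inv_apply]
      exact hE R ev l1 hc ψ⁻¹ ⟨-r, by rwa [AddChar.inv_apply, mul_neg, neg_neg]⟩
  refine (FP.pr_mono fun s e => (l6 _).2 e).trans (h.trans ?_)
  have a : (mB p j).ex (fun s => pr fun r : R => ev (ph (bord G s)) + 2 * ev (ph G) * r = 0) ≤
      1 / (sz x : ℝ) * (mB p j).pr (fun s => aeval x.2 (ph (bord G s)) = 0) := by
    rw [FP.pr, ← FP.ex_mul]
    refine FP.ex_mono fun s => ?_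
    split_ifs with c
    · rw [mul_one]; exact l4 _ _ hne
    · rw [mul_zero]
      refine (pr_false fun r e => c ?_).le
      obtain ⟨u, rfl⟩ := l1 r
      have := l3 (ph (bord G s) + 2 * ph G * u) (by
        rw [map_add, map_mul, map_mul, map_ofNat]; exact e)
      rwa [map_add, map_mul, map_mul, two, zero_mul, zero_mul, add_zero] at this
  have b : 2 * (Fintype.card R : ℝ) * η ≤ 1 / (sz x : ℝ) ^ 2 := by
    have c : (Fintype.card R : ℝ) ≤ (sz x : ℝ) ^ 2 := by exact_mod_cast l5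
    rw [le_div_iff₀ (by positivity)]
    refine le_trans ?_ hs
    have : 0 ≤ η * (sz x : ℝ) ^ 2 := by positivity
    nlinarith
  have c := mul_le_mul_of_nonneg_left first (show 0 ≤ 1 / (sz x : ℝ) by positivity)
  rw [show 3 / (sz x : ℝ) ^ 2 = 1 / sz x * (2 / sz x) + 1 / (sz x : ℝ) ^ 2 by ring]
  exact add_le_add (a.trans c) b

end Pool.Agent.P.MP_f57657_co.RS
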